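import Pool.Agent.GL.Full
import Pool.Agent.Helper77.GL.Conn
import Mathlib.Combinatorics.Hall.Basic

/-!
# Locations: orientations, closures, attaching trees
-/

open Set

namespace Gad

open BIC

variable {α V : Type*}

/-- Adjacent in the graph of `S`. -/
def GAdj (S : Set α) (ends : α → Sym2 V) (u v : V) : Prop := ∃ e ∈ S, ends e = s(u, v)

lemma GAdj.symm {S : Set α} {ends : α → Sym2 V} {u v : V} (h : GAdj S ends u v) :
    GAdj S ends v u := by
  obtain ⟨e, h1, h2⟩ := h
  exact ⟨e, h1, by rw [h2, Sym2.eq_swap]⟩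

/-- Connected vertex sets. -/
def VConn (S : Set α) (ends : α → Sym2 V) (A : Set V) : Prop :=
  ∀ u ∈ A, ∀ v ∈ A, Relation.ReflTransGen (fun x y => GAdj S ends x y ∧ x ∈ A ∧ y ∈ A) u v

/-- Independent sets can be oriented (Hall). -/
lemma bic_orient {M : Matroid α} {S : Set α} {ends : α → Sym2 V} (hB : Bic M S ends) {J : Set α}
    (hJS : J ⊆ S) (hJ : M.Indep J) :
    ∃ φ : J → V, Function.Injective φ ∧ ∀ e : J, φ e ∈ ends e := by
  classical
  have h := (Finset.all_card_le_biUnion_card_iff_exists_injective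
    (fun e : J => (ends e).toFinset)).1 ?_
  · obtain ⟨f, hf, hf'⟩ := h
    exact ⟨f, hf, fun e => Sym2.mem_toFinset.1 (hf' e)⟩
  · intro s
    set W : Finset V := s.biUnion (fun e : J => (ends e).toFinset) with hW
    set I : Set α := Subtype.val '' (s : Set J) with hI
    have hIJ : I ⊆ J := by
      rintro _ ⟨e, _, rfl⟩
      exact e.2
    have h1 : I ⊆ ins S ends (W : Set V) := by
      rintro _ ⟨e, he, rfl⟩
      refine ⟨hJS e.2, fun v hv => ?_⟩
      exact Finset.mem_coe.2 (Finset.mem_biUnion.2 ⟨e, he, Sym2.mem_toFinset.2 hv⟩)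
    have h2 : I.encard ≤ (W : Set V).encard := by
      rw [← (hJ.subset hIJ).eRk_eq_encard]
      exact (M.eRk_mono h1).trans (hB.rk _)
    rw [hI, Subtype.val_injective.encard_image, Set.encard_coe_eq_coe_finsetCard,
      Set.encard_coe_eq_coe_finsetCard] at h2
    exact_mod_cast h2

/-- An element of `S` at `w` does not lie in `Hx w`. -/
lemma not_mem_Hx' {M : Matroid α} {S : Set α} {ends : α → Sym2 V} (hB : Bic M S ends)
    {w : V} {e : α} (he : e ∈ S) (hwe : w ∈ ends e) : e ∉ Hx M S ends w := by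
  classical
  intro hcl
  obtain ⟨J, hJ⟩ := M.exists_isBasis (ins S ends {w}ᶜ) (fun f hf => hB.sub hf.1)
  have heJ : e ∉ J := fun h => (hJ.subset h).2 w hwe rfl
  obtain ⟨φ, hφ, hφe⟩ := bic_orient hB (fun f hf => (hJ.subset hf).1) hJ.indep
  have hind : M.Indep (insert e J) := by
    refine hB.ind _ (fun f => if h : f ∈ J then φ ⟨f, h⟩ else w) ?_ ?_ ?_
    · exact insert_subset he (fun f hf => (hJ.subset hf).1)
    · have hne : ∀ f (hf : f ∈ J), φ ⟨f, hf⟩ ≠ w := by
        intro f hf hw
        have h1 := hφe ⟨f, hf⟩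
        rw [hw] at h1
        exact (hJ.subset hf).2 w h1 rfl
      rintro a (rfl | ha) c (rfl | hc) hac
      · rfl
      · simp only [heJ, hc, dif_pos, dif_neg, not_false_iff] at hac
        exact absurd hac.symm (hne c hc)
      · simp only [heJ, ha, dif_pos, dif_neg, not_false_iff] at hac
        exact absurd hac (hne a ha)
      · simp only [ha, hc, dif_pos] at hac
        exact congrArg Subtype.val (hφ hac)
    · rintro f (rfl | hf)
      · simp only [heJ, dif_neg, not_false_iff]; exact hwe
      · simp only [hf, dif_pos]; exact hφe ⟨f, hf⟩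
  have h1 : e ∈ M.closure J := by
    rw [hJ.closure_eq_closure]; exact hcl
  exact (hJ.indep.notMem_closure_iff_of_notMem heJ (hB.sub he)).2 hind h1

lemma FullB.insert {S : Set α} {ends : α → Sym2 V} {U : Set V} {F : Set α}
    (h : FullB S ends U F) {x y : V} (hx : x ∈ U) (hy : y ∉ U) {f : α} (hf : f ∈ S)
    (hfe : ends f = s(x, y)) : FullB S ends (insert y U) (insert f F) := by
  classical
  obtain ⟨h1, φ, h2, h3⟩ := h
  have hfF : f ∉ F := fun hh => hy ((h1 hh).2 y (by rw [hfe]; simp))
  have hup : ∀ e ∈ F, Function.update φ f y e = φ e := by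
    intro e he
    refine Function.update_of_ne ?_ _ _
    rintro rfl
    exact hfF he
  refine ⟨insert_subset ⟨hf, ?_⟩ (h1.trans (ins_mono (subset_insert _ _))),
    Function.update φ f y, ⟨?_, ?_, ?_⟩, ?_⟩
  · intro v hv
    rw [hfe] at hv
    rcases Sym2.mem_iff.1 hv with rfl | rfl
    · exact Or.inr hx
    · exact Or.inl rfl
  · rintro e (rfl | he)
    · rw [Function.update_self]; exact Or.inl rfl
    · rw [hup e he]; exact Or.inr (h2.mapsTo he)
  · rintro e (rfl | he) e' (rfl | he') hee
    · rfl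
    · rw [Function.update_self, hup e' he'] at hee
      exact absurd (by rw [hee]; exact h2.mapsTo he') hy
    · rw [Function.update_self, hup e he] at hee
      exact absurd (by rw [← hee]; exact h2.mapsTo he) hy
    · rw [hup e he, hup e' he'] at hee
      exact h2.injOn he he' hee
  · rintro w (rfl | hw)
    · exact ⟨f, Or.inl rfl, by rw [Function.update_self]⟩
    · obtain ⟨e, he, rfl⟩ := h2.surjOn hw
      exact ⟨e, Or.inr he, hup e he⟩
  · rintro e (rfl | he)
    · rw [Function.update_self, hfe]; simp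
    · rw [hup e he]; exact h3 e he

/-- **Location calculus.** -/
theorem loc_closure {M : Matroid α} {S : Set α} {ends : α → Sym2 V} (hB : Bic M S ends)
    {A : Set V} (hAf : A.Finite) (hSA : ∀ e ∈ S, ∀ v ∈ ends e, v ∈ A) (hA : VConn S ends A)
    {z : α} (hz : z ∈ M.closure S) :
    ∀ (n : ℕ) (U : Set V) (F : Set α), (A \ U).ncard = n → U ⊆ A → U.Nonempty →
      FullB S ends U F → (∀ v ∈ A, v ∉ U → z ∈ Hx M S ends v) → z ∈ M.closure (ins S ends U) := by
  intro n
  induction n with
  | zero =>
    intro U F hn hUA hne hF hloc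
    have h0 : A \ U = ∅ := (ncard_eq_zero (hAf.subset sdiff_subset)).1 hn
    have h1 : S ⊆ ins S ends U := by
      intro e he
      refine ⟨he, fun v hv => ?_⟩
      by_contra hcon
      have : v ∈ A \ U := ⟨hSA e he v hv, hcon⟩
      rw [h0] at this
      exact this
    exact M.closure_subset_closure h1 hz
  | succ n ih =>
    intro U F hn hUA hne hF hloc
    have hne' : (A \ U).Nonempty := by
      rw [← ncard_pos (hAf.subset sdiff_subset)]; omega
    obtain ⟨b, hbA, hbU⟩ := hne'
    obtain ⟨a, haU⟩ := hne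
    obtain ⟨x, hx, y, hy, ⟨f, hf, hfe⟩, hxA, hyA⟩ := exit (hA a (hUA haU) b hbA) haU hbU
    have hF' := hF.insert hx hy hf hfe
    have hn' : (A \ insert y U).ncard = n := by
      have e1 : A \ insert y U = (A \ U) \ {y} := by
        ext v
        simp only [mem_sdiff, mem_insert_iff, mem_singleton_iff]
        tauto
      have hyAU : y ∈ A \ U := ⟨hyA, hy⟩
      rw [e1, ncard_sdiff_singleton_of_mem hyAU]
      omega
    have h1 := ih (insert y U) (insert f F) hn' (insert_subset hyA hUA) ⟨a, Or.inr haU⟩ hF'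
      (fun v hv hvU => hloc v hv (fun hh => hvU (Or.inr hh)))
    rw [← hF'.closure hB (hAf.subset (insert_subset hyA hUA))] at h1
    rw [← hF.closure hB (hAf.subset hUA)]
    by_contra hcon
    have h2 : f ∈ M.closure (insert z F) := (M.closure_exchange ⟨h1, hcon⟩).1
    have h3 : insert z F ⊆ Hx M S ends y := by
      refine insert_subset (hloc y hyA hy) ?_
      intro g hg
      have h4 := hF.1 hg
      refine M.mem_closure_of_mem' (X := ins S ends {y}ᶜ) ⟨h4.1, ?_⟩ (hB.sub h4.1)
      intro v hv hvy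
      rw [mem_singleton_iff] at hvy
      subst hvy
      exact hy (h4.2 v hv)
    have h4 := M.closure_subset_closure h3 h2
    rw [Hx, M.closure_closure] at h4
    exact not_mem_Hx' hB hf (by rw [hfe]; simp) h4

/-- Attaching a set of vertices to a tree cluster. -/
theorem attach {S : Set α} {ends : α → Sym2 V} {W : Set V} (D : Finset V)
    (hreach : ∀ v ∈ D, ∃ w ∈ W, Relation.ReflTransGen
      (fun x y => GAdj S ends x y ∧ x ∈ W ∪ (D : Set V) ∧ y ∈ W ∪ (D : Set V)) w v)
    (hd : Disjoint W (D : Set V)) :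
    ∃ E : Set α, E ⊆ ins S ends (W ∪ (D : Set V)) ∧ Disjoint E (ins S ends W) ∧
      ∀ τ, Arb S ends W τ → Arb S ends (W ∪ (D : Set V)) (τ ∪ E) := by
  classical
  set P : Finset V → Prop := fun D' => ∃ E : Set α, E ⊆ ins S ends (W ∪ (D' : Set V)) ∧
    Disjoint E (ins S ends W) ∧
      ∀ τ, Arb S ends W τ → Arb S ends (W ∪ (D' : Set V)) (τ ∪ E) with hP
  set 𝓕 : Finset (Finset V) := D.powerset.filter P with h𝓕
  have hne : 𝓕.Nonempty := by
    refine ⟨∅, Finset.mem_filter.2 ⟨Finset.empty_mem_powerset _, ∅, empty_subset _,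
      disjoint_bot_left, fun τ hτ => ?_⟩⟩
    simpa using hτ
  obtain ⟨D', hD', hmax⟩ := Finset.exists_max_image 𝓕 Finset.card hne
  obtain ⟨hD'D, E, hE1, hE2, hE3⟩ := Finset.mem_filter.1 hD'
  rw [Finset.mem_powerset] at hD'D
  by_cases hDD : D' = D
  · rw [← hDD]; exact ⟨E, hE1, hE2, hE3⟩
  · exfalso
    obtain ⟨v, hvD, hvD'⟩ : ∃ v ∈ D, v ∉ D' := by
      by_contra hcon
      push Not at hcon
      exact hDD (Finset.Subset.antisymm hD'D hcon)
    obtain ⟨w, hw, hwv⟩ := hreach v hvD
    have hvW : v ∉ W := fun h => Set.disjoint_left.1 hd h (Finset.mem_coe.2 hvD)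
    obtain ⟨x, hx, y, hy, ⟨f, hf, hfe⟩, hxA, hyA⟩ := exit (R := W ∪ (D' : Set V)) hwv (Or.inl hw)
      (fun h => h.elim hvW (fun h => hvD' (Finset.mem_coe.1 h)))
    have hyW : y ∉ W := fun h => hy (Or.inl h)
    have hyD' : y ∉ D' := fun h => hy (Or.inr (Finset.mem_coe.2 h))
    have hyD : y ∈ D := by
      rcases hyA with h | h
      · exact absurd h hyW
      · exact Finset.mem_coe.1 h
    have hcoe : W ∪ ((insert y D' : Finset V) : Set V) = (W ∪ (D' : Set V)) ∪ {y} := by
      rw [Finset.coe_insert]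
      ext v
      simp only [mem_union, mem_insert_iff, mem_singleton_iff]
      tauto
    have h1 : insert y D' ∈ 𝓕 := by
      refine Finset.mem_filter.2 ⟨Finset.mem_powerset.2 (Finset.insert_subset hyD hD'D),
        insert f E, ?_, ?_, ?_⟩
      · rw [hcoe]
        refine insert_subset ⟨hf, ?_⟩ (hE1.trans (ins_mono subset_union_left))
        intro v hv
        rw [hfe] at hv
        rcases Sym2.mem_iff.1 hv with rfl | rfl
        · exact Or.inl hx
        · exact Or.inr rfl
      · rw [Set.disjoint_insert_left]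
        refine ⟨fun h => hyW (h.2 y (by rw [hfe]; simp)), hE2⟩
      · intro τ hτ
        have h2 := Arb.join (W₂ := {y}) (τ₂ := ∅) (by
          rw [Set.disjoint_singleton_right]; exact hy) (hE3 τ hτ) (Arb.single y) hf hfe hx rfl
        rw [hcoe]
        have e1 : τ ∪ insert f E = insert f (τ ∪ E ∪ ∅) := by
          rw [union_empty, union_insert]
        rw [e1]
        exact h2
    have h5 := hmax _ h1
    rw [Finset.card_insert_of_notMem hyD'] at h5
    omega

end Gad
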