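import Pool.Agent.Helper77.GL.Lanes
import Pool.Agent.Helper34.BIC.Net

/-!
# Lanes passing below and above terminal cells (geometry of forms A and C)
-/

open Set

namespace Gad

open BIC.Net

/-- Lanes around terminal cells.  `P s j` is the position (in a strip with index `j`) of the lane
which passes directly below the terminal cell `s`; the next position passes directly above. -/
theorem lanesP {T : Type*} [Fintype T] {K N m : ℕ} (hK : 1 ≤ K) (hmT : Fintype.card T ≤ m)
    (cx cy : T → ℕ) (P : T → ℕ → ℕ) (hP : ∀ s j, P s j < K) (hN : 2 * ht K m ≤ N)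
    (hm : ∀ s, far K m 4 ≤ cx s ∧ far K m 4 ≤ cy s ∧
      cx s + far K m 4 ≤ N ∧ cy s + far K m 4 ≤ N)
    (hfar : ∀ s s', s ≠ s' → cx s + far K m 4 ≤ cx s' ∨
      cx s' + far K m 4 ≤ cx s ∨ cy s + far K m 4 ≤ cy s' ∨
      cy s' + far K m 4 ≤ cy s) :
    ∃ L : ℕ → Set (ℕ × ℕ), (∀ i < K, Conn (L i)) ∧
      (∀ i < K, ∀ c ∈ L i, c.1 < N ∧ c.2 < N) ∧
      (∀ i < K, ∀ i' < K, i ≠ i' → Disjoint (L i) (L i')) ∧
      (∀ s, ∀ i < K, (cx s, cy s) ∉ L i) ∧
      ∀ s, ∃ j, (∀ i < K, pos K j i = P s j → (cx s, cy s - 1) ∈ L i) ∧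
        (∀ i < K, pos K j i = P s j + 1 → (cx s, cy s + 1) ∈ L i) := by
  classical
  set B := ht K m with hB
  have hB4 : B = 4 * K * m + 4 * K := by rw [hB]; unfold ht; ring
  have hBpos : 0 < B := by
    have : 0 ≤ 4 * K * m := Nat.zero_le _
    omega
  -- a free zone
  obtain ⟨z, hzm, hz⟩ : ∃ z ≤ m, ∀ s, (cy s % B) / (4 * K) ≠ z := by
    by_contra hcon
    push Not at hcon
    have h1 : (Finset.range (m + 1)) ⊆ Finset.univ.image (fun s => (cy s % B) / (4 * K)) := by
      intro z hz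
      obtain ⟨s, hs⟩ := hcon z (by
        have := Finset.mem_range.1 hz
        omega)
      exact Finset.mem_image.2 ⟨s, Finset.mem_univ _, hs⟩
    have h2 := Finset.card_le_card h1
    have h3 : (Finset.univ.image (fun s => (cy s % B) / (4 * K))).card ≤ m :=
      Finset.card_image_le.trans hmT
    rw [Finset.card_range] at h2
    omega
  have hz4 : 4 * K * z ≤ 4 * K * m := Nat.mul_le_mul_left _ hzm
  set b₀ := 4 * K * z + 2 * K with hb₀
  have hb₀B : b₀ < B := by omega
  have hDB : far K m 4 = B + K + 4 + 1 := by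
    unfold far
    rw [hB]
  -- the strip and the height in the strip
  have hv : ∀ s, 2 * K ≤ (cy s - b₀) % B ∧ (cy s - b₀) % B + 2 * K < B + 1 := by
    intro s
    have hcy := (hm s).2.1
    have h1 : cy s = B * (cy s / B) + cy s % B := (Nat.div_add_mod _ _).symm
    have h2 := Nat.mod_lt (cy s) hBpos
    have h3 := hz s
    set t := cy s % B with ht'
    have h4 : t < 4 * K * z ∨ 4 * K * z + 4 * K ≤ t := by
      by_contra hcon
      push Not at hcon
      apply h3
      rw [Nat.div_eq_iff (by omega)]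
      constructor
      · rw [mul_comm]; omega
      · rw [mul_comm] at *
        omega
    have hq : 1 ≤ cy s / B := by
      rw [Nat.one_le_div_iff hBpos]
      omega
    have hq' : B ≤ B * (cy s / B) := Nat.le_mul_of_pos_right _ hq
    rcases h4 with h4 | h4
    · have h5 : cy s - b₀ = (B + t - b₀) + B * (cy s / B - 1) := by
        have : B * (cy s / B - 1) = B * (cy s / B) - B := by
          rw [Nat.mul_sub, mul_one]
        rw [this]
        omega
      rw [h5, Nat.add_mul_mod_self_left, Nat.mod_eq_of_lt (by omega)]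
      omega
    · have h5 : cy s - b₀ = (t - b₀) + B * (cy s / B) := by omega
      rw [h5, Nat.add_mul_mod_self_left, Nat.mod_eq_of_lt (by omega)]
      omega
  set js : T → ℕ := fun s => (cy s - b₀) / B with hjs
  set w : T → ℕ := fun s => (cy s - b₀) % B - 1 - 2 * P s (js s) with hw
  have hcyeq : ∀ s, cy s = b₀ + B * js s + (cy s - b₀) % B := by
    intro s
    have hcy := (hm s).2.1
    have := Nat.div_add_mod (cy s - b₀) B
    simp only [hjs]
    omega
  have hwle : ∀ s, w s + 2 * K ≤ B := by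
    intro s
    have := hv s
    simp only [hw]
    omega
  have hweq : ∀ s, w s + 2 * P s (js s) + 1 = (cy s - b₀) % B := by
    intro s
    have h1 := hv s
    have h2 := hP s (js s)
    simp only [hw]
    omega
  set u : ℕ → ℕ → ℕ := fun j =>
    tent (Finset.univ.filter (fun s => js s = j)) 4 (fun s => cx s - 2) w with hu
  set X₀ := N - K with hX₀
  have hLip : ∀ j x, u j x ≤ u j (x + 1) + 1 ∧ u j (x + 1) ≤ u j x + 1 := fun j x =>
    tent_lip _ _ _ _ _
  have huB : ∀ j x, u j x + 2 * K ≤ B := by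
    intro j x
    have h1 : u j x ≤ B - 2 * K := by
      refine Finset.sup_le ?_
      intro s _
      have := hwle s
      omega
    omega
  have hl : ∀ j x, x ≤ K → u j x = 0 := by
    intro j x hx
    refine tent_zero ?_
    intro s _
    have h1 := hwle s
    have h2 := (hm s).1
    unfold dst
    omega
  have hr : ∀ j x, X₀ ≤ x → u j x = 0 := by
    intro j x hx
    refine tent_zero ?_
    intro s _
    have h1 := hwle s
    have h2 := (hm s).2.2.1
    unfold dst
    omega
  set J := (N - b₀) / B with hJ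
  have hJ1 : 1 ≤ J := by
    rw [hJ, Nat.one_le_div_iff hBpos]
    omega
  have hJB : b₀ + B * J ≤ N := by
    have := Nat.mul_div_le (N - b₀) B
    rw [← hJ] at this
    omega
  have hKX : K ≤ X₀ := by omega
  have hus : ∀ s x, cx s ≤ x + 2 → x ≤ cx s + 2 → u (js s) x = w s := by
    intro s x hx1 hx2
    have hms := hm s
    have hmem : s ∈ Finset.univ.filter (fun s' => js s' = js s) :=
      Finset.mem_filter.2 ⟨Finset.mem_univ _, rfl⟩
    refine tent_eq hmem (by omega) (by omega) ?_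
    intro s' hs' hne
    have h2 := (Finset.mem_filter.1 hs').2
    have h3 := hwle s'
    have h4 := hcyeq s
    have h5 := hcyeq s'
    have h6 := hv s
    have h7 := hv s'
    rw [h2] at h5
    have h8 := hfar s s' (fun h => hne h.symm)
    unfold dst
    omega
  refine ⟨Snake K B b₀ X₀ u J, ?_, ?_, ?_, ?_, ?_⟩
  · intro i hi
    obtain ⟨J', hJ'⟩ : ∃ J', J = J' + 1 := ⟨J - 1, by omega⟩
    rw [hJ']
    exact Snake.conn hLip huB hl hr hi J'
  · intro i hi c hc
    have := Snake.bound huB hi hc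
    omega
  · intro i hi i' hi' hii
    rw [Set.disjoint_left]
    intro c hc hc'
    exact Snake.disj hLip huB hl hr hKX hi hi' hii hc hc'
  · intro s i hi hc
    have hms := hm s
    have h4 := hcyeq s
    have h6 := hv s
    have h9 := hweq s
    rcases hc with ⟨j, hj, hc⟩ | ⟨j, hj, hc⟩
    · rw [mem_Lane] at hc
      simp only at hc
      have hp : pos K j i < K := by unfold pos; split_ifs <;> omega
      have b1 := huB j (cx s)
      have b2 := huB j (cx s + 1)
      rcases Nat.lt_trichotomy j (js s) with h | h | h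
      · have := mul_step (B := B) h
        omega
      · subst h
        rw [hus s (cx s) (by omega) (by omega), hus s (cx s + 1) (by omega) (by omega)] at hc
        omega
      · have := mul_step (B := B) h
        omega
    · rw [mem_Vert] at hc
      simp only at hc
      have h10 := hc.1
      unfold ccol at h10
      split_ifs at h10 <;> omega
  · intro s
    have hms := hm s
    have hjJ : js s < J := by
      have h1 : js s + 1 ≤ J := by
        rw [hJ, Nat.le_div_iff_mul_le hBpos]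
        have h2 := hcyeq s
        have h3 : (js s + 1) * B = B * js s + B := by ring
        rw [h3]
        omega
      omega
    have h1 := hus s (cx s) (by omega) (by omega)
    have h2 := hcyeq s
    have h3 := hweq s
    refine ⟨js s, ?_, ?_⟩
    · intro i hi hpi
      left
      refine ⟨js s, hjJ, ?_⟩
      rw [mem_Lane]
      refine ⟨by simp only; omega, Or.inl ⟨by simp only; omega, ?_⟩⟩
      simp only
      rw [h1, hpi]
      omega
    · intro i hi hpi
      left
      refine ⟨js s, hjJ, ?_⟩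
      rw [mem_Lane]
      refine ⟨by simp only; omega, Or.inl ⟨by simp only; omega, ?_⟩⟩
      simp only
      rw [h1, hpi]
      omega

/-- Code of the tree `(x, b)` such that `(x, b)` and `(x + 1, b)` are consecutive. -/
def encC (k : ℕ) (u : ℕ × ℕ) : ℕ := u.2 * k + u.1

lemma encC_lt {k : ℕ} {u : ℕ × ℕ} (hu : u ∈ colF k) : encC k u < (k + 1) * k := by
  obtain ⟨x, y⟩ := u
  rw [mem_colF] at hu
  unfold encC
  simp only
  have h1 : (y + 1) * k ≤ (k + 1) * k := Nat.mul_le_mul_right _ (by omega)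
  have h2 : (y + 1) * k = y * k + k := by ring
  omega

lemma encC_inj {k : ℕ} {u u' : ℕ × ℕ} (hu : u ∈ colF k) (hu' : u' ∈ colF k)
    (h : encC k u = encC k u') : u = u' := by
  obtain ⟨x, y⟩ := u
  obtain ⟨x', y'⟩ := u'
  rw [mem_colF] at hu hu'
  unfold encC at h
  simp only at h
  have hy : y = y' := by
    rcases Nat.lt_trichotomy y y' with h1 | h1 | h1
    · have h2 : (y + 1) * k ≤ y' * k := Nat.mul_le_mul_right _ h1
      have h3 : (y + 1) * k = y * k + k := by ring
      omega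
    · exact h1
    · have h2 : (y' + 1) * k ≤ y * k := Nat.mul_le_mul_right _ h1
      have h3 : (y' + 1) * k = y' * k + k := by ring
      omega
  subst hy
  have : x = x' := by omega
  rw [this]

/-- The distance for the geometry of forms A and C. -/
def DC (k : ℕ) : ℕ := far ((k + 1) * k) (3 * k * k) 4

/-- Geometry of form A: three far apart terminal cells per gadget; the dock below the terminal
cell `(p, ·)` lies in the tree `t p`, for an arbitrary assignment `t`. -/
theorem geoA {k N : ℕ} (hk : 1 ≤ k) {T : Type*} [Fintype T]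
    (hT : Fintype.card T ≤ 3 * k * k) (cx cy : T → ℕ) (t : T → ℕ × ℕ) (ht' : ∀ s, t s ∈ colF k)
    (hN : 2 * ht ((k + 1) * k) (3 * k * k) ≤ N)
    (hm : ∀ s, DC k ≤ cx s ∧ DC k ≤ cy s ∧ cx s + DC k ≤ N ∧ cy s + DC k ≤ N)
    (hfar : ∀ s s', s ≠ s' → cx s + DC k ≤ cx s' ∨ cx s' + DC k ≤ cx s ∨
      cy s + DC k ≤ cy s' ∨ cy s' + DC k ≤ cy s) :
    ∃ Q : ℕ × ℕ → Set (ℕ × ℕ), (∀ u ∈ colF k, Conn (Q u)) ∧
      (∀ u ∈ colF k, ∀ c ∈ Q u, c.1 < N ∧ c.2 < N) ∧
      (∀ u ∈ colF k, ∀ u' ∈ colF k, u ≠ u' → Disjoint (Q u) (Q u')) ∧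
      (∀ u ∈ colF k, ∀ s, (cx s, cy s) ∉ Q u) ∧ ∀ s, (cx s, cy s - 1) ∈ Q (t s) := by
  have hK : 1 ≤ (k + 1) * k := Nat.mul_pos (Nat.succ_pos k) hk
  obtain ⟨L, h1, h2, h3, h4, h5⟩ := lanesP (N := N) hK hT cx cy
    (fun s j => pos ((k + 1) * k) j (encC k (t s))) (by
      intro s j
      have := encC_lt (ht' s)
      unfold pos
      split_ifs <;> omega) hN hm hfar
  refine ⟨fun u => L (encC k u), fun u hu => h1 _ (encC_lt hu), fun u hu => h2 _ (encC_lt hu),
    fun u hu u' hu' huu => h3 _ (encC_lt hu) _ (encC_lt hu') (fun h => huu (encC_inj hu hu' h)),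
    fun u hu s => h4 s _ (encC_lt hu), ?_⟩
  intro s
  obtain ⟨j, h6, _⟩ := h5 s
  exact h6 _ (encC_lt (ht' s)) rfl

/-- Geometry of form C: for every gadget `(x, y)` a near terminal cell `(nx, ny)` and a far
terminal cell `(fx, fy)`.  The two docks of the near cell lie in the trees `(x, y)` and
`(x + 1, y)` (in some order), the dock below the far cell lies in the tree `(x, y + 1)`. -/
theorem geoC {k N : ℕ} (hk : 1 ≤ k) (nx ny fx fy : ℕ → ℕ → ℕ)
    (hN : 2 * ht ((k + 1) * k) (3 * k * k) ≤ N)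
    (hm : ∀ x < k, ∀ y < k, DC k ≤ nx x y ∧ DC k ≤ ny x y ∧ nx x y + DC k ≤ N ∧
      ny x y + DC k ≤ N ∧ DC k ≤ fx x y ∧ DC k ≤ fy x y ∧ fx x y + DC k ≤ N ∧ fy x y + DC k ≤ N)
    (hnn : ∀ x < k, ∀ y < k, ∀ x' < k, ∀ y' < k, (x, y) ≠ (x', y') →
      nx x y + DC k ≤ nx x' y' ∨ nx x' y' + DC k ≤ nx x y ∨
      ny x y + DC k ≤ ny x' y' ∨ ny x' y' + DC k ≤ ny x y)
    (hff : ∀ x < k, ∀ y < k, ∀ x' < k, ∀ y' < k, (x, y) ≠ (x', y') →
      fx x y + DC k ≤ fx x' y' ∨ fx x' y' + DC k ≤ fx x y ∨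
      fy x y + DC k ≤ fy x' y' ∨ fy x' y' + DC k ≤ fy x y)
    (hnf : ∀ x < k, ∀ y < k, ∀ x' < k, ∀ y' < k,
      nx x y + DC k ≤ fx x' y' ∨ fx x' y' + DC k ≤ nx x y ∨
      ny x y + DC k ≤ fy x' y' ∨ fy x' y' + DC k ≤ ny x y) :
    ∃ Q : ℕ × ℕ → Set (ℕ × ℕ), (∀ u ∈ colF k, Conn (Q u)) ∧
      (∀ u ∈ colF k, ∀ c ∈ Q u, c.1 < N ∧ c.2 < N) ∧
      (∀ u ∈ colF k, ∀ u' ∈ colF k, u ≠ u' → Disjoint (Q u) (Q u')) ∧
      (∀ u ∈ colF k, ∀ x < k, ∀ y < k, (nx x y, ny x y) ∉ Q u ∧ (fx x y, fy x y) ∉ Q u) ∧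
      ∀ x < k, ∀ y < k,
        ((x + 1 < k → (nx x y, ny x y - 1) ∈ Q (x, y) ∧ (nx x y, ny x y + 1) ∈ Q (x + 1, y)) ∨
        (x + 1 < k → (nx x y, ny x y + 1) ∈ Q (x, y) ∧ (nx x y, ny x y - 1) ∈ Q (x + 1, y))) ∧
        (x + 1 = k → (nx x y, ny x y - 1) ∈ Q (x, y)) ∧
        (fx x y, fy x y - 1) ∈ Q (x, y + 1) := by
  have hK : 1 ≤ (k + 1) * k := Nat.mul_pos (Nat.succ_pos k) hk
  set K := (k + 1) * k with hKdef
  -- terminals: near (true) and far (false)
  have hcard : Fintype.card (Bool × Fin k × Fin k) ≤ 3 * k * k := by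
    rw [Fintype.card_prod, Fintype.card_prod, Fintype.card_bool, Fintype.card_fin, mul_assoc]
    exact Nat.mul_le_mul_right _ (by norm_num)
  have hlt : ∀ (x y : ℕ), x < k → y < k → encC k (x, y) + 1 ≤ K ∧ encC k (x, y + 1) < K ∧
      (x + 1 < k → encC k (x, y) + 1 < K ∧ encC k (x + 1, y) = encC k (x, y) + 1) := by
    intro x y hx hy
    have h1 := encC_lt (k := k) (u := (x, y)) (mem_colF.2 ⟨hx, by omega⟩)
    have h2 := encC_lt (k := k) (u := (x, y + 1)) (mem_colF.2 ⟨hx, by omega⟩)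
    refine ⟨h1, h2, ?_⟩
    intro hx1
    have h3 := encC_lt (k := k) (u := (x + 1, y)) (mem_colF.2 ⟨hx1, by omega⟩)
    have h4 : encC k (x + 1, y) = encC k (x, y) + 1 := by
      unfold encC
      simp only
      omega
    rw [h4] at h3
    exact ⟨h3, h4⟩
  obtain ⟨L, h1, h2, h3, h4, h5⟩ := lanesP (N := N) hK hcard
    (fun s : Bool × Fin k × Fin k => if s.1 then nx s.2.1 s.2.2 else fx s.2.1 s.2.2)
    (fun s => if s.1 then ny s.2.1 s.2.2 else fy s.2.1 s.2.2)
    (fun s j => if s.1 then (if (s.2.1 : ℕ) + 1 < k then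
        (if j % 2 = 0 then encC k (s.2.1, s.2.2) else K - 2 - encC k (s.2.1, s.2.2))
      else pos K j (encC k (s.2.1, s.2.2))) else pos K j (encC k (s.2.1, s.2.2 + 1)))
    (by
      rintro ⟨b, x, y⟩ j
      have h := hlt x y x.2 y.2
      unfold pos
      simp only
      split_ifs <;> omega)
    hN
    (by
      rintro ⟨b, x, y⟩
      have h := hm x x.2 y y.2
      simp only
      unfold DC at h
      rw [← hKdef] at h
      cases b <;> simp only [if_true, Bool.false_eq_true, if_false] <;> omega)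
    (by
      rintro ⟨b, x, y⟩ ⟨b', x', y'⟩ hne
      have g1 := hnn x x.2 y y.2 x' x'.2 y' y'.2
      have g2 := hff x x.2 y y.2 x' x'.2 y' y'.2
      have g3 := hnf x x.2 y y.2 x' x'.2 y' y'.2
      have g4 := hnf x' x'.2 y' y'.2 x x.2 y y.2
      unfold DC at g1 g2 g3 g4
      rw [← hKdef] at g1 g2 g3 g4
      have hne' : b = b' → ((x : ℕ), (y : ℕ)) ≠ ((x' : ℕ), (y' : ℕ)) := by
        rintro rfl h
        rw [Prod.mk.injEq] at h
        exact hne (by rw [Fin.ext h.1, Fin.ext h.2])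
      cases b <;> cases b' <;> simp only [if_true, Bool.false_eq_true, if_false]
      · exact g2 (hne' rfl)
      · omega
      · exact g3
      · exact g1 (hne' rfl))
  refine ⟨fun u => L (encC k u), fun u hu => h1 _ (encC_lt hu), fun u hu => h2 _ (encC_lt hu),
    fun u hu u' hu' huu => h3 _ (encC_lt hu) _ (encC_lt hu') (fun h => huu (encC_inj hu hu' h)),
    ?_, ?_⟩
  · intro u hu x hx y hy
    have a1 := h4 (true, ⟨x, hx⟩, ⟨y, hy⟩) _ (encC_lt hu)
    have a2 := h4 (false, ⟨x, hx⟩, ⟨y, hy⟩) _ (encC_lt hu)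
    simp only [if_true] at a1
    simp only [Bool.false_eq_true, if_false] at a2
    exact ⟨a1, a2⟩
  · intro x hx y hy
    have hl := hlt x y hx hy
    refine ⟨?_, ?_, ?_⟩
    · obtain ⟨j, h6, h7⟩ := h5 (true, ⟨x, hx⟩, ⟨y, hy⟩)
      simp only [if_true] at h6 h7
      by_cases hj : j % 2 = 0
      · left
        intro hx1
        rw [if_pos hx1, if_pos hj] at h6 h7
        have hl3 := hl.2.2 hx1
        refine ⟨h6 _ (by omega) ?_, h7 _ (by omega) ?_⟩
        · unfold pos
          rw [if_pos hj]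
        · unfold pos
          rw [if_pos hj]
          omega
      · right
        intro hx1
        rw [if_pos hx1, if_neg hj] at h6 h7
        have hl3 := hl.2.2 hx1
        refine ⟨h7 _ (by omega) ?_, h6 _ (by omega) ?_⟩
        · unfold pos
          rw [if_neg hj]
          omega
        · unfold pos
          rw [if_neg hj]
          omega
    · intro hx1
      obtain ⟨j, h6, _⟩ := h5 (true, ⟨x, hx⟩, ⟨y, hy⟩)
      simp only [if_true] at h6
      rw [if_neg (by omega)] at h6
      exact h6 _ (by omega) rfl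
    · obtain ⟨j, h6, _⟩ := h5 (false, ⟨x, hx⟩, ⟨y, hy⟩)
      simp only [Bool.false_eq_true, if_false] at h6
      exact h6 _ hl.2.1 rfl

end Gad
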