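import Pool.Agent.GL.AsmC
import Pool.Agent.GL.Gap

/-!
# Gadget lemma, form C over a grid with holes (`CWL.GlMixH`)
-/

open Set
open scoped Matroid

namespace Gad

open BIC BIC.Net BICS

universe u

variable {α : Type*} {S : Set α} {ends : α → Sym2 (ℕ × ℕ)}

/-- The hole `q` lies well inside the cell `c`. -/
structure Term (H : Finset (ℕ × ℕ)) (L D ox oy : ℕ) (q c : ℕ × ℕ) : Prop where
  mem : q ∈ H
  x1 : ox + D * c.1 + 3 ≤ q.1
  x2 : q.1 + L + 3 ≤ ox + D * c.1 + D
  y1 : oy + D * c.2 + 3 ≤ q.2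
  y2 : q.2 + L + 3 ≤ oy + D * c.2 + D

lemma Term.not_hls {H : Finset (ℕ × ℕ)} {L D ox oy : ℕ} {q c : ℕ × ℕ}
    (hT : Term H L D ox oy q c)
    (hfar : ∀ q ∈ H, ∀ q' ∈ H, q ≠ q' → CWL.Far (2 * D) q L q' L) {v : ℕ × ℕ}
    (h1 : ox + D * c.1 ≤ v.1) (h2 : v.1 < ox + D * c.1 + D) (h3 : oy + D * c.2 ≤ v.2 + D)
    (h4 : v.2 < oy + D * c.2 + 2 * D) (h5 : v ∉ rect q.1 q.2 L L) : v ∉ hls H L := by
  intro hv
  obtain ⟨q', hq', hv'⟩ := mem_iUnion₂.1 hv
  have hne : q ≠ q' := by
    rintro rfl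
    exact h5 hv'
  have h6 := hfar q hT.mem q' hq' hne
  have h7 := hT.x1
  have h8 := hT.x2
  have h9 := hT.y1
  have h10 := hT.y2
  unfold CWL.Far at h6
  rw [mem_rct] at hv'
  omega

/-- The foot at the right (`true`) or left side of the hole. -/
def ft (L : ℕ) (q : ℕ × ℕ) (a : ℕ) (u : Bool) : ℕ × ℕ :=
  if u then (q.1 + L, q.2 + a) else (q.1 - 1, q.2 + a)

/-- The straight line from the right foot upwards, from the left foot downwards, to the boundary
of the cell. -/
def rayS (L D oy : ℕ) (q c : ℕ × ℕ) (a : ℕ) (u : Bool) : Set (ℕ × ℕ) :=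
  if u then Vert (q.1 + L) (q.2 + a) (oy + D * c.2 + D - 1)
    else Vert (q.1 - 1) (oy + D * c.2) (q.2 + a)

/-- The cell above or below. -/
def dock (c : ℕ × ℕ) (u : Bool) : ℕ × ℕ := if u then (c.1, c.2 + 1) else (c.1, c.2 - 1)

lemma ft_fst {L : ℕ} {q : ℕ × ℕ} {a : ℕ} {u : Bool} :
    (ft L q a u).1 = if u then q.1 + L else q.1 - 1 := by
  unfold ft
  cases u <;> rfl

lemma ft_snd {L : ℕ} {q : ℕ × ℕ} {a : ℕ} {u : Bool} : (ft L q a u).2 = q.2 + a := by
  unfold ft
  cases u <;> rfl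

section

variable {H : Finset (ℕ × ℕ)} {L D ox oy : ℕ} {q c : ℕ × ℕ}

lemma Term.ft_mem (hT : Term H L D ox oy q c) {a : ℕ} (ha : a < L) (u : Bool) :
    ft L q a u ∈ cell ox oy D c := by
  have h7 := hT.x1
  have h8 := hT.x2
  have h9 := hT.y1
  have h10 := hT.y2
  rw [mem_cell, ft_fst, ft_snd]
  cases u <;> simp only [if_true, if_false, Bool.false_eq_true] <;> omega

lemma mem_rayS {a : ℕ} {u : Bool} {v : ℕ × ℕ} : v ∈ rayS L D oy q c a u ↔
    (u = true ∧ v.1 = q.1 + L ∧ q.2 + a ≤ v.2 ∧ v.2 ≤ oy + D * c.2 + D - 1) ∨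
    (u = false ∧ v.1 = q.1 - 1 ∧ oy + D * c.2 ≤ v.2 ∧ v.2 ≤ q.2 + a) := by
  unfold rayS
  cases u
  · simp only [Bool.false_eq_true, if_false, false_and, false_or, true_and]
    exact mem_Vert
  · simp only [if_true, true_and, Bool.true_eq_false, false_and, or_false]
    exact mem_Vert

lemma Term.ray_cell (hT : Term H L D ox oy q c) {a : ℕ} (ha : a < L) (u : Bool) :
    rayS L D oy q c a u ⊆ cell ox oy D c := by
  have h7 := hT.x1
  have h8 := hT.x2
  have h9 := hT.y1
  have h10 := hT.y2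
  intro v hv
  rw [mem_rayS] at hv
  rw [mem_cell]
  omega

lemma Term.ray_hls (hT : Term H L D ox oy q c)
    (hfar : ∀ q ∈ H, ∀ q' ∈ H, q ≠ q' → CWL.Far (2 * D) q L q' L) {a : ℕ} (ha : a < L)
    (u : Bool) {v : ℕ × ℕ} (hv : v ∈ rayS L D oy q c a u) : v ∉ hls H L := by
  have h1 := hT.ray_cell ha u hv
  have h7 := hT.x1
  rw [mem_cell] at h1
  refine hT.not_hls hfar (by omega) (by omega) (by omega) (by omega) (fun h => ?_)
  rw [mem_rct] at h
  rw [mem_rayS] at hv
  omega

lemma ray_fst {a : ℕ} {u : Bool} {v : ℕ × ℕ} (hv : v ∈ rayS L D oy q c a u) :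
    v.1 = if u then q.1 + L else q.1 - 1 := by
  rw [mem_rayS] at hv
  cases u
  · simp only [Bool.false_eq_true, if_false, false_and, false_or, true_and] at hv ⊢
    exact hv.1
  · simp only [if_true, true_and, Bool.true_eq_false, false_and, or_false] at hv ⊢
    exact hv.1

lemma Term.ray_conn (hT : Term H L D ox oy q c) {a : ℕ} (ha : a < L) (u : Bool) :
    Conn (rayS L D oy q c a u) := by
  have h9 := hT.y1
  have h10 := hT.y2
  unfold rayS
  cases u
  · simp only [Bool.false_eq_true, if_false]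
    exact Vert.conn' (by omega)
  · simp only [if_true]
    exact Vert.conn' (by omega)

lemma Term.ft_ray (hT : Term H L D ox oy q c) {a : ℕ} (ha : a < L) (u : Bool) :
    ft L q a u ∈ rayS L D oy q c a u := by
  have h9 := hT.y1
  have h10 := hT.y2
  rw [mem_rayS, ft_fst, ft_snd]
  cases u
  · simp only [Bool.false_eq_true, if_false, false_and, false_or, true_and]
    omega
  · simp only [if_true, true_and, Bool.true_eq_false, false_and, or_false]
    omega

lemma Term.ray_dock (hT : Term H L D ox oy q c) (hc : 1 ≤ c.2)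
    (hfar : ∀ q ∈ H, ∀ q' ∈ H, q ≠ q' → CWL.Far (2 * D) q L q' L) {a : ℕ} (ha : a < L)
    (u : Bool) : ∃ b ∈ cell ox oy D (dock c u) \ hls H L, ∃ b' ∈ rayS L D oy q c a u, Adj b b' := by
  have h7 := hT.x1
  have h8 := hT.x2
  have h9 := hT.y1
  have h10 := hT.y2
  cases u
  · have e : D * (c.2 - 1) + D = D * c.2 := by
      obtain ⟨j, hj⟩ := Nat.exists_eq_add_of_le hc
      rw [hj, Nat.add_sub_cancel_left, mul_add, mul_one, add_comm]
    refine ⟨(q.1 - 1, oy + D * c.2 - 1), ⟨?_, ?_⟩, (q.1 - 1, oy + D * c.2), ?_, ?_⟩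
    · rw [mem_cell]
      unfold dock
      simp only [Bool.false_eq_true, if_false]
      omega
    · refine hT.not_hls hfar ?_ ?_ ?_ ?_ (fun h => ?_)
      · simp only; omega
      · simp only; omega
      · simp only; omega
      · simp only; omega
      · rw [mem_rct] at h
        simp only at h
        omega
    · rw [mem_rayS]
      simp only [Bool.false_eq_true, false_and, false_or, true_and]
      omega
    · unfold Adj
      simp only [true_and]
      omega
  · have e : D * (c.2 + 1) = D * c.2 + D := by rw [mul_add, mul_one]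
    refine ⟨(q.1 + L, oy + D * c.2 + D), ⟨?_, ?_⟩, (q.1 + L, oy + D * c.2 + D - 1), ?_, ?_⟩
    · rw [mem_cell]
      unfold dock
      simp only [if_true]
      omega
    · refine hT.not_hls hfar ?_ ?_ ?_ ?_ (fun h => ?_)
      · simp only; omega
      · simp only; omega
      · simp only; omega
      · simp only; omega
      · rw [mem_rct] at h
        simp only at h
        omega
    · rw [mem_rayS]
      simp only [true_and, Bool.true_eq_false, false_and, or_false]
      omega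
    · unfold Adj
      simp only [true_and]
      omega

/-- The rectangle to the right of the hole in its cell. -/
def rgt (L D ox oy : ℕ) (q c : ℕ × ℕ) : Set (ℕ × ℕ) :=
  rect (q.1 + L) (oy + D * c.2) (ox + D * c.1 + D - (q.1 + L)) D

lemma Term.rgt_cell (hT : Term H L D ox oy q c) : rgt L D ox oy q c ⊆ cell ox oy D c := by
  have h7 := hT.x1
  have h8 := hT.x2
  intro v hv
  unfold rgt at hv
  rw [mem_rct] at hv
  rw [mem_cell]
  omega

lemma Term.rgt_hls (hT : Term H L D ox oy q c)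
    (hfar : ∀ q ∈ H, ∀ q' ∈ H, q ≠ q' → CWL.Far (2 * D) q L q' L) {v : ℕ × ℕ}
    (hv : v ∈ rgt L D ox oy q c) : v ∉ hls H L := by
  have h1 := hT.rgt_cell hv
  have h7 := hT.x1
  have h8 := hT.x2
  rw [mem_cell] at h1
  unfold rgt at hv
  rw [mem_rct] at hv
  refine hT.not_hls hfar (by omega) (by omega) (by omega) (by omega) (fun h => ?_)
  rw [mem_rct] at h
  omega

lemma Term.ft_rgt (hT : Term H L D ox oy q c) {a : ℕ} (ha : a < L) :
    ft L q a true ∈ rgt L D ox oy q c := by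
  have h7 := hT.x1
  have h8 := hT.x2
  have h9 := hT.y1
  have h10 := hT.y2
  unfold rgt
  rw [mem_rct, ft_fst, ft_snd]
  simp only [if_true]
  omega

lemma Term.ray_rgt (hT : Term H L D ox oy q c) {a : ℕ} :
    Disjoint (rayS L D oy q c a false) (rgt L D ox oy q c) := by
  have h7 := hT.x1
  rw [Set.disjoint_left]
  intro v hv hv'
  have h1 := ray_fst hv
  simp only [Bool.false_eq_true, if_false] at h1
  unfold rgt at hv'
  rw [mem_rct] at hv'
  omega

lemma Term.rgt_full {U : Set (ℕ × ℕ)} (hP : Pres S ends U) (hT : Term H L D ox oy q c)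
    (hfar : ∀ q ∈ H, ∀ q' ∈ H, q ≠ q' → CWL.Far (2 * D) q L q' L)
    (hU : cell ox oy D c \ hls H L ⊆ U) : ∃ F, FullB S ends (rgt L D ox oy q c) F := by
  have h7 := hT.x1
  have h8 := hT.x2
  refine rect_full hP (by omega) (by omega) (fun v hv => hU ⟨hT.rgt_cell hv, ?_⟩)
  exact hT.rgt_hls hfar hv

end

/-- The core of form C. -/
theorem mix_core {k : ℕ} (hk : 1 ≤ k) {M : Matroid α} [M.Finite] (hB : Bic M S ends)
    {X : ℕ × ℕ} {n L D ox oy N : ℕ} {H : Finset (ℕ × ℕ)} (hL : 1 ≤ L)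
    (hG : CWL.GrdU S ends (rect X.1 X.2 n n \ hls H L))
    (hfar : ∀ q ∈ H, ∀ q' ∈ H, q ≠ q' → CWL.Far (2 * D) q L q' L)
    (hD : Fintype.card (Cond k) + L < D) (hD3 : L + 3 ≤ D)
    (hox : X.1 ≤ ox) (hoy : X.2 ≤ oy) (hNx : ox + D * N ≤ X.1 + n) (hNy : oy + D * N ≤ X.2 + n)
    (hN : 2 * ht ((k + 1) * k) (3 * k * k) ≤ N)
    (z : ℕ × ℕ → α) (hz : ∀ x < k, ∀ y < k, z (x, y) ∈ M.closure S ∧ z (x, y) ∉ S)
    (q c : Bool → ℕ → ℕ → ℕ × ℕ)
    (hT : ∀ f, ∀ x < k, ∀ y < k, Term H L D ox oy (q f x y) (c f x y))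
    (hm : ∀ f, ∀ x < k, ∀ y < k, DC k ≤ (c f x y).1 ∧ DC k ≤ (c f x y).2 ∧
      (c f x y).1 + DC k ≤ N ∧ (c f x y).2 + DC k ≤ N)
    (hcf : ∀ f, ∀ x < k, ∀ y < k, ∀ f', ∀ x' < k, ∀ y' < k, (f, x, y) ≠ (f', x', y') →
      (c f x y).1 + DC k ≤ (c f' x' y').1 ∨ (c f' x' y').1 + DC k ≤ (c f x y).1 ∨
      (c f x y).2 + DC k ≤ (c f' x' y').2 ∨ (c f' x' y').2 + DC k ≤ (c f x y).2)
    (h : Bool → Bool → ℕ → ℕ → ℕ) (hh : ∀ u f, ∀ x < k, ∀ y < k, h u f x y < L)
    (hLoc1 : ∀ x < k, ∀ y < k, ∀ u f, (u = true → f = false) →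
      ft L (q f x y) (h u f x y) u ∈ CWL.Loc M S ends (z (x, y)))
    (hLoc2 : ∀ x < k, ∀ y < k, ∀ v ∈ CWL.Loc M S ends (z (x, y)), ∃ u f,
      v = ft L (q f x y) (h u f x y) u) :
    HasUniformMinor M k := by
  classical
  have hDC : 3 ≤ DC k := by
    unfold DC far
    omega
  have hP : Pres S ends (rect X.1 X.2 n n \ hls H L) :=
    fun p q hpq hp hq => hG.surj p q hpq hp hq
  obtain ⟨Q, g1, g2, g3, g4, g5⟩ := geoC (N := N) hk (fun x y => (c false x y).1)
    (fun x y => (c false x y).2) (fun x y => (c true x y).1) (fun x y => (c true x y).2) hN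
    (by
      intro x hx y hy
      have h1 := hm false x hx y hy
      have h2 := hm true x hx y hy
      omega)
    (by
      intro x hx y hy x' hx' y' hy' hne
      exact hcf false x hx y hy false x' hx' y' hy' (fun hcon => hne (by
        rw [Prod.mk.injEq, Prod.mk.injEq] at hcon
        rw [hcon.2.1, hcon.2.2])))
    (by
      intro x hx y hy x' hx' y' hy' hne
      exact hcf true x hx y hy true x' hx' y' hy' (fun hcon => hne (by
        rw [Prod.mk.injEq, Prod.mk.injEq] at hcon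
        rw [hcon.2.1, hcon.2.2])))
    (by
      intro x hx y hy x' hx' y' hy'
      exact hcf false x hx y hy true x' hx' y' hy' (fun hcon => by
        rw [Prod.mk.injEq] at hcon
        exact absurd hcon.1 (by decide)))
  -- terminal cells are not in trees
  have g4' : ∀ u ∈ colF k, ∀ f, ∀ x < k, ∀ y < k, c f x y ∉ Q u := by
    intro u hu f x hx y hy
    have h1 := g4 u hu x hx y hy
    cases f
    · exact h1.1
    · exact h1.2
  have hcell_ne : ∀ f, ∀ x < k, ∀ y < k, ∀ f', ∀ x' < k, ∀ y' < k, ∀ v,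
      v ∈ cell ox oy D (c f x y) → v ∈ cell ox oy D (c f' x' y') → (f, x, y) = (f', x', y') := by
    intro f x hx y hy f' x' hx' y' hy' v hv hv'
    by_contra hne
    have h1 := hcf f x hx y hy f' x' hx' y' hy' hne
    have h2 := cell_unique hv hv'
    rw [h2] at h1
    omega
  have hcT : ∀ f, ∀ x < k, ∀ y < k, cell ox oy D (c f x y) \ hls H L ⊆
      rect X.1 X.2 n n \ hls H L := by
    intro f x hx y hy v hv
    have h1 := hm f x hx y hy
    exact ⟨cell_subset hox hoy hNx hNy (by omega) (by omega) hv.1, hv.2⟩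
  -- the choice
  set σ : ℕ → ℕ → Prop := fun x y => x + 1 < k →
    ((c false x y).1, (c false x y).2 - 1) ∈ Q (x, y) ∧
      ((c false x y).1, (c false x y).2 + 1) ∈ Q (x + 1, y) with hσ
  set fr : PosG k → Bool := fun p => decide (p.1.1 = 3) with hfr
  set up : PosG k → Bool := fun p =>
    decide (p.1.1 ≠ 3 ∧ ¬ (p.1.1 = 1 ↔ σ p.1.2.1 p.1.2.2)) with hup
  have hpos : ∀ p : PosG k, (p.1.1 = 1 ∨ p.1.1 = 2 ∨ p.1.1 = 3) ∧ p.1.2.1 < k ∧ p.1.2.2 < k ∧
      (p.1.1 = 2 → p.1.2.1 + 1 < k) := by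
    rintro ⟨⟨t, x, y⟩, hp⟩
    have h1 := Finset.mem_filter.1 hp
    have h2 := mem_posF.1 h1.1
    have h3 := h1.2
    simp only at h3 ⊢
    omega
  have hup' : ∀ p : PosG k, up p = true → fr p = false ∧ p.1.2.1 + 1 < k := by
    intro p hp
    simp only [hup, decide_eq_true_eq] at hp
    obtain ⟨h1, h2⟩ := hp
    have h3 := hpos p
    refine ⟨by simp only [hfr, decide_eq_false_iff_not]; exact h1, ?_⟩
    by_contra hcon
    have h4 : σ p.1.2.1 p.1.2.2 := fun h => absurd h hcon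
    have h5 : p.1.1 = 1 := by omega
    exact h2 ⟨fun _ => h4, fun _ => h5⟩
  have hslinj : ∀ p p' : PosG k, p.1.2 = p'.1.2 → up p = up p' → fr p = fr p' → p = p' := by
    intro p p' h1 h2 h3
    simp only [hup, hfr, h1, decide_eq_decide] at h2 h3
    have h4 := hpos p
    have h5 := hpos p'
    apply Subtype.ext
    refine Prod.ext ?_ h1
    by_cases hs : σ p'.1.2.1 p'.1.2.2
    · simp only [hs, iff_true] at h2
      omega
    · simp only [hs, iff_false] at h2
      omega
  have hslsurj : ∀ (u f : Bool) (x y : ℕ), x < k → y < k → (u = true → f = false ∧ x + 1 < k) →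
      ∃ p : PosG k, p.1.2 = (x, y) ∧ up p = u ∧ fr p = f := by
    intro u f x y hx hy huf
    have hmk : ∀ t, t < 4 → t ≠ 0 → (t = 2 → x + 1 < k) → ∃ p : PosG k, p.1 = (t, x, y) := by
      intro t h1 h2 h3
      exact ⟨⟨(t, x, y), Finset.mem_filter.2 ⟨mem_posF.2 ⟨h1, hx, hy, fun h => absurd h h2, h3⟩,
        h2⟩⟩, rfl⟩
    by_cases hf : f = true
    · obtain ⟨p, hp⟩ := hmk 3 (by omega) (by omega) (by omega)
      refine ⟨p, by rw [hp], ?_, ?_⟩
      · have hu : u = false := by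
          by_contra hcon
          have := huf (by simpa using hcon)
          rw [hf] at this
          exact absurd this.1 (by decide)
        rw [hu]
        simp only [hup, hp, decide_eq_false_iff_not]
        tauto
      · rw [hf]
        simp only [hfr, hp, decide_true]
    · have hf' : f = false := by simpa using hf
      by_cases hs : σ x y
      · by_cases hu : u = true
        · obtain ⟨p, hp⟩ := hmk 2 (by omega) (by omega) (fun _ => (huf hu).2)
          refine ⟨p, by rw [hp], ?_, ?_⟩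
          · rw [hu]
            simp [hup, hp, hs]
          · rw [hf']
            simp only [hfr, hp, decide_eq_false_iff_not]
            omega
        · have hu' : u = false := by simpa using hu
          obtain ⟨p, hp⟩ := hmk 1 (by omega) (by omega) (by omega)
          refine ⟨p, by rw [hp], ?_, ?_⟩
          · rw [hu']
            simp only [hup, hp, decide_eq_false_iff_not, hs]
            tauto
          · rw [hf']
            simp only [hfr, hp, decide_eq_false_iff_not]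
            omega
      · have hx1 : x + 1 < k := by
          by_contra hcon
          exact hs (fun h => absurd h hcon)
        by_cases hu : u = true
        · obtain ⟨p, hp⟩ := hmk 1 (by omega) (by omega) (by omega)
          refine ⟨p, by rw [hp], ?_, ?_⟩
          · rw [hu]
            simp only [hup, hp, decide_eq_true_eq]
            tauto
          · rw [hf']
            simp only [hfr, hp, decide_eq_false_iff_not]
            omega
        · have hu' : u = false := by simpa using hu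
          obtain ⟨p, hp⟩ := hmk 2 (by omega) (by omega) (fun _ => hx1)
          refine ⟨p, by rw [hp], ?_, ?_⟩
          · rw [hu']
            simp [hup, hp, hs]
          · rw [hf']
            simp only [hfr, hp, decide_eq_false_iff_not]
            omega
  -- the rest
  set I : Finset (Bool × ℕ × ℕ) := ((Finset.univ : Finset Bool) ×ˢ (Finset.range k) ×ˢ
    (Finset.range k)).filter (fun i => i.1 = true ∨ i.2.1 + 1 = k) with hI
  have hIm : ∀ i ∈ I, i.2.1 < k ∧ i.2.2 < k ∧ (i.1 = true ∨ i.2.1 + 1 = k) := by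
    intro i hi
    simp only [hI, Finset.mem_filter, Finset.mem_product, Finset.mem_univ, Finset.mem_range,
      true_and] at hi
    exact ⟨hi.1.1, hi.1.2, hi.2⟩
  have hfull : ∀ i : Bool × ℕ × ℕ, ∃ F, i ∈ I → FullB S ends
      (rgt L D ox oy (q i.1 i.2.1 i.2.2) (c i.1 i.2.1 i.2.2)) F := by
    intro i
    by_cases hi : i ∈ I
    · obtain ⟨h1, h2, _⟩ := hIm i hi
      obtain ⟨F, hF⟩ := (hT i.1 _ h1 _ h2).rgt_full hP hfar (hcT i.1 _ h1 _ h2)
      exact ⟨F, fun _ => hF⟩
    · exact ⟨∅, fun h => absurd h hi⟩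
  choose FI hFI using hfull
  set Rest : Set (ℕ × ℕ) := ⋃ i ∈ I, rgt L D ox oy (q i.1 i.2.1 i.2.2) (c i.1 i.2.1 i.2.2)
    with hRest
  have hRfull : FullB S ends Rest (⋃ i ∈ I, FI i) := by
    refine FullB.biUnion I _ FI hFI ?_
    intro i hi j hj hij
    obtain ⟨h1, h2, _⟩ := hIm i hi
    obtain ⟨h3, h4, _⟩ := hIm j hj
    rw [Set.disjoint_left]
    intro v hv hv'
    exact hij (hcell_ne i.1 _ h1 _ h2 j.1 _ h3 _ h4 v ((hT i.1 _ h1 _ h2).rgt_cell hv)
      ((hT j.1 _ h3 _ h4).rgt_cell hv'))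
  have hxy : ∀ p : PosG k, p.1.2.1 < k ∧ p.1.2.2 < k := fun p => ⟨(hpos p).2.1, (hpos p).2.2.1⟩
  have hTp : ∀ p : PosG k, Term H L D ox oy (q (fr p) p.1.2.1 p.1.2.2)
      (c (fr p) p.1.2.1 p.1.2.2) := fun p => hT _ _ (hxy p).1 _ (hxy p).2
  have hhp : ∀ (p : PosG k) (u : Bool), h u (fr p) p.1.2.1 p.1.2.2 < L :=
    fun p u => hh _ _ _ (hxy p).1 _ (hxy p).2
  have hmp := fun p : PosG k => hm (fr p) _ (hxy p).1 _ (hxy p).2
  refine asm_cells (X := X) (n := n) (L := L) (D := D) (ox := ox) (oy := oy) (N := N) (H := H)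
    hk hB hL hG hfar hD hD3 hox hoy hNx hNy z hz Q g1 g2 g3
    (fun p => dock (c (fr p) p.1.2.1 p.1.2.2) (up p)) ?_ ?_
    (fun p => rayS L D oy (q (fr p) p.1.2.1 p.1.2.2) (c (fr p) p.1.2.1 p.1.2.2)
      (h (up p) (fr p) p.1.2.1 p.1.2.2) (up p))
    (fun p => ft L (q (fr p) p.1.2.1 p.1.2.2) (h (up p) (fr p) p.1.2.1 p.1.2.2) (up p))
    ?_ ?_ ?_ ?_ ?_ Rest _ hRfull ?_ ?_ ?_ ?_ ?_ ?_ ?_
  · -- docks are in their trees
    rintro ⟨⟨t, x, y⟩, hp⟩
    have hp' := (Finset.mem_filter.1 hp).1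
    have ht0 := (Finset.mem_filter.1 hp).2
    have h4 := mem_posF.1 hp'
    obtain ⟨g6, g7, g8⟩ := g5 x h4.2.1 y h4.2.2.1
    rcases rel_cases hp' with ⟨h5, _⟩ | ⟨rfl, _, _, d⟩ | ⟨rfl, hx1, _, _, d⟩ | ⟨rfl, _, _, d⟩
    · exact absurd h5 ht0
    · simp only
      rw [d]
      simp only [hfr, hup]
      by_cases hs : σ x y
      · simp only [hs, dock]
        simp
        by_cases hx1 : x + 1 < k
        · exact (hs hx1).1
        · exact g7 (by omega)
      · have hx1 : x + 1 < k := by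
          by_contra hcon
          exact hs (fun h => absurd h hcon)
        simp only [hs, dock]
        simp
        rcases g6 with g6 | g6
        · exact absurd g6 hs
        · exact (g6 hx1).1
    · simp only
      rw [d]
      simp only [hfr, hup]
      by_cases hs : σ x y
      · simp only [hs, dock]
        simp
        exact (hs hx1).2
      · simp only [hs, dock]
        simp
        rcases g6 with g6 | g6
        · exact absurd g6 hs
        · exact (g6 hx1).2
    · simp only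
      rw [d]
      simp only [hfr, hup, dock]
      simp
      exact g8
  · -- docks are different
    intro p p' hpp
    simp only at hpp
    have h3 := hmp p
    have h4 := hmp p'
    have hd1 : ∀ (c : ℕ × ℕ) (u : Bool), (dock c u).1 = c.1 := by
      intro c u
      unfold dock
      cases u <;> rfl
    have hd2 : ∀ (c : ℕ × ℕ) (u : Bool), (dock c u).2 = if u then c.2 + 1 else c.2 - 1 := by
      intro c u
      unfold dock
      cases u <;> rfl
    have h5 : (c (fr p) p.1.2.1 p.1.2.2).1 = (c (fr p') p'.1.2.1 p'.1.2.2).1 := by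
      rw [← hd1 _ (up p), ← hd1 (c (fr p') p'.1.2.1 p'.1.2.2) (up p'), hpp]
    have h6 : (if up p then (c (fr p) p.1.2.1 p.1.2.2).2 + 1 else
        (c (fr p) p.1.2.1 p.1.2.2).2 - 1) = if up p' then (c (fr p') p'.1.2.1 p'.1.2.2).2 + 1 else
        (c (fr p') p'.1.2.1 p'.1.2.2).2 - 1 := by
      rw [← hd2 _ (up p), ← hd2 _ (up p'), hpp]
    have h7 : (fr p, p.1.2.1, p.1.2.2) = (fr p', p'.1.2.1, p'.1.2.2) := by
      by_contra hne
      have h8 := hcf _ _ (hxy p).1 _ (hxy p).2 _ _ (hxy p').1 _ (hxy p').2 hne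
      split_ifs at h6 <;> omega
    rw [Prod.mk.injEq, Prod.mk.injEq] at h7
    obtain ⟨h8, h9, h10⟩ := h7
    refine hslinj p p' (Prod.ext h9 h10) ?_ h8
    rw [h8, h9, h10] at h6
    rcases hu : up p with _ | _ <;> rcases hu' : up p' with _ | _ <;> rw [hu, hu'] at h6 <;>
      simp only [if_true, if_false, Bool.false_eq_true] at h6 <;> first | rfl | omega
  · intro p v hv
    have h1 := (hTp p).ray_cell (hhp p _) _ hv
    exact hcT _ _ (hxy p).1 _ (hxy p).2 ⟨h1, (hTp p).ray_hls hfar (hhp p _) _ hv⟩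
  · intro p
    exact (hTp p).ray_conn (hhp p _) _
  · intro p
    have h1 := hmp p
    exact (hTp p).ray_dock (by omega) hfar (hhp p _) _
  · intro p u hu c' hc'
    rw [Set.disjoint_left]
    intro v hv hv'
    have h1 := cell_unique ((hTp p).ray_cell (hhp p _) _ hv) hv'
    rw [← h1] at hc'
    exact g4' u hu _ _ (hxy p).1 _ (hxy p).2 hc'
  · intro p p' hne
    rw [Set.disjoint_left]
    intro v hv hv'
    have h1 := hcell_ne _ _ (hxy p).1 _ (hxy p).2 _ _ (hxy p').1 _ (hxy p').2 v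
      ((hTp p).ray_cell (hhp p _) _ hv) ((hTp p').ray_cell (hhp p' _) _ hv')
    rw [Prod.mk.injEq, Prod.mk.injEq] at h1
    obtain ⟨h2, h3, h4⟩ := h1
    have h5 := ray_fst hv
    have h6 := ray_fst hv'
    rw [← h2, ← h3, ← h4] at h6
    rw [h6] at h5
    refine hne (hslinj p p' (Prod.ext h3 h4) ?_ h2)
    have h7 := (hTp p).x1
    rcases hu : up p with _ | _ <;> rcases hu' : up p' with _ | _ <;> rw [hu, hu'] at h5 <;>
      simp only [if_true, if_false, Bool.false_eq_true] at h5 <;> first | rfl | omega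
  · intro v hv
    obtain ⟨i, hi, hvi⟩ := mem_iUnion₂.1 hv
    obtain ⟨h1, h2, _⟩ := hIm i hi
    exact hcT i.1 _ h1 _ h2 ⟨(hT i.1 _ h1 _ h2).rgt_cell hvi,
      (hT i.1 _ h1 _ h2).rgt_hls hfar hvi⟩
  · intro u hu c' hc'
    rw [Set.disjoint_left]
    intro v hv' hv
    obtain ⟨i, hi, hvi⟩ := mem_iUnion₂.1 hv
    obtain ⟨h1, h2, _⟩ := hIm i hi
    have h3 := cell_unique ((hT i.1 _ h1 _ h2).rgt_cell hvi) hv'
    rw [← h3] at hc'
    exact g4' u hu _ _ h1 _ h2 hc'
  · intro p
    rw [Set.disjoint_left]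
    intro v hv' hv
    obtain ⟨i, hi, hvi⟩ := mem_iUnion₂.1 hv
    obtain ⟨h1, h2, h3⟩ := hIm i hi
    have h4 := hcell_ne _ _ (hxy p).1 _ (hxy p).2 _ _ h1 _ h2 v
      ((hTp p).ray_cell (hhp p _) _ hv') ((hT i.1 _ h1 _ h2).rgt_cell hvi)
    rw [Prod.mk.injEq, Prod.mk.injEq] at h4
    obtain ⟨h5, h6, h7⟩ := h4
    rcases hu : up p with _ | _
    · rw [hu] at hv'
      rw [← h5, ← h6, ← h7] at hvi
      exact Set.disjoint_left.1 (hTp p).ray_rgt hv' hvi
    · have h8 := hup' p hu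
      rw [h5] at h8
      rcases h3 with h3 | h3
      · rw [h3] at h8
        exact absurd h8.1 (by decide)
      · have := h8.2
        omega
  · intro x hx y hy u hu c' hc'
    rw [Set.disjoint_left]
    intro v hvL hv'
    obtain ⟨u', f, rfl⟩ := hLoc2 x hx y hy v hvL
    have h1 := cell_unique ((hT f x hx y hy).ft_mem (hh u' f x hx y hy) u') hv'
    rw [← h1] at hc'
    exact g4' u hu _ _ hx _ hy hc'
  · intro x hx y hy v hvL
    obtain ⟨u, f, rfl⟩ := hLoc2 x hx y hy v hvL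
    by_cases huf : u = true → f = false ∧ x + 1 < k
    · left
      obtain ⟨p, h1, h2, h3⟩ := hslsurj u f x y hx hy huf
      refine mem_iUnion.2 ⟨p, ?_⟩
      rw [h1, h2, h3]
      exact (hT f x hx y hy).ft_ray (hh u f x hx y hy) u
    · right
      have hu : u = true := by
        by_contra hcon
        exact huf (fun h => absurd h hcon)
      rw [hu]
      refine mem_iUnion₂.2 ⟨(f, x, y), ?_, (hT f x hx y hy).ft_rgt (hh true f x hx y hy)⟩
      simp only [hI, Finset.mem_filter, Finset.mem_product, Finset.mem_univ, Finset.mem_range,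
        true_and]
      refine ⟨⟨hx, hy⟩, ?_⟩
      by_contra hcon
      push Not at hcon
      exact huf (fun _ => ⟨by simpa using hcon.1, by omega⟩)
  · intro p
    ext v
    constructor
    · rintro ⟨hvL, hv⟩
      obtain ⟨u, f, rfl⟩ := hLoc2 _ (hxy p).1 _ (hxy p).2 v hvL
      have h1 := hcell_ne _ _ (hxy p).1 _ (hxy p).2 _ _ (hxy p).1 _ (hxy p).2 _
        ((hTp p).ray_cell (hhp p _) _ hv)
        ((hT f _ (hxy p).1 _ (hxy p).2).ft_mem (hh u f _ (hxy p).1 _ (hxy p).2) u)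
      rw [Prod.mk.injEq] at h1
      have h2 := ray_fst hv
      rw [ft_fst, ← h1.1] at h2
      have h7 := (hTp p).x1
      have h3 : u = up p := by
        rcases hu : up p with _ | _ <;> rcases u with _ | _ <;> rw [hu] at h2 <;>
          simp only [if_true, if_false, Bool.false_eq_true] at h2 <;> first | rfl | omega
      rw [mem_singleton_iff, ← h1.1, h3]
    · rintro rfl
      exact ⟨hLoc1 _ (hxy p).1 _ (hxy p).2 _ _ (fun h => (hup' p h).1),
        (hTp p).ft_ray (hhp p _) _⟩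
  · intro p x hx y hy hne
    rw [Set.disjoint_left]
    intro v hvL hv
    obtain ⟨u, f, rfl⟩ := hLoc2 x hx y hy v hvL
    have h1 := hcell_ne _ _ (hxy p).1 _ (hxy p).2 _ _ hx _ hy _
      ((hTp p).ray_cell (hhp p _) _ hv) ((hT f x hx y hy).ft_mem (hh u f x hx y hy) u)
    rw [Prod.mk.injEq, Prod.mk.injEq] at h1
    exact hne (Prod.ext h1.2.1.symm h1.2.2.symm)

/-! ### Offsets -/

/-- The interval `[a, a + L)` lies well inside a cell when the offset is `r s`. -/
def Good (s L D r a : ℕ) : Prop := ∃ i, D * i + 3 + r * s ≤ a ∧ a + L + 3 ≤ D * i + D + r * s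

lemma good_or {s L D a r r' : ℕ} (hs : L + 5 ≤ s) (hD : 5 * s ≤ D) (ha : 4 * s ≤ a) (hr : r < r')
    (hr' : r' ≤ 4) : Good s L D r a ∨ Good s L D r' a := by
  have h1 : r' * s ≤ 4 * s := Nat.mul_le_mul_right _ hr'
  have h2 : (r + 1) * s ≤ r' * s := Nat.mul_le_mul_right _ hr
  rw [add_mul, one_mul] at h2
  have h3 := Nat.div_add_mod (a - r' * s) D
  have h4 := Nat.mod_lt (a - r' * s) (show 0 < D by omega)
  set i := (a - r' * s) / D
  set ρ := (a - r' * s) % D
  by_cases h5 : 3 ≤ ρ ∧ ρ + L + 3 ≤ D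
  · exact Or.inr ⟨i, by omega, by omega⟩
  · left
    by_cases h6 : ρ ≤ 2
    · exact ⟨i, by omega, by omega⟩
    · refine ⟨i + 1, ?_, ?_⟩ <;> rw [mul_add, mul_one] <;> omega

/-- Four numbers have a common good offset among `0, s, …, 4 s`. -/
lemma exists_offset {s L D : ℕ} (hs : L + 5 ≤ s) (hD : 5 * s ≤ D) (a : Bool × Bool → ℕ)
    (ha : ∀ i, 4 * s ≤ a i) : ∃ r : Fin 5, ∀ i, Good s L D r (a i) := by
  by_contra hcon
  push Not at hcon
  choose f hf using hcon
  have hcard : Fintype.card (Bool × Bool) < Fintype.card (Fin 5) := by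
    rw [Fintype.card_prod, Fintype.card_bool, Fintype.card_fin]
    omega
  obtain ⟨r, r', hne, hrr⟩ := Fintype.exists_ne_map_eq_of_card_lt f hcard
  rcases Nat.lt_trichotomy (r : ℕ) (r' : ℕ) with h | h | h
  · rcases good_or hs hD (ha (f r)) h (by omega) with h1 | h1
    · exact hf r h1
    · rw [hrr] at h1
      exact hf r' h1
  · exact hne (Fin.ext h)
  · rcases good_or hs hD (ha (f r')) h (by omega) with h1 | h1
    · exact hf r' h1
    · rw [← hrr] at h1
      exact hf r h1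

lemma sep_idx {D i j a b e : ℕ} (h1 : D * i ≤ a) (h2 : b < D * j + D) (h3 : a + D * e ≤ b) :
    i + e ≤ j := by
  by_contra hcon
  have h4 : D * (j + 1) ≤ D * (i + e) := Nat.mul_le_mul_left _ (by omega)
  rw [mul_add, mul_add, mul_one] at h4
  omega

lemma hum_zero' {α : Type*} (M : Matroid α) : HasUniformMinor M 0 := by
  refine ⟨M ＼ M.E, by simpa using Matroid.contract_delete_isMinor M ∅ M.E, ?_, ?_⟩
  · simp
  · intro B
    have hE : (M ＼ M.E).E = ∅ := by simp
    constructor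
    · intro h
      have := h.subset_ground
      rw [hE] at this ⊢
      have hB : B = ∅ := subset_empty_iff.1 this
      simp [hB]
    · rintro ⟨h, -⟩
      rw [hE] at h
      have hB : B = ∅ := subset_empty_iff.1 h
      obtain ⟨B', hB'⟩ := (M ＼ M.E).exists_isBase
      have := hB'.subset_ground
      rw [hE] at this
      rw [hB, ← subset_empty_iff.1 this]
      exact hB'

/-- Two feet at one hole and one or two feet at another hole. -/
def GlMixG (k : ℕ) : Prop :=
  ∀ L : ℕ, 1 ≤ L → ∃ m δ : ℕ, ∀ {α : Type u} (P : Matroid α) [P.Finite] (S : Set α)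
    (ends : α → Sym2 (ℕ × ℕ)) (X : ℕ × ℕ) (n : ℕ) (H : Finset (ℕ × ℕ)), Bic P S ends →
    CWL.GrdU S ends (rect X.1 X.2 n n \ ⋃ q ∈ H, rect q.1 q.2 L L) →
    (∀ q ∈ H, ∀ q' ∈ H, q ≠ q' → CWL.Far δ q L q' L) →
    ∀ (z : Fin m → α) (p : Fin m × Fin 2 → ℕ × ℕ), (∀ t, p t ∈ H) → Function.Injective p →
    (∀ t, X.1 + δ ≤ (p t).1 ∧ X.2 + δ ≤ (p t).2 ∧ (p t).1 + δ ≤ X.1 + n ∧
      (p t).2 + δ ≤ X.2 + n) →
    (∀ t, z t ∈ P.closure S ∧ z t ∉ S) →
    (∀ t, ∃ a < L, ∃ a' < L, ∃ b < L, ∃ b' < L,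
      {CWL.foot L (p (t, 0)) 0 a, CWL.foot L (p (t, 0)) 1 a', CWL.foot L (p (t, 1)) 0 b} ⊆
        CWL.Loc P S ends (z t) ∧ CWL.Loc P S ends (z t) ⊆
      {CWL.foot L (p (t, 0)) 0 a, CWL.foot L (p (t, 0)) 1 a', CWL.foot L (p (t, 1)) 0 b,
        CWL.foot L (p (t, 1)) 1 b'}) →
    HasUniformMinor P k

/-- The general form. -/
theorem glMixG (k : ℕ) : GlMixG.{u} k := by
  classical
  intro L hL
  rcases Nat.eq_zero_or_pos k with rfl | hk
  · exact ⟨0, 0, fun {α} P _ S ends X n H _ _ _ z p _ _ _ _ _ => hum_zero' P⟩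
  obtain ⟨s, hs⟩ : ∃ s, s = L + 7 := ⟨_, rfl⟩
  obtain ⟨D, hD⟩ : ∃ D, D = 5 * s + Fintype.card (Cond k) + L + 1 := ⟨_, rfl⟩
  obtain ⟨T, hTd⟩ : ∃ T, T = 2 * ht ((k + 1) * k) (3 * k * k) := ⟨_, rfl⟩
  obtain ⟨δ, hδ⟩ : ∃ δ, δ = D * T + D * DC k + 4 * D + 5 * s := ⟨_, rfl⟩
  refine ⟨5 * (k * k), δ, ?_⟩
  intro α P _ S ends X n H hB hG hfar z p hpH hpi hpm hz hloc
  -- offsets
  set pr : Bool → Fin 2 := fun f => if f then 1 else 0 with hpr
  have hpri : ∀ f f', pr f = pr f' → f = f' := by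
    intro f f' h
    cases f <;> cases f' <;> simp [hpr] at h <;> rfl
  have hoff : ∀ t : Fin (5 * (k * k)), ∃ r : Fin 5, ∀ i : Bool × Bool, Good s L D r
      (if i.2 then (p (t, pr i.1)).1 - X.1 else (p (t, pr i.1)).2 - X.2) := by
    intro t
    refine exists_offset (by omega) (by omega) _ (fun i => ?_)
    have h1 := hpm (t, pr i.1)
    split_ifs <;> omega
  choose R hR using hoff
  obtain ⟨r, hr⟩ := Fintype.exists_le_card_fiber_of_mul_le_card (n := k * k) R (by
    rw [Fintype.card_fin, Fintype.card_fin])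
  have hcard : Fintype.card (Fin k × Fin k) ≤ Fintype.card {t // R t = r} := by
    rw [Fintype.card_prod, Fintype.card_fin, Fintype.card_subtype]
    exact hr
  obtain ⟨emb⟩ := Function.Embedding.nonempty_of_card_le hcard
  set τ : ℕ → ℕ → Fin (5 * (k * k)) := fun x y =>
    if h : x < k ∧ y < k then (emb (⟨x, h.1⟩, ⟨y, h.2⟩)).1 else (emb (⟨0, hk⟩, ⟨0, hk⟩)).1 with hτ
  have hτR : ∀ x y, R (τ x y) = r := by
    intro x y
    simp only [hτ]
    split_ifs with h
    · exact (emb (⟨x, h.1⟩, ⟨y, h.2⟩)).2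
    · exact (emb (⟨0, hk⟩, ⟨0, hk⟩)).2
  have hτi : ∀ x < k, ∀ y < k, ∀ x' < k, ∀ y' < k, τ x y = τ x' y' → x = x' ∧ y = y' := by
    intro x hx y hy x' hx' y' hy' h
    simp only [hτ] at h
    rw [dif_pos ⟨hx, hy⟩, dif_pos ⟨hx', hy'⟩] at h
    have h1 := emb.injective (Subtype.ext h)
    rw [Prod.mk.injEq, Fin.mk.injEq, Fin.mk.injEq] at h1
    exact h1
  obtain ⟨ρ, hρ⟩ : ∃ ρ, ρ = (r : ℕ) * s := ⟨_, rfl⟩
  have hρ4 : ρ ≤ 4 * s := by
    rw [hρ]
    exact Nat.mul_le_mul_right _ (by omega)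
  have hterm : ∀ f x y, ∃ c : ℕ × ℕ,
      Term H L D (X.1 + ρ) (X.2 + ρ) (p (τ x y, pr f)) c := by
    intro f x y
    have h1 := hR (τ x y) (f, true)
    have h2 := hR (τ x y) (f, false)
    rw [hτR] at h1 h2
    simp only [if_true, if_false, Bool.false_eq_true] at h1 h2
    obtain ⟨i, h3, h4⟩ := h1
    obtain ⟨j, h5, h6⟩ := h2
    rw [← hρ] at h3 h4 h5 h6
    have h7 := hpm (τ x y, pr f)
    refine ⟨(i, j), hpH _, ?_, ?_, ?_, ?_⟩ <;> simp only <;> omega
  choose c hc using hterm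
  obtain ⟨N, hNd⟩ : ∃ N, N = (n - ρ) / D := ⟨_, rfl⟩
  have hN1 : D * N ≤ n - ρ := by rw [hNd]; exact Nat.mul_div_le _ _
  have hN2 : n - ρ < D * N + D := by
    have h1 := Nat.lt_div_mul_add (a := n - ρ) (b := D) (by omega)
    rw [hNd, mul_comm]
    exact h1
  have hpm0 := hpm (τ 0 0, 0)
  have hρn : ρ ≤ n := by omega
  have hTN : T ≤ N := by
    have h1 : D * T ≤ n - ρ := by omega
    have h2 := sep_idx (D := D) (i := 0) (j := N) (a := 0) (b := n - ρ) (e := T) (by omega) hN2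
      (by omega)
    omega
  have hfar2 : ∀ q ∈ H, ∀ q' ∈ H, q ≠ q' → CWL.Far (2 * D) q L q' L := by
    intro q hq q' hq' hne
    have h1 := hfar q hq q' hq' hne
    unfold CWL.Far at h1 ⊢
    omega
  choose a ha a' ha' b hb b' hb' hLoc using hloc
  refine mix_core (X := X) (n := n) (L := L) (D := D) (ox := X.1 + ρ) (oy := X.2 + ρ) (N := N)
    (H := H) hk hB hL hG hfar2 (by omega) (by omega) (by omega) (by omega) (by omega) (by omega)
    (by omega) (fun u => z (τ u.1 u.2)) (fun x _ y _ => hz _)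
    (fun f x y => p (τ x y, pr f)) c (fun f x _ y _ => hc f x y) ?_ ?_
    (fun u f x y => if f then (if u then b' (τ x y) else b (τ x y)) else
      (if u then a' (τ x y) else a (τ x y))) ?_ ?_ ?_
  · intro f x _ y _
    have h1 := hpm (τ x y, pr f)
    have h2 := hc f x y
    have h3 := h2.x1
    have h4 := h2.x2
    have h5 := h2.y1
    have h6 := h2.y2
    refine ⟨?_, ?_, ?_, ?_⟩
    · have := sep_idx (D := D) (i := 0) (j := (c f x y).1) (a := 0) (b := D * DC k) (e := DC k)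
        (by omega) (by omega) (by omega)
      omega
    · have := sep_idx (D := D) (i := 0) (j := (c f x y).2) (a := 0) (b := D * DC k) (e := DC k)
        (by omega) (by omega) (by omega)
      omega
    · exact sep_idx (D := D) (a := D * (c f x y).1) (b := n - ρ) (le_refl _) hN2 (by omega)
    · exact sep_idx (D := D) (a := D * (c f x y).2) (b := n - ρ) (le_refl _) hN2 (by omega)
  · intro f x hx y hy f' x' hx' y' hy' hne
    have hne' : p (τ x y, pr f) ≠ p (τ x' y', pr f') := by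
      intro h
      have h1 := hpi h
      rw [Prod.mk.injEq] at h1
      have h2 := hτi x hx y hy x' hx' y' hy' h1.1
      exact hne (by rw [hpri _ _ h1.2, h2.1, h2.2])
    have h0 := hfar _ (hpH _) _ (hpH _) hne'
    have h2 := hc f x y
    have h3 := h2.x1
    have h4 := h2.x2
    have h5 := h2.y1
    have h6 := h2.y2
    have h2' := hc f' x' y'
    have h3' := h2'.x1
    have h4' := h2'.x2
    have h5' := h2'.y1
    have h6' := h2'.y2
    unfold CWL.Far at h0
    rcases h0 with h0 | h0 | h0 | h0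
    · left
      exact sep_idx (D := D) (a := (p (τ x y, pr f)).1 - (X.1 + ρ))
        (b := (p (τ x' y', pr f')).1 - (X.1 + ρ)) (by omega) (by omega) (by omega)
    · right; left
      exact sep_idx (D := D) (a := (p (τ x' y', pr f')).1 - (X.1 + ρ))
        (b := (p (τ x y, pr f)).1 - (X.1 + ρ)) (by omega) (by omega) (by omega)
    · right; right; left
      exact sep_idx (D := D) (a := (p (τ x y, pr f)).2 - (X.2 + ρ))
        (b := (p (τ x' y', pr f')).2 - (X.2 + ρ)) (by omega) (by omega) (by omega)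
    · right; right; right
      exact sep_idx (D := D) (a := (p (τ x' y', pr f')).2 - (X.2 + ρ))
        (b := (p (τ x y, pr f)).2 - (X.2 + ρ)) (by omega) (by omega) (by omega)
  · intro u f x _ y _
    split_ifs
    · exact hb' _
    · exact hb _
    · exact ha' _
    · exact ha _
  · intro x _ y _ u f huf
    refine (hLoc (τ x y)).1 ?_
    cases u <;> cases f <;>
      simp only [reduceCtorEq, imp_false, not_true_eq_false, forall_const] at huf
    all_goals
      simp [CWL.foot, ft, hpr]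
  · intro x _ y _ v hv
    have h1 := (hLoc (τ x y)).2 hv
    simp only [mem_insert_iff, mem_singleton_iff] at h1
    rcases h1 with rfl | rfl | rfl | rfl
    · exact ⟨false, false, by simp [CWL.foot, ft, hpr]⟩
    · exact ⟨true, false, by simp [CWL.foot, ft, hpr]⟩
    · exact ⟨false, true, by simp [CWL.foot, ft, hpr]⟩
    · exact ⟨true, true, by simp [CWL.foot, ft, hpr]⟩

/-- **ROW RED-C / GLC.** Two pairs of feet at two holes. -/
theorem glMixH (k : ℕ) : CWL.GlMixH.{u} k := by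
  intro L hL
  obtain ⟨m, δ, h⟩ := glMixG.{u} k L hL
  refine ⟨m, δ, ?_⟩
  intro α P _ S ends X n H hB hG hfar z p hpH hpi hpm hz hloc
  refine h P S ends X n H hB hG hfar z p hpH hpi hpm hz (fun t => ?_)
  obtain ⟨a, ha, a', ha', b, hb, b', hb', h1⟩ := hloc t
  refine ⟨a, ha, a', ha', b, hb, b', hb', ?_, by rw [h1]⟩
  rw [h1]
  intro v hv
  simp only [mem_insert_iff, mem_singleton_iff] at hv ⊢
  tauto

end Gad

namespace CWL

open BIC BIC.Net BICS

universe u

/-- The same with three feet: two at one hole and one at another hole. -/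
def GlMixH3 (k : ℕ) : Prop :=
  ∀ L : ℕ, 1 ≤ L → ∃ m δ : ℕ, ∀ {α : Type u} (P : Matroid α) [P.Finite] (S : Set α)
    (ends : α → Sym2 (ℕ × ℕ)) (X : ℕ × ℕ) (n : ℕ) (H : Finset (ℕ × ℕ)), Bic P S ends →
    GrdU S ends (rect X.1 X.2 n n \ ⋃ q ∈ H, rect q.1 q.2 L L) →
    (∀ q ∈ H, ∀ q' ∈ H, q ≠ q' → Far δ q L q' L) →
    ∀ (z : Fin m → α) (p : Fin m × Fin 2 → ℕ × ℕ), (∀ t, p t ∈ H) → Function.Injective p →
    (∀ t, X.1 + δ ≤ (p t).1 ∧ X.2 + δ ≤ (p t).2 ∧ (p t).1 + δ ≤ X.1 + n ∧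
      (p t).2 + δ ≤ X.2 + n) →
    (∀ t, z t ∈ P.closure S ∧ z t ∉ S) →
    (∀ t, ∃ a < L, ∃ a' < L, ∃ b < L, Loc P S ends (z t) =
      {foot L (p (t, 0)) 0 a, foot L (p (t, 0)) 1 a', foot L (p (t, 1)) 0 b}) →
    HasUniformMinor P k

/-- **GLC with the fourth foot missing.** -/
theorem glMixH3 (k : ℕ) : GlMixH3.{u} k := by
  intro L hL
  obtain ⟨m, δ, h⟩ := Gad.glMixG.{u} k L hL
  refine ⟨m, δ, ?_⟩
  intro α P _ S ends X n H hB hG hfar z p hpH hpi hpm hz hloc
  refine h P S ends X n H hB hG hfar z p hpH hpi hpm hz (fun t => ?_)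
  obtain ⟨a, ha, a', ha', b, hb, h1⟩ := hloc t
  refine ⟨a, ha, a', ha', b, hb, b, hb, by rw [h1], ?_⟩
  rw [h1]
  intro v hv
  simp only [mem_insert_iff, mem_singleton_iff] at hv ⊢
  tauto

end CWL
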