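import Pool.Agent.GL.NearC
import Pool.Agent.Helper34.BIC.A2

/-!
# Gadget lemma, form B over a grid with holes (`CWL.GlNearH`)
-/

open Set
open scoped Matroid

universe u

namespace Gad

open BIC BIC.Net BICS

/-! ### Choosing terminals -/

/-- A long chain or many close points. -/
lemma chain_or {T : Type*} [Nonempty T] (x : T → ℕ) (δ b : ℕ) :
    ∀ (a : ℕ) (S : Finset T), a * b ≤ S.card →
      (∃ σ : ℕ → T, (∀ i < a, σ i ∈ S) ∧ ∀ i, i + 1 < a → x (σ i) + δ ≤ x (σ (i + 1))) ∨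
      ∃ R ⊆ S, b ≤ R.card ∧ ∀ t ∈ R, ∀ t' ∈ R, x t < x t' + δ := by
  classical
  intro a
  induction a with
  | zero =>
    intro S _
    left
    obtain ⟨t⟩ := ‹Nonempty T›
    exact ⟨fun _ => t, fun i hi => absurd hi (by omega), fun i hi => absurd hi (by omega)⟩
  | succ a ih =>
    intro S hS
    rcases Nat.eq_zero_or_pos b with hb | hb
    · right
      exact ⟨∅, Finset.empty_subset _, by omega, fun t ht => absurd ht (Finset.notMem_empty t)⟩
    have hne : S.Nonempty := by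
      rw [← Finset.card_pos]
      have : 0 < (a + 1) * b := Nat.mul_pos (by omega) hb
      omega
    obtain ⟨t0, ht0, hmin⟩ := Finset.exists_min_image S x hne
    by_cases hR : b ≤ (S.filter (fun t => x t < x t0 + δ)).card
    · right
      refine ⟨_, Finset.filter_subset _ _, hR, ?_⟩
      intro t ht t' ht'
      have h1 := (Finset.mem_filter.1 ht).2
      have h2 := hmin t' (Finset.mem_filter.1 ht').1
      omega
    · have hc := Finset.card_filter_add_card_filter_not (s := S) (fun t => x t < x t0 + δ)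
      rw [add_mul, one_mul] at hS
      rcases ih (S.filter (fun t => ¬ x t < x t0 + δ)) (by omega) with
        ⟨σ, h1, h2⟩ | ⟨R, h1, h2, h3⟩
      · left
        refine ⟨fun i => if i = 0 then t0 else σ (i - 1), ?_, ?_⟩
        · intro i hi
          simp only
          split_ifs with h
          · exact ht0
          · exact (Finset.mem_filter.1 (h1 (i - 1) (by omega))).1
        · intro i hi
          simp only
          rcases Nat.eq_zero_or_pos i with rfl | hi0
          · have h3 := (Finset.mem_filter.1 (h1 0 (by omega))).2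
            rw [if_pos rfl, if_neg (by omega)]
            simp only [Nat.zero_add, Nat.sub_self]
            omega
          · have h3 := h2 (i - 1) (by omega)
            rw [if_neg (by omega), if_neg (by omega), show i + 1 - 1 = i - 1 + 1 by omega]
            exact h3
      · right
        exact ⟨R, h1.trans (Finset.filter_subset _ _), h2, h3⟩

/-- Far apart squares have many columns or many rows. -/
lemma far_chain {T : Type*} [Nonempty T] (p : T → ℕ × ℕ) {δ L K : ℕ} (S : Finset T)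
    (hfar : ∀ t ∈ S, ∀ t' ∈ S, t ≠ t' → CWL.Far δ (p t) L (p t') L)
    (hS : K * (K * 2) ≤ S.card) :
    (∃ σ : ℕ → T, (∀ i < K, σ i ∈ S) ∧ ∀ i, i + 1 < K → (p (σ i)).1 + δ ≤ (p (σ (i + 1))).1) ∨
    (∃ σ : ℕ → T, (∀ i < K, σ i ∈ S) ∧
      ∀ i, i + 1 < K → (p (σ i)).2 + δ ≤ (p (σ (i + 1))).2) := by
  rcases chain_or (fun t => (p t).1) δ (K * 2) K S hS with h | ⟨R, hRS, hRc, hR⟩
  · exact Or.inl h
  · rcases chain_or (fun t => (p t).2) δ 2 K R hRc with ⟨σ, h1, h2⟩ | ⟨R', h1, h2, h3⟩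
    · exact Or.inr ⟨σ, fun i hi => hRS (h1 i hi), h2⟩
    · exfalso
      obtain ⟨t, ht, t', ht', hne⟩ := Finset.one_lt_card.1 (show 1 < R'.card by omega)
      have h4 := hfar t (hRS (h1 ht)) t' (hRS (h1 ht')) hne
      have h5 := hR t (h1 ht) t' (h1 ht')
      have h6 := hR t' (h1 ht') t (h1 ht)
      have h7 := h3 t ht t' ht'
      have h8 := h3 t' ht' t ht
      unfold CWL.Far at h4
      omega

/-! ### Feet -/

/-- Feet at three sides of the hole with corner `q`. -/
def Feet3 (L : ℕ) (q : ℕ × ℕ) (U : Set (ℕ × ℕ)) : Prop :=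
  ∃ m < 4, ∃ a : ℕ → ℕ, (∀ d, a d < L) ∧
    U = {v | ∃ d < 4, d ≠ m ∧ ftD L (q.1 - 1) (q.2 - 1) d (a d) = v}

lemma ftD_foot {L a : ℕ} {q : ℕ × ℕ} (h1 : 1 ≤ q.1) (h2 : 1 ≤ q.2) (d : Fin 4) :
    ftD L (q.1 - 1) (q.2 - 1) d a = CWL.foot L q d a := by
  obtain ⟨x, y⟩ := q
  simp only at h1 h2
  unfold ftD CWL.foot
  fin_cases d <;> simp <;> omega

lemma Feet3.of_foot {L a b : ℕ} {q : ℕ × ℕ} (h1 : 1 ≤ q.1) (h2 : 1 ≤ q.2) (ha : a < L)
    (hb : b < L) {d : Fin 4} (hd : d = 2 ∨ d = 3) {U : Set (ℕ × ℕ)}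
    (hU : U = {CWL.foot L q 0 a, CWL.foot L q 1 a, CWL.foot L q d b}) : Feet3 L q U := by
  have e0 := ftD_foot (L := L) (a := a) h1 h2 0
  have e1 := ftD_foot (L := L) (a := a) h1 h2 1
  have e2 := ftD_foot (L := L) (a := b) h1 h2 2
  have e3 := ftD_foot (L := L) (a := b) h1 h2 3
  have hv : ∀ i : Fin 4, (i : ℕ) = i.val := fun i => rfl
  simp only [Fin.val_zero, Fin.val_one, Fin.val_two] at e0 e1 e2
  have h3 : ((3 : Fin 4) : ℕ) = 3 := rfl
  rw [h3] at e3
  refine ⟨if d = 2 then 3 else 2, by split_ifs <;> omega, fun i => if i ≤ 1 then a else b, ?_, ?_⟩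
  · intro i
    simp only
    split_ifs <;> assumption
  · rw [hU]
    ext v
    simp only [mem_insert_iff, mem_singleton_iff, mem_ofPred_eq]
    rcases hd with rfl | rfl
    · rw [if_pos rfl]
      constructor
      · rintro (rfl | rfl | rfl)
        · exact ⟨0, by omega, by omega, by rw [if_pos (by omega)]; exact e0⟩
        · exact ⟨1, by omega, by omega, by rw [if_pos (by omega)]; exact e1⟩
        · exact ⟨2, by omega, by omega, by rw [if_neg (by omega)]; exact e2⟩
      · rintro ⟨i, hi, hi3, rfl⟩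
        have : i = 0 ∨ i = 1 ∨ i = 2 := by omega
        rcases this with rfl | rfl | rfl
        · left; rw [if_pos (by omega)]; exact e0
        · right; left; rw [if_pos (by omega)]; exact e1
        · right; right; rw [if_neg (by omega)]; exact e2
    · rw [if_neg (by decide)]
      constructor
      · rintro (rfl | rfl | rfl)
        · exact ⟨0, by omega, by omega, by rw [if_pos (by omega)]; exact e0⟩
        · exact ⟨1, by omega, by omega, by rw [if_pos (by omega)]; exact e1⟩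
        · exact ⟨3, by omega, by omega, by rw [if_neg (by omega)]; exact e3⟩
      · rintro ⟨i, hi, hi3, rfl⟩
        have : i = 0 ∨ i = 1 ∨ i = 3 := by omega
        rcases this with rfl | rfl | rfl
        · left; rw [if_pos (by omega)]; exact e0
        · right; left; rw [if_pos (by omega)]; exact e1
        · right; right; rw [if_neg (by omega)]; exact e3

/-! ### Transposition -/

lemma ftD_swap {L X Y d a : ℕ} (hd : d < 4) : ftD L Y X (3 - d) a = (ftD L X Y d a).swap := by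
  have : d = 0 ∨ d = 1 ∨ d = 2 ∨ d = 3 := by omega
  rcases this with rfl | rfl | rfl | rfl <;> simp [ftD]

lemma Feet3.tr {L : ℕ} {q : ℕ × ℕ} {U : Set (ℕ × ℕ)} (h : Feet3 L q U) :
    Feet3 L q.swap (Prod.swap ⁻¹' U) := by
  obtain ⟨m, hm, a, ha, rfl⟩ := h
  refine ⟨3 - m, by omega, fun d => a (3 - d), fun d => ha _, ?_⟩
  ext v
  simp only [mem_preimage, mem_ofPred_eq, Prod.fst_swap, Prod.snd_swap]
  constructor
  · rintro ⟨d, hd, hdm, h⟩
    refine ⟨3 - d, by omega, by omega, ?_⟩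
    rw [show 3 - (3 - d) = d by omega, ftD_swap hd, h, Prod.swap_swap]
  · rintro ⟨d, hd, hdm, h⟩
    refine ⟨3 - d, by omega, by omega, ?_⟩
    rw [← h, ← ftD_swap hd]

variable {α : Type u} {S : Set α} {ends : α → Sym2 (ℕ × ℕ)}

/-- The transposed grid. -/
def trE (ends : α → Sym2 (ℕ × ℕ)) : α → Sym2 (ℕ × ℕ) := fun e => Sym2.map Prod.swap (ends e)

lemma ins_trE {W : Set (ℕ × ℕ)} : ins S (trE ends) W = ins S ends (Prod.swap ⁻¹' W) := by
  ext e
  simp only [ins, trE, mem_ofPred_eq, mem_preimage, Sym2.mem_map]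
  constructor
  · rintro ⟨h1, h2⟩
    exact ⟨h1, fun v hv => h2 _ ⟨v, hv, rfl⟩⟩
  · rintro ⟨h1, h2⟩
    refine ⟨h1, ?_⟩
    rintro _ ⟨v, hv, rfl⟩
    exact h2 v hv

lemma bic_trE {M : Matroid α} (hB : Bic M S ends) : Bic M S (trE ends) :=
  hB.mapV (U := univ) (fun _ _ _ _ => mem_univ _) (Prod.swap_injective.injOn)

lemma adj_swap' {p q : ℕ × ℕ} (h : adj p q) : adj p.swap q.swap := by
  unfold adj at h ⊢
  simp only [Prod.fst_swap, Prod.snd_swap]
  omega

lemma grdU_trE {U : Set (ℕ × ℕ)} (hG : CWL.GrdU S ends U) :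
    CWL.GrdU S (trE ends) (Prod.swap ⁻¹' U) where
  inj := by
    intro e he e' he' h
    refine hG.inj he he' ?_
    exact Sym2.map.injective Prod.swap_injective h
  mem := by
    intro e he
    obtain ⟨p, q, h1, h2, h3, h4⟩ := hG.mem e he
    refine ⟨p.swap, q.swap, ?_, adj_swap' h2, ?_, ?_⟩
    · simp only [trE, h1, Sym2.map_mk]
    · rw [mem_preimage, Prod.swap_swap]; exact h3
    · rw [mem_preimage, Prod.swap_swap]; exact h4
  surj := by
    intro p q h hp hq
    obtain ⟨e, he, h1⟩ := hG.surj p.swap q.swap (adj_swap' h) hp hq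
    refine ⟨e, he, ?_⟩
    simp only [trE, h1, Sym2.map_mk, Prod.swap_swap]

lemma loc_trE {M : Matroid α} {z : α} :
    CWL.Loc M S (trE ends) z = Prod.swap ⁻¹' CWL.Loc M S ends z := by
  ext v
  simp only [CWL.Loc, mem_ofPred_eq, mem_preimage, ins_trE]
  have h : Prod.swap ⁻¹' ({v}ᶜ : Set (ℕ × ℕ)) = {v.swap}ᶜ := by
    ext w
    simp only [mem_preimage, mem_compl_iff, mem_singleton_iff]
    rw [not_iff_not]
    constructor
    · rintro rfl; exact (Prod.swap_swap w).symm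
    · rintro rfl; exact Prod.swap_swap v
  rw [h]

lemma far_swap {δ s t : ℕ} {p q : ℕ × ℕ} (h : CWL.Far δ p s q t) :
    CWL.Far δ p.swap s q.swap t := by
  unfold CWL.Far at h ⊢
  simp only [Prod.fst_swap, Prod.snd_swap]
  omega

lemma rect_swap {x y a b : ℕ} : Prod.swap ⁻¹' (rect x y a b) = rect y x b a := by
  ext v
  rw [mem_preimage, mem_rct, mem_rct, Prod.fst_swap, Prod.snd_swap]
  omega

lemma hls_swap {H : Finset (ℕ × ℕ)} {L : ℕ} :
    Prod.swap ⁻¹' (hls H L) = hls (H.image Prod.swap) L := by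
  ext v
  simp only [hls, mem_preimage, mem_iUnion, Finset.mem_image, exists_prop]
  constructor
  · rintro ⟨q, hq, hv⟩
    refine ⟨q.swap, ⟨q, hq, rfl⟩, ?_⟩
    rw [mem_rct] at hv ⊢
    simp only [Prod.fst_swap, Prod.snd_swap] at hv ⊢
    omega
  · rintro ⟨_, ⟨q, hq, rfl⟩, hv⟩
    refine ⟨q, hq, ?_⟩
    rw [mem_rct] at hv ⊢
    simp only [Prod.fst_swap, Prod.snd_swap] at hv ⊢
    omega

/-! ### Terminals in different columns -/

theorem near_x {k : ℕ} (hk : 1 ≤ k) {M : Matroid α} [M.Finite] (hB : Bic M S ends)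
    {X : ℕ × ℕ} {n L D δ : ℕ} {H : Finset (ℕ × ℕ)} (hL : 1 ≤ L)
    (hG : CWL.GrdU S ends (rect X.1 X.2 n n \ hls H L))
    (hfar : ∀ q ∈ H, ∀ q' ∈ H, q ≠ q' → CWL.Far (2 * D) q L q' L)
    (hD : Fintype.card (Cond k) + L < D) (hD3 : 2 * L + 4 ≤ D) (hδ : δ = D * (4 * k + 10))
    (z : ℕ → α) (q : ℕ → ℕ × ℕ) (r : ℕ × ℕ) (hr : r.1 < D ∧ r.2 < D)
    (hq : ∀ s < k * k, q s ∈ H)
    (hqr : ∀ s < k * k, ((q s).1 - 1 - X.1) % D = r.1 ∧ ((q s).2 - 1 - X.2) % D = r.2)
    (hqb : ∀ s < k * k, X.1 + δ ≤ (q s).1 ∧ X.2 + δ ≤ (q s).2 ∧ (q s).1 + δ ≤ X.1 + n ∧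
      (q s).2 + δ ≤ X.2 + n)
    (hch : ∀ s, s + 1 < k * k → (q s).1 + δ ≤ (q (s + 1)).1)
    (hz : ∀ s < k * k, z s ∈ M.closure S ∧ z s ∉ S)
    (hloc : ∀ s < k * k, Feet3 L (q s) (CWL.Loc M S ends (z s))) :
    HasUniformMinor M k := by
  classical
  obtain ⟨E, hE⟩ : ∃ E, E = D * (4 * k + 8) := ⟨_, rfl⟩
  have hδE : δ = E + 2 * D := by rw [hδ, hE]; ring
  set cx : ℕ → ℕ := fun s => ((q s).1 - 1 - X.1) / D with hcx
  set cy : ℕ → ℕ := fun s => ((q s).2 - 1 - X.2) / D with hcy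
  have hx1 : ∀ s < k * k, X.1 + r.1 + D * cx s + 1 = (q s).1 := by
    intro s hs
    have h1 := Nat.div_add_mod ((q s).1 - 1 - X.1) D
    rw [(hqr s hs).1] at h1
    have h2 := hqb s hs
    have h3 : D * cx s = D * (((q s).1 - 1 - X.1) / D) := rfl
    omega
  have hy1 : ∀ s < k * k, X.2 + r.2 + D * cy s + 1 = (q s).2 := by
    intro s hs
    have h1 := Nat.div_add_mod ((q s).2 - 1 - X.2) D
    rw [(hqr s hs).2] at h1
    have h2 := hqb s hs
    have h3 : D * cy s = D * (((q s).2 - 1 - X.2) / D) := rfl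
    omega
  have hD0 : 0 < D := by omega
  have hle : ∀ a b, D * a + E ≤ D * b → a + (4 * k + 8) ≤ b := by
    intro a b h
    rw [hE, ← mul_add] at h
    exact Nat.le_of_mul_le_mul_left h hD0
  have hkk : 0 < k * k := Nat.mul_pos hk hk
  obtain ⟨N, hN⟩ : ∃ N, N = min ((X.1 + n - (X.1 + r.1)) / D) ((X.2 + n - (X.2 + r.2)) / D) :=
    ⟨_, rfl⟩
  have hNx : D * N ≤ X.1 + n - (X.1 + r.1) := by
    refine (Nat.mul_le_mul_left D ?_).trans (Nat.mul_div_le (X.1 + n - (X.1 + r.1)) D)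
    rw [hN]; exact min_le_left _ _
  have hNy : D * N ≤ X.2 + n - (X.2 + r.2) := by
    refine (Nat.mul_le_mul_left D ?_).trans (Nat.mul_div_le (X.2 + n - (X.2 + r.2)) D)
    rw [hN]; exact min_le_right _ _
  have h0 := hqb 0 hkk
  have hle0 : ∀ a, E ≤ D * a → 4 * k + 8 ≤ a := by
    intro a h
    rw [hE] at h
    exact Nat.le_of_mul_le_mul_left h hD0
  have hleN : ∀ a, D * a + E ≤ X.1 + n - (X.1 + r.1) → D * a + E ≤ X.2 + n - (X.2 + r.2) →
      a + (4 * k + 8) ≤ N := by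
    intro a h1 h2
    rw [hE, ← mul_add] at h1 h2
    rw [hN]
    refine le_min ?_ ?_
    · rw [Nat.le_div_iff_mul_le hD0, mul_comm]; exact h1
    · rw [Nat.le_div_iff_mul_le hD0, mul_comm]; exact h2
  have hch2 : ∀ s, ∃ m < 4, ∃ a : ℕ → ℕ, (∀ d, a d < L) ∧ (s < k * k →
      CWL.Loc M S ends (z s) = {v | ∃ d < 4, d ≠ m ∧
        ftD L ((q s).1 - 1) ((q s).2 - 1) d (a d) = v}) := by
    intro s
    by_cases hs : s < k * k
    · obtain ⟨m, hm, a, ha, h⟩ := hloc s hs
      exact ⟨m, hm, a, ha, fun _ => h⟩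
    · exact ⟨0, by omega, fun _ => 0, fun _ => hL, fun h => absurd h hs⟩
  choose m hm a ha hla using hch2
  refine near_core (X := X) (n := n) (L := L) (D := D) (ox := X.1 + r.1) (oy := X.2 + r.2) (N := N)
    (H := H) hk hB hL hG hfar hD hD3 (by omega) (by omega) (by omega) (by omega) cx cy ?_ ?_ ?_
    (fun u => z (u.1 * k + u.2)) ?_ m hm a ha ?_
  · intro s hs
    refine hle _ _ ?_
    have h1 := hx1 s (by omega)
    have h2 := hx1 (s + 1) hs
    have h3 := hch s hs
    omega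
  · intro s hs
    have h1 := hx1 s hs
    have h2 := hy1 s hs
    have h3 := hqb s hs
    refine ⟨hle0 _ (by omega), hleN _ ?_ ?_, hle0 _ (by omega), hleN _ ?_ ?_⟩
    · omega
    · omega
    · omega
    · omega
  · intro s hs
    rw [hx1 s hs, hy1 s hs]
    exact hq s hs
  · intro x hx y hy
    exact hz _ (sidx_lt hx hy)
  · intro x hx y hy
    have hs := sidx_lt hx hy
    have h1 := hx1 _ hs
    have h2 := hy1 _ hs
    have h3 := hla _ hs
    simp only
    rw [h3, show (q (x * k + y)).1 - 1 = X.1 + r.1 + D * cx (x * k + y) by omega,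
      show (q (x * k + y)).2 - 1 = X.2 + r.2 + D * cy (x * k + y) by omega]

/-! ### The theorem -/

lemma hum_zero3 {α : Type*} (M : Matroid α) : HasUniformMinor M 0 := by
  refine ⟨M ＼ M.E, by simpa using Matroid.contract_delete_isMinor M ∅ M.E, ?_, ?_⟩
  · simp
  · intro B
    have hE : (M ＼ M.E).E = ∅ := by simp
    constructor
    · intro h
      have := h.subset_ground
      rw [hE] at this ⊢
      have hB : B = ∅ := subset_empty_iff.1 this
      simp [hB]
    · rintro ⟨h, -⟩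
      rw [hE] at h
      have hB : B = ∅ := subset_empty_iff.1 h
      obtain ⟨B', hB'⟩ := (M ＼ M.E).exists_isBase
      have := hB'.subset_ground
      rw [hE] at this
      rw [hB, ← subset_empty_iff.1 this]
      exact hB'

/-- Three feet at three sides of a hole, general form. -/
theorem glNear3 (k L : ℕ) (hL : 1 ≤ L) : ∃ m δ : ℕ, ∀ {α : Type u} (P : Matroid α) [P.Finite]
    (S : Set α) (ends : α → Sym2 (ℕ × ℕ)) (X : ℕ × ℕ) (n : ℕ) (H : Finset (ℕ × ℕ)),
    Bic P S ends → CWL.GrdU S ends (rect X.1 X.2 n n \ hls H L) →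
    (∀ q ∈ H, ∀ q' ∈ H, q ≠ q' → CWL.Far δ q L q' L) →
    ∀ (z : Fin m → α) (p : Fin m → ℕ × ℕ), (∀ t, p t ∈ H) → Function.Injective p →
    (∀ t, X.1 + δ ≤ (p t).1 ∧ X.2 + δ ≤ (p t).2 ∧ (p t).1 + δ ≤ X.1 + n ∧
      (p t).2 + δ ≤ X.2 + n) →
    (∀ t, z t ∈ P.closure S ∧ z t ∉ S) → (∀ t, Feet3 L (p t) (CWL.Loc P S ends (z t))) →
    HasUniformMinor P k := by
  classical
  rcases Nat.eq_zero_or_pos k with rfl | hk
  · exact ⟨0, 0, fun {α} P _ S ends X n H _ _ _ z p _ _ _ _ _ => hum_zero3 P⟩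
  obtain ⟨D, hD⟩ : ∃ D, D = Fintype.card (Cond k) + 2 * L + 5 := ⟨_, rfl⟩
  obtain ⟨δ, hδ⟩ : ∃ δ, δ = D * (4 * k + 10) := ⟨_, rfl⟩
  have hδD : 2 * D ≤ δ := by
    rw [hδ, mul_comm 2 D]
    exact Nat.mul_le_mul_left D (by omega)
  have hkk : 0 < k * k := Nat.mul_pos hk hk
  have hm0 : 0 < D * D * (k * k * (k * k * 2)) :=
    Nat.mul_pos (Nat.mul_pos (by omega) (by omega)) (Nat.mul_pos hkk (by omega))
  refine ⟨D * D * (k * k * (k * k * 2)), δ, ?_⟩
  intro α P _ S ends X n H hB hG hfar z p hpH hpi hpm hz hfeet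
  have : Nonempty (Fin (D * D * (k * k * (k * k * 2)))) := ⟨⟨0, hm0⟩⟩
  obtain ⟨r, hr, hrc⟩ := Finset.exists_le_card_fiber_of_mul_le_card_of_maps_to
    (s := (Finset.univ : Finset (Fin (D * D * (k * k * (k * k * 2))))))
    (t := Finset.range D ×ˢ Finset.range D)
    (f := fun t => (((p t).1 - 1 - X.1) % D, ((p t).2 - 1 - X.2) % D))
    (n := k * k * (k * k * 2)) (by
      intro t _
      rw [Finset.mem_product, Finset.mem_range, Finset.mem_range]
      exact ⟨Nat.mod_lt _ (by omega), Nat.mod_lt _ (by omega)⟩)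
    ⟨(0, 0), Finset.mem_product.2 ⟨Finset.mem_range.2 (show 0 < D by omega),
      Finset.mem_range.2 (show 0 < D by omega)⟩⟩ (by
      rw [Finset.card_product, Finset.card_range, Finset.card_univ, Fintype.card_fin])
  rw [Finset.mem_product, Finset.mem_range, Finset.mem_range] at hr
  have hfar2 : ∀ q ∈ H, ∀ q' ∈ H, q ≠ q' → CWL.Far (2 * D) q L q' L := by
    intro q hq q' hq' hne
    have h1 := hfar q hq q' hq' hne
    unfold CWL.Far at h1 ⊢
    omega
  rcases far_chain p (δ := δ) (L := L) (K := k * k) _ (by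
      intro t _ t' _ hne
      exact hfar _ (hpH t) _ (hpH t') (fun h => hne (hpi h))) hrc with ⟨σ, h1, h2⟩ | ⟨σ, h1, h2⟩
  · have h3 : ∀ s < k * k, ((p (σ s)).1 - 1 - X.1) % D = r.1 ∧
        ((p (σ s)).2 - 1 - X.2) % D = r.2 := by
      intro s hs
      have h4 := (Finset.mem_filter.1 (h1 s hs)).2
      rw [← h4]
      exact ⟨rfl, rfl⟩
    exact near_x (X := X) (n := n) (H := H) hk hB hL hG hfar2 (by omega) (by omega) hδ
      (fun s => z (σ s)) (fun s => p (σ s)) r hr (fun s _ => hpH _) h3 (fun s _ => hpm _) h2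
      (fun s _ => hz _) (fun s _ => hfeet _)
  · have h3 : ∀ s < k * k, ((p (σ s)).2 - 1 - X.2) % D = r.2 ∧
        ((p (σ s)).1 - 1 - X.1) % D = r.1 := by
      intro s hs
      have h4 := (Finset.mem_filter.1 (h1 s hs)).2
      rw [← h4]
      exact ⟨rfl, rfl⟩
    have hG' : CWL.GrdU S (trE ends) (rect X.2 X.1 n n \ hls (H.image Prod.swap) L) := by
      have h4 := grdU_trE hG
      have e : Prod.swap ⁻¹' (rect X.1 X.2 n n \ hls H L) =
          rect X.2 X.1 n n \ hls (H.image Prod.swap) L := by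
        rw [← hls_swap, ← rect_swap, preimage_sdiff]
        rfl
      rw [e] at h4
      exact h4
    refine near_x (X := X.swap) (n := n) (H := H.image Prod.swap) hk (bic_trE hB) hL hG' ?_
      (by omega) (by omega) hδ (fun s => z (σ s)) (fun s => (p (σ s)).swap) r.swap ⟨hr.2, hr.1⟩
      (fun s _ => Finset.mem_image_of_mem _ (hpH _)) h3 ?_ h2 (fun s _ => hz _) ?_
    · intro q hq q' hq' hne
      obtain ⟨w, hw, rfl⟩ := Finset.mem_image.1 hq
      obtain ⟨w', hw', rfl⟩ := Finset.mem_image.1 hq'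
      exact far_swap (hfar2 w hw w' hw' (fun h => hne (by rw [h])))
    · intro s _
      have h4 := hpm (σ s)
      simp only [Prod.fst_swap, Prod.snd_swap]
      omega
    · intro s _
      rw [loc_trE]
      exact (hfeet _).tr

/-- **ROW RED-B / GLB.** Three feet at three sides of a hole. -/
theorem glNearH (k : ℕ) : CWL.GlNearH.{u} k := by
  intro L hL
  obtain ⟨m, δ, h⟩ := glNear3.{u} k L hL
  refine ⟨m, δ + 1, ?_⟩
  intro α P _ S ends X n H hB hG hfar z p hpH hpi hpm hz hloc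
  refine h P S ends X n H hB hG ?_ z p hpH hpi ?_ hz ?_
  · intro q hq q' hq' hne
    have h1 := hfar q hq q' hq' hne
    unfold CWL.Far at h1 ⊢
    omega
  · intro t
    have h1 := hpm t
    omega
  · intro t
    obtain ⟨d, hd, a, ha, b, hb, h⟩ := hloc t
    have h1 := hpm t
    exact Feet3.of_foot (by omega) (by omega) ha hb hd h

end Gad
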