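import Pool.Agent.Helper34.BIC.Link

/-!
# Combs: merging the ports of a connected set of vertices by random choices
-/

set_option linter.unusedSectionVars false

open Set
open scoped Matroid

namespace BIC

variable {α κ ι : Type*}

/-- The chosen elements: a port `v` in `V` uses its edge `e v`, the other ports use themselves. -/
def pick (e : α → α) (P V : Finset α) : Set α := {x | (x ∈ P ∧ x ∉ V) ∨ ∃ v ∈ P, v ∈ V ∧ x = e v}

open Classical in
/-- The bad choices. -/
noncomputable def bad (M : Matroid α) (e : α → α) (K : Set α) (P : Finset α) :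
    Finset (Finset α) := P.powerset.filter (fun V => ¬ M.Spanning (K ∪ pick e P V))

lemma mem_bad {M : Matroid α} {e : α → α} {K : Set α} {P V : Finset α} :
    V ∈ bad M e K P ↔ V ⊆ P ∧ ¬ M.Spanning (K ∪ pick e P V) := by
  classical
  unfold bad
  rw [Finset.mem_filter, Finset.mem_powerset]

lemma bad_card_le (M : Matroid α) (e : α → α) (K : Set α) (P : Finset α) :
    (bad M e K P).card ≤ 2 ^ P.card := by
  rw [← Finset.card_powerset]
  exact Finset.card_le_card (fun V hV => Finset.mem_powerset.2 (mem_bad.1 hV).1)

section Count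

variable {M : Matroid α} [M.Finite] [DecidableEq α]

lemma pick_empty (e : α → α) (V : Finset α) : pick e ∅ V = ∅ := by
  ext x
  simp [pick]

lemma pick_insert_notMem (e : α → α) {P V : Finset α} {v : α} (hv : v ∉ V) :
    pick e (insert v P) V = insert v (pick e P V) := by
  ext x
  simp only [pick, Finset.mem_insert, mem_ofPred_eq, mem_insert_iff]
  constructor
  · rintro (⟨h1 | h1, h2⟩ | ⟨w, h1 | h1, h2, h3⟩)
    · exact Or.inl h1
    · exact Or.inr (Or.inl ⟨h1, h2⟩)
    · rw [h1] at h2
      exact absurd h2 hv
    · exact Or.inr (Or.inr ⟨w, h1, h2, h3⟩)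
  · rintro (h1 | ⟨h1, h2⟩ | ⟨w, h1, h2, h3⟩)
    · rw [h1]
      exact Or.inl ⟨Or.inl rfl, hv⟩
    · exact Or.inl ⟨Or.inr h1, h2⟩
    · exact Or.inr ⟨w, Or.inr h1, h2, h3⟩

lemma pick_insert_insert (e : α → α) {P V : Finset α} {v : α} (hv : v ∉ P) :
    pick e (insert v P) (insert v V) = insert (e v) (pick e P V) := by
  ext x
  simp only [pick, Finset.mem_insert, mem_ofPred_eq, mem_insert_iff]
  constructor
  · rintro (⟨h1 | h1, h2⟩ | ⟨w, h1 | h1, h2, h3⟩)
    · exact absurd (Or.inl h1) h2
    · exact Or.inr (Or.inl ⟨h1, fun h => h2 (Or.inr h)⟩)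
    · rw [h1] at h3
      exact Or.inl h3
    · rcases h2 with h2 | h2
      · rw [h2] at h1
        exact absurd h1 hv
      · exact Or.inr (Or.inr ⟨w, h1, h2, h3⟩)
  · rintro (h1 | ⟨h1, h2⟩ | ⟨w, h1, h2, h3⟩)
    · exact Or.inr ⟨v, Or.inl rfl, Or.inl rfl, h1⟩
    · refine Or.inl ⟨Or.inr h1, ?_⟩
      rintro (h3 | h3)
      · rw [h3] at h1
        exact hv h1
      · exact h2 h3
    · exact Or.inr ⟨w, Or.inr h1, Or.inr h2, h3⟩

lemma pick_subset (e : α → α) {P V : Finset α} {E : Set α} (h1 : ∀ v ∈ P, v ∈ E)
    (h2 : ∀ v ∈ P, e v ∈ E) : pick e P V ⊆ E := by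
  rintro x (⟨h, _⟩ | ⟨v, h, _, rfl⟩)
  · exact h1 x h
  · exact h2 v h

/-- Splitting the bad choices at one port. -/
lemma bad_insert (e : α → α) (K : Set α) {P : Finset α} {v : α} (hv : v ∉ P) :
    (bad M e K (insert v P)).card ≤
      (bad M e (insert v K) P).card + (bad M e (insert (e v) K) P).card := by
  have hsub : bad M e K (insert v P) ⊆
      bad M e (insert v K) P ∪ (bad M e (insert (e v) K) P).image (insert v) := by
    intro V hV
    rw [mem_bad] at hV
    rw [Finset.mem_union, Finset.mem_image, mem_bad]
    by_cases h1 : v ∈ V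
    · right
      refine ⟨V.erase v, ?_, Finset.insert_erase h1⟩
      rw [mem_bad]
      refine ⟨?_, ?_⟩
      · intro w hw
        rw [Finset.mem_erase] at hw
        exact (Finset.mem_insert.1 (hV.1 hw.2)).resolve_left hw.1
      · rw [← Finset.insert_erase h1, pick_insert_insert e hv] at hV
        rw [insert_union, ← union_insert]
        exact hV.2
    · left
      refine ⟨?_, ?_⟩
      · intro w hw
        refine (Finset.mem_insert.1 (hV.1 hw)).resolve_left ?_
        rintro rfl
        exact h1 hw
      · rw [pick_insert_notMem e h1] at hV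
        rw [insert_union, ← union_insert]
        exact hV.2
  refine (Finset.card_le_card hsub).trans ((Finset.card_union_le _ _).trans ?_)
  exact Nat.add_le_add_left Finset.card_image_le _

lemma spanning_of_mem_closure {X Y : Set α} (hX : M.Spanning X) (hY : Y ⊆ M.E)
    (h : X ⊆ M.closure Y) : M.Spanning Y := by
  rw [Matroid.spanning_iff_closure_eq hY]
  refine subset_antisymm (M.closure_subset_ground Y) ?_
  rw [← hX.closure_eq]
  exact M.closure_subset_closure_of_subset_closure h

lemma sub_cl {X Y : Set α} (hY : Y ⊆ M.E) (h : X ⊆ Y) : X ⊆ M.closure Y :=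
  h.trans (M.subset_closure Y hY)

/-- No choice is bad when `s` is spanned. -/
lemma bad_zero (e : α → α) {s : α} {K : Set α} {P : Finset α} (hK : K ⊆ M.E)
    (hP : ∀ v ∈ P, v ∈ M.E) (he : ∀ v ∈ P, e v ∈ M.E)
    (hab : ∀ v ∈ P, v ∈ M.closure (insert (e v) (insert s K)))
    (hsp : M.Spanning (insert s (K ∪ P))) (hs : s ∈ M.closure K) :
    (bad M e K P).card = 0 := by
  rw [Finset.card_eq_zero, Finset.eq_empty_iff_forall_notMem]
  intro V hVb
  refine (mem_bad.1 hVb).2 ?_
  have hY : K ∪ pick e P V ⊆ M.E := union_subset hK (pick_subset e hP he)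
  have hs' : s ∈ M.closure (K ∪ pick e P V) := M.closure_subset_closure subset_union_left hs
  refine spanning_of_mem_closure hsp hY ?_
  rw [insert_subset_iff]
  refine ⟨hs', union_subset (sub_cl hY subset_union_left) ?_⟩
  intro v hv
  by_cases hV : v ∈ V
  · refine M.closure_subset_closure_of_subset_closure ?_ (hab v hv)
    rw [insert_subset_iff, insert_subset_iff]
    exact ⟨sub_cl hY subset_union_right (Or.inr ⟨v, hv, hV, rfl⟩), hs',
      sub_cl hY subset_union_left⟩
  · exact sub_cl hY subset_union_right (Or.inl ⟨hv, hV⟩)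

lemma rk_insert_ge {x : α} {K : Set α} (hx : x ∈ M.E) (h : x ∉ M.closure K) :
    rk M K + 1 ≤ rk M (insert x K) := by
  have h1 := M.eRk_insert_eq_add_one (e := x) (X := K) ⟨hx, h⟩
  rw [← cast_rk, ← cast_rk] at h1
  have h2 : rk M (insert x K) = rk M K + 1 := by exact_mod_cast h1
  omega

lemma rk_le_of_subset_closure {X Y : Set α} (h : X ⊆ M.closure Y) : rk M X ≤ rk M Y := by
  rw [← rk_closure Y]
  exact rk_mono M h

/-- COMB LEMMA, no neutral ports. -/
theorem comb_count (e : α → α) {s : α} (hsE : s ∈ M.E) : ∀ (P : Finset α) (K : Set α) (θ : ℕ),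
    K ⊆ M.E → (∀ v ∈ P, v ∈ M.E) → (∀ v ∈ P, e v ∈ M.E) →
    (∀ v ∈ P, s ∈ M.closure (insert v (insert (e v) K))) →
    (∀ v ∈ P, v ∈ M.closure (insert (e v) (insert s K))) →
    M.Spanning (insert s (K ∪ P)) →
    rk M M.E + θ ≤ rk M (insert s K) + P.card →
    (bad M e K P).card * 2 ^ θ ≤ 2 ^ P.card := by
  intro P
  induction P using Finset.induction_on with
  | empty =>
    intro K θ _ _ _ _ _ hsp hr
    have h1 : rk M (insert s K) = rk M M.E := by
      rw [Finset.coe_empty, union_empty] at hsp
      rw [← rk_closure, hsp.closure_eq]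
    rw [h1, Finset.card_empty] at hr
    have h2 : θ = 0 := by omega
    rw [h2, pow_zero, mul_one]
    exact bad_card_le M e K ∅
  | insert v P hv ih =>
    intro K θ hK hP he hse hab hsp hr
    have hvE := hP v (Finset.mem_insert_self v P)
    have heE := he v (Finset.mem_insert_self v P)
    have hP' : ∀ w ∈ P, w ∈ M.E := fun w hw => hP w (Finset.mem_insert_of_mem hw)
    have he' : ∀ w ∈ P, e w ∈ M.E := fun w hw => he w (Finset.mem_insert_of_mem hw)
    have hPE : (P : Set α) ⊆ M.E := hP'
    rw [Finset.coe_insert] at hsp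
    by_cases hs : s ∈ M.closure K
    · have := bad_zero e hK hP he hab (by rw [Finset.coe_insert]; exact hsp) hs
      rw [this, zero_mul]
      exact Nat.zero_le _
    -- the data for the two choices
    have main : ∀ x : α, x ∈ M.E → v ∈ M.closure (insert x (insert s K)) →
        ((∀ w ∈ P, s ∈ M.closure (insert w (insert (e w) (insert x K)))) ∧
        (∀ w ∈ P, w ∈ M.closure (insert (e w) (insert s (insert x K)))) ∧
        M.Spanning (insert s (insert x K ∪ P))) := by
      intro x hx hvx
      refine ⟨fun w hw => ?_, fun w hw => ?_, ?_⟩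
      · refine M.closure_subset_closure ?_ (hse w (Finset.mem_insert_of_mem hw))
        exact insert_subset_insert (insert_subset_insert (subset_insert _ _))
      · refine M.closure_subset_closure ?_ (hab w (Finset.mem_insert_of_mem hw))
        exact insert_subset_insert (insert_subset_insert (subset_insert _ _))
      · have hY : insert s (insert x K ∪ ↑P) ⊆ M.E :=
          insert_subset hsE (union_subset (insert_subset hx hK) hPE)
        refine spanning_of_mem_closure hsp hY ?_
        rw [insert_subset_iff]
        refine ⟨sub_cl hY (singleton_subset_iff.2 (mem_insert _ _)) rfl, union_subset ?_ ?_⟩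
        · exact sub_cl hY ((subset_insert _ _).trans (subset_union_left.trans (subset_insert _ _)))
        · rw [insert_subset_iff]
          refine ⟨M.closure_subset_closure ?_ hvx, ?_⟩
          · rw [insert_subset_iff, insert_subset_iff]
            exact ⟨Or.inr (Or.inl (Or.inl rfl)), Or.inl rfl, (subset_insert _ _).trans
              (subset_union_left.trans (subset_insert _ _))⟩
          · exact sub_cl hY (subset_union_right.trans (subset_insert _ _))
    have hva : v ∈ M.closure (insert v (insert s K)) :=
      M.mem_closure_of_mem (mem_insert _ _) (insert_subset hvE (insert_subset hsE hK))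
    have hvb := hab v (Finset.mem_insert_self v P)
    obtain ⟨a1, a2, a3⟩ := main v hvE hva
    obtain ⟨b1, b2, b3⟩ := main (e v) heE hvb
    have hbad := bad_insert (M := M) e K hv
    rw [Finset.card_insert_of_notMem hv] at hr ⊢
    have hsv := hse v (Finset.mem_insert_self v P)
    rcases Nat.eq_zero_or_pos θ with h0 | h0
    · rw [h0, pow_zero, mul_one]
      have := bad_card_le M e K (insert v P)
      rwa [Finset.card_insert_of_notMem hv] at this
    obtain ⟨θ', rfl⟩ : ∃ θ', θ = θ' + 1 := ⟨θ - 1, by omega⟩
    by_cases hav : v ∈ M.closure K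
    · -- the port is spanned
      have hb0 := bad_zero e (insert_subset heE hK) hP' he' b2 b3 (by
        refine M.closure_subset_closure_of_subset_closure ?_ hsv
        rw [insert_subset_iff]
        exact ⟨M.closure_subset_closure (subset_insert _ _) hav,
          sub_cl (insert_subset heE hK) (subset_refl _)⟩)
      have hi := ih (insert v K) θ' (insert_subset hvE hK) hP' he' a1 a2 a3 (by
        have : rk M (insert s K) ≤ rk M (insert s (insert v K)) :=
          rk_mono M (insert_subset_insert (subset_insert _ _))
        omega)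
      rw [hb0, add_zero] at hbad
      calc _ ≤ _ := Nat.mul_le_mul_right _ hbad
        _ = (_ * 2 ^ θ') * 2 := by rw [pow_succ, mul_assoc]
        _ ≤ _ := by
          rw [pow_succ]
          exact Nat.mul_le_mul_right _ hi
    by_cases hbv : e v ∈ M.closure K
    · have ha0 := bad_zero e (insert_subset hvE hK) hP' he' a2 a3 (by
        refine M.closure_subset_closure_of_subset_closure ?_ hsv
        rw [insert_subset_iff, insert_subset_iff]
        exact ⟨M.mem_closure_of_mem (mem_insert _ _) (insert_subset hvE hK),
          M.closure_subset_closure (subset_insert _ _) hbv,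
          sub_cl (insert_subset hvE hK) (subset_insert _ _)⟩)
      have hi := ih (insert (e v) K) θ' (insert_subset heE hK) hP' he' b1 b2 b3 (by
        have : rk M (insert s K) ≤ rk M (insert s (insert (e v) K)) :=
          rk_mono M (insert_subset_insert (subset_insert _ _))
        omega)
      rw [ha0, zero_add] at hbad
      calc _ ≤ _ := Nat.mul_le_mul_right _ hbad
        _ = (_ * 2 ^ θ') * 2 := by rw [pow_succ, mul_assoc]
        _ ≤ _ := by
          rw [pow_succ]
          exact Nat.mul_le_mul_right _ hi
    -- both choices are independent of `K`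
    have step : ∀ x : α, x ∈ M.E → x ∉ M.closure K →
        (∀ w ∈ P, s ∈ M.closure (insert w (insert (e w) (insert x K)))) →
        (∀ w ∈ P, w ∈ M.closure (insert (e w) (insert s (insert x K)))) →
        M.Spanning (insert s (insert x K ∪ P)) →
        (bad M e (insert x K) P).card * 2 ^ (θ' + 1) ≤ 2 ^ P.card := by
      intro x hx hxK c1 c2 c3
      by_cases hsx : s ∈ M.closure (insert x K)
      · rw [bad_zero e (insert_subset hx hK) hP' he' c2 c3 hsx, zero_mul]
        exact Nat.zero_le _
      · have hx2 : x ∉ M.closure (insert s K) := by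
          intro h
          apply hsx
          exact M.mem_closure_insert hxK h
        have := rk_insert_ge hx hx2
        rw [insert_comm] at this
        exact ih (insert x K) (θ' + 1) (insert_subset hx hK) hP' he' c1 c2 c3 (by omega)
    have ha := step v hvE hav a1 a2 a3
    have hb := step (e v) heE hbv b1 b2 b3
    calc _ ≤ _ := Nat.mul_le_mul_right _ hbad
      _ = _ := add_mul _ _ _
      _ ≤ 2 ^ P.card + 2 ^ P.card := Nat.add_le_add ha hb
      _ = _ := by rw [pow_succ, mul_two]

/-- COMB LEMMA with neutral ports `N`. -/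
theorem comb_count2 (e : α → α) {s : α} (hsE : s ∈ M.E) (Q : Finset α) :
    ∀ (N : Finset α) (K : Set α) (θ : ℕ), Disjoint N Q → K ⊆ M.E →
    (∀ v ∈ N ∪ Q, v ∈ M.E) → (∀ v ∈ N ∪ Q, e v ∈ M.E) →
    (∀ v ∈ N ∪ Q, s ∈ M.closure (insert v (insert (e v) K))) →
    (∀ v ∈ N ∪ Q, v ∈ M.closure (insert (e v) (insert s K))) →
    M.Spanning (insert s (K ∪ (N ∪ Q : Finset α))) →
    rk M M.E + θ ≤ rk M (insert s (K ∪ N)) + Q.card →
    (bad M e K (N ∪ Q)).card * 2 ^ θ ≤ 2 ^ (N ∪ Q).card := by
  intro N
  induction N using Finset.induction_on with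
  | empty =>
    intro K θ _ hK hP he hse hab hsp hr
    rw [Finset.empty_union] at *
    rw [Finset.coe_empty, union_empty] at hr
    exact comb_count e hsE Q K θ hK hP he hse hab hsp hr
  | insert v N hv ih =>
    intro K θ hd hK hP he hse hab hsp hr
    rw [Finset.disjoint_insert_left] at hd
    have hvN : v ∉ N ∪ Q := by
      rw [Finset.mem_union, not_or]
      exact ⟨hv, hd.1⟩
    rw [Finset.insert_union] at *
    have hvE := hP v (Finset.mem_insert_self v _)
    have heE := he v (Finset.mem_insert_self v _)
    have hP' : ∀ w ∈ N ∪ Q, w ∈ M.E := fun w hw => hP w (Finset.mem_insert_of_mem hw)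
    have he' : ∀ w ∈ N ∪ Q, e w ∈ M.E := fun w hw => he w (Finset.mem_insert_of_mem hw)
    have hNE : (N : Set α) ⊆ M.E := fun w hw => hP' w (Finset.mem_union_left _ hw)
    have hPE : ((N ∪ Q : Finset α) : Set α) ⊆ M.E := hP'
    have step : ∀ x : α, x ∈ M.E → v ∈ M.closure (insert x (insert s K)) →
        (bad M e (insert x K) (N ∪ Q)).card * 2 ^ θ ≤ 2 ^ (N ∪ Q).card := by
      intro x hx hvx
      have hY : insert s (insert x K ∪ ↑(N ∪ Q)) ⊆ M.E :=
        insert_subset hsE (union_subset (insert_subset hx hK) hPE)
      have hY2 : insert s (insert x K ∪ ↑N) ⊆ M.E :=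
        insert_subset hsE (union_subset (insert_subset hx hK) hNE)
      refine ih (insert x K) θ hd.2 (insert_subset hx hK) hP' he' (fun w hw => ?_)
        (fun w hw => ?_) ?_ ?_
      · refine M.closure_subset_closure ?_ (hse w (Finset.mem_insert_of_mem hw))
        exact insert_subset_insert (insert_subset_insert (subset_insert _ _))
      · refine M.closure_subset_closure ?_ (hab w (Finset.mem_insert_of_mem hw))
        exact insert_subset_insert (insert_subset_insert (subset_insert _ _))
      · refine spanning_of_mem_closure hsp hY ?_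
        rw [insert_subset_iff, Finset.coe_insert]
        refine ⟨sub_cl hY (singleton_subset_iff.2 (mem_insert _ _)) rfl, union_subset ?_ ?_⟩
        · exact sub_cl hY ((subset_insert _ _).trans (subset_union_left.trans (subset_insert _ _)))
        · rw [insert_subset_iff]
          refine ⟨M.closure_subset_closure ?_ hvx, ?_⟩
          · rw [insert_subset_iff, insert_subset_iff]
            exact ⟨Or.inr (Or.inl (Or.inl rfl)), Or.inl rfl, (subset_insert _ _).trans
              (subset_union_left.trans (subset_insert _ _))⟩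
          · exact sub_cl hY (subset_union_right.trans (subset_insert _ _))
      · refine hr.trans (Nat.add_le_add_right (rk_le_of_subset_closure ?_) _)
        rw [insert_subset_iff, Finset.coe_insert]
        refine ⟨sub_cl hY2 (singleton_subset_iff.2 (mem_insert _ _)) rfl, union_subset ?_ ?_⟩
        · exact sub_cl hY2 ((subset_insert _ _).trans (subset_union_left.trans (subset_insert _ _)))
        · rw [insert_subset_iff]
          refine ⟨M.closure_subset_closure ?_ hvx, ?_⟩
          · rw [insert_subset_iff, insert_subset_iff]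
            exact ⟨Or.inr (Or.inl (Or.inl rfl)), Or.inl rfl, (subset_insert _ _).trans
              (subset_union_left.trans (subset_insert _ _))⟩
          · exact sub_cl hY2 (subset_union_right.trans (subset_insert _ _))
    have ha := step v hvE (M.mem_closure_of_mem (mem_insert _ _)
      (insert_subset hvE (insert_subset hsE hK)))
    have hb := step (e v) heE (hab v (Finset.mem_insert_self v _))
    have hbad := bad_insert (M := M) e K hvN
    rw [Finset.card_insert_of_notMem hvN]
    calc _ ≤ _ := Nat.mul_le_mul_right _ hbad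
      _ = _ := add_mul _ _ _
      _ ≤ 2 ^ (N ∪ Q).card + 2 ^ (N ∪ Q).card := Nat.add_le_add ha hb
      _ = _ := by rw [pow_succ, mul_two]

/-- One choice for all conditions. -/
theorem tree_choice (e : α → α) {s : α} (hsE : s ∈ M.E) (P : Finset α) (W t : Set α)
    (hP : ∀ v ∈ P, v ∈ M.E) (he : ∀ v ∈ P, e v ∈ M.E) (ht : t ⊆ M.E)
    (hW : W ⊆ M.closure (insert s t))
    (hse : ∀ v ∈ P, s ∈ M.closure (insert v (insert (e v) t)))
    (hab : ∀ v ∈ P, v ∈ M.closure (insert (e v) (insert s t)))
    (J : Finset ι) (A Z : ι → Set α) (Q : ι → Finset α) (θ : ℕ)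
    (hA : ∀ j ∈ J, A j ⊆ M.E) (hZ : ∀ j ∈ J, Z j ⊆ M.E) (hQ : ∀ j ∈ J, Q j ⊆ P)
    (hsp : ∀ j ∈ J, M.Spanning (A j ∪ (W ∪ P)))
    (hr : ∀ j ∈ J, rk M M.E + θ ≤ rk M (A j ∪ (W ∪ (P \ Q j : Finset α)) ∪ Z j) + (Q j).card)
    (hJ : J.card < 2 ^ θ) :
    ∃ V ⊆ P, ∀ j ∈ J, M.Spanning (A j ∪ (t ∪ pick e P V) ∪ Z j) := by
  have hPE : (P : Set α) ⊆ M.E := hP
  have h1 : ∀ j ∈ J, (bad M e (A j ∪ t ∪ Z j) P).card * 2 ^ θ ≤ 2 ^ P.card := by
    intro j hj
    have e1 : (P \ Q j) ∪ Q j = P := Finset.sdiff_union_of_subset (hQ j hj)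
    have hKE : A j ∪ t ∪ Z j ⊆ M.E := union_subset (union_subset (hA j hj) ht) (hZ j hj)
    have htK : t ⊆ A j ∪ t ∪ Z j := subset_union_right.trans subset_union_left
    have h2 := comb_count2 (M := M) e hsE (Q j) (P \ Q j) (A j ∪ t ∪ Z j) θ
      Finset.sdiff_disjoint hKE
    rw [e1] at h2
    refine h2 hP he (fun v hv => ?_) (fun v hv => ?_) ?_ ?_
    · exact M.closure_subset_closure (insert_subset_insert (insert_subset_insert htK)) (hse v hv)
    · exact M.closure_subset_closure (insert_subset_insert (insert_subset_insert htK)) (hab v hv)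
    · have hY : insert s (A j ∪ t ∪ Z j ∪ ↑P) ⊆ M.E :=
        insert_subset hsE (union_subset hKE hPE)
      refine spanning_of_mem_closure (hsp j hj) hY (union_subset ?_ (union_subset ?_ ?_))
      · exact sub_cl hY (((subset_union_left.trans subset_union_left).trans
          subset_union_left).trans (subset_insert _ _))
      · refine hW.trans (M.closure_subset_closure (insert_subset_insert
          (htK.trans subset_union_left)))
      · exact sub_cl hY (subset_union_right.trans (subset_insert _ _))
    · have hY : insert s (A j ∪ t ∪ Z j ∪ ↑(P \ Q j)) ⊆ M.E :=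
        insert_subset hsE (union_subset hKE (by
          rw [Finset.coe_sdiff]
          exact sdiff_subset.trans hPE))
      refine (hr j hj).trans (Nat.add_le_add_right (rk_le_of_subset_closure ?_) _)
      refine union_subset (union_subset ?_ (union_subset ?_ ?_)) ?_
      · exact sub_cl hY (((subset_union_left.trans subset_union_left).trans
          subset_union_left).trans (subset_insert _ _))
      · refine hW.trans (M.closure_subset_closure (insert_subset_insert
          (htK.trans subset_union_left)))
      · exact sub_cl hY (subset_union_right.trans (subset_insert _ _))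
      · exact sub_cl hY ((subset_union_right.trans subset_union_left).trans (subset_insert _ _))
  have h2 : (J.biUnion fun j => bad M e (A j ∪ t ∪ Z j) P).card * 2 ^ θ < 2 ^ P.card * 2 ^ θ := by
    calc _ ≤ (∑ j ∈ J, (bad M e (A j ∪ t ∪ Z j) P).card) * 2 ^ θ :=
          Nat.mul_le_mul_right _ Finset.card_biUnion_le
      _ = ∑ j ∈ J, (bad M e (A j ∪ t ∪ Z j) P).card * 2 ^ θ := Finset.sum_mul _ _ _
      _ ≤ ∑ j ∈ J, 2 ^ P.card := Finset.sum_le_sum h1
      _ = J.card * 2 ^ P.card := by rw [Finset.sum_const, smul_eq_mul]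
      _ < 2 ^ θ * 2 ^ P.card := Nat.mul_lt_mul_of_pos_right hJ (by positivity)
      _ = _ := mul_comm _ _
  have h3 : (J.biUnion fun j => bad M e (A j ∪ t ∪ Z j) P).card < P.powerset.card := by
    rw [Finset.card_powerset]
    exact Nat.lt_of_mul_lt_mul_right h2
  obtain ⟨V, hV, hVb⟩ := Finset.exists_mem_notMem_of_card_lt_card h3
  refine ⟨V, Finset.mem_powerset.1 hV, fun j hj => ?_⟩
  by_contra hcon
  apply hVb
  rw [Finset.mem_biUnion]
  refine ⟨j, hj, mem_bad.2 ⟨Finset.mem_powerset.1 hV, ?_⟩⟩
  intro h
  apply hcon
  have e1 : A j ∪ (t ∪ pick e P V) ∪ Z j = A j ∪ t ∪ Z j ∪ pick e P V := by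
    ext x
    simp only [mem_union]
    tauto
  rw [e1]
  exact h

/-- the elements of the trees that are still to be merged -/
def rest (Fu : κ → Set α) (U : Finset κ) : Set α := {x | ∃ u, u ∉ U ∧ x ∈ Fu u}

lemma rest_insert [DecidableEq κ] {Fu : κ → Set α} {U : Finset κ} {u : κ} (hu : u ∉ U) :
    rest Fu U = rest Fu (insert u U) ∪ Fu u := by
  ext x
  simp only [rest, mem_ofPred_eq, mem_union, Finset.mem_insert, not_or]
  constructor
  · rintro ⟨w, h1, h2⟩
    by_cases hw : w = u
    · rw [hw] at h2
      exact Or.inr h2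
    · exact Or.inl ⟨w, ⟨hw, h1⟩, h2⟩
  · rintro (⟨w, h1, h2⟩ | h2)
    · exact ⟨w, h1.2, h2⟩
    · exact ⟨u, hu, h2⟩

/-- The elements put in place of the trees of `U`. -/
def done (tt : κ → Set α) (U : Finset κ) : Set α := {x | ∃ u ∈ U, x ∈ tt u}

lemma done_insert [DecidableEq κ] {tt : κ → Set α} {U : Finset κ} {u : κ} :
    done tt (insert u U) = done tt U ∪ tt u := by
  ext x
  simp only [done, mem_ofPred_eq, mem_union, Finset.mem_insert]
  constructor
  · rintro ⟨w, h1 | h1, h2⟩
    · rw [h1] at h2
      exact Or.inr h2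
    · exact Or.inl ⟨w, h1, h2⟩
  · rintro (⟨w, h1, h2⟩ | h2)
    · exact ⟨w, Or.inr h1, h2⟩
    · exact ⟨u, Or.inl rfl, h2⟩

lemma done_congr {tt tt' : κ → Set α} {U : Finset κ} (h : ∀ u ∈ U, tt u = tt' u) :
    done tt U = done tt' U := by
  ext x
  simp only [done, mem_ofPred_eq]
  constructor
  · rintro ⟨w, h1, h2⟩
    exact ⟨w, h1, by rwa [← h w h1]⟩
  · rintro ⟨w, h1, h2⟩
    exact ⟨w, h1, by rwa [h w h1]⟩

lemma pick_ncard_le (e : α → α) (P V : Finset α) : (pick e P V).ncard ≤ P.card := by
  classical
  have h1 : pick e P V ⊆ ((P.image fun v => if v ∈ V then e v else v : Finset α) : Set α) := by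
    rintro x (⟨h, h'⟩ | ⟨v, h, h', rfl⟩)
    · rw [Finset.mem_coe, Finset.mem_image]
      exact ⟨x, h, if_neg h'⟩
    · rw [Finset.mem_coe, Finset.mem_image]
      exact ⟨v, h, if_pos h'⟩
  refine (Set.ncard_le_ncard h1 (Finset.finite_toSet _)).trans ?_
  rw [Set.ncard_coe_finset]
  exact Finset.card_image_le

/-- One step of the greedy merging. -/
lemma exists_last {R : Set α} {Z : Set α} {s : α} (hR : R ⊆ M.E) (hZ : Z ⊆ M.E)
    (hZn : Z.Nonempty) (h1 : M.Spanning (insert s R)) (h2 : M.Spanning (R ∪ Z)) :
    ∃ z ∈ Z, M.Spanning (insert z R) := by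
  by_cases h : Z ⊆ M.closure R
  · obtain ⟨z, hz⟩ := hZn
    refine ⟨z, hz, ?_⟩
    have hY : insert z R ⊆ M.E := insert_subset (hZ hz) hR
    refine spanning_of_mem_closure h2 hY (union_subset (sub_cl hY (subset_insert _ _)) ?_)
    exact h.trans (M.closure_subset_closure (subset_insert _ _))
  · obtain ⟨z, hz, hzR⟩ := not_subset.1 h
    refine ⟨z, hz, ?_⟩
    have hY : insert z R ⊆ M.E := insert_subset (hZ hz) hR
    have h3 := rk_insert_ge (hZ hz) hzR
    have h4 : rk M M.E = rk M (insert s R) := by rw [← rk_closure (insert s R), h1.closure_eq]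
    have h5 : rk M (insert s R) ≤ rk M R + 1 := by
      have := rk_union_le M (X := R) (Set.finite_singleton s)
      rw [union_singleton, ncard_singleton] at this
      exact this
    obtain ⟨B, hB⟩ := M.exists_isBase
    have h6 : rk M M.E = B.ncard := rk_superset_base hB hB.subset_ground
    obtain ⟨I, hI⟩ := M.exists_isBasis (insert z R) hY
    have h7 : rk M (insert z R) = I.ncard := by
      rw [← rk_closure, ← hI.closure_eq_closure, rk_closure, rk_indep hI.indep]
    have h8 : M.IsBase I := by
      obtain ⟨B', hB', hIB⟩ := hI.indep.exists_isBase_superset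
      have h9 : B'.ncard = B.ncard := hB'.ncard_eq_ncard_of_isBase hB
      have h10 : I = B' := Set.eq_of_subset_of_ncard_le hIB (by omega)
        (M.ground_finite.subset hB'.subset_ground)
      rw [h10]
      exact hB'
    exact h8.spanning_of_superset hI.subset hY

/-- GREEDY MERGING BY COMBS. -/
theorem comb_merge [Fintype κ] [DecidableEq κ] [Fintype ι] {G : Set α} (hG : M.IsBase G)
    (P : κ → Finset α) (W t : κ → Set α) (s : κ → α) (e : α → α)
    (hFG : ∀ u, W u ∪ P u ⊆ G) (hFd : ∀ u u', u ≠ u' → Disjoint (W u ∪ P u) (W u' ∪ P u'))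
    (hWP : ∀ u, Disjoint (W u) (P u)) (hs : ∀ u, s u ∈ M.E) (ht : ∀ u, t u ⊆ M.E)
    (he : ∀ u, ∀ v ∈ P u, e v ∈ M.E) (hW : ∀ u, W u ⊆ M.closure (insert (s u) (t u)))
    (hcard : ∀ u, (t u).ncard + 1 ≤ (W u).ncard)
    (hse : ∀ u, ∀ v ∈ P u, s u ∈ M.closure (insert v (insert (e v) (t u))))
    (hab : ∀ u, ∀ v ∈ P u, v ∈ M.closure (insert (e v) (insert (s u) (t u))))
    (used : ι → κ → Prop) (X : ι → κ → Finset α) (Y : ι → κ → Set α)
    (hX : ∀ i u, used i u → X i u ⊆ P u) (hY : ∀ i u, used i u → Y i u ⊆ M.E)
    (hYn : ∀ i u, used i u → (Y i u).Nonempty) (θ : ℕ) (hι : Fintype.card ι < 2 ^ θ)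
    (hρ : ∀ i u, used i u → θ + Fintype.card κ ≤ rho M G (X i u) (Y i u)) :
    ∃ (V : κ → Finset α) (z : ι → κ → α), (∀ u, V u ⊆ P u) ∧
      (∀ i u, ¬ used i u → z i u = s u) ∧ (∀ i u, used i u → z i u ∈ Y i u) ∧
      ∀ i, M.IsBase ((G \ rest (fun u => W u ∪ P u) ∅) ∪
        done (fun u => t u ∪ pick e (P u) (V u)) Finset.univ ∪ range (z i)) ∧
        Function.Injective (z i) ∧
        Disjoint ((G \ rest (fun u => W u ∪ P u) ∅) ∪
        done (fun u => t u ∪ pick e (P u) (V u)) Finset.univ) (range (z i)) := by
  classical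
  obtain ⟨F, hF⟩ : ∃ F : κ → Set α, F = fun u => W u ∪ P u := ⟨_, rfl⟩
  have hFG' : ∀ u, F u ⊆ G := by rw [hF]; exact hFG
  have hfin := M.ground_finite
  have hGf : G.Finite := base_fin hG
  have hGE := hG.subset_ground
  have hPf : ∀ u, ∀ v ∈ P u, v ∈ M.E := fun u v hv => hGE (hFG u (Or.inr hv))
  have hrkG : rk M M.E = G.ncard := rk_superset_base hG hGE
  have hrestG : ∀ U, rest F U ⊆ G := by
    rintro U x ⟨u, _, hx⟩
    exact hFG' u hx
  have htt : ∀ (V : Finset α) (u : κ), t u ∪ pick e (P u) V ⊆ M.E := fun V u =>
    union_subset (ht u) (pick_subset e (hPf u) (he u))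
  have hdoneE : ∀ (V : κ → Finset α) (U : Finset κ),
      done (fun u => t u ∪ pick e (P u) (V u)) U ⊆ M.E := by
    rintro V U x ⟨u, _, hx⟩
    exact htt _ _ hx
  rw [← hF]
  -- the invariant
  have key : ∀ U : Finset κ, ∃ (V : κ → Finset α) (z : ι → κ → α), (∀ u, V u ⊆ P u) ∧
      (∀ i, ∀ u ∈ U, ¬ used i u → z i u = s u) ∧ (∀ i, ∀ u ∈ U, used i u → z i u ∈ Y i u) ∧
      ((G \ rest F ∅) ∪ done (fun u => t u ∪ pick e (P u) (V u)) U).ncard + U.card +
        (rest F U).ncard ≤ G.ncard ∧
      (∀ i, M.Spanning (((G \ rest F ∅) ∪ done (fun u => t u ∪ pick e (P u) (V u)) U ∪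
        z i '' U) ∪ rest F U)) ∧
      (∀ i q, q ∉ U → used i q → rk M M.E + θ + Fintype.card κ ≤
        rk M (((G \ rest F ∅) ∪ done (fun u => t u ∪ pick e (P u) (V u)) U ∪ z i '' U) ∪
          (rest F U \ X i q) ∪ Y i q) + (X i q).card + U.card) := by
    intro U
    induction U using Finset.induction_on with
    | empty =>
      refine ⟨fun _ => ∅, fun _ => s, fun u => Finset.empty_subset _, ?_, ?_, ?_, ?_, ?_⟩
      · intro i u hu
        exact absurd hu (Finset.notMem_empty u)
      · intro i u hu
        exact absurd hu (Finset.notMem_empty u)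
      · have h1 : done (fun u => t u ∪ pick e (P u) ((fun _ => ∅ : κ → Finset α) u))
            (∅ : Finset κ) = ∅ := by
          ext x
          simp [done]
        rw [h1, union_empty, Finset.card_empty, add_zero,
          Set.ncard_sdiff_add_ncard_of_subset (hrestG ∅) hGf]
      · intro i
        refine hG.spanning_of_superset ?_ ?_
        · intro x hx
          by_cases h : x ∈ rest F ∅
          · exact Or.inr h
          · exact Or.inl (Or.inl (Or.inl ⟨hx, h⟩))
        · refine union_subset (union_subset (union_subset (sdiff_subset.trans hGE)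
            (hdoneE _ _)) ?_) ((hrestG _).trans hGE)
          rw [Finset.coe_empty, image_empty]
          exact empty_subset _
      · intro i q _ hq
        have h1 := hρ i q hq
        have h2 := rho_add hG (X i q) (Y i q)
        have h3 : (G \ (X i q : Set α)).ncard + (X i q).card = G.ncard := by
          have := Set.ncard_sdiff_add_ncard_of_subset
            (show ((X i q : Finset α) : Set α) ⊆ G from fun x hx =>
              hFG q (Or.inr (hX i q hq hx))) hGf
          rwa [Set.ncard_coe_finset] at this
        have h4 : rk M ((G \ (X i q : Set α)) ∪ Y i q) ≤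
            rk M (((G \ rest F ∅) ∪ done (fun u => t u ∪ pick e (P u)
            ((fun _ => ∅ : κ → Finset α) u)) ∅ ∪ (fun (_ : ι) => s) i '' (∅ : Finset κ)) ∪
          (rest F ∅ \ X i q) ∪ Y i q) := by
          refine rk_mono M (union_subset_union_left _ ?_)
          intro x hx
          by_cases h : x ∈ rest F ∅
          · exact Or.inr ⟨h, hx.2⟩
          · exact Or.inl (Or.inl (Or.inl ⟨hx.1, h⟩))
        rw [hrkG, Finset.card_empty]
        omega
    | insert u U hu ih =>
      obtain ⟨V, z, hV, hz1, hz2, hc, hsp, hr⟩ := ih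
      obtain ⟨D, hD⟩ : ∃ D, D = (G \ rest F ∅) ∪ done (fun u => t u ∪ pick e (P u) (V u)) U :=
        ⟨_, rfl⟩
      obtain ⟨L, hL⟩ : ∃ L, L = rest F (insert u U) := ⟨_, rfl⟩
      have hrest : rest F U = L ∪ F u := by rw [hL]; exact rest_insert hu
      rw [← hD, hrest] at hc
      simp only [← hD, hrest] at hsp hr
      have hDE : D ⊆ M.E := by
        rw [hD]
        exact union_subset (sdiff_subset.trans hGE) (hdoneE _ _)
      have hLG : L ⊆ G := by rw [hL]; exact hrestG _
      have hRE : ∀ i, D ∪ z i '' U ⊆ M.E := by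
        intro i
        exact (subset_union_left.trans (hsp i).subset_ground)
      have hFu : F u = W u ∪ P u := by rw [hF]
      have hUc : U.card + 1 ≤ Fintype.card κ := by
        rw [← Finset.card_insert_of_notMem hu]
        exact Finset.card_le_univ _
      obtain ⟨Vu, hVu, hVs⟩ := tree_choice (M := M) e (hs u) (P u) (W u) (t u) (hPf u) (he u)
        (ht u) (hW u) (hse u) (hab u) (Finset.univ.filter fun i => used i u)
        (fun i => (D ∪ z i '' U) ∪ L) (fun i => Y i u) (fun i => X i u) θ
        (fun i _ => union_subset (hRE i) (hLG.trans hGE))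
        (fun i hi => hY i u (Finset.mem_filter.1 hi).2)
        (fun i hi => hX i u (Finset.mem_filter.1 hi).2)
        (fun i _ => by
          have := hsp i
          rwa [hFu, ← union_assoc] at this)
        (fun i hi => by
          have h1 := hr i u hu (Finset.mem_filter.1 hi).2
          have h2 : rk M ((D ∪ z i '' U) ∪ ((L ∪ F u) \ X i u) ∪ Y i u) ≤
              rk M (((D ∪ z i '' U) ∪ L) ∪ (W u ∪ (P u \ X i u : Finset α)) ∪ Y i u) := by
            refine rk_mono M (union_subset_union_left _ ?_)
            rintro x (hx | ⟨hx | hx, hx'⟩)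
            · exact Or.inl (Or.inl hx)
            · exact Or.inl (Or.inr hx)
            · rw [hFu] at hx
              rcases hx with hx | hx
              · exact Or.inr (Or.inl hx)
              · refine Or.inr (Or.inr ?_)
                rw [Finset.coe_sdiff]
                exact ⟨hx, hx'⟩
          omega)
        ((Finset.card_filter_le _ _).trans_lt (by rwa [Finset.card_univ]))
      obtain ⟨T, hT⟩ : ∃ T, T = t u ∪ pick e (P u) Vu := ⟨_, rfl⟩
      have hTE : T ⊆ M.E := by rw [hT]; exact htt _ _
      simp only [← hT] at hVs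
      -- closure of the tree
      have hFT : F u ⊆ M.closure (insert (s u) T) := by
        have hY' : insert (s u) T ⊆ M.E := insert_subset (hs u) hTE
        have htT : insert (s u) (t u) ⊆ insert (s u) T := by
          rw [hT]
          exact insert_subset_insert subset_union_left
        rw [hFu]
        refine union_subset ((hW u).trans (M.closure_subset_closure htT)) ?_
        intro v hv
        by_cases hvV : v ∈ Vu
        · refine M.closure_subset_closure_of_subset_closure ?_ (hab u v hv)
          rw [insert_subset_iff]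
          refine ⟨sub_cl hY' (subset_insert _ _) ?_, sub_cl hY' htT⟩
          rw [hT]
          exact Or.inr (Or.inr ⟨v, hv, hvV, rfl⟩)
        · refine sub_cl hY' (subset_insert _ _) ?_
          rw [hT]
          exact Or.inr (Or.inl ⟨hv, hvV⟩)
      have hAE : ∀ i, (D ∪ z i '' U) ∪ L ∪ T ⊆ M.E := fun i =>
        union_subset (union_subset (hRE i) (hLG.trans hGE)) hTE
      have hsp2 : ∀ i, M.Spanning (insert (s u) ((D ∪ z i '' U) ∪ L ∪ T)) := by
        intro i
        have hY' : insert (s u) ((D ∪ z i '' U) ∪ L ∪ T) ⊆ M.E := insert_subset (hs u) (hAE i)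
        refine spanning_of_mem_closure (hsp i) hY' ?_
        refine union_subset ?_ (union_subset ?_ ?_)
        · exact sub_cl hY' ((subset_union_left.trans subset_union_left).trans (subset_insert _ _))
        · exact sub_cl hY' ((subset_union_right.trans subset_union_left).trans (subset_insert _ _))
        · exact hFT.trans (M.closure_subset_closure (insert_subset_insert subset_union_right))
      have hzz : ∀ i, ∃ y, (¬ used i u → y = s u) ∧ (used i u → y ∈ Y i u) ∧
          M.Spanning (insert y ((D ∪ z i '' U) ∪ L ∪ T)) := by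
        intro i
        by_cases hi : used i u
        · obtain ⟨y, hy, hy'⟩ := exists_last (hAE i) (hY i u hi) (hYn i u hi) (hsp2 i)
            (hVs i (Finset.mem_filter.2 ⟨Finset.mem_univ _, hi⟩))
          exact ⟨y, fun h => absurd hi h, fun _ => hy, hy'⟩
        · exact ⟨s u, fun _ => rfl, fun h => absurd h hi, hsp2 i⟩
      choose y hy1 hy2 hy3 using hzz
      have hD' : (G \ rest F ∅) ∪ done (fun w => t w ∪ pick e (P w)
          (Function.update V u Vu w)) (insert u U) = D ∪ T := by
        rw [done_insert, ← union_assoc, hD]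
        congr 1
        · congr 1
          refine done_congr ?_
          intro w hw
          have : w ≠ u := by
            rintro rfl
            exact hu hw
          simp only [Function.update_of_ne this]
        · simp only [Function.update_self]
          rw [hT]
      have hz' : ∀ i, (Function.update (z i) u (y i)) '' ((insert u U : Finset κ) : Set κ) =
          insert (y i) (z i '' U) := by
        intro i
        rw [Finset.coe_insert, image_insert_eq, Function.update_self]
        congr 1
        refine image_congr ?_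
        intro w hw
        have : w ≠ u := by
          rintro rfl
          exact hu hw
        simp only [Function.update_of_ne this]
      have hset : ∀ i, (D ∪ T ∪ insert (y i) (z i '' U)) ∪ L =
          insert (y i) ((D ∪ z i '' U) ∪ L ∪ T) := by
        intro i
        ext x
        simp only [mem_union, mem_insert_iff]
        tauto
      refine ⟨Function.update V u Vu, fun i => Function.update (z i) u (y i), ?_, ?_, ?_, ?_, ?_,
        ?_⟩
      · intro w
        by_cases hw : w = u
        · subst hw
          rw [Function.update_self]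
          exact hVu
        · rw [Function.update_of_ne hw]
          exact hV w
      · intro i w hw hn
        beta_reduce
        by_cases hwu : w = u
        · subst hwu
          rw [Function.update_self]
          exact hy1 i hn
        · rw [Function.update_of_ne hwu]
          exact hz1 i w ((Finset.mem_insert.1 hw).resolve_left hwu) hn
      · intro i w hw hn
        beta_reduce
        by_cases hwu : w = u
        · subst hwu
          rw [Function.update_self]
          exact hy2 i hn
        · rw [Function.update_of_ne hwu]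
          exact hz2 i w ((Finset.mem_insert.1 hw).resolve_left hwu) hn
      · rw [hD', ← hL, Finset.card_insert_of_notMem hu]
        have h1 : (D ∪ T).ncard ≤ D.ncard + T.ncard := ncard_union_le _ _
        have h2 : T.ncard ≤ (t u).ncard + (P u).card := by
          rw [hT]
          exact (ncard_union_le _ _).trans (Nat.add_le_add_left (pick_ncard_le _ _ _) _)
        have h3 : (L ∪ F u).ncard = L.ncard + (F u).ncard := by
          refine Set.ncard_union_eq ?_ (hGf.subset hLG) (hGf.subset (hFG' u))
          rw [Set.disjoint_left, hL]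
          rintro x ⟨w, hw, hx⟩ hx'
          have hwu : w ≠ u := by
            rintro rfl
            exact hw (Finset.mem_insert_self _ _)
          rw [hF] at hx hx'
          exact Set.disjoint_left.1 (hFd w u hwu) hx hx'
        have h4 : (F u).ncard = (W u).ncard + (P u).card := by
          rw [hFu, Set.ncard_union_eq (hWP u) (hGf.subset (subset_union_left.trans (hFG u)))
            (Finset.finite_toSet _), Set.ncard_coe_finset]
        have h5 := hcard u
        omega
      · intro i
        rw [hD', hz' i, ← hL, hset i]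
        exact hy3 i
      · intro i q hq hqu
        rw [Finset.mem_insert, not_or] at hq
        have h1 := hr i q hq.2 hqu
        rw [hD', hz' i, ← hL, Finset.card_insert_of_notMem hu]
        have h2 : rk M ((D ∪ z i '' U) ∪ ((L ∪ F u) \ X i q) ∪ Y i q) ≤
            rk M (insert (s u) ((D ∪ T ∪ insert (y i) (z i '' U)) ∪ (L \ X i q) ∪ Y i q)) := by
          refine rk_le_of_subset_closure ?_
          have hY' : insert (s u) ((D ∪ T ∪ insert (y i) (z i '' U)) ∪ (L \ X i q) ∪ Y i q) ⊆
              M.E := by
            refine insert_subset (hs u) (union_subset ?_ (hY i q hqu))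
            refine union_subset ?_ (sdiff_subset.trans (hLG.trans hGE))
            have := (hy3 i).subset_ground
            rw [← hset i] at this
            exact subset_union_left.trans this
          refine union_subset (union_subset ?_ ?_) ?_
          · refine sub_cl hY' ?_
            rintro x (hx | hx)
            · exact Or.inr (Or.inl (Or.inl (Or.inl (Or.inl hx))))
            · exact Or.inr (Or.inl (Or.inl (Or.inr (Or.inr hx))))
          · rintro x ⟨hx | hx, hx'⟩
            · exact sub_cl hY' (singleton_subset_iff.2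
                (Or.inr (Or.inl (Or.inr ⟨hx, hx'⟩)))) rfl
            · refine M.closure_subset_closure (insert_subset_insert ?_) (hFT hx)
              intro w hw
              exact Or.inl (Or.inl (Or.inl (Or.inr hw)))
          · exact sub_cl hY' (subset_union_right.trans (subset_insert _ _))
        have h3 : rk M (insert (s u) ((D ∪ T ∪ insert (y i) (z i '' U)) ∪ (L \ X i q) ∪ Y i q)) ≤
            rk M ((D ∪ T ∪ insert (y i) (z i '' U)) ∪ (L \ X i q) ∪ Y i q) + 1 := by
          have := rk_union_le M (X := (D ∪ T ∪ insert (y i) (z i '' U)) ∪ (L \ X i q) ∪ Y i q)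
            (Set.finite_singleton (s u))
          rw [union_singleton, ncard_singleton] at this
          exact this
        omega
  obtain ⟨V, z, hV, hz1, hz2, hc, hsp, -⟩ := key Finset.univ
  have hr0 : rest F Finset.univ = ∅ := by
    ext x
    simp [rest]
  rw [hr0, ncard_empty, add_zero, Finset.card_univ] at hc
  refine ⟨V, z, hV, fun i u => hz1 i u (Finset.mem_univ _), fun i u => hz2 i u (Finset.mem_univ _),
    fun i => ?_⟩
  have h1 := hsp i
  rw [hr0, union_empty, Finset.coe_univ, image_univ] at h1
  obtain ⟨D, hD⟩ : ∃ D, D = (G \ rest F ∅) ∪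
    done (fun u => t u ∪ pick e (P u) (V u)) Finset.univ := ⟨_, rfl⟩
  rw [← hD] at h1 hc ⊢
  have hDf : D.Finite := hfin.subset (subset_union_left.trans h1.subset_ground)
  have hzf : (range (z i)).Finite := finite_range _
  have h2 : (D ∪ range (z i)).ncard ≤ D.ncard + (range (z i)).ncard := ncard_union_le _ _
  have h3 : (range (z i)).ncard ≤ Fintype.card κ := by
    rw [← image_univ, ← Nat.card_eq_fintype_card, ← Set.ncard_univ]
    exact ncard_image_le finite_univ
  obtain ⟨B, hB, hBD⟩ := h1.exists_isBase_subset
  have h4 : B.ncard = G.ncard := hB.ncard_eq_ncard_of_isBase hG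
  have h5 : B.ncard ≤ (D ∪ range (z i)).ncard := ncard_le_ncard hBD (hDf.union hzf)
  have h6 : B = D ∪ range (z i) := Set.eq_of_subset_of_ncard_le hBD (by omega) (hDf.union hzf)
  refine ⟨h6 ▸ hB, ?_, ?_⟩
  · have h7 : (range (z i)).ncard = Fintype.card κ := by omega
    rw [← image_univ, ← Nat.card_eq_fintype_card, ← Set.ncard_univ] at h7
    exact injOn_univ.1 (Set.injOn_of_ncard_image_eq h7 finite_univ)
  · exact (Set.ncard_union_eq_iff hDf hzf).1 (by omega)

end Count

end BIC
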