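import Mathlib

/-!
# Ramsey for pairs, and homogenisation of several sequences of positions

`ramsey_pairs`: finitely many colours on pairs of naturals, a homogeneous increasing sequence of
length `N` below some bound.
`Near`, `Sep`: two sequences of positions are interleaved, or separated by a position.
`homog`: for `q` sequences with values pairwise different at different times one subsequence makes
all of them strictly monotone and every two of them near or separated.
-/

namespace RamP

open Finset

lemma endhom {C : Type*} [Fintype C] (col : ℕ → ℕ → C) :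
    ∀ (m : ℕ) (A : Finset ℕ), (Fintype.card C + 1) ^ m ≤ A.card →
      ∃ L : List (ℕ × C), L.length = m ∧ (∀ x ∈ L, x.1 ∈ A) ∧
        L.Pairwise (fun x y => x.1 < y.1 ∧ col x.1 y.1 = x.2) := by
  classical
  intro m
  induction m with
  | zero => intro A _; exact ⟨[], rfl, by simp, List.Pairwise.nil⟩
  | succ m ih =>
    intro A hA
    have hQ : 1 ≤ (Fintype.card C + 1) ^ m := Nat.one_le_pow _ _ (by omega)
    have hA1 : A.Nonempty := Finset.card_pos.1 (by
      have : 0 < (Fintype.card C + 1) ^ (m + 1) := by positivity
      omega)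
    set a := A.min' hA1 with ha
    have hB : (A.erase a).card = A.card - 1 := Finset.card_erase_of_mem (A.min'_mem hA1)
    have hle : (Finset.univ : Finset C).card * (Fintype.card C + 1) ^ m ≤ (A.erase a).card := by
      rw [hB, Finset.card_univ]
      rw [pow_succ, Nat.mul_add, Nat.mul_one, Nat.mul_comm] at hA
      omega
    obtain ⟨c, _, hc⟩ := Finset.exists_le_card_fiber_of_mul_le_card_of_maps_to
      (f := fun b => col a b) (fun b _ => Finset.mem_univ _) ⟨col 0 0, Finset.mem_univ _⟩ hle
    obtain ⟨L, hL1, hL2, hL3⟩ := ih _ hc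
    refine ⟨(a, c) :: L, by simp [hL1], ?_, ?_⟩
    · intro x hx
      rcases List.mem_cons.1 hx with rfl | hx
      · exact A.min'_mem hA1
      · exact Finset.mem_of_mem_erase (Finset.mem_filter.1 (hL2 x hx)).1
    · refine List.Pairwise.cons ?_ hL3
      intro y hy
      have h1 := Finset.mem_filter.1 (hL2 y hy)
      have h2 := Finset.mem_erase.1 h1.1
      refine ⟨lt_of_le_of_ne (A.min'_le _ h2.2) (fun h => h2.1 h.symm), h1.2⟩

/-- Ramsey for pairs. -/
theorem ramsey_pairs (C : Type*) [Fintype C] (N : ℕ) :
    ∃ n : ℕ, ∀ col : ℕ → ℕ → C, ∃ (f : ℕ → ℕ) (c : C), (∀ i < N, f i < n) ∧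
      (∀ i j, i < j → j < N → f i < f j) ∧ ∀ i j, i < j → j < N → col (f i) (f j) = c := by
  classical
  refine ⟨(Fintype.card C + 1) ^ (Fintype.card C * N), ?_⟩
  intro col
  obtain ⟨L, hL1, hL2, hL3⟩ := endhom col (Fintype.card C * N)
    (Finset.range ((Fintype.card C + 1) ^ (Fintype.card C * N))) (by simp)
  -- a popular colour
  have hpig : ∃ c : C, N ≤ (L.filter (fun x => x.2 = c)).length := by
    by_contra hcon
    push Not at hcon
    have h1 : ∀ (L : List (ℕ × C)), L.length = ∑ c : C, (L.filter (fun x => x.2 = c)).length := by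
      intro L
      induction L with
      | nil => simp
      | cons x L ih =>
        rw [List.length_cons, ih]
        have : ∀ c : C, ((x :: L).filter (fun x => x.2 = c)).length =
            (L.filter (fun x => x.2 = c)).length + if x.2 = c then 1 else 0 := by
          intro c
          rw [List.filter_cons]
          by_cases h : x.2 = c
          · simp [h]
          · simp [h]
        rw [Finset.sum_congr rfl (fun c _ => this c), Finset.sum_add_distrib]
        simp
    have h2 := h1 L
    rcases Nat.eq_zero_or_pos (Fintype.card C) with h0 | h0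
    · have : IsEmpty C := Fintype.card_eq_zero_iff.1 h0
      exact this.false (col 0 0)
    · have hne : (Finset.univ : Finset C).Nonempty := ⟨col 0 0, Finset.mem_univ _⟩
      have h3 : ∑ c : C, (L.filter (fun x => x.2 = c)).length < ∑ _c : C, N :=
        Finset.sum_lt_sum_of_nonempty hne (fun c _ => hcon c)
      rw [Finset.sum_const, Finset.card_univ, smul_eq_mul] at h3
      omega
  obtain ⟨c, hc⟩ := hpig
  set L' := L.filter (fun x => x.2 = c) with hL'
  have hP : L'.Pairwise (fun x y => x.1 < y.1 ∧ col x.1 y.1 = x.2) := hL3.filter _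
  refine ⟨fun i => (L'.getD i (0, c)).1, c, ?_, ?_, ?_⟩
  · intro i hi
    have hi' : i < L'.length := by omega
    simp only [List.getD_eq_getElem _ _ hi']
    have h1 : L'[i] ∈ L := (List.mem_filter.1 (List.getElem_mem hi')).1
    exact Finset.mem_range.1 (hL2 _ h1)
  · intro i j hij hj
    have hj' : j < L'.length := by omega
    have hi' : i < L'.length := by omega
    simp only [List.getD_eq_getElem _ _ hi', List.getD_eq_getElem _ _ hj']
    exact (List.pairwise_iff_getElem.1 hP i j hi' hj' hij).1
  · intro i j hij hj
    have hj' : j < L'.length := by omega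
    have hi' : i < L'.length := by omega
    simp only [List.getD_eq_getElem _ _ hi', List.getD_eq_getElem _ _ hj']
    have h1 := (List.pairwise_iff_getElem.1 hP i j hi' hj' hij).2
    rw [h1]
    exact of_decide_eq_true (List.mem_filter.1 (List.getElem_mem hi')).2

/-- Interleaved sequences, in increasing or in decreasing order. -/
def Near (N : ℕ) (y z : ℕ → ℕ) : Prop :=
  (∀ r s, r < s → s < N → y r < y s ∧ y r < z s ∧ z r < y s ∧ z r < z s) ∨
  (∀ r s, r < s → s < N → y s < y r ∧ z s < y r ∧ y s < z r ∧ z s < z r)

/-- Sequences separated by a position. -/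
def Sep (N : ℕ) (y z : ℕ → ℕ) : Prop :=
  (∀ r s, r < N → s < N → y r < z s) ∨ (∀ r s, r < N → s < N → z s < y r)

lemma Near.symm {N : ℕ} {y z : ℕ → ℕ} (h : Near N y z) : Near N z y := by
  rcases h with h | h
  · exact Or.inl fun r s h1 h2 => ⟨(h r s h1 h2).2.2.2, (h r s h1 h2).2.2.1, (h r s h1 h2).2.1,
      (h r s h1 h2).1⟩
  · exact Or.inr fun r s h1 h2 => ⟨(h r s h1 h2).2.2.2, (h r s h1 h2).2.2.1, (h r s h1 h2).2.1,
      (h r s h1 h2).1⟩

lemma Sep.symm {N : ℕ} {y z : ℕ → ℕ} (h : Sep N y z) : Sep N z y := by
  rcases h with h | h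
  · exact Or.inr fun r s h1 h2 => h s r h2 h1
  · exact Or.inl fun r s h1 h2 => h s r h2 h1

lemma Near.mono {N N' : ℕ} {y z : ℕ → ℕ} (h : Near N y z) (hN : N' ≤ N) : Near N' y z := by
  rcases h with h | h
  · exact Or.inl fun r s h1 h2 => h r s h1 (by omega)
  · exact Or.inr fun r s h1 h2 => h r s h1 (by omega)

lemma Sep.mono {N N' : ℕ} {y z : ℕ → ℕ} (h : Sep N y z) (hN : N' ≤ N) : Sep N' y z := by
  rcases h with h | h
  · exact Or.inl fun r s h1 h2 => h r s (by omega) (by omega)
  · exact Or.inr fun r s h1 h2 => h r s (by omega) (by omega)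

/-- Strictly monotone on `[0, N)`. -/
def Mon (N : ℕ) (y : ℕ → ℕ) : Prop :=
  (∀ r s, r < s → s < N → y r < y s) ∨ ∀ r s, r < s → s < N → y s < y r

lemma Mon.mono {N N' : ℕ} {y : ℕ → ℕ} (h : Mon N y) (hN : N' ≤ N) : Mon N' y := by
  rcases h with h | h
  · exact Or.inl fun r s h1 h2 => h r s h1 (by omega)
  · exact Or.inr fun r s h1 h2 => h r s h1 (by omega)

lemma Mon.near {N : ℕ} {y : ℕ → ℕ} (h : Mon N y) : Near N y y := by
  rcases h with h | h
  · exact Or.inl fun r s h1 h2 => ⟨h r s h1 h2, h r s h1 h2, h r s h1 h2, h r s h1 h2⟩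
  · exact Or.inr fun r s h1 h2 => ⟨h r s h1 h2, h r s h1 h2, h r s h1 h2, h r s h1 h2⟩

/-- Near is transitive when near / separated is a dichotomy. -/
lemma Near.trans {N : ℕ} (hN : 3 ≤ N) {y z w : ℕ → ℕ} (h1 : Near N y z) (h2 : Near N z w)
    (h3 : Near N y w ∨ Sep N y w) : Near N y w := by
  rcases h3 with h3 | h3
  · exact h3
  · exfalso
    rcases h1 with h1 | h1 <;> rcases h2 with h2 | h2
    · have a1 := (h1 0 1 (by omega) (by omega)).2.1
      have a2 := (h2 1 2 (by omega) (by omega)).2.1
      have a3 := (h2 0 1 (by omega) (by omega)).2.2.1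
      have a4 := (h1 1 2 (by omega) (by omega)).2.2.1
      rcases h3 with h3 | h3
      · have := h3 2 0 (by omega) (by omega)
        omega
      · have := h3 0 2 (by omega) (by omega)
        omega
    · have a1 := (h1 0 1 (by omega) (by omega)).2.2.2
      have a2 := (h2 0 1 (by omega) (by omega)).1
      omega
    · have a1 := (h1 0 1 (by omega) (by omega)).2.2.2
      have a2 := (h2 0 1 (by omega) (by omega)).1
      omega
    · have a1 := (h1 0 1 (by omega) (by omega)).2.1
      have a2 := (h2 1 2 (by omega) (by omega)).2.1
      have a3 := (h2 0 1 (by omega) (by omega)).2.2.1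
      have a4 := (h1 1 2 (by omega) (by omega)).2.2.1
      rcases h3 with h3 | h3
      · have := h3 0 2 (by omega) (by omega)
        omega
      · have := h3 2 0 (by omega) (by omega)
        omega

/-- Homogenisation: finitely many sequences of positions and a unary colouring. -/
theorem homog (ι : Type*) [Fintype ι] [DecidableEq ι] (N : ℕ) (U : Type*) [Fintype U] :
    ∃ n : ℕ, ∀ (P : ι → ℕ → ℕ) (u : ℕ → U),
    (∀ i j r s, r < n → s < n → r ≠ s → P i r ≠ P j s) →
    ∃ f : ℕ → ℕ, (∀ i < N, f i < n) ∧ (∀ i j, i < j → j < N → f i < f j) ∧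
      (∃ c, ∀ i < N, u (f i) = c) ∧
      (∀ i, Mon N (fun r => P i (f r))) ∧
      ∀ i j, Near N (fun r => P i (f r)) (fun r => P j (f r)) ∨
        Sep N (fun r => P i (f r)) (fun r => P j (f r)) := by
  classical
  obtain ⟨n, hn⟩ := ramsey_pairs ((ι → ι → Bool) × U) (N + 2)
  refine ⟨n, ?_⟩
  intro P u hP
  obtain ⟨f, ⟨c, c'⟩, hf1, hf2, hf3'⟩ :=
    hn (fun r s => ((fun i j => decide (P i r < P j s)), u r))
  have hf3 : ∀ i j, i < j → j < N + 2 → (fun i' j' => decide (P i' (f i) < P j' (f j))) = c :=
    fun i j h1 h2 => (Prod.ext_iff.1 (hf3' i j h1 h2)).1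
  have hf4 : ∀ i, i + 1 < N + 2 → u (f i) = c' :=
    fun i h1 => (Prod.ext_iff.1 (hf3' i (i + 1) (Nat.lt_succ_self i) h1)).2
  have hlt : ∀ i j r s, r < s → s < N + 2 → (P i (f r) < P j (f s) ↔ c i j = true) := by
    intro i j r s hrs hs
    have h := congrFun (congrFun (hf3 r s hrs hs) i) j
    rw [← h]
    simp
  have hgt : ∀ i j r s, r < s → s < N + 2 → (P j (f s) < P i (f r) ↔ c i j = false) := by
    intro i j r s hrs hs
    have h := hlt i j r s hrs hs
    have hne : P i (f r) ≠ P j (f s) := hP i j (f r) (f s) (hf1 r (by omega)) (hf1 s hs)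
      (by have := hf2 r s hrs hs; omega)
    cases hc : c i j
    · rw [hc] at h
      simp only [Bool.false_eq_true, iff_false, not_lt] at h
      simp only [iff_true]
      omega
    · rw [hc] at h
      simp only [iff_true] at h
      simp only [Bool.true_eq_false, iff_false, not_lt]
      omega
  refine ⟨fun i => f (i + 1), fun i hi => hf1 _ (by omega), fun i j hij hj =>
    hf2 _ _ (by omega) (by omega), ⟨c', fun i hi => hf4 (i + 1) (by omega)⟩, ?_, ?_⟩
  · intro i
    cases hc : c i i
    · right
      intro r s hrs hs
      exact (hgt i i (r + 1) (s + 1) (by omega) (by omega)).2 hc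
    · left
      intro r s hrs hs
      exact (hlt i i (r + 1) (s + 1) (by omega) (by omega)).2 hc
  · intro i j
    -- `c i j`, `c j i`
    cases h1 : c i j <;> cases h2 : c j i
    · -- `P j (s) < P i (r)` and `P i (s) < P j (r)` for `r < s`: both decreasing
      by_cases hN : 1 < N
      · left; right
        intro r s hrs hs
        have a1 := (hgt i j (r + 1) (s + 1) (by omega) (by omega)).2 h1
        have a2 := (hgt j i (r + 1) (s + 1) (by omega) (by omega)).2 h2
        refine ⟨?_, a1, a2, ?_⟩
        · cases hc : c i i
          · exact (hgt i i (r + 1) (s + 1) (by omega) (by omega)).2 hc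
          · exfalso
            have b1 := (hlt i i 0 1 (by omega) (by omega)).2 hc
            have b2 := (hgt i j 1 2 (by omega) (by omega)).2 h1
            have b3 := (hgt j i 0 1 (by omega) (by omega)).2 h2
            have b4 := (hgt j i 2 3 (by omega) (by omega)).2 h2
            have b5 := (hlt i i 1 3 (by omega) (by omega)).2 hc
            omega
        · cases hc : c j j
          · exact (hgt j j (r + 1) (s + 1) (by omega) (by omega)).2 hc
          · exfalso
            have b1 := (hlt j j 0 1 (by omega) (by omega)).2 hc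
            have b2 := (hgt j i 1 2 (by omega) (by omega)).2 h2
            have b4 := (hgt i j 2 3 (by omega) (by omega)).2 h1
            have b5 := (hlt j j 1 3 (by omega) (by omega)).2 hc
            omega
      · left; right
        intro r s hrs hs
        omega
    · -- `P j s < P i r` for `r < s` and `P j r < P i s` for `r < s`: `z < y`
      right; right
      intro r s hr hs
      rcases Nat.lt_trichotomy r s with h | h | h
      · exact (hgt i j (r + 1) (s + 1) (by omega) (by omega)).2 h1
      · subst h
        -- compare `P j (r+1)`, `P i (r+1)` through `0` and `N + 1`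
        cases hc : c j j
        · have b1 := (hgt j j 0 (r + 1) (by omega) (by omega)).2 hc
          have b2 := (hlt j i 0 (r + 1) (by omega) (by omega)).2 h2
          simp only
          omega
        · have b1 := (hlt j j (r + 1) (N + 1) (by omega) (by omega)).2 hc
          have b2 := (hgt i j (r + 1) (N + 1) (by omega) (by omega)).2 h1
          simp only
          omega
      · exact (hlt j i (s + 1) (r + 1) (by omega) (by omega)).2 h2
    · -- symmetric: `y < z`
      right; left
      intro r s hr hs
      rcases Nat.lt_trichotomy r s with h | h | h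
      · exact (hlt i j (r + 1) (s + 1) (by omega) (by omega)).2 h1
      · subst h
        cases hc : c i i
        · have b1 := (hgt i i 0 (r + 1) (by omega) (by omega)).2 hc
          have b2 := (hlt i j 0 (r + 1) (by omega) (by omega)).2 h1
          simp only
          omega
        · have b1 := (hlt i i (r + 1) (N + 1) (by omega) (by omega)).2 hc
          have b2 := (hgt j i (r + 1) (N + 1) (by omega) (by omega)).2 h2
          simp only
          omega
      · exact (hgt j i (s + 1) (r + 1) (by omega) (by omega)).2 h2
    · -- both increasing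
      by_cases hN : 1 < N
      · left; left
        intro r s hrs hs
        have a1 := (hlt i j (r + 1) (s + 1) (by omega) (by omega)).2 h1
        have a2 := (hlt j i (r + 1) (s + 1) (by omega) (by omega)).2 h2
        refine ⟨?_, a1, a2, ?_⟩
        · cases hc : c i i
          · exfalso
            have b2 := (hlt i j 1 2 (by omega) (by omega)).2 h1
            have b4 := (hlt j i 2 3 (by omega) (by omega)).2 h2
            have b5 := (hgt i i 1 3 (by omega) (by omega)).2 hc
            omega
          · exact (hlt i i (r + 1) (s + 1) (by omega) (by omega)).2 hc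
        · cases hc : c j j
          · exfalso
            have b2 := (hlt j i 1 2 (by omega) (by omega)).2 h2
            have b4 := (hlt i j 2 3 (by omega) (by omega)).2 h1
            have b5 := (hgt j j 1 3 (by omega) (by omega)).2 hc
            omega
          · exact (hlt j j (r + 1) (s + 1) (by omega) (by omega)).2 hc
      · left; left
        intro r s hrs hs
        omega

end RamP
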