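import Pool.Agent.GL.Rand
import Pool.Agent.Helper34.BIC.CoreThm

/-!
# Grids with a joint at every vertex

`JGrid M S t j ed`: `S` has the basis `j c`, `c` in the `t × t` array, and for neighbours `c, c'`
the element `ed c c'` lies on the line of `j c` and `j c'` and is parallel to neither.
No condition on gains: this covers the graphic matroid of the grid with an apex.
-/

open Set

namespace Gad

open BIC

variable {α : Type*}

/-- Cells of the `t × t` array. -/
def Cl (t : ℕ) : Set (ℕ × ℕ) := {c | c.1 < t ∧ c.2 < t}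

/-- Neighbours in the `t × t` array. -/
def Nb (t : ℕ) (c c' : ℕ × ℕ) : Prop :=
  c ∈ Cl t ∧ c' ∈ Cl t ∧ ((c.1 = c'.1 ∧ (c.2 + 1 = c'.2 ∨ c'.2 + 1 = c.2)) ∨
    (c.2 = c'.2 ∧ (c.1 + 1 = c'.1 ∨ c'.1 + 1 = c.1)))

lemma Nb.ne {t : ℕ} {c c' : ℕ × ℕ} (h : Nb t c c') : c ≠ c' := by
  rintro rfl
  rcases h.2.2 with ⟨_, h | h⟩ | ⟨_, h | h⟩ <;> omega

structure JGrid (M : Matroid α) (S : Set α) (t : ℕ) (j : ℕ × ℕ → α)
    (ed : ℕ × ℕ → ℕ × ℕ → α) : Prop where
  inj : InjOn j (Cl t)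
  basis : M.IsBasis (j '' Cl t) S
  mem : ∀ c c', Nb t c c' → ed c c' ∈ S
  h1 : ∀ c c', Nb t c c' → ed c c' ∈ M.closure {j c, j c'}
  h2 : ∀ c c', Nb t c c' → j c ∈ M.closure {j c', ed c c'}
  h3 : ∀ c c', Nb t c c' → j c' ∈ M.closure {j c, ed c c'}

namespace JGrid

variable {M : Matroid α} {S : Set α} {t : ℕ} {j : ℕ × ℕ → α} {ed : ℕ × ℕ → ℕ × ℕ → α}

/-- Change of coordinates. -/
lemma coord (h : JGrid M S t j ed) (σ : ℕ × ℕ → ℕ × ℕ) (hσ : BijOn σ (Cl t) (Cl t))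
    (hn : ∀ c c', Nb t c c' → Nb t (σ c) (σ c')) :
    JGrid M S t (fun c => j (σ c)) (fun c c' => ed (σ c) (σ c')) where
  inj := fun c hc c' hc' hcc => hσ.injOn hc hc' (h.inj (hσ.mapsTo hc) (hσ.mapsTo hc') hcc)
  basis := by
    have : (fun c => j (σ c)) '' Cl t = j '' Cl t := by
      rw [show (fun c => j (σ c)) = j ∘ σ from rfl, image_comp, hσ.image_eq]
    rw [this]
    exact h.basis
  mem := fun c c' hcc => h.mem _ _ (hn c c' hcc)
  h1 := fun c c' hcc => h.h1 _ _ (hn c c' hcc)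
  h2 := fun c c' hcc => h.h2 _ _ (hn c c' hcc)
  h3 := fun c c' hcc => h.h3 _ _ (hn c c' hcc)

lemma transpose (h : JGrid M S t j ed) :
    JGrid M S t (fun c => j (c.2, c.1)) (fun c c' => ed (c.2, c.1) (c'.2, c'.1)) := by
  refine h.coord (fun c => (c.2, c.1)) ⟨fun c hc => ⟨hc.2, hc.1⟩, ?_, ?_⟩ ?_
  · rintro ⟨a, b⟩ _ ⟨a', b'⟩ _ hcc
    simp only [Prod.mk.injEq] at hcc ⊢
    exact ⟨hcc.2, hcc.1⟩
  · rintro ⟨a, b⟩ hc
    exact ⟨(b, a), ⟨hc.2, hc.1⟩, rfl⟩
  · rintro c c' ⟨h1, h2, h3⟩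
    exact ⟨⟨h1.2, h1.1⟩, ⟨h2.2, h2.1⟩, h3.symm⟩

lemma reflectDepth (h : JGrid M S t j ed) :
    JGrid M S t (fun c => j (c.1, t - 1 - c.2))
      (fun c c' => ed (c.1, t - 1 - c.2) (c'.1, t - 1 - c'.2)) := by
  refine h.coord (fun c => (c.1, t - 1 - c.2)) ⟨?_, ?_, ?_⟩ ?_
  · rintro ⟨a, b⟩ ⟨h1, h2⟩
    exact ⟨h1, by simp only at h2 ⊢; omega⟩
  · rintro ⟨a, b⟩ ⟨h1, h2⟩ ⟨a', b'⟩ ⟨h1', h2'⟩ hcc
    simp only [Prod.mk.injEq] at hcc h1 h2 h1' h2' ⊢
    omega
  · rintro ⟨a, b⟩ ⟨h1, h2⟩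
    simp only at h1 h2
    refine ⟨(a, t - 1 - b), ⟨h1, by simp only; omega⟩, ?_⟩
    simp only [Prod.mk.injEq, true_and]
    omega
  · rintro ⟨a, b⟩ ⟨a', b'⟩ ⟨⟨h1, h2⟩, ⟨h1', h2'⟩, h3⟩
    simp only at h1 h2 h1' h2' h3
    refine ⟨⟨h1, by simp only; omega⟩, ⟨h1', by simp only; omega⟩, ?_⟩
    simp only
    omega

lemma ed_notMem [M.Finite] (h : JGrid M S t j ed) {G : Set α} (hG : M.Indep G)
    (hJG : j '' Cl t ⊆ G) {c c' : ℕ × ℕ} (hn : Nb t c c') : ed c c' ∉ G := by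
  intro hmem
  have hjc : j c ∈ G := hJG ⟨c, hn.1, rfl⟩
  have hjc' : j c' ∈ G := hJG ⟨c', hn.2.1, rfl⟩
  have hne : j c ≠ j c' := fun hh => hn.ne (h.inj hn.1 hn.2.1 hh)
  have hsub : ({j c, j c'} : Set α) ⊆ G := by
    rintro e (rfl | rfl)
    · exact hjc
    · exact hjc'
  have h1 : ed c c' ∈ ({j c, j c'} : Set α) := by
    by_contra hcon
    have h4 := hG.notMem_closure_sdiff_of_mem hmem
    apply h4
    refine M.closure_subset_closure ?_ (h.h1 c c' hn)
    exact fun e he => ⟨hsub he, fun hh => hcon (hh ▸ he)⟩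
  rcases h1 with h1 | h1
  · have h4 := h.h3 c c' hn
    rw [h1, pair_eq_singleton] at h4
    refine hG.notMem_closure_sdiff_of_mem hjc' (M.closure_subset_closure ?_ h4)
    rintro e rfl
    exact ⟨hjc, fun hh => hne hh⟩
  · have h1' : ed c c' = j c' := h1
    have h4 := h.h2 c c' hn
    rw [h1', pair_eq_singleton] at h4
    refine hG.notMem_closure_sdiff_of_mem hjc (M.closure_subset_closure ?_ h4)
    rintro e rfl
    exact ⟨hjc', fun hh => hne hh.symm⟩

end JGrid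

/-! ### Combs -/

/-- The comb with leaves at the lines `A` and spine at depth `D`; teeth start below depth `pd l`. -/
structure Comb where
  A : Finset ℕ
  l₁ : ℕ
  l₂ : ℕ
  D : ℕ
  pd : ℕ → ℕ

namespace Comb

/-- The cells of the comb. -/
def cells (K : Comb) : Set (ℕ × ℕ) :=
  {c | (c.2 = K.D ∧ K.l₁ ≤ c.1 ∧ c.1 ≤ K.l₂) ∨ (c.1 ∈ K.A ∧ K.pd c.1 < c.2 ∧ c.2 ≤ K.D)}

/-- Parent of a cell. -/
def par (K : Comb) (c : ℕ × ℕ) : ℕ × ℕ := if c.2 < K.D then (c.1, c.2 + 1) else (c.1 - 1, c.2)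

def root (K : Comb) : ℕ × ℕ := (K.l₁, K.D)

def ht (K : Comb) (c : ℕ × ℕ) : ℕ := (K.D - c.2) + (c.1 - K.l₁)

structure Ok (K : Comb) (t : ℕ) : Prop where
  le : K.l₁ ≤ K.l₂
  lt : K.l₂ < t
  Dt : K.D < t
  A : ∀ l ∈ K.A, K.l₁ ≤ l ∧ l ≤ K.l₂ ∧ K.pd l < K.D

lemma root_mem {K : Comb} {t : ℕ} (h : K.Ok t) : K.root ∈ K.cells :=
  Or.inl ⟨rfl, le_refl _, h.le⟩

lemma cells_sub {K : Comb} {t : ℕ} (h : K.Ok t) : K.cells ⊆ Cl t := by
  rintro ⟨l, d⟩ (⟨h1, h2, h3⟩ | ⟨h1, h2, h3⟩)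
  · simp only at h1 h2 h3
    have := h.lt
    have := h.Dt
    exact ⟨by simp only; omega, by simp only; omega⟩
  · simp only at h1 h2 h3
    have := h.A l h1
    have := h.lt
    have := h.Dt
    exact ⟨by simp only; omega, by simp only; omega⟩

lemma par_spec {K : Comb} {t : ℕ} (h : K.Ok t) {c : ℕ × ℕ} (hc : c ∈ K.cells)
    (hr : c ≠ K.root) : K.par c ∈ K.cells ∧ Nb t c (K.par c) ∧ K.ht (K.par c) < K.ht c := by
  obtain ⟨l, d⟩ := c
  have hD := h.Dt
  have hl := h.lt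
  unfold par
  rcases hc with ⟨h1, h2, h3⟩ | ⟨h1, h2, h3⟩
  · simp only at h1 h2 h3
    subst h1
    have hne : l ≠ K.l₁ := by
      rintro rfl
      exact hr rfl
    simp only [lt_irrefl, if_false]
    refine ⟨Or.inl ⟨rfl, by simp only; omega, by simp only; omega⟩, ⟨⟨?_, ?_⟩, ⟨?_, ?_⟩, ?_⟩, ?_⟩
    · simp only; omega
    · simp only; omega
    · simp only; omega
    · simp only; omega
    · exact Or.inr ⟨rfl, Or.inr (by simp only; omega)⟩
    · unfold ht; simp only; omega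
  · simp only at h1 h2 h3
    have hA := h.A l h1
    by_cases hd : d < K.D
    · simp only [hd, if_true]
      refine ⟨Or.inr ⟨h1, by simp only; omega, by simp only; omega⟩,
        ⟨⟨?_, ?_⟩, ⟨?_, ?_⟩, ?_⟩, ?_⟩
      · simp only; omega
      · simp only; omega
      · simp only; omega
      · simp only; omega
      · exact Or.inl ⟨rfl, Or.inl rfl⟩
      · unfold ht; simp only; omega
    · have hd' : d = K.D := by omega
      subst hd'
      have hne : l ≠ K.l₁ := by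
        rintro rfl
        exact hr rfl
      simp only [lt_irrefl, if_false]
      refine ⟨Or.inl ⟨rfl, by simp only; omega, by simp only; omega⟩,
        ⟨⟨?_, ?_⟩, ⟨?_, ?_⟩, ?_⟩, ?_⟩
      · simp only; omega
      · simp only; omega
      · simp only; omega
      · simp only; omega
      · exact Or.inr ⟨rfl, Or.inr (by simp only; omega)⟩
      · unfold ht; simp only; omega

/-- The leaf at the line `l`. -/
lemma leaf_spec {K : Comb} {t : ℕ} (h : K.Ok t) {l : ℕ} (hl : l ∈ K.A) :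
    K.par (l, K.pd l) ∈ K.cells ∧ Nb t (l, K.pd l) (K.par (l, K.pd l)) := by
  have hA := h.A l hl
  have hD := h.Dt
  have hlt := h.lt
  unfold par
  simp only [hA.2.2, if_true]
  refine ⟨Or.inr ⟨hl, by simp only; omega, by simp only; omega⟩, ⟨⟨?_, ?_⟩, ⟨?_, ?_⟩, ?_⟩⟩
  · simp only; omega
  · simp only; omega
  · simp only; omega
  · simp only; omega
  · exact Or.inl ⟨rfl, Or.inl rfl⟩

end Comb

/-! ### Leaf data from combs -/

section combs

variable {κ π : Type*} {M : Matroid α} {S : Set α} {t : ℕ} {j : ℕ × ℕ → α}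
  {ed : ℕ × ℕ → ℕ × ℕ → α}

/-- The tree edges of the combs. -/
def treeE (ed : ℕ × ℕ → ℕ × ℕ → α) (K : κ → Comb) : Set α :=
  {e | ∃ u, ∃ c ∈ (K u).cells, c ≠ (K u).root ∧ e = ed c ((K u).par c)}

/-- All cells of the combs. -/
def allC (K : κ → Comb) : Set (ℕ × ℕ) := {c | ∃ u, c ∈ (K u).cells}

/-- The fixed contracted set. -/
def fixC (j : ℕ × ℕ → α) (ed : ℕ × ℕ → ℕ × ℕ → α) (K : κ → Comb) (t : ℕ) (Ψ : Set α)
    (X : Finset α) : Set α :=
  ((j '' Cl t ∪ Ψ) \ (j '' allC K ∪ (X : Set α))) ∪ treeE ed K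

lemma comb_up (h : JGrid M S t j ed) {K : Comb} (hK : K.Ok t) {C : Set α} (hCE : C ⊆ M.E)
    (hC : ∀ c ∈ K.cells, c ≠ K.root → ed c (K.par c) ∈ C) :
    ∀ n, ∀ c ∈ K.cells, K.ht c = n → j c ∈ M.closure (insert (j K.root) C) ∧
      j K.root ∈ M.closure (insert (j c) C) := by
  intro n
  induction n using Nat.strong_induction_on with
  | _ n ih =>
    intro c hc hn
    by_cases hr : c = K.root
    · subst hr
      have hjE : j K.root ∈ M.E := by
        have := h.basis.subset ⟨K.root, Comb.cells_sub hK hc, rfl⟩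
        exact h.basis.subset_ground this
      have hmem : j K.root ∈ M.closure (insert (j K.root) C) :=
        M.mem_closure_of_mem' (mem_insert _ _) hjE
      exact ⟨hmem, hmem⟩
    · obtain ⟨h1, h2, h3⟩ := Comb.par_spec hK hc hr
      obtain ⟨h4, h5⟩ := ih _ (by omega) _ h1 rfl
      have hed := hC c hc hr
      constructor
      · refine M.closure_subset_closure_of_subset_closure ?_ (h.h2 _ _ h2)
        rintro e (rfl | rfl)
        · exact h4
        · exact M.mem_closure_of_mem' (mem_insert_of_mem _ hed) (hCE hed)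
      · refine M.closure_subset_closure_of_subset_closure ?_ h5
        rintro e (rfl | he)
        · refine M.closure_subset_closure ?_ (h.h3 _ _ h2)
          rintro f (rfl | rfl)
          · exact mem_insert _ _
          · exact mem_insert_of_mem _ hed
        · exact M.mem_closure_of_mem' (mem_insert_of_mem _ he) (hCE he)

lemma fixC_sub (h : JGrid M S t j ed) {Ψ : Set α} (hΨ : Ψ ⊆ M.E) {K : κ → Comb}
    (hK : ∀ u, (K u).Ok t) (X : Finset α) : fixC j ed K t Ψ X ⊆ M.E := by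
  rintro e (⟨he | he, _⟩ | ⟨u, c, hc, hr, rfl⟩)
  · exact h.basis.subset_ground (h.basis.subset he)
  · exact hΨ he
  · exact h.basis.subset_ground (h.mem _ _ (Comb.par_spec (hK u) hc hr).2.1)

/-- The joints of a comb are equivalent to the joint of its root modulo the fixed set. -/
lemma comb_closure (h : JGrid M S t j ed) {Ψ : Set α} (hΨ : Ψ ⊆ M.E) {K : κ → Comb}
    (hK : ∀ u, (K u).Ok t) (X : Finset α) (u : κ) {c : ℕ × ℕ} (hc : c ∈ (K u).cells) :
    j c ∈ M.closure (insert (j (K u).root) (fixC j ed K t Ψ X)) ∧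
      j (K u).root ∈ M.closure (insert (j c) (fixC j ed K t Ψ X)) :=
  comb_up h (hK u) (fixC_sub h hΨ hK X) (fun c hc hr => Or.inr ⟨u, c, hc, hr, rfl⟩) _ c hc rfl

theorem leafData [M.Finite] (h : JGrid M S t j ed) {Ψ : Set α}
    (hG : M.IsBase (j '' Cl t ∪ Ψ)) {K : κ → Comb} (hK : ∀ u, (K u).Ok t)
    (hd : ∀ u u', u ≠ u' → Disjoint (K u).cells (K u').cells) {row : π → κ}
    {BX : π → Finset α} {X : Finset α} {f : α → ℕ × ℕ}
    (hcov : ∀ v, v ∈ X ↔ ∃ p, v ∈ BX p)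
    (hf : ∀ v ∈ X, f v ∈ Cl t ∧ j (f v) = v ∧ (f v).2 + 1 < t)
    (hleaf : ∀ p, ∀ v ∈ BX p, ((f v).1, (f v).2 + 1) ∈ (K (row p)).cells)
    (hout : ∀ v ∈ X, ∀ u, f v ∉ (K u).cells) :
    LeafData M (fixC j ed K t Ψ X) (fun u => j (K u).root)
      (fun v => ed (f v) ((f v).1, (f v).2 + 1)) row BX X := by
  classical
  have hΨE : Ψ ⊆ M.E := fun e he => hG.subset_ground (Or.inr he)
  have hjE : ∀ c ∈ Cl t, j c ∈ M.E := fun c hc => hG.subset_ground (Or.inl ⟨c, hc, rfl⟩)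
  have hCE := fixC_sub h hΨE hK X
  have hcc := fun u {c : ℕ × ℕ} (hc : c ∈ (K u).cells) => comb_closure h hΨE hK X u hc
  have hXG : (X : Set α) ⊆ j '' Cl t ∪ Ψ := by
    intro v hv
    obtain ⟨h1, h2, _⟩ := hf v hv
    exact Or.inl ⟨f v, h1, h2⟩
  have hXE : (X : Set α) ⊆ M.E := hXG.trans hG.subset_ground
  have hnb : ∀ v ∈ X, Nb t (f v) ((f v).1, (f v).2 + 1) := by
    intro v hv
    obtain ⟨h1, _, h3⟩ := hf v hv
    exact ⟨h1, ⟨h1.1, h3⟩, Or.inl ⟨rfl, Or.inl rfl⟩⟩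
  have hroot : ∀ u, (K u).root ∈ (K u).cells := fun u => Comb.root_mem (hK u)
  have hedG : ∀ c c', Nb t c c' → ed c c' ∉ j '' Cl t ∪ Ψ := fun c c' hn =>
    h.ed_notMem hG.indep subset_union_left hn
  have htreeG : ∀ e ∈ treeE ed K, e ∉ j '' Cl t ∪ Ψ := by
    rintro _ ⟨u, c, hc, hr, rfl⟩
    exact hedG _ _ (Comb.par_spec (hK u) hc hr).2.1
  refine ⟨?_, ?_, ?_, ?_, ?_, hcov, ?_, ?_, ?_⟩
  · -- base
    have hxE : ∀ u, j (K u).root ∈ M.E := fun u => hjE _ (Comb.cells_sub (hK u) (hroot u))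
    have hBE : fixC j ed K t Ψ X ∪ range (fun u => j (K u).root) ∪ (X : Set α) ⊆ M.E := by
      refine union_subset (union_subset hCE ?_) hXE
      rintro _ ⟨u, rfl⟩
      exact hxE u
    refine base_of_spanning hG ?_ ?_
    · rw [Matroid.spanning_iff_ground_subset_closure hBE, ← hG.closure_eq]
      refine M.closure_subset_closure_of_subset_closure ?_
      intro g hg
      by_cases hgW : g ∈ j '' allC K
      · obtain ⟨c, ⟨u, hc⟩, rfl⟩ := hgW
        refine M.closure_subset_closure ?_ (hcc u hc).1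
        rintro e (rfl | he)
        · exact Or.inl (Or.inr ⟨u, rfl⟩)
        · exact Or.inl (Or.inl he)
      · refine M.mem_closure_of_mem' ?_ (hG.subset_ground hg)
        by_cases hgX : g ∈ X
        · exact Or.inr hgX
        · refine Or.inl (Or.inl (Or.inl ⟨hg, ?_⟩))
          rintro (h4 | h4)
          · exact hgW h4
          · exact hgX h4
    · -- count
      have hown : ∀ c : ℕ × ℕ, c ∈ allC K → ∃ u, c ∈ (K u).cells := fun c hc => hc
      set P : Set (ℕ × ℕ) := {c | ∃ u, c ∈ (K u).cells ∧ c ≠ (K u).root} with hP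
      have hPC : P ⊆ Cl t := by
        rintro c ⟨u, hc, _⟩
        exact Comb.cells_sub (hK u) hc
      have hClf : (Cl t).Finite := by
        refine ((Set.finite_lt_nat t).prod (Set.finite_lt_nat t)).subset ?_
        intro c hc
        exact ⟨hc.1, hc.2⟩
      have hPf : P.Finite := hClf.subset hPC
      have hfun : ∃ g : ℕ × ℕ → α, ∀ u, ∀ c ∈ (K u).cells, g c = ed c ((K u).par c) := by
        refine ⟨fun c => if hc : ∃ u, c ∈ (K u).cells then ed c ((K hc.choose).par c) else j c, ?_⟩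
        intro u c hc
        have hex : ∃ u, c ∈ (K u).cells := ⟨u, hc⟩
        simp only [dif_pos hex]
        have : hex.choose = u := by
          by_contra hne
          exact Set.disjoint_left.1 (hd _ _ hne) hex.choose_spec hc
        rw [this]
      obtain ⟨g, hg⟩ := hfun
      have hsub : fixC j ed K t Ψ X ∪ range (fun u => j (K u).root) ∪ (X : Set α) ⊆
          ((j '' Cl t ∪ Ψ) \ j '' P) ∪ g '' P := by
        rintro e (((⟨he, he'⟩ | ⟨u, c, hc, hr, rfl⟩) | ⟨u, rfl⟩) | he)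
        · refine Or.inl ⟨he, ?_⟩
          rintro ⟨c, ⟨u, hc, _⟩, rfl⟩
          exact he' (Or.inl ⟨c, ⟨u, hc⟩, rfl⟩)
        · exact Or.inr ⟨c, ⟨u, hc, hr⟩, hg u c hc⟩
        · refine Or.inl ⟨Or.inl ⟨_, Comb.cells_sub (hK u) (hroot u), rfl⟩, ?_⟩
          rintro ⟨c, ⟨u', hc, hr⟩, hjc⟩
          have h4 := h.inj (Comb.cells_sub (hK u') hc) (Comb.cells_sub (hK u) (hroot u)) hjc
          subst h4
          by_cases huu : u' = u
          · subst huu
            exact hr rfl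
          · exact Set.disjoint_left.1 (hd _ _ huu) hc (hroot u)
        · refine Or.inl ⟨hXG he, ?_⟩
          rintro ⟨c, ⟨u', hc, hr⟩, hjc⟩
          obtain ⟨h1, h2, _⟩ := hf e he
          rw [← h2] at hjc
          have h4 := h.inj (Comb.cells_sub (hK u') hc) h1 hjc
          subst h4
          exact hout e he u' hc
      have hGf := base_fin hG
      have hjP : j '' P ⊆ j '' Cl t ∪ Ψ := (image_mono hPC).trans subset_union_left
      have a1 := Set.ncard_le_ncard hsub ((hGf.subset sdiff_subset).union (hPf.image _))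
      have a2 := Set.ncard_union_le ((j '' Cl t ∪ Ψ) \ j '' P) (g '' P)
      have a3 := Set.ncard_image_le (f := g) hPf
      have a4 := Set.ncard_sdiff_add_ncard_of_subset hjP hGf
      rw [(h.inj.mono hPC).ncard_image] at a4
      omega
  · -- injectivity
    intro u u' huu
    by_contra hne
    have h4 := h.inj (Comb.cells_sub (hK u) (hroot u)) (Comb.cells_sub (hK u') (hroot u')) huu
    exact Set.disjoint_left.1 (hd _ _ hne) (hroot u) (h4 ▸ hroot u')
  · intro u hmem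
    rcases hmem with ⟨_, h4⟩ | h4
    · exact h4 (Or.inl ⟨_, ⟨u, hroot u⟩, rfl⟩)
    · exact htreeG _ h4 (Or.inl ⟨_, Comb.cells_sub (hK u) (hroot u), rfl⟩)
  · intro u hmem
    obtain ⟨h1, h2, _⟩ := hf _ hmem
    have h4 := h.inj h1 (Comb.cells_sub (hK u) (hroot u)) h2
    exact hout _ hmem u (by rw [h4]; exact hroot u)
  · rw [Set.disjoint_left]
    rintro e (⟨_, h4⟩ | h4) he
    · exact h4 (Or.inr he)
    · exact htreeG e h4 (hXG he)
  · intro p v hv
    have hvX : v ∈ X := (hcov v).2 ⟨p, hv⟩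
    obtain ⟨_, h2, _⟩ := hf v hvX
    refine M.closure_subset_closure_of_subset_closure ?_ (h.h1 _ _ (hnb v hvX))
    rintro e (rfl | rfl)
    · refine M.mem_closure_of_mem' ?_ (hXE (by rw [h2]; exact hvX))
      rw [h2]
      exact mem_insert_of_mem _ (mem_insert _ _)
    · refine M.closure_subset_closure ?_ (hcc (row p) (hleaf p v hv)).1
      exact insert_subset_insert (subset_insert _ _)
  · intro p v hv
    have hvX : v ∈ X := (hcov v).2 ⟨p, hv⟩
    obtain ⟨_, h2, _⟩ := hf v hvX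
    have h3 := h.h2 _ _ (hnb v hvX)
    rw [h2] at h3
    refine M.closure_subset_closure_of_subset_closure ?_ h3
    rintro e (rfl | rfl)
    · refine M.closure_subset_closure ?_ (hcc (row p) (hleaf p v hv)).1
      exact insert_subset_insert (subset_insert _ _)
    · exact M.mem_closure_of_mem' (mem_insert_of_mem _ (mem_insert _ _))
        (h.basis.subset_ground (h.mem _ _ (hnb v hvX)))
  · intro p v hv
    have hvX : v ∈ X := (hcov v).2 ⟨p, hv⟩
    obtain ⟨_, h2, _⟩ := hf v hvX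
    have hedE := h.basis.subset_ground (h.mem _ _ (hnb v hvX))
    refine M.closure_subset_closure_of_subset_closure ?_ (hcc (row p) (hleaf p v hv)).2
    rintro e (rfl | he)
    · refine M.closure_subset_closure ?_ (h.h3 _ _ (hnb v hvX))
      rintro g (rfl | rfl)
      · rw [h2]
        exact mem_insert _ _
      · exact mem_insert_of_mem _ (mem_insert _ _)
    · exact M.mem_closure_of_mem' (mem_insert_of_mem _ (mem_insert_of_mem _ he)) (hCE he)

/-- The rank condition passes from the joints to the new base. -/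
lemma rank_transfer [M.Finite] [Finite κ] (h : JGrid M S t j ed) {Ψ : Set α}
    (hG : M.IsBase (j '' Cl t ∪ Ψ)) {K : κ → Comb} (hK : ∀ u, (K u).Ok t) {X : Finset α}
    (hXG : (X : Set α) ⊆ j '' Cl t ∪ Ψ)
    (hbase : M.IsBase (fixC j ed K t Ψ X ∪ range (fun u => j (K u).root) ∪ (X : Set α)))
    (hCX : Disjoint (fixC j ed K t Ψ X) (X : Set α)) (hxX : ∀ u, j (K u).root ∉ X)
    {Z : Finset α} (hZ : Z ⊆ X) {Y : Set α} (hY : Y ⊆ M.E) {θ : ℕ}
    (hr : ((j '' Cl t ∪ Ψ) \ (Z : Set α)).ncard + θ ≤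
      rk M (((j '' Cl t ∪ Ψ) \ (Z : Set α)) ∪ Y)) :
    ((fixC j ed K t Ψ X ∪ range (fun u => j (K u).root) ∪ (X : Set α)) \ (Z : Set α)).ncard + θ ≤
      rk M (((fixC j ed K t Ψ X ∪ range (fun u => j (K u).root) ∪ (X : Set α)) \
        (Z : Set α)) ∪ Y) := by
  classical
  have hΨE : Ψ ⊆ M.E := fun e he => hG.subset_ground (Or.inr he)
  set B := fixC j ed K t Ψ X ∪ range (fun u => j (K u).root) ∪ (X : Set α) with hB
  have hBE := hbase.subset_ground
  have hZXs : (Z : Set α) ⊆ X := Finset.coe_subset.2 hZ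
  have h1 : ((j '' Cl t ∪ Ψ) \ (Z : Set α)) ∪ Y ⊆ M.closure ((B \ (Z : Set α)) ∪ Y) := by
    have hE : (B \ (Z : Set α)) ∪ Y ⊆ M.E := union_subset (sdiff_subset.trans hBE) hY
    have hcl := M.subset_closure _ hE
    rintro g (⟨hg, hgZ⟩ | hg)
    · by_cases hgW : g ∈ j '' allC K
      · obtain ⟨c, ⟨u, hc⟩, rfl⟩ := hgW
        refine M.closure_subset_closure ?_ (comb_closure h hΨE hK X u hc).1
        rintro e (rfl | he)
        · exact Or.inl ⟨Or.inl (Or.inr ⟨u, rfl⟩), fun hz => hxX u (hZ hz)⟩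
        · exact Or.inl ⟨Or.inl (Or.inl he), fun hz => Set.disjoint_left.1 hCX he (hZXs hz)⟩
      · refine hcl (Or.inl ⟨?_, hgZ⟩)
        by_cases hgX : g ∈ X
        · exact Or.inr hgX
        · refine Or.inl (Or.inl (Or.inl ⟨hg, ?_⟩))
          rintro (h4 | h4)
          · exact hgW h4
          · exact hgX h4
    · exact hcl (Or.inr hg)
  have h2 := rk_mono M h1
  rw [rk_closure] at h2
  have hZB : (Z : Set α) ⊆ B := hZXs.trans subset_union_right
  have h3 : (B \ (Z : Set α)).ncard + (Z : Set α).ncard = B.ncard :=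
    Set.ncard_sdiff_add_ncard_of_subset hZB (base_fin hbase)
  have h4 := Set.ncard_sdiff_add_ncard_of_subset (hZXs.trans hXG) (base_fin hG)
  have h5 : B.ncard = (j '' Cl t ∪ Ψ).ncard := hbase.ncard_eq_ncard_of_isBase hG
  omega

end combs

end Gad
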