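import Mathlib

/-!
# Line calculus of END+

Eight families of rows around a straddling branch vertex `b` of the wall, every path of which
carries exactly two joint vertices: middle rows `e`, `f`, end rows `g1`, `g2`, spokes `j1`, `k1`,
`j2`, `k2`. A *line* is a class of rows under `nr` together with a side. If no line glued to another
one carries a ground end (`hA`) and no line is glued to two others (`hB`), then `e` and `f` are
in the same class.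
-/

namespace EndP

/-- Rows of the pattern. -/
inductive R8 | e | f | g1 | g2 | j1 | k1 | j2 | k2
  deriving DecidableEq, Fintype

/-- Vertices of the pattern. -/
inductive V5 | b | v1 | y1 | v2 | y2
  deriving DecidableEq

/-- Sides at which the rows start. -/
structure Sides where
  (t1 t2 s1 s2 u1 w1 u2 w2 : Bool)

/-- The row `i` has an end at the vertex `v` on the given side. -/
inductive AtP (S : Sides) : V5 → R8 → Bool → Prop
  | b1 : AtP S .b .g1 S.t1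
  | b2 : AtP S .b .g2 S.t2
  | v11 : AtP S .v1 .g1 (!S.t1)
  | v12 : AtP S .v1 .e S.s1
  | v13 : AtP S .v1 .j1 S.u1
  | y11 : AtP S .y1 .e (!S.s1)
  | y12 : AtP S .y1 .k1 S.w1
  | v21 : AtP S .v2 .g2 (!S.t2)
  | v22 : AtP S .v2 .f S.s2
  | v23 : AtP S .v2 .j2 S.u2
  | y21 : AtP S .y2 .f (!S.s2)
  | y22 : AtP S .y2 .k2 S.w2

/-- Ground ends. -/
inductive GrP (S : Sides) : R8 → Bool → Prop
  | j1 : GrP S .j1 (!S.u1)
  | k1 : GrP S .k1 (!S.w1)
  | j2 : GrP S .j2 (!S.u2)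
  | k2 : GrP S .k2 (!S.w2)

theorem lines (S : Sides) (nr : R8 → R8 → Prop) (hr : ∀ i, nr i i) (hs : ∀ i j, nr i j → nr j i)
    (ht : ∀ i j k, nr i j → nr j k → nr i k) (hef : ¬ nr .e .f)
    (hA : ∀ v i σ j τ k, AtP S v i σ → AtP S v j τ → ¬ (σ = τ ∧ nr i j) → GrP S k σ → nr k i →
      False)
    (hB : ∀ v i σ j τ w k l υ, AtP S v i σ → AtP S v j τ → ¬ (σ = τ ∧ nr i j) → AtP S w k σ →
      nr k i → AtP S w l υ → (υ = σ ∧ nr l i) ∨ (υ = τ ∧ nr l j)) : False := by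
  classical
  -- a vertex with an end on a ground line has all its ends there
  have hG : ∀ v i σ j τ k, AtP S v i σ → AtP S v j τ → GrP S k σ → nr k i → τ = σ ∧ nr j i := by
    intro v i σ j τ k h1 h2 h3 h4
    by_contra hcon
    exact hA v i σ j τ k h1 h2 (fun h => hcon ⟨h.1.symm, hs _ _ h.2⟩) h3 h4
  have bb : ∀ a : Bool, (!(!a)) = a := Bool.not_not
  by_cases h1 : S.u1 = S.s1 ∧ nr .j1 .e
  · -- type 1
    obtain ⟨h1a, h1b⟩ := h1
    have h2 := hG .y1 .e _ .k1 _ .j1 AtP.y11 AtP.y12 (by rw [← h1a]; exact GrP.j1) h1b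
    have h3 := hG .v1 .e _ .g1 _ .k1 AtP.v12 AtP.v11 (by
      have := GrP.k1 (S := S)
      rwa [h2.1, bb] at this) h2.2
    have h4 : S.t1 = !S.s1 := by rw [← h3.1, bb]
    have h5 := hG .b .g1 (S.t1) .g2 _ .j1 AtP.b1 AtP.b2 (by rw [h4, ← h1a]; exact GrP.j1)
      (ht _ _ _ h1b (hs _ _ h3.2))
    have h6 : (!S.t2) = S.s1 := by rw [h5.1, h4, bb]
    have h7 := hG .v2 .g2 _ .f _ .k1 AtP.v21 AtP.v22 (by
      have := GrP.k1 (S := S)
      rw [h2.1, bb] at this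
      rwa [h6]) (ht _ _ _ h2.2 (ht _ _ _ (hs _ _ h3.2) (hs _ _ h5.2)))
    exact hef (hs _ _ (ht _ _ _ h7.2 (ht _ _ _ h5.2 h3.2)))
  · -- type 3
    have h1' : ¬ (S.s1 = S.u1 ∧ nr .e .j1) := fun h => h1 ⟨h.1.symm, hs _ _ h.2⟩
    have h2 : ¬ ((!S.s1) = S.w1 ∧ nr .e .k1) := by
      rintro ⟨h2a, h2b⟩
      refine hA .v1 .e S.s1 .j1 S.u1 .k1 AtP.v12 AtP.v13 h1' ?_ (hs _ _ h2b)
      have := GrP.k1 (S := S)
      rwa [← h2a, bb] at this
    have h2' : ¬ (S.w1 = (!S.s1) ∧ nr .k1 .e) := fun h => h2 ⟨h.1.symm, hs _ _ h.2⟩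
    rcases hB .v1 .e _ .j1 _ .v1 .e .g1 _ AtP.v12 AtP.v13 h1' AtP.v12 (hr _) AtP.v11 with
      ⟨c1, c2⟩ | ⟨d1, d2⟩
    · -- `g1` on the line of `e`
      have c3 : S.t1 = !S.s1 := by rw [← c1, bb]
      rcases hB .y1 .e _ .k1 _ .b .g1 .g2 _ AtP.y11 AtP.y12 h2 (by rw [← c3]; exact AtP.b1) c2
        AtP.b2 with ⟨c4, c5⟩ | ⟨c4, c5⟩
      · have c6 : (!S.t2) = S.s1 := by rw [c4, bb]
        rcases hB .v1 .e _ .j1 _ .v2 .g2 .f _ AtP.v12 AtP.v13 h1' (by rw [← c6]; exact AtP.v21) c5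
          AtP.v22 with ⟨c7, c8⟩ | ⟨c7, c8⟩
        · exact hef (hs _ _ c8)
        · have c9 := hG .y2 .f _ .k2 _ .j1 AtP.y21 AtP.y22 (by rw [c7]; exact GrP.j1) (hs _ _ c8)
          refine hA .v1 .j1 S.u1 .e S.s1 .k2 AtP.v13 AtP.v12 (fun h => h1 h) ?_
            (ht _ _ _ c9.2 c8)
          have := GrP.k2 (S := S)
          rwa [c9.1, c7, bb] at this
      · have c6 := hG .v2 .g2 _ .j2 _ .k1 AtP.v21 AtP.v23 (by rw [c4]; exact GrP.k1) (hs _ _ c5)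
        refine hA .y1 .k1 S.w1 .e (!S.s1) .j2 AtP.y12 AtP.y11 h2' ?_ (ht _ _ _ c6.2 c5)
        have := GrP.j2 (S := S)
        rwa [c6.1, c4, bb] at this
    · -- `g1` on the line of `j1`
      have d3 : S.t1 = !S.u1 := by rw [← d1, bb]
      have d4 := hG .b .g1 _ .g2 _ .j1 AtP.b1 AtP.b2 (by rw [d3]; exact GrP.j1) (hs _ _ d2)
      have d5 : (!S.t2) = S.u1 := by rw [d4.1, d3, bb]
      rcases hB .v1 .j1 _ .e _ .v2 .g2 .f _ AtP.v13 AtP.v12 (fun h => h1 h)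
        (by rw [← d5]; exact AtP.v21) (ht _ _ _ d4.2 d2) AtP.v22 with ⟨d6, d7⟩ | ⟨d6, d7⟩
      · have d8 := hG .y2 .f _ .k2 _ .j1 AtP.y21 AtP.y22 (by rw [d6]; exact GrP.j1) (hs _ _ d7)
        refine hA .v1 .j1 S.u1 .e S.s1 .k2 AtP.v13 AtP.v12 (fun h => h1 h) ?_
          (ht _ _ _ d8.2 d7)
        have := GrP.k2 (S := S)
        rwa [d8.1, d6, bb] at this
      · exact hef (hs _ _ d7)

end EndP
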