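import Pool.Agent.GL.Iso
import Pool.Agent.GL.RamseyP
import Pool.Agent.GL.EndLine

/-!
# END+, combinatorial part (one pass)

`straddle`: for every order of the edges of the brick wall there are a position `x` and many far
apart branch vertices with an edge before and an edge after `x`.
`endPlus`: a brick wall with two joint vertices on every edge, all rows (`fst b c` from `b` to the
joint vertex `jt b c`, `mid b c` from `jt b c` to `jt c b`, the spoke `spk b c` from `jt b c` to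
ground) at pairwise different positions, both ends of a row at the same position and on opposite
sides: then (A) a glued line with ground ends near it, or (B) a third page.
-/

open Iso RamP

namespace EndP

/-- Branch vertices. -/
abbrev Bv := ℕ × ℕ

/-- In the box. -/
def InB (h : ℕ) (b : Bv) : Prop := b.1 < 2 * h ∧ b.2 < 2 * h

lemma mem_box {h : ℕ} {b : Bv} : b ∈ box h ↔ InB h b := by
  simp [box, InB]

lemma exists_nbr {h : ℕ} {b : Bv} (hb : InB h b) : ∃ c, WAdj b c ∧ InB h c := by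
  obtain ⟨h1, h2⟩ := hb
  by_cases h3 : b.1 + 1 < 2 * h
  · exact ⟨(b.1 + 1, b.2), Or.inl ⟨rfl, Or.inl rfl⟩, h3, h2⟩
  · refine ⟨(b.1 - 1, b.2), Or.inl ⟨rfl, Or.inr ?_⟩, ?_, h2⟩
    · simp only
      omega
    · simp only
      omega

/-- Straddling branch vertices. -/
theorem straddle {h m D : ℕ} (hm : 1 ≤ m) (hD : 1 ≤ D) (hh : 2 * (m * D) ^ 2 + 1 ≤ h)
    (pe : Bv → Bv → ℕ)
    (hi : ∀ b c b' c', WAdj b c → InB h b → InB h c → WAdj b' c' → InB h b' → InB h c' →
      pe b c = pe b' c' → (b = b' ∧ c = c') ∨ (b = c' ∧ c = b')) (hs : ∀ b c, pe b c = pe c b) :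
    ∃ (x : ℕ) (b c d : ℕ → Bv) (κ : Bv → ℕ),
      (∀ p p', WAdj p p' → κ p ≤ κ p' + 1 ∧ κ p' ≤ κ p + 1) ∧
      (∀ r s, r < s → s < m → κ (b r) + D ≤ κ (b s)) ∧
      ∀ r < m, WAdj (b r) (c r) ∧ WAdj (b r) (d r) ∧ InB h (b r) ∧ InB h (c r) ∧ InB h (d r) ∧
        pe (b r) (c r) < x ∧ x ≤ pe (b r) (d r) := by
  classical
  set K := 2 * (m * D) ^ 2 with hK
  have hmD : 1 ≤ m * D := Nat.mul_pos hm hD
  have hK1 : 1 ≤ K := by
    have : 1 ≤ (m * D) ^ 2 := Nat.one_le_pow _ _ hmD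
    omega
  obtain ⟨A, hA⟩ : ∃ A : ℕ → Set Bv, ∀ y b, b ∈ A y ↔ ∀ c, WAdj b c → InB h c → pe b c < y :=
    ⟨fun y => {b | ∀ c, WAdj b c → InB h c → pe b c < y}, fun y b => Iff.rfl⟩
  obtain ⟨cnt, hcnt⟩ : ∃ cnt : ℕ → ℕ, ∀ y, cnt y = ((box h).filter (· ∈ A y)).card :=
    ⟨_, fun y => rfl⟩
  have h0 : cnt 0 = 0 := by
    rw [hcnt, Finset.card_eq_zero, Finset.filter_eq_empty_iff]
    intro b hb hbA
    obtain ⟨c, h1, h2⟩ := exists_nbr (mem_box.1 hb)
    exact absurd ((hA 0 b).1 hbA c h1 h2) (by omega)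
  have hstep : ∀ y, cnt (y + 1) ≤ cnt y + 2 := by
    intro y
    rw [hcnt, hcnt]
    by_cases hex : ∃ b c, WAdj b c ∧ InB h b ∧ InB h c ∧ pe b c = y
    · obtain ⟨b₀, c₀, e1, e2, e3, e4⟩ := hex
      have hsub : (box h).filter (· ∈ A (y + 1)) ⊆ (box h).filter (· ∈ A y) ∪ {b₀, c₀} := by
        intro b hb
        rw [Finset.mem_filter] at hb
        rw [Finset.mem_union, Finset.mem_filter, Finset.mem_insert, Finset.mem_singleton]
        by_cases hbA : b ∈ A y
        · exact Or.inl ⟨hb.1, hbA⟩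
        · right
          rw [hA] at hbA
          push Not at hbA
          obtain ⟨c, g1, g2, g3⟩ := hbA
          have g4 := (hA _ _).1 hb.2 c g1 g2
          rcases hi b c b₀ c₀ g1 (mem_box.1 hb.1) g2 e1 e2 e3 (by omega) with ⟨g5, _⟩ | ⟨g5, _⟩
          · exact Or.inl g5
          · exact Or.inr g5
      refine (Finset.card_le_card hsub).trans ((Finset.card_union_le _ _).trans ?_)
      have : ({b₀, c₀} : Finset Bv).card ≤ 2 := Finset.card_le_two
      omega
    · refine (Finset.card_le_card ?_).trans (Nat.le_add_right _ 2)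
      intro b hb
      rw [Finset.mem_filter] at hb ⊢
      refine ⟨hb.1, ?_⟩
      rw [hA]
      intro c g1 g2
      have g3 := (hA _ _).1 hb.2 c g1 g2
      have g4 : pe b c ≠ y := fun hh' => hex ⟨b, c, g1, mem_box.1 hb.1, g2, hh'⟩
      omega
  have htop : ∃ y, K ≤ cnt y := by
    obtain ⟨B, hB⟩ : ∃ B, ∀ b ∈ box h, ∀ c ∈ box h, pe b c < B := by
      refine ⟨(box h).sup (fun b => (box h).sup (pe b)) + 1, ?_⟩
      intro b hb c hc
      have h1 : pe b c ≤ (box h).sup (pe b) := Finset.le_sup (f := pe b) hc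
      have h2 : (box h).sup (pe b) ≤ (box h).sup (fun b => (box h).sup (pe b)) :=
        Finset.le_sup (f := fun b => (box h).sup (pe b)) hb
      omega
    refine ⟨B, ?_⟩
    rw [hcnt]
    have : (box h).filter (· ∈ A B) = box h := by
      rw [Finset.filter_eq_self]
      intro b hb
      rw [hA]
      intro c g1 g2
      exact hB b hb c (mem_box.2 g2)
    rw [this]
    unfold box
    rw [Finset.card_product, Finset.card_range]
    nlinarith
  obtain ⟨y, hy1, hy2⟩ : ∃ y, K ≤ cnt y ∧ cnt y ≤ K + 1 := by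
    refine ⟨Nat.find htop, Nat.find_spec htop, ?_⟩
    have h1 : Nat.find htop ≠ 0 := by
      intro h1
      have := Nat.find_spec htop
      rw [h1, h0] at this
      omega
    obtain ⟨z, hz⟩ := Nat.exists_eq_succ_of_ne_zero h1
    have h2 : ¬ K ≤ cnt z := Nat.find_min htop (by omega)
    have h3 := hstep z
    rw [hz]
    have : cnt z.succ = cnt (z + 1) := rfl
    omega
  have hcompl : K ≤ ((box h).filter (· ∉ A y)).card := by
    have h1 : cnt y + ((box h).filter (· ∉ A y)).card = (box h).card := by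
      rw [hcnt]
      convert Finset.card_filter_add_card_filter_not (s := box h) (· ∈ A y)
    have h2 : (box h).card = 2 * h * (2 * h) := by
      unfold box
      rw [Finset.card_product, Finset.card_range]
    rw [h2] at h1
    have h3 : 2 * h * (2 * h) ≥ 2 * K + 1 := by nlinarith
    omega
  obtain ⟨u, v, huv, hsp⟩ := iso (A := A y) (h := h) hm hD (by rw [← hcnt]; exact hy1) hcompl
  -- spacing coordinate
  obtain ⟨κ, hκ1, hκ2⟩ : ∃ κ : Bv → ℕ, (∀ p p', WAdj p p' → κ p ≤ κ p' + 1 ∧ κ p' ≤ κ p + 1) ∧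
      ∀ t t' : Fin m, t < t' → κ (v t) + D ≤ κ (v t') := by
    rcases hsp with ⟨h1, h2⟩ | ⟨h1, h2⟩
    · refine ⟨fun p => p.2, ?_, ?_⟩
      · rintro p p' (⟨a, b⟩ | ⟨a, ⟨b, c⟩ | ⟨b, c⟩⟩) <;> simp only <;> omega
      · intro t t' htt
        simp only [← h1]
        exact h2 t t' htt
    · refine ⟨fun p => p.1 / 2, ?_, ?_⟩
      · rintro p p' (⟨a, b⟩ | ⟨a, ⟨b, c⟩ | ⟨b, c⟩⟩) <;> simp only <;> omega
      · intro t t' htt
        simp only [← h1]
        exact h2 t t' htt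
  have hd : ∀ t : Fin m, ∃ d, WAdj (v t) d ∧ InB h d ∧ y ≤ pe (v t) d := by
    intro t
    have h1 := (huv t).2.2.1
    rw [hA] at h1
    push Not at h1
    exact h1
  choose d hd1 hd2 hd3 using hd
  have e : ∀ (g : Fin m → Bv) (r : ℕ) (hr : r < m),
      (fun r => if hr : r < m then g ⟨r, hr⟩ else (0, 0)) r = g ⟨r, hr⟩ := by
    intro g r hr
    simp only [hr, dif_pos]
  refine ⟨y, fun r => if hr : r < m then v ⟨r, hr⟩ else (0, 0),
    fun r => if hr : r < m then u ⟨r, hr⟩ else (0, 0),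
    fun r => if hr : r < m then d ⟨r, hr⟩ else (0, 0), κ, hκ1, ?_, ?_⟩
  · intro r s hrs hs'
    rw [e v r (by omega), e v s hs']
    exact hκ2 _ _ hrs
  · intro r hr
    rw [e v r hr, e u r hr, e d r hr]
    obtain ⟨g1, g2, g3, g4, g5, g6, g7⟩ := huv ⟨r, hr⟩
    refine ⟨g1.symm, hd1 _, ⟨g6, g7⟩, ⟨g4, g5⟩, hd2 _, ?_, hd3 _⟩
    rw [hs]
    exact (hA _ _).1 g2 _ g1 ⟨g6, g7⟩

/-- Rows of the wall with spokes. -/
inductive Rw
  | fst (b c : Bv) | mid (b c : Bv) | spk (b c : Bv)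

/-- Vertices of the wall with spokes. -/
inductive Vx
  | br (b : Bv) | jt (b c : Bv)

/-- First point of a row. -/
def Rw.p1 : Rw → Bv
  | .fst b _ => b
  | .mid b _ => b
  | .spk b _ => b

/-- Second point of a row. -/
def Rw.p2 : Rw → Bv
  | .fst _ c => c
  | .mid _ c => c
  | .spk _ c => c

/-- The row has an end at the vertex on the given side. -/
inductive At (sd : Rw → Bool) : Vx → Rw → Bool → Prop
  | fst0 (b c : Bv) : At sd (.br b) (.fst b c) (sd (.fst b c))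
  | fst1 (b c : Bv) : At sd (.jt b c) (.fst b c) (!sd (.fst b c))
  | mid0 (b c : Bv) : At sd (.jt b c) (.mid b c) (sd (.mid b c))
  | mid1 (b c : Bv) : At sd (.jt c b) (.mid b c) (!sd (.mid b c))
  | spk0 (b c : Bv) : At sd (.jt b c) (.spk b c) (sd (.spk b c))

/-- Ground end of a spoke. -/
inductive Gr (sd : Rw → Bool) : Rw → Bool → Prop
  | spk1 (b c : Bv) : Gr sd (.spk b c) (!sd (.spk b c))

/-- Rows of the box avoiding the bad vertices. -/
def Ok (h : ℕ) (bad : Finset Bv) (r : Rw) : Prop :=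
  WAdj r.p1 r.p2 ∧ InB h r.p1 ∧ InB h r.p2 ∧ r.p1 ∉ bad ∧ r.p2 ∉ bad

/-- One pass: positions, sides, sheets. -/
structure Hyp (h q : ℕ) (bad : Finset Bv) (pos : Rw → ℕ) (sd : Rw → Bool) (sh : Rw → ℕ) :
    Prop where
  mid : ∀ b c, pos (.mid b c) = pos (.mid c b)
  inj : ∀ r r', Ok h ∅ r → Ok h ∅ r' → pos r = pos r' →
    r = r' ∨ ∃ b c, r = .mid b c ∧ r' = .mid c b
  lt : ∀ r, Ok h bad r → sh r < q
  int : ∀ r₁ r₂ r₃, Ok h bad r₁ → Ok h bad r₂ → Ok h bad r₃ → pos r₁ ≤ pos r₂ →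
    pos r₂ ≤ pos r₃ → sh r₁ = sh r₃ → sh r₂ = sh r₁

/-- (A): a glued line with ground ends near it. -/
def ConfA (N h : ℕ) (bad : Finset Bv) (pos : Rw → ℕ) (sd : Rw → Bool) (sh : Rw → ℕ) : Prop :=
  ∃ (v : ℕ → Vx) (y z g : ℕ → Rw) (σ τ : Bool) (a b : ℕ),
    (∀ r < N, At sd (v r) (y r) σ ∧ At sd (v r) (z r) τ ∧ Gr sd (g r) σ) ∧
    (∀ r < N, Ok h bad (y r) ∧ Ok h bad (z r) ∧ Ok h bad (g r)) ∧
    (∀ r < N, sh (y r) = a ∧ sh (z r) = b ∧ sh (g r) = a) ∧
    (Mon N (fun r => pos (y r)) ∧ Mon N (fun r => pos (z r)) ∧ Mon N (fun r => pos (g r))) ∧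
    Near N (fun r => pos (y r)) (fun r => pos (g r)) ∧
    (σ ≠ τ ∨ Sep N (fun r => pos (y r)) (fun r => pos (z r))) ∧
    ∀ r s, r < N → s < N → r ≠ s → v r ≠ v s

/-- (B): a third page. -/
def ConfB (N h : ℕ) (bad : Finset Bv) (pos : Rw → ℕ) (sd : Rw → Bool) (sh : Rw → ℕ) : Prop :=
  ∃ (v w : ℕ → Vx) (y z c d : ℕ → Rw) (σ τ υ : Bool) (a b a' : ℕ),
    (∀ r < N, At sd (v r) (y r) σ ∧ At sd (v r) (z r) τ ∧ At sd (w r) (c r) σ ∧
      At sd (w r) (d r) υ) ∧
    (∀ r < N, Ok h bad (y r) ∧ Ok h bad (z r) ∧ Ok h bad (c r) ∧ Ok h bad (d r)) ∧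
    (∀ r < N, sh (y r) = a ∧ sh (z r) = b ∧ sh (c r) = a ∧ sh (d r) = a') ∧
    (Mon N (fun r => pos (y r)) ∧ Mon N (fun r => pos (z r)) ∧ Mon N (fun r => pos (c r)) ∧
      Mon N (fun r => pos (d r))) ∧
    Near N (fun r => pos (y r)) (fun r => pos (c r)) ∧
    (σ ≠ τ ∨ Sep N (fun r => pos (y r)) (fun r => pos (z r))) ∧
    (σ ≠ υ ∨ Sep N (fun r => pos (y r)) (fun r => pos (d r))) ∧
    (τ ≠ υ ∨ Sep N (fun r => pos (z r)) (fun r => pos (d r))) ∧
    (∀ r s, r < N → s < N → r ≠ s → v r ≠ v s) ∧ (∀ r s, r < N → s < N → r ≠ s → w r ≠ w s) ∧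
    ((∀ r < N, w r = v r ∧ c r = y r) ∨ ∀ r s, r < N → s < N → w r ≠ v s)

/-- Rows of the pattern. -/
def rowf (b c d : Bv) : R8 → Rw
  | .e => .mid b c
  | .f => .mid b d
  | .g1 => .fst b c
  | .g2 => .fst b d
  | .j1 => .spk b c
  | .k1 => .spk c b
  | .j2 => .spk b d
  | .k2 => .spk d b

/-- Vertices of the pattern. -/
def vxf (b c d : Bv) : V5 → Vx
  | .b => .br b
  | .v1 => .jt b c
  | .y1 => .jt c b
  | .v2 => .jt b d
  | .y2 => .jt d b

def sidesOf (s : R8 → Bool) : Sides :=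
  ⟨s .g1, s .g2, s .e, s .f, s .j1, s .k1, s .j2, s .k2⟩

lemma at_of {sd : Rw → Bool} {b c d : Bv} {s : R8 → Bool} (hs : ∀ i, sd (rowf b c d i) = s i)
    {V : V5} {i : R8} {σ : Bool} (h : AtP (sidesOf s) V i σ) :
    At sd (vxf b c d V) (rowf b c d i) σ := by
  cases h
  · simpa [sidesOf, ← hs, rowf, vxf] using At.fst0 (sd := sd) b c
  · simpa [sidesOf, ← hs, rowf, vxf] using At.fst0 (sd := sd) b d
  · simpa [sidesOf, ← hs, rowf, vxf] using At.fst1 (sd := sd) b c
  · simpa [sidesOf, ← hs, rowf, vxf] using At.mid0 (sd := sd) b c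
  · simpa [sidesOf, ← hs, rowf, vxf] using At.spk0 (sd := sd) b c
  · simpa [sidesOf, ← hs, rowf, vxf] using At.mid1 (sd := sd) b c
  · simpa [sidesOf, ← hs, rowf, vxf] using At.spk0 (sd := sd) c b
  · simpa [sidesOf, ← hs, rowf, vxf] using At.fst1 (sd := sd) b d
  · simpa [sidesOf, ← hs, rowf, vxf] using At.mid0 (sd := sd) b d
  · simpa [sidesOf, ← hs, rowf, vxf] using At.spk0 (sd := sd) b d
  · simpa [sidesOf, ← hs, rowf, vxf] using At.mid1 (sd := sd) b d
  · simpa [sidesOf, ← hs, rowf, vxf] using At.spk0 (sd := sd) d b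

lemma gr_of {sd : Rw → Bool} {b c d : Bv} {s : R8 → Bool} (hs : ∀ i, sd (rowf b c d i) = s i)
    {i : R8} {σ : Bool} (h : GrP (sidesOf s) i σ) : Gr sd (rowf b c d i) σ := by
  cases h
  · simpa [sidesOf, ← hs, rowf] using Gr.spk1 (sd := sd) b c
  · simpa [sidesOf, ← hs, rowf] using Gr.spk1 (sd := sd) c b
  · simpa [sidesOf, ← hs, rowf] using Gr.spk1 (sd := sd) b d
  · simpa [sidesOf, ← hs, rowf] using Gr.spk1 (sd := sd) d b

lemma rowf_p (b c d : Bv) (i : R8) : ((rowf b c d i).p1 = b ∨ (rowf b c d i).p1 = c ∨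
    (rowf b c d i).p1 = d) ∧ ((rowf b c d i).p2 = b ∨ (rowf b c d i).p2 = c ∨
    (rowf b c d i).p2 = d) := by
  cases i <;> simp [rowf, Rw.p1, Rw.p2]

lemma rowf_ok {h : ℕ} {bad : Finset Bv} {b c d : Bv} (h1 : WAdj b c) (h2 : WAdj b d)
    (h3 : InB h b) (h4 : InB h c) (h5 : InB h d) (h6 : b ∉ bad) (h7 : c ∉ bad) (h8 : d ∉ bad)
    (i : R8) : Ok h bad (rowf b c d i) := by
  cases i <;> simp only [rowf, Ok, Rw.p1, Rw.p2]
  · exact ⟨h1, h3, h4, h6, h7⟩
  · exact ⟨h2, h3, h5, h6, h8⟩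
  · exact ⟨h1, h3, h4, h6, h7⟩
  · exact ⟨h2, h3, h5, h6, h8⟩
  · exact ⟨h1, h3, h4, h6, h7⟩
  · exact ⟨h1.symm, h4, h3, h7, h6⟩
  · exact ⟨h2, h3, h5, h6, h8⟩
  · exact ⟨h2.symm, h5, h3, h8, h6⟩

lemma wadj_ne {b c : Bv} (h : WAdj b c) : b ≠ c := by
  rintro rfl
  rcases h with ⟨_, h⟩ | ⟨_, ⟨h, _⟩ | ⟨h, _⟩⟩ <;> omega

lemma vxf_inj {b c d : Bv} (h1 : b ≠ c) (h2 : b ≠ d) (h3 : c ≠ d) {V W : V5}
    (h : vxf b c d V = vxf b c d W) : V = W := by
  cases V <;> cases W <;> simp_all [vxf]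

/-- A point of a vertex. -/
def Vx.p1 : Vx → Bv
  | .br b => b
  | .jt b _ => b

lemma vxf_p (b c d : Bv) (V : V5) : (vxf b c d V).p1 = b ∨ (vxf b c d V).p1 = c ∨
    (vxf b c d V).p1 = d := by
  cases V <;> simp [vxf, Vx.p1]

/-- **END+, combinatorial part.** -/
theorem endPlus (N q t : ℕ) : ∃ h₀ : ℕ, ∀ h, h₀ ≤ h → ∀ (bad : Finset Bv) (pos : Rw → ℕ)
    (sd : Rw → Bool) (sh : Rw → ℕ), bad.card ≤ t → Hyp h q bad pos sd sh →
    ConfA N h bad pos sd sh ∨ ConfB N h bad pos sd sh := by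
  classical
  obtain ⟨n, hn⟩ := homog R8 (N + 3) ((R8 → Bool) × (R8 → Fin (q + 1)))
  refine ⟨2 * ((n + t + 1) * 5) ^ 2 + 1, ?_⟩
  intro h hh bad pos sd sh hbad H
  obtain ⟨x, b, c, d, κ, hκ1, hκ2, hst⟩ := straddle (h := h) (m := n + t + 1) (D := 5) (by omega)
    (by norm_num) hh (fun b c => pos (.mid b c)) (by
      intro b c b' c' h1 h2 h3 h4 h5 h6 h7
      rcases H.inj (.mid b c) (.mid b' c') ⟨h1, h2, h3, by simp, by simp⟩
        ⟨h4, h5, h6, by simp, by simp⟩ h7 with h8 | ⟨u, v, h8, h9⟩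
      · rw [Rw.mid.injEq] at h8
        exact Or.inl h8
      · rw [Rw.mid.injEq] at h8 h9
        exact Or.inr ⟨h8.1.trans h9.2.symm, h8.2.trans h9.1.symm⟩) (fun b c => H.mid b c)
  -- points of different patterns are different
  have hzone : ∀ r, r < n + t + 1 → ∀ p, (p = b r ∨ p = c r ∨ p = d r) →
      κ p ≤ κ (b r) + 1 ∧ κ (b r) ≤ κ p + 1 := by
    intro r hr p hp
    obtain ⟨h1, h2, _⟩ := hst r hr
    rcases hp with rfl | rfl | rfl
    · omega
    · have := hκ1 _ _ h1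
      omega
    · have := hκ1 _ _ h2
      omega
  have hdiff : ∀ r s, r < n + t + 1 → s < n + t + 1 → r ≠ s → ∀ p, (p = b r ∨ p = c r ∨ p = d r) →
      ¬ (p = b s ∨ p = c s ∨ p = d s) := by
    intro r s hr hs hrs p hp hp'
    have h1 := hzone r hr p hp
    have h2 := hzone s hs p hp'
    rcases Nat.lt_or_gt_of_ne hrs with h3 | h3
    · have := hκ2 r s h3 hs
      omega
    · have := hκ2 s r h3 hr
      omega
  -- good patterns
  set G : Finset ℕ := (Finset.range (n + t + 1)).filter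
    (fun r => b r ∉ bad ∧ c r ∉ bad ∧ d r ∉ bad) with hG
  have hGc : n ≤ G.card := by
    have h1 : ((Finset.range (n + t + 1)).filter
        (fun r => ¬ (b r ∉ bad ∧ c r ∉ bad ∧ d r ∉ bad))).card ≤ bad.card := by
      have h2 : ∀ r, ∃ p, (¬ (b r ∉ bad ∧ c r ∉ bad ∧ d r ∉ bad)) →
          p ∈ bad ∧ (p = b r ∨ p = c r ∨ p = d r) := by
        intro r
        by_cases g1 : b r ∈ bad
        · exact ⟨b r, fun _ => ⟨g1, Or.inl rfl⟩⟩
        · by_cases g2 : c r ∈ bad
          · exact ⟨c r, fun _ => ⟨g2, Or.inr (Or.inl rfl)⟩⟩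
          · by_cases g3 : d r ∈ bad
            · exact ⟨d r, fun _ => ⟨g3, Or.inr (Or.inr rfl)⟩⟩
            · exact ⟨b r, fun hh => absurd ⟨g1, g2, g3⟩ hh⟩
      choose pp hpp using h2
      refine Finset.card_le_card_of_injOn pp ?_ ?_
      · intro r hr
        have hr' := Finset.mem_filter.1 (Finset.mem_coe.1 hr)
        exact (hpp r hr'.2).1
      · intro r hr s hs hrs
        have hr' := Finset.mem_filter.1 (Finset.mem_coe.1 hr)
        have hs' := Finset.mem_filter.1 (Finset.mem_coe.1 hs)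
        by_contra hne
        refine hdiff r s (Finset.mem_range.1 hr'.1) (Finset.mem_range.1 hs'.1) hne (pp r)
          (hpp r hr'.2).2 ?_
        rw [hrs]
        exact (hpp s hs'.2).2
    have h3 : G.card + ((Finset.range (n + t + 1)).filter
        (fun r => ¬ (b r ∉ bad ∧ c r ∉ bad ∧ d r ∉ bad))).card = n + t + 1 := by
      rw [hG]
      conv_rhs => rw [← Finset.card_range (n + t + 1)]
      convert Finset.card_filter_add_card_filter_not (s := Finset.range (n + t + 1))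
        (fun r => b r ∉ bad ∧ c r ∉ bad ∧ d r ∉ bad)
    omega
  obtain ⟨g, hg1, hg2⟩ : ∃ g : ℕ → ℕ, (∀ i < n, g i ∈ G) ∧ ∀ i j, i < j → j < n → g i < g j := by
    refine ⟨fun i => if hi : i < n then G.orderEmbOfCardLe hGc ⟨i, hi⟩ else 0, ?_, ?_⟩
    · intro i hi
      simp only [hi, dif_pos]
      exact Finset.orderEmbOfCardLe_mem _ _ _
    · intro i j hij hj
      simp only [hj, (show i < n by omega), dif_pos]
      exact (G.orderEmbOfCardLe hGc).strictMono (by simpa using hij)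
  have hgr : ∀ i < n, g i < n + t + 1 := fun i hi =>
    Finset.mem_range.1 (Finset.mem_filter.1 (hg1 i hi)).1
  have hgne : ∀ i j, i < n → j < n → i ≠ j → g i ≠ g j := by
    intro i j hi hj hij
    rcases Nat.lt_or_gt_of_ne hij with h1 | h1
    · have := hg2 i j h1 hj
      omega
    · have := hg2 j i h1 hi
      omega
  -- rows of the patterns
  obtain ⟨rw', hrw⟩ : ∃ rw' : R8 → ℕ → Rw, ∀ i r, rw' i r = rowf (b (g r)) (c (g r)) (d (g r)) i :=
    ⟨_, fun i r => rfl⟩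
  have hok : ∀ i, ∀ r < n, Ok h bad (rw' i r) := by
    intro i r hr
    rw [hrw]
    obtain ⟨h1, h2, h3, h4, h5, _⟩ := hst (g r) (hgr r hr)
    obtain ⟨_, h6, h7, h8⟩ := Finset.mem_filter.1 (hg1 r hr)
    exact rowf_ok h1 h2 h3 h4 h5 h6 h7 h8 i
  have hok0 : ∀ i, ∀ r < n, Ok h ∅ (rw' i r) := fun i r hr =>
    ⟨(hok i r hr).1, (hok i r hr).2.1, (hok i r hr).2.2.1, by simp, by simp⟩
  obtain ⟨f, hf1, hf2, ⟨⟨cs, cq⟩, hf3⟩, hf4, hf5⟩ := hn (fun i r => pos (rw' i r))
    (fun r => (fun i => sd (rw' i r), fun i => ⟨min (sh (rw' i r)) q, by omega⟩)) (by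
      intro i j r s hr hs hrs heq
      have hp := rowf_p (b (g r)) (c (g r)) (d (g r)) i
      have hp' := rowf_p (b (g s)) (c (g s)) (d (g s)) j
      rcases H.inj _ _ (hok0 i r hr) (hok0 j s hs) heq with h1 | ⟨u, v, h1, h2⟩
      · rw [hrw, hrw] at h1
        rw [h1] at hp
        exact hdiff _ _ (hgr r hr) (hgr s hs) (hgne r s hr hs hrs) _ hp.1 hp'.1
      · rw [hrw] at h1 h2
        rw [h1] at hp
        rw [h2] at hp'
        exact hdiff _ _ (hgr r hr) (hgr s hs) (hgne r s hr hs hrs) _ hp.1 hp'.2)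
  have hsd : ∀ i, ∀ r < N + 3, sd (rw' i (f r)) = cs i := by
    intro i r hr
    have h1 := hf3 r hr
    rw [Prod.mk.injEq] at h1
    exact congrFun h1.1 i
  have hsh : ∀ i, ∀ r < N + 3, sh (rw' i (f r)) = (cq i : ℕ) := by
    intro i r hr
    have h1 := hf3 r hr
    rw [Prod.mk.injEq] at h1
    have h2 := congrArg Fin.val (congrFun h1.2 i)
    have h3 := H.lt _ (hok i (f r) (hf1 r hr))
    simp only at h2
    omega
  have hnr3 : ∀ i j, Near (N + 3) (fun r => pos (rw' i (f r))) (fun r => pos (rw' j (f r))) →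
      (cq j : ℕ) = cq i := by
    intro i j hij
    rw [← hsh j 1 (by omega), ← hsh i 0 (by omega)]
    rcases hij with hij | hij
    · exact H.int _ _ _ (hok i _ (hf1 0 (by omega))) (hok j _ (hf1 1 (by omega)))
        (hok i _ (hf1 2 (by omega))) (hij 0 1 (by omega) (by omega)).2.1.le
        (hij 1 2 (by omega) (by omega)).2.2.1.le (by rw [hsh i 0 (by omega), hsh i 2 (by omega)])
    · have := H.int _ _ _ (hok i _ (hf1 2 (by omega))) (hok j _ (hf1 1 (by omega)))
        (hok i _ (hf1 0 (by omega))) (hij 1 2 (by omega) (by omega)).2.2.1.le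
        (hij 0 1 (by omega) (by omega)).2.1.le (by rw [hsh i 0 (by omega), hsh i 2 (by omega)])
      rw [this, hsh i 0 (by omega), hsh i 2 (by omega)]
  have hdist : ∀ r < n, b (g r) ≠ c (g r) ∧ b (g r) ≠ d (g r) ∧ c (g r) ≠ d (g r) := by
    intro r hr
    obtain ⟨h1, h2, h3, h4, h5, h6, h7⟩ := hst (g r) (hgr r hr)
    refine ⟨wadj_ne h1, wadj_ne h2, ?_⟩
    intro h8
    rw [h8] at h6
    omega
  have hvinj : ∀ V W r s, r < N → s < N → (r ≠ s ∨ V ≠ W) →
      vxf (b (g (f r))) (c (g (f r))) (d (g (f r))) V ≠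
      vxf (b (g (f s))) (c (g (f s))) (d (g (f s))) W := by
    intro V W r s hr hs hne heq
    have hfr := hf1 r (by omega)
    have hfs := hf1 s (by omega)
    by_cases hrs : r = s
    · subst hrs
      rcases hne with h1 | h1
      · exact h1 rfl
      · obtain ⟨g1, g2, g3⟩ := hdist (f r) hfr
        exact h1 (vxf_inj g1 g2 g3 heq)
    · have h1 := vxf_p (b (g (f r))) (c (g (f r))) (d (g (f r))) V
      have h2 := vxf_p (b (g (f s))) (c (g (f s))) (d (g (f s))) W
      rw [heq] at h1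
      have hfne : f r ≠ f s := by
        rcases Nat.lt_or_gt_of_ne hrs with h3 | h3
        · have := hf2 r s h3 (by omega)
          omega
        · have := hf2 s r h3 (by omega)
          omega
      exact hdiff _ _ (hgr _ hfr) (hgr _ hfs) (hgne _ _ hfr hfs hfne) _ h1 h2
  have hat : ∀ V i σ, AtP (sidesOf cs) V i σ → ∀ r < N,
      At sd (vxf (b (g (f r))) (c (g (f r))) (d (g (f r))) V) (rw' i (f r)) σ := by
    intro V i σ h1 r hr
    rw [hrw]
    exact at_of (fun i => by rw [← hrw]; exact hsd i r (by omega)) h1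
  have hgr' : ∀ i σ, GrP (sidesOf cs) i σ → ∀ r < N, Gr sd (rw' i (f r)) σ := by
    intro i σ h1 r hr
    rw [hrw]
    exact gr_of (fun i => by rw [← hrw]; exact hsd i r (by omega)) h1
  have hsep : ∀ i j (σ τ : Bool), ¬ (σ = τ ∧ Near (N + 3) (fun r => pos (rw' i (f r)))
      (fun r => pos (rw' j (f r)))) → σ ≠ τ ∨ Sep N (fun r => pos (rw' i (f r)))
      (fun r => pos (rw' j (f r))) := by
    intro i j σ τ h1
    by_cases h2 : σ = τ
    · right
      rcases hf5 i j with h3 | h3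
      · exact absurd ⟨h2, h3⟩ h1
      · exact h3.mono (by omega)
    · exact Or.inl h2
  by_contra hcon
  push Not at hcon
  obtain ⟨hnA, hnB⟩ := hcon
  refine lines (sidesOf cs) (fun i j => Near (N + 3) (fun r => pos (rw' i (f r)))
      (fun r => pos (rw' j (f r)))) (fun i => (hf4 i).near) (fun i j h1 => h1.symm)
    (fun i j k h1 h2 => h1.trans (by omega) h2 (hf5 i k)) ?_ ?_ ?_
  · -- `e` and `f` are separated
    intro h1
    have h2 := (hst _ (hgr _ (hf1 0 (by omega)))).2.2.2.2.2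
    have h3 := (hst _ (hgr _ (hf1 1 (by omega)))).2.2.2.2.2
    simp only [hrw, rowf] at h1
    rcases h1 with h1 | h1
    · have := (h1 0 1 (by omega) (by omega)).2.2.1
      beta_reduce at this
      omega
    · have := (h1 0 1 (by omega) (by omega)).2.1
      beta_reduce at this
      omega
  · intro V i σ j τ k h1 h2 h3 h4 h5
    refine hnA ⟨fun r => vxf (b (g (f r))) (c (g (f r))) (d (g (f r))) V, fun r => rw' i (f r),
      fun r => rw' j (f r), fun r => rw' k (f r), σ, τ, cq i, cq j, ?_, ?_, ?_, ?_, ?_, ?_, ?_⟩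
    · exact fun r hr => ⟨hat V i σ h1 r hr, hat V j τ h2 r hr, hgr' k σ h4 r hr⟩
    · exact fun r hr => ⟨hok i _ (hf1 r (by omega)), hok j _ (hf1 r (by omega)),
        hok k _ (hf1 r (by omega))⟩
    · exact fun r hr => ⟨hsh i r (by omega), hsh j r (by omega),
        (hsh k r (by omega)).trans (hnr3 k i h5).symm⟩
    · exact ⟨(hf4 i).mono (by omega), (hf4 j).mono (by omega), (hf4 k).mono (by omega)⟩
    · exact h5.symm.mono (by omega)
    · exact hsep i j σ τ h3
    · exact fun r s hr hs hrs => hvinj V V r s hr hs (Or.inl hrs)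
  · intro V i σ j τ W k l υ h1 h2 h3 h4 h5 h6
    by_contra h7
    push Not at h7
    have h8 := hsep i l σ υ (fun hh => h7.1 hh.1.symm hh.2.symm)
    have h9 := hsep j l τ υ (fun hh => h7.2 hh.1.symm hh.2.symm)
    by_cases hVW : W = V
    · subst hVW
      refine hnB ⟨fun r => vxf (b (g (f r))) (c (g (f r))) (d (g (f r))) W,
        fun r => vxf (b (g (f r))) (c (g (f r))) (d (g (f r))) W, fun r => rw' i (f r),
        fun r => rw' j (f r), fun r => rw' i (f r), fun r => rw' l (f r), σ, τ, υ,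
        cq i, cq j, cq l, ?_, ?_, ?_, ?_, ?_, ?_, ?_, ?_, ?_, ?_, ?_⟩
      · exact fun r hr => ⟨hat W i σ h1 r hr, hat W j τ h2 r hr, hat W i σ h1 r hr,
          hat W l υ h6 r hr⟩
      · exact fun r hr => ⟨hok i _ (hf1 r (by omega)), hok j _ (hf1 r (by omega)),
          hok i _ (hf1 r (by omega)), hok l _ (hf1 r (by omega))⟩
      · exact fun r hr => ⟨hsh i r (by omega), hsh j r (by omega), hsh i r (by omega),
          hsh l r (by omega)⟩
      · exact ⟨(hf4 i).mono (by omega), (hf4 j).mono (by omega), (hf4 i).mono (by omega),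
          (hf4 l).mono (by omega)⟩
      · exact ((hf4 i).near).mono (by omega)
      · exact hsep i j σ τ h3
      · exact h8
      · exact h9
      · exact fun r s hr hs hrs => hvinj W W r s hr hs (Or.inl hrs)
      · exact fun r s hr hs hrs => hvinj W W r s hr hs (Or.inl hrs)
      · exact Or.inl fun r _ => ⟨rfl, rfl⟩
    · refine hnB ⟨fun r => vxf (b (g (f r))) (c (g (f r))) (d (g (f r))) V,
        fun r => vxf (b (g (f r))) (c (g (f r))) (d (g (f r))) W, fun r => rw' i (f r),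
        fun r => rw' j (f r), fun r => rw' k (f r), fun r => rw' l (f r), σ, τ, υ,
        cq i, cq j, cq l, ?_, ?_, ?_, ?_, ?_, ?_, ?_, ?_, ?_, ?_, ?_⟩
      · exact fun r hr => ⟨hat V i σ h1 r hr, hat V j τ h2 r hr, hat W k σ h4 r hr,
          hat W l υ h6 r hr⟩
      · exact fun r hr => ⟨hok i _ (hf1 r (by omega)), hok j _ (hf1 r (by omega)),
          hok k _ (hf1 r (by omega)), hok l _ (hf1 r (by omega))⟩
      · exact fun r hr => ⟨hsh i r (by omega), hsh j r (by omega),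
          (hsh k r (by omega)).trans (hnr3 k i h5).symm, hsh l r (by omega)⟩
      · exact ⟨(hf4 i).mono (by omega), (hf4 j).mono (by omega), (hf4 k).mono (by omega),
          (hf4 l).mono (by omega)⟩
      · exact h5.symm.mono (by omega)
      · exact hsep i j σ τ h3
      · exact h8
      · exact h9
      · exact fun r s hr hs hrs => hvinj V V r s hr hs (Or.inl hrs)
      · exact fun r s hr hs hrs => hvinj W W r s hr hs (Or.inl hrs)
      · exact Or.inr fun r s hr hs => hvinj W V r s hr hs (Or.inr hVW)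

end EndP
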