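import Pool.Agent.GL.Ports

/-!
# Oriented bases of vertex sets
-/

open Set

namespace Gad

open BIC

variable {α V : Type*}

/-- `F` is an oriented basis of the vertex set `U`. -/
def FullB (S : Set α) (ends : α → Sym2 V) (U : Set V) (F : Set α) : Prop :=
  F ⊆ ins S ends U ∧ ∃ φ : α → V, BijOn φ F U ∧ ∀ e ∈ F, φ e ∈ ends e

lemma FullB.indep {M : Matroid α} {S : Set α} {ends : α → Sym2 V} (hB : Bic M S ends) {U : Set V}
    {F : Set α} (h : FullB S ends U F) : M.Indep F := by
  obtain ⟨h1, φ, h2, h3⟩ := h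
  exact hB.ind F φ (fun e he => (h1 he).1) h2.injOn h3

lemma FullB.encard {S : Set α} {ends : α → Sym2 V} {U : Set V}
    {F : Set α} (h : FullB S ends U F) : F.encard = U.encard := by
  obtain ⟨h1, φ, h2, h3⟩ := h
  rw [← h2.image_eq, h2.injOn.encard_image]

lemma FullB.basis {M : Matroid α} {S : Set α} {ends : α → Sym2 V} (hB : Bic M S ends) {U : Set V}
    (hU : U.Finite) {F : Set α} (h : FullB S ends U F) : M.IsBasis F (ins S ends U) := by
  have hi := h.indep hB
  have hfin : F.Finite := by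
    rw [← Set.encard_lt_top_iff, h.encard]; exact hU.encard_lt_top
  refine hi.isBasis_of_eRk_ge hfin h.1 ?_ (fun e he => hB.sub he.1)
  rw [hi.eRk_eq_encard, h.encard]
  exact hB.rk U

lemma FullB.closure {M : Matroid α} {S : Set α} {ends : α → Sym2 V} (hB : Bic M S ends) {U : Set V}
    (hU : U.Finite) {F : Set α} (h : FullB S ends U F) :
    M.closure F = M.closure (ins S ends U) := (h.basis hB hU).closure_eq_closure

lemma FullB.empty {S : Set α} {ends : α → Sym2 V} : FullB S ends (∅ : Set V) (∅ : Set α) := by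
  by_cases hV : Nonempty V
  · obtain ⟨v⟩ := hV
    exact ⟨empty_subset _, fun _ => v, by simp, by simp⟩
  · refine ⟨empty_subset _, fun a => ?_, ?_, ?_⟩
    · exact (hV ⟨(exists_mem_ends ends a).choose⟩).elim
    · simp
    · simp

lemma FullB.union {S : Set α} {ends : α → Sym2 V} {U U' : Set V} {F F' : Set α}
    (h : FullB S ends U F) (h' : FullB S ends U' F') (hd : Disjoint U U') :
    FullB S ends (U ∪ U') (F ∪ F') := by
  classical
  have hFd : ∀ e ∈ F', e ∉ F := fun e he' he =>
    Set.disjoint_left.1 (ins_disj (S := S) (ends := ends) hd) (h.1 he) (h'.1 he')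
  obtain ⟨h1, φ, h2, h3⟩ := h
  obtain ⟨h1', φ', h2', h3'⟩ := h'
  refine ⟨union_subset (h1.trans (ins_mono subset_union_left))
    (h1'.trans (ins_mono subset_union_right)), fun e => if e ∈ F then φ e else φ' e,
    ⟨?_, ?_, ?_⟩, ?_⟩
  · rintro e (he | he)
    · simp only [he, if_true]; exact Or.inl (h2.mapsTo he)
    · simp only [hFd e he, if_false]; exact Or.inr (h2'.mapsTo he)
  · rintro e (he | he) e' (he' | he') hee
    · simp only [he, he', if_true] at hee
      exact h2.injOn he he' hee
    · simp only [he, hFd e' he', if_true, if_false] at hee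
      exact absurd (hee ▸ h2.mapsTo he : φ' e' ∈ U)
        (fun hh => Set.disjoint_left.1 hd hh (h2'.mapsTo he'))
    · simp only [he', hFd e he, if_true, if_false] at hee
      exact absurd (hee.symm ▸ h2.mapsTo he' : φ' e ∈ U)
        (fun hh => Set.disjoint_left.1 hd hh (h2'.mapsTo he))
    · simp only [hFd e he, hFd e' he', if_false] at hee
      exact h2'.injOn he he' hee
  · rintro w (hw | hw)
    · obtain ⟨e, he, rfl⟩ := h2.surjOn hw
      exact ⟨e, Or.inl he, by simp [he]⟩
    · obtain ⟨e, he, rfl⟩ := h2'.surjOn hw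
      exact ⟨e, Or.inr he, by simp [hFd e he]⟩
  · rintro e (he | he)
    · simp only [he, if_true]; exact h3 e he
    · simp only [hFd e he, if_false]; exact h3' e he

lemma FullB.biUnion {κ : Type*} [DecidableEq κ] {S : Set α} {ends : α → Sym2 V} (Q : Finset κ)
    (W : κ → Set V) (F : κ → Set α) (h : ∀ c ∈ Q, FullB S ends (W c) (F c))
    (hd : ∀ c ∈ Q, ∀ c' ∈ Q, c ≠ c' → Disjoint (W c) (W c')) :
    FullB S ends (⋃ c ∈ Q, W c) (⋃ c ∈ Q, F c) := by
  induction Q using Finset.induction_on with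
  | empty => simpa using FullB.empty
  | insert a Q ha ih =>
    rw [Finset.set_biUnion_insert, Finset.set_biUnion_insert]
    refine (h a (Finset.mem_insert_self _ _)).union
      (ih (fun c hc => h c (Finset.mem_insert_of_mem hc))
        (fun c hc c' hc' => hd c (Finset.mem_insert_of_mem hc) c' (Finset.mem_insert_of_mem hc'))) ?_
    rw [Set.disjoint_iUnion₂_right]
    intro c hc
    exact hd a (Finset.mem_insert_self _ _) c (Finset.mem_insert_of_mem hc)
      (fun hh => ha (hh ▸ hc))

/-- A unicyclic cluster. -/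
lemma FullB.of_arb {S : Set α} {ends : α → Sym2 V} {W : Set V} {F : Set α} {e : α}
    (hF : F ⊆ ins S ends W) (he : e ∈ F) (hA : Arb S ends W (F \ {e})) : FullB S ends W F := by
  classical
  obtain ⟨v, hv⟩ := exists_mem_ends ends e
  obtain ⟨φ, hφ, hφe⟩ := hA.2.2 v ((hF he).2 v hv)
  refine ⟨hF, Function.update φ e v, ⟨?_, ?_, ?_⟩, ?_⟩
  · intro f hf
    by_cases hfe : f = e
    · subst hfe; rw [Function.update_self]; exact (hF he).2 v hv
    · rw [Function.update_of_ne hfe]; exact (hφ.mapsTo ⟨hf, hfe⟩).1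
  · intro f hf f' hf' hff
    by_cases hfe : f = e <;> by_cases hfe' : f' = e
    · rw [hfe, hfe']
    · subst hfe
      rw [Function.update_self, Function.update_of_ne hfe'] at hff
      exact absurd hff.symm (hφ.mapsTo ⟨hf', hfe'⟩).2
    · subst hfe'
      rw [Function.update_self, Function.update_of_ne hfe] at hff
      exact absurd hff (hφ.mapsTo ⟨hf, hfe⟩).2
    · rw [Function.update_of_ne hfe, Function.update_of_ne hfe'] at hff
      exact hφ.injOn ⟨hf, hfe⟩ ⟨hf', hfe'⟩ hff
  · intro w hw
    by_cases hwv : w = v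
    · exact ⟨e, he, by rw [Function.update_self, hwv]⟩
    · obtain ⟨f, ⟨hf, hfe⟩, rfl⟩ := hφ.surjOn ⟨hw, hwv⟩
      exact ⟨f, hf, by rw [Function.update_of_ne hfe]⟩
  · intro f hf
    by_cases hfe : f = e
    · subst hfe; rw [Function.update_self]; exact hv
    · rw [Function.update_of_ne hfe]; exact hφe f ⟨hf, hfe⟩

/-! ### Passing to the elements inside `U` -/

lemma ins_ins {S : Set α} {ends : α → Sym2 V} {U W : Set V} (h : W ⊆ U) :
    ins (ins S ends U) ends W = ins S ends W := by
  ext e
  constructor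
  · rintro ⟨h1, h2⟩; exact ⟨h1.1, h2⟩
  · rintro ⟨h1, h2⟩; exact ⟨⟨h1, fun v hv => h (h2 v hv)⟩, h2⟩

lemma Arb.ins {S : Set α} {ends : α → Sym2 V} {U W : Set V} {τ : Set α} (h : Arb S ends W τ)
    (hWU : W ⊆ U) : Arb (ins S ends U) ends W τ := by
  refine ⟨?_, h.2⟩
  rw [ins_ins hWU]
  exact h.1

end Gad
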