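import Pool.Agent.Helper77.GL.Conn
import Pool.Agent.GL.Full
import Pool.Agent.BICS.Defs

/-!
# Square cells of a grid with far apart holes
-/

open Set

namespace Gad

open BIC BICS

variable {α : Type*} {S : Set α} {ends : α → Sym2 (ℕ × ℕ)}

/-- All edges of the grid on `U` are present. -/
def Pres (S : Set α) (ends : α → Sym2 (ℕ × ℕ)) (U : Set (ℕ × ℕ)) : Prop :=
  ∀ p q, Adj p q → p ∈ U → q ∈ U → ∃ e ∈ S, ends e = s(p, q)

lemma Pres.mono {U U' : Set (ℕ × ℕ)} (h : Pres S ends U) (hU : U' ⊆ U) : Pres S ends U' :=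
  fun p q hpq hp hq => h p q hpq (hU hp) (hU hq)

/-! ### Connected sets -/

lemma Conn.union_adj {Q R : Set (ℕ × ℕ)} (hQ : Conn Q) (hR : Conn R) {a b : ℕ × ℕ} (ha : a ∈ Q)
    (hb : b ∈ R) (hab : Adj a b) : Conn (Q ∪ R) := by
  have h1 : Conn {a, b} := Conn.pair (Or.inl hab)
  have h2 := (hQ.union h1 ⟨a, ha, Or.inl rfl⟩).union hR ⟨b, Or.inr (Or.inr rfl), hb⟩
  have e : Q ∪ {a, b} ∪ R = Q ∪ R := by
    ext c
    simp only [mem_union, mem_insert_iff, mem_singleton_iff]
    constructor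
    · rintro ((h | rfl | rfl) | h)
      · exact Or.inl h
      · exact Or.inl ha
      · exact Or.inr hb
      · exact Or.inr h
    · rintro (h | h)
      · exact Or.inl (Or.inl h)
      · exact Or.inr h
  rw [e] at h2
  exact h2

lemma conn_of_local {W : Set (ℕ × ℕ)} (v₀ : ℕ × ℕ) (hv₀ : v₀ ∈ W)
    (h : ∀ v ∈ W, ∃ A ⊆ W, Conn A ∧ v ∈ A ∧ v₀ ∈ A) : Conn W := by
  refine ⟨⟨v₀, hv₀⟩, ?_⟩
  intro a ha b hb
  obtain ⟨A, hA, h1, h2, h3⟩ := h a ha
  obtain ⟨B, hB, h4, h5, h6⟩ := h b hb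
  exact (Conn.mono_step hA (h1.2 a h2 v₀ h3)).trans (Conn.mono_step hB (h4.2 v₀ h6 b h5))

/-- A horizontal segment. -/
def HRow (a b y : ℕ) : Set (ℕ × ℕ) := {c | c.2 = y ∧ a ≤ c.1 ∧ c.1 ≤ b}

lemma mem_HRow {a b y : ℕ} {c : ℕ × ℕ} : c ∈ HRow a b y ↔ c.2 = y ∧ a ≤ c.1 ∧ c.1 ≤ b := Iff.rfl

lemma HRow.conn {a b y : ℕ} (hab : a ≤ b) : Conn (HRow a b y) := by
  have h := Lane.conn (h := fun _ => y) (by intro x; constructor <;> omega) a (b - a)
  have e1 : HRow a b y = Lane (fun _ => y) a (a + (b - a)) := by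
    ext c
    rw [mem_Lane, mem_HRow]
    omega
  rw [e1]
  exact h

lemma Vert.conn' {x y₁ y₂ : ℕ} (h : y₁ ≤ y₂) : Conn (Vert x y₁ y₂) := by
  obtain ⟨t, rfl⟩ := Nat.exists_eq_add_of_le h
  exact Vert.conn x y₁ t

lemma mem_rct {x y a b : ℕ} {p : ℕ × ℕ} :
    p ∈ rect x y a b ↔ x ≤ p.1 ∧ p.1 < x + a ∧ y ≤ p.2 ∧ p.2 < y + b := Iff.rfl

/-- A square minus a smaller square is connected. -/
lemma dent_conn {x y D a b L : ℕ} (hD : L + 1 ≤ D) :
    Conn (rect x y D D \ rect a b L L) := by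
  -- a free column and a free row
  obtain ⟨c, hc1, hc2, hc3⟩ : ∃ c, x ≤ c ∧ c < x + D ∧ (c < a ∨ a + L ≤ c) := by
    rcases Nat.lt_or_ge x a with h | h
    · exact ⟨x, by omega, by omega, Or.inl h⟩
    · exact ⟨x + D - 1, by omega, by omega, by omega⟩
  obtain ⟨r, hr1, hr2, hr3⟩ : ∃ r, y ≤ r ∧ r < y + D ∧ (r < b ∨ b + L ≤ r) := by
    rcases Nat.lt_or_ge y b with h | h
    · exact ⟨y, by omega, by omega, Or.inl h⟩
    · exact ⟨y + D - 1, by omega, by omega, by omega⟩
  refine conn_of_local (c, r) ⟨⟨hc1, hc2, hr1, hr2⟩, fun h => ?_⟩ ?_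
  · rw [mem_rct] at h
    simp only at h
    omega
  · rintro ⟨u, v⟩ ⟨h1, h2⟩
    rw [mem_rct] at h1 h2
    simp only at h1 h2
    have hfree : (u < a ∨ a + L ≤ u) ∨ (v < b ∨ b + L ≤ v) := by
      by_contra hcon
      push Not at hcon
      exact h2 ⟨by omega, by omega, by omega, by omega⟩
    rcases hfree with hf | hf
    · refine ⟨Vert u y (y + D - 1) ∪ HRow x (x + D - 1) r, ?_,
        (Vert.conn' (by omega)).union (HRow.conn (by omega)) ⟨(u, r), ?_, ?_⟩, Or.inl ?_,
        Or.inr ?_⟩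
      · rintro ⟨p, q⟩ (h | h)
        · rw [mem_Vert] at h
          refine ⟨⟨by simp only at h ⊢; omega, by simp only at h ⊢; omega,
            by simp only at h ⊢; omega, by simp only at h ⊢; omega⟩, fun h' => ?_⟩
          rw [mem_rct] at h'
          simp only at h h'
          omega
        · rw [mem_HRow] at h
          refine ⟨⟨by simp only at h ⊢; omega, by simp only at h ⊢; omega,
            by simp only at h ⊢; omega, by simp only at h ⊢; omega⟩, fun h' => ?_⟩
          rw [mem_rct] at h'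
          simp only at h h'
          omega
      · exact ⟨rfl, by simp only; omega, by simp only; omega⟩
      · exact ⟨rfl, by simp only; omega, by simp only; omega⟩
      · exact ⟨rfl, by simp only; omega, by simp only; omega⟩
      · exact ⟨rfl, by simp only; omega, by simp only; omega⟩
    · refine ⟨HRow x (x + D - 1) v ∪ Vert c y (y + D - 1), ?_,
        (HRow.conn (by omega)).union (Vert.conn' (by omega)) ⟨(c, v), ?_, ?_⟩, Or.inl ?_,
        Or.inr ?_⟩
      · rintro ⟨p, q⟩ (h | h)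
        · rw [mem_HRow] at h
          refine ⟨⟨by simp only at h ⊢; omega, by simp only at h ⊢; omega,
            by simp only at h ⊢; omega, by simp only at h ⊢; omega⟩, fun h' => ?_⟩
          rw [mem_rct] at h'
          simp only at h h'
          omega
        · rw [mem_Vert] at h
          refine ⟨⟨by simp only at h ⊢; omega, by simp only at h ⊢; omega,
            by simp only at h ⊢; omega, by simp only at h ⊢; omega⟩, fun h' => ?_⟩
          rw [mem_rct] at h'
          simp only at h h'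
          omega
      · exact ⟨rfl, by simp only; omega, by simp only; omega⟩
      · exact ⟨rfl, by simp only; omega, by simp only; omega⟩
      · exact ⟨rfl, by simp only; omega, by simp only; omega⟩
      · exact ⟨rfl, by simp only; omega, by simp only; omega⟩

/-- A rectangle is connected. -/
lemma rect_conn {x y a b : ℕ} (ha : 1 ≤ a) (hb : 1 ≤ b) : Conn (rect x y a b) := by
  refine conn_of_local (x, y) ⟨le_refl _, by simp only; omega, le_refl _, by simp only; omega⟩ ?_
  rintro ⟨u, v⟩ h1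
  rw [mem_rct] at h1
  simp only at h1
  refine ⟨Vert u y v ∪ HRow x u y, ?_,
    (Vert.conn' (by omega)).union (HRow.conn (by omega)) ⟨(u, y), ?_, ?_⟩, Or.inl ?_, Or.inr ?_⟩
  · rintro ⟨p, q⟩ (h | h)
    · rw [mem_Vert] at h
      rw [mem_rct]
      simp only at h ⊢
      omega
    · rw [mem_HRow] at h
      rw [mem_rct]
      simp only at h ⊢
      omega
  · exact ⟨rfl, le_refl _, by simp only; omega⟩
  · exact ⟨rfl, by simp only; omega, le_refl _⟩
  · exact ⟨rfl, by simp only; omega, le_refl _⟩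
  · exact ⟨rfl, le_refl _, by simp only; omega⟩

/-! ### Spanning trees -/

/-- Extension of a tree to a connected set; the new edges are not inside the old set. -/
lemma arb_extend {U : Set (ℕ × ℕ)} (hP : Pres S ends U) {W : Set (ℕ × ℕ)} (hWU : W ⊆ U)
    (hW : W.Finite) (hC : Conn W) {W₀ : Set (ℕ × ℕ)} (hW₀ : W₀ ⊆ W) {τ₀ : Set α}
    (h₀ : Arb S ends W₀ τ₀) :
    ∃ τ, τ₀ ⊆ τ ∧ Arb S ends W τ ∧ ∀ f ∈ τ, f ∈ ins S ends W₀ → f ∈ τ₀ := by
  have key : ∀ n : ℕ, ∀ R, W₀ ⊆ R → R ⊆ W → (W \ R).ncard = n →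
      (∃ τ, τ₀ ⊆ τ ∧ Arb S ends R τ ∧ ∀ f ∈ τ, f ∈ ins S ends W₀ → f ∈ τ₀) →
      ∃ τ, τ₀ ⊆ τ ∧ Arb S ends W τ ∧ ∀ f ∈ τ, f ∈ ins S ends W₀ → f ∈ τ₀ := by
    intro n
    induction n with
    | zero =>
      intro R hR1 hR2 hn hex
      have h1 : W \ R = ∅ := by
        rwa [Set.ncard_eq_zero (hW.subset sdiff_subset)] at hn
      have h2 : R = W := Subset.antisymm hR2 (sdiff_eq_empty.1 h1)
      rw [← h2]
      exact hex
    | succ n ih =>
      rintro R hR1 hR2 hn ⟨τ, h1, h2, h3⟩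
      obtain ⟨b, hb⟩ : (W \ R).Nonempty := by
        rw [Set.nonempty_iff_ne_empty]
        intro h
        rw [h, Set.ncard_empty] at hn
        omega
      obtain ⟨a, ha⟩ := h2.2.1
      obtain ⟨x, hx, y, hy, hxy, hxW, hyW⟩ := exit (R := R) (hC.2 a (hR2 ha) b hb.1) ha hb.2
      obtain ⟨f, hfS, hf⟩ := hP x y hxy (hWU hxW) (hWU hyW)
      have hd : Disjoint R {y} := by
        rw [Set.disjoint_singleton_right]
        exact hy
      have h4 := Arb.join hd h2 (Arb.single (S := S) (ends := ends) y) hfS hf hx rfl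
      refine ih (R ∪ {y}) (hR1.trans subset_union_left)
        (union_subset hR2 (singleton_subset_iff.2 hyW)) ?_ ⟨_, ?_, h4, ?_⟩
      · have h5 : W \ R = insert y (W \ (R ∪ {y})) := by
          ext c
          simp only [mem_sdiff, mem_insert_iff, mem_union, mem_singleton_iff]
          constructor
          · rintro ⟨h6, h7⟩
            by_cases h8 : c = y
            · exact Or.inl h8
            · exact Or.inr ⟨h6, fun h => h.elim h7 h8⟩
          · rintro (rfl | ⟨h6, h7⟩)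
            · exact ⟨hyW, hy⟩
            · exact ⟨h6, fun h => h7 (Or.inl h)⟩
        rw [h5, Set.ncard_insert_of_notMem (by
          rintro ⟨_, h⟩
          exact h (Or.inr rfl)) (hW.subset sdiff_subset)] at hn
        omega
      · intro g hg
        exact Or.inr (Or.inl (h1 hg))
      · rintro g (rfl | hg | hg) hg'
        · exact absurd (hR1 (hg'.2 y (by rw [hf]; simp))) hy
        · exact h3 g hg hg'
        · exact absurd hg (by simp)
  exact key _ W₀ (subset_refl _) hW₀ rfl ⟨τ₀, subset_refl _, h₀, fun f hf _ => hf⟩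

/-- A connected set containing a unit face carries a unicyclic base. -/
theorem exists_unicyclic {U : Set (ℕ × ℕ)} (hP : Pres S ends U) {W : Set (ℕ × ℕ)} (hWU : W ⊆ U)
    (hW : W.Finite) (hC : Conn W) {x y : ℕ} (h00 : (x, y) ∈ W) (h10 : (x + 1, y) ∈ W)
    (h01 : (x, y + 1) ∈ W) (h11 : (x + 1, y + 1) ∈ W) :
    ∃ (F : Set α) (e : α), F ⊆ ins S ends W ∧ e ∈ F ∧ Arb S ends W (F \ {e}) := by
  obtain ⟨e1, he1, hh1⟩ := hP (x, y) (x + 1, y) (by unfold Adj; simp) (hWU h00) (hWU h10)
  obtain ⟨e2, he2, hh2⟩ := hP (x + 1, y) (x + 1, y + 1) (by unfold Adj; simp) (hWU h10) (hWU h11)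
  obtain ⟨e3, he3, hh3⟩ := hP (x + 1, y + 1) (x, y + 1) (by unfold Adj; simp) (hWU h11) (hWU h01)
  obtain ⟨e4, he4, hh4⟩ := hP (x, y) (x, y + 1) (by unfold Adj; simp) (hWU h00) (hWU h01)
  have a1 := Arb.join (S := S) (ends := ends) (W₁ := {(x, y)}) (W₂ := {(x + 1, y)})
    (by simp) (Arb.single _) (Arb.single _) he1 hh1 rfl rfl
  have a2 := Arb.join (W₂ := {(x + 1, y + 1)}) (by
    rw [Set.disjoint_singleton_right]
    simp) a1 (Arb.single _) he2 hh2 (Or.inr rfl) rfl
  have a3 := Arb.join (W₂ := {(x, y + 1)}) (by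
    rw [Set.disjoint_singleton_right]
    simp) a2 (Arb.single _) he3 hh3 (Or.inr rfl) rfl
  obtain ⟨τ, h1, h2, h3⟩ := arb_extend hP hWU hW hC (by
    rintro c (((rfl | rfl) | rfl) | rfl)
    · exact h00
    · exact h10
    · exact h11
    · exact h01) a3
  have he4τ : e4 ∉ τ := by
    intro h
    have h4 := h3 e4 h ⟨he4, by
      intro v hv
      rw [hh4] at hv
      rcases Sym2.mem_iff.1 hv with rfl | rfl
      · exact Or.inl (Or.inl (Or.inl rfl))
      · exact Or.inr rfl⟩
    have hne : ∀ f : α, f = e1 ∨ f = e2 ∨ f = e3 → ends f ≠ ends e4 := by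
      rintro f (rfl | rfl | rfl) h5
      · rw [hh1, hh4] at h5
        rcases Sym2.eq_iff.1 h5 with ⟨_, h6⟩ | ⟨_, h6⟩ <;> simp at h6
      · rw [hh2, hh4] at h5
        rcases Sym2.eq_iff.1 h5 with ⟨h6, _⟩ | ⟨h6, _⟩ <;> simp at h6
      · rw [hh3, hh4] at h5
        rcases Sym2.eq_iff.1 h5 with ⟨h6, _⟩ | ⟨h6, _⟩ <;> simp at h6
    simp only [mem_insert_iff, mem_union, mem_empty_iff_false, or_false] at h4
    exact hne e4 (by tauto) rfl
  refine ⟨insert e4 τ, e4, insert_subset ⟨he4, ?_⟩ h2.1, mem_insert _ _, ?_⟩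
  · intro v hv
    rw [hh4] at hv
    rcases Sym2.mem_iff.1 hv with rfl | rfl
    · exact h00
    · exact h01
  · have e5 : insert e4 τ \ {e4} = τ := by
      ext f
      simp only [mem_sdiff, mem_insert_iff, mem_singleton_iff]
      constructor
      · rintro ⟨h | h, h'⟩
        · exact absurd h h'
        · exact h
      · intro h
        exact ⟨Or.inr h, fun h' => he4τ (h' ▸ h)⟩
    rw [e5]
    exact h2

/-- A dented square contains a unit face. -/
lemma dent_face {x y D a b L : ℕ} (hD : L + 3 ≤ D) : ∃ p q : ℕ,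
    (p, q) ∈ rect x y D D \ rect a b L L ∧ (p + 1, q) ∈ rect x y D D \ rect a b L L ∧
    (p, q + 1) ∈ rect x y D D \ rect a b L L ∧ (p + 1, q + 1) ∈ rect x y D D \ rect a b L L := by
  have hm : ∀ u v : ℕ, x ≤ u → u < x + D → y ≤ v → v < y + D → (v < b ∨ b + L ≤ v) →
      (u, v) ∈ rect x y D D \ rect a b L L := by
    intro u v h1 h2 h3 h4 h5
    refine ⟨⟨h1, h2, h3, h4⟩, fun h => ?_⟩
    rw [mem_rct] at h
    simp only at h
    omega
  rcases Nat.lt_or_ge (y + 1) b with h | h
  · exact ⟨x, y, hm _ _ (by omega) (by omega) (by omega) (by omega) (by omega),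
      hm _ _ (by omega) (by omega) (by omega) (by omega) (by omega),
      hm _ _ (by omega) (by omega) (by omega) (by omega) (by omega),
      hm _ _ (by omega) (by omega) (by omega) (by omega) (by omega)⟩
  · exact ⟨x, y + D - 2, hm _ _ (by omega) (by omega) (by omega) (by omega) (by omega),
      hm _ _ (by omega) (by omega) (by omega) (by omega) (by omega),
      hm _ _ (by omega) (by omega) (by omega) (by omega) (by omega),
      hm _ _ (by omega) (by omega) (by omega) (by omega) (by omega)⟩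

/-- A full rectangle carries a full base. -/
lemma rect_full {U : Set (ℕ × ℕ)} (hP : Pres S ends U) {x y a b : ℕ} (ha : 2 ≤ a) (hb : 2 ≤ b)
    (hU : rect x y a b ⊆ U) : ∃ F, FullB S ends (rect x y a b) F := by
  have hfin : (rect x y a b).Finite := by
    refine ((Finset.Ico x (x + a) ×ˢ Finset.Ico y (y + b) : Finset (ℕ × ℕ)).finite_toSet).subset ?_
    intro p hp
    rw [mem_rct] at hp
    simp only [Finset.coe_product, Finset.coe_Ico, mem_prod, mem_Ico]
    omega
  obtain ⟨F, e, h1, h2, h3⟩ := exists_unicyclic (x := x) (y := y) hP hU hfin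
    (rect_conn (by omega) (by omega))
    (by rw [mem_rct]; simp only; omega) (by rw [mem_rct]; simp only; omega)
    (by rw [mem_rct]; simp only; omega) (by rw [mem_rct]; simp only; omega)
  exact ⟨F, FullB.of_arb h1 h2 h3⟩

/-! ### Rungs -/

lemma rung_fam {ι : Type*} [Fintype ι] {W₁ W₂ : Set (ℕ × ℕ)} (J : Finset ℕ)
    (hJ : Fintype.card ι < J.card) (a b : ℕ → ℕ × ℕ) (ha : ∀ j ∈ J, a j ∈ W₁)
    (hb : ∀ j ∈ J, b j ∈ W₂) (he : ∀ j ∈ J, ∃ e ∈ S, ends e = s(a j, b j))
    (hinj : ∀ i ∈ J, ∀ j ∈ J, s(a i, b i) = s(a j, b j) → i = j) :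
    Rung ι S ends W₁ W₂ := by
  classical
  have hne : Nonempty α := by
    obtain ⟨j, hj⟩ := Finset.card_pos.1 (lt_of_le_of_lt (Nat.zero_le _) hJ)
    obtain ⟨e, _⟩ := he j hj
    exact ⟨e⟩
  choose! f hf using he
  refine ⟨J.image f, ?_, ?_⟩
  · rw [Finset.card_image_of_injOn]
    · exact hJ
    · intro i hi j hj hij
      apply hinj i hi j hj
      rw [← (hf i hi).2, ← (hf j hj).2, hij]
  · intro g hg
    obtain ⟨j, hj, rfl⟩ := Finset.mem_image.1 hg
    exact ⟨(hf j hj).1, a j, ha j hj, b j, hb j hj, (hf j hj).2⟩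

/-- Rungs between two squares side by side which together meet at most one hole. -/
lemma rung_right {ι : Type*} [Fintype ι] {U : Set (ℕ × ℕ)} (hP : Pres S ends U)
    {x y D L a b : ℕ} (hι : Fintype.card ι + L < D)
    (hU1 : rect x y D D \ rect a b L L ⊆ U) (hU2 : rect (x + D) y D D \ rect a b L L ⊆ U) :
    Rung ι S ends (rect x y D D \ rect a b L L) (rect (x + D) y D D \ rect a b L L) := by
  classical
  have hcard : (Finset.Ico y (y + D)).card ≤
      ((Finset.Ico y (y + D)).filter (fun j => j < b ∨ b + L ≤ j)).card + L := by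
    have h1 : Finset.Ico y (y + D) ⊆ ((Finset.Ico y (y + D)).filter
        (fun j => j < b ∨ b + L ≤ j)) ∪ Finset.Ico b (b + L) := by
      intro j hj
      by_cases h : j < b ∨ b + L ≤ j
      · exact Finset.mem_union_left _ (Finset.mem_filter.2 ⟨hj, h⟩)
      · exact Finset.mem_union_right _ (Finset.mem_Ico.2 (by omega))
    refine (Finset.card_le_card h1).trans ((Finset.card_union_le _ _).trans ?_)
    rw [Nat.card_Ico b (b + L)]
    omega
  rw [Nat.card_Ico] at hcard
  have m1 : ∀ j ∈ (Finset.Ico y (y + D)).filter (fun j => j < b ∨ b + L ≤ j),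
      ((x + D - 1, j) : ℕ × ℕ) ∈ rect x y D D \ rect a b L L := by
    intro j hj
    obtain ⟨h1, h2⟩ := Finset.mem_filter.1 hj
    rw [Finset.mem_Ico] at h1
    refine ⟨⟨by simp only; omega, by simp only; omega, h1.1, h1.2⟩, fun h => ?_⟩
    rw [mem_rct] at h
    simp only at h
    omega
  have m2 : ∀ j ∈ (Finset.Ico y (y + D)).filter (fun j => j < b ∨ b + L ≤ j),
      ((x + D, j) : ℕ × ℕ) ∈ rect (x + D) y D D \ rect a b L L := by
    intro j hj
    obtain ⟨h1, h2⟩ := Finset.mem_filter.1 hj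
    rw [Finset.mem_Ico] at h1
    refine ⟨⟨by simp only; omega, by simp only; omega, h1.1, h1.2⟩, fun h => ?_⟩
    rw [mem_rct] at h
    simp only at h
    omega
  refine rung_fam ((Finset.Ico y (y + D)).filter (fun j => j < b ∨ b + L ≤ j)) (by omega)
    (fun j => (x + D - 1, j)) (fun j => (x + D, j)) m1 m2 ?_ ?_
  · intro j hj
    refine hP _ _ ?_ (hU1 (m1 j hj)) (hU2 (m2 j hj))
    unfold Adj
    simp only [true_and]
    omega
  · intro i _ j _ hij
    rcases Sym2.eq_iff.1 hij with ⟨h1, _⟩ | ⟨h1, _⟩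
    · rw [Prod.mk.injEq] at h1
      exact h1.2
    · rw [Prod.mk.injEq] at h1
      exact h1.2

/-- Rungs between two squares on top of each other. -/
lemma rung_up {ι : Type*} [Fintype ι] {U : Set (ℕ × ℕ)} (hP : Pres S ends U)
    {x y D L a b : ℕ} (hι : Fintype.card ι + L < D)
    (hU1 : rect x y D D \ rect a b L L ⊆ U) (hU2 : rect x (y + D) D D \ rect a b L L ⊆ U) :
    Rung ι S ends (rect x y D D \ rect a b L L) (rect x (y + D) D D \ rect a b L L) := by
  classical
  have hcard : (Finset.Ico x (x + D)).card ≤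
      ((Finset.Ico x (x + D)).filter (fun j => j < a ∨ a + L ≤ j)).card + L := by
    have h1 : Finset.Ico x (x + D) ⊆ ((Finset.Ico x (x + D)).filter
        (fun j => j < a ∨ a + L ≤ j)) ∪ Finset.Ico a (a + L) := by
      intro j hj
      by_cases h : j < a ∨ a + L ≤ j
      · exact Finset.mem_union_left _ (Finset.mem_filter.2 ⟨hj, h⟩)
      · exact Finset.mem_union_right _ (Finset.mem_Ico.2 (by omega))
    refine (Finset.card_le_card h1).trans ((Finset.card_union_le _ _).trans ?_)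
    rw [Nat.card_Ico a (a + L)]
    omega
  rw [Nat.card_Ico] at hcard
  have m1 : ∀ j ∈ (Finset.Ico x (x + D)).filter (fun j => j < a ∨ a + L ≤ j),
      ((j, y + D - 1) : ℕ × ℕ) ∈ rect x y D D \ rect a b L L := by
    intro j hj
    obtain ⟨h1, h2⟩ := Finset.mem_filter.1 hj
    rw [Finset.mem_Ico] at h1
    refine ⟨⟨h1.1, h1.2, by simp only; omega, by simp only; omega⟩, fun h => ?_⟩
    rw [mem_rct] at h
    simp only at h
    omega
  have m2 : ∀ j ∈ (Finset.Ico x (x + D)).filter (fun j => j < a ∨ a + L ≤ j),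
      ((j, y + D) : ℕ × ℕ) ∈ rect x (y + D) D D \ rect a b L L := by
    intro j hj
    obtain ⟨h1, h2⟩ := Finset.mem_filter.1 hj
    rw [Finset.mem_Ico] at h1
    refine ⟨⟨h1.1, h1.2, by simp only; omega, by simp only; omega⟩, fun h => ?_⟩
    rw [mem_rct] at h
    simp only at h
    omega
  refine rung_fam ((Finset.Ico x (x + D)).filter (fun j => j < a ∨ a + L ≤ j)) (by omega)
    (fun j => (j, y + D - 1)) (fun j => (j, y + D)) m1 m2 ?_ ?_
  · intro j hj
    refine hP _ _ ?_ (hU1 (m1 j hj)) (hU2 (m2 j hj))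
    unfold Adj
    simp only [true_and]
    omega
  · intro i _ j _ hij
    rcases Sym2.eq_iff.1 hij with ⟨h1, _⟩ | ⟨h1, _⟩
    · rw [Prod.mk.injEq] at h1
      exact h1.1
    · rw [Prod.mk.injEq] at h1
      exact h1.1

end Gad
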