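import Mathlib

/-!
# Isoperimetry of the brick wall

The brick wall on `[0, 2h) × [0, 2h)`: horizontal edges, and vertical edges `(i, j)`, `(i, j + 1)`
with `i + j` even. A set of vertices with a large number of vertices inside and outside is left by
many edges which are far apart.
-/

namespace Iso

/-- Adjacency of the brick wall. -/
def WAdj (u v : ℕ × ℕ) : Prop :=
  (u.2 = v.2 ∧ (u.1 + 1 = v.1 ∨ v.1 + 1 = u.1)) ∨
  (u.1 = v.1 ∧ ((u.2 + 1 = v.2 ∧ (u.1 + u.2) % 2 = 0) ∨ (v.2 + 1 = u.2 ∧ (v.1 + v.2) % 2 = 0)))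

lemma WAdj.symm {u v : ℕ × ℕ} (h : WAdj u v) : WAdj v u := by
  rcases h with ⟨h1, h2⟩ | ⟨h1, h2⟩
  · exact Or.inl ⟨h1.symm, h2.symm⟩
  · exact Or.inr ⟨h1.symm, h2.symm⟩

/-- Discrete intermediate values. -/
lemma switch (P : ℕ → Prop) {a b : ℕ} (hab : a ≤ b) (h : ¬ (P a ↔ P b)) :
    ∃ t, a ≤ t ∧ t < b ∧ ¬ (P t ↔ P (t + 1)) := by
  induction b, hab using Nat.le_induction with
  | base => exact absurd Iff.rfl h
  | succ b hb ih =>
    by_cases h1 : P a ↔ P b
    · refine ⟨b, hb, Nat.lt_succ_self b, fun h2 => h (h1.trans h2)⟩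
    · obtain ⟨t, h2, h3, h4⟩ := ih h1
      exact ⟨t, h2, by omega, h4⟩

lemma switch' (P : ℕ → Prop) {a b n : ℕ} (ha : a < n) (hb : b < n) (h1 : P a) (h2 : ¬ P b) :
    ∃ t, t + 1 < n ∧ ¬ (P t ↔ P (t + 1)) := by
  rcases Nat.le_total a b with hab | hab
  · obtain ⟨t, _, h4, h5⟩ := switch P hab (fun h => h2 (h.1 h1))
    exact ⟨t, by omega, h5⟩
  · obtain ⟨t, _, h4, h5⟩ := switch P hab (fun h => h2 (h.2 h1))
    exact ⟨t, by omega, h5⟩

/-- An edge leaving `A`, from inside to outside, within the box. -/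
def Leaves (A : Set (ℕ × ℕ)) (h : ℕ) (u v : ℕ × ℕ) : Prop :=
  WAdj u v ∧ u ∈ A ∧ v ∉ A ∧ u.1 < 2 * h ∧ u.2 < 2 * h ∧ v.1 < 2 * h ∧ v.2 < 2 * h

lemma leaves_of_switch {A : Set (ℕ × ℕ)} {h : ℕ} {u v : ℕ × ℕ} (hadj : WAdj u v)
    (h1 : u.1 < 2 * h) (h2 : u.2 < 2 * h) (h3 : v.1 < 2 * h) (h4 : v.2 < 2 * h)
    (hs : ¬ (u ∈ A ↔ v ∈ A)) : ∃ u' v', Leaves A h u' v' ∧
      ((u' = u ∧ v' = v) ∨ (u' = v ∧ v' = u)) := by
  by_cases hu : u ∈ A
  · by_cases hv : v ∈ A
    · exact absurd ⟨fun _ => hv, fun _ => hu⟩ hs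
    · exact ⟨u, v, ⟨hadj, hu, hv, h1, h2, h3, h4⟩, Or.inl ⟨rfl, rfl⟩⟩
  · by_cases hv : v ∈ A
    · exact ⟨v, u, ⟨hadj.symm, hv, hu, h3, h4, h1, h2⟩, Or.inr ⟨rfl, rfl⟩⟩
    · exact absurd ⟨fun h => absurd h hu, fun h => absurd h hv⟩ hs

/-- A row with vertices inside and outside. -/
def MixR (A : Set (ℕ × ℕ)) (h j : ℕ) : Prop := (∃ i < 2 * h, (i, j) ∈ A) ∧ ∃ i < 2 * h, (i, j) ∉ A

/-- A pair of columns with vertices inside and outside. -/
def MixC (A : Set (ℕ × ℕ)) (h c : ℕ) : Prop :=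
  (∃ a < 2, ∃ j < 2 * h, (2 * c + a, j) ∈ A) ∧ ∃ a < 2, ∃ j < 2 * h, (2 * c + a, j) ∉ A

lemma row_leaves {A : Set (ℕ × ℕ)} {h j : ℕ} (hj : j < 2 * h) (hm : MixR A h j) :
    ∃ u v, Leaves A h u v ∧ u.2 = j ∧ v.2 = j := by
  obtain ⟨⟨i, hi, h1⟩, ⟨i', hi', h2⟩⟩ := hm
  obtain ⟨t, h3, h4⟩ := switch' (fun i => (i, j) ∈ A) hi hi' h1 h2
  obtain ⟨u', v', h5, h6⟩ := leaves_of_switch (A := A) (h := h) (u := (t, j)) (v := (t + 1, j))
    (Or.inl ⟨rfl, Or.inl rfl⟩) (by simp only; omega) hj h3 hj h4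
  refine ⟨u', v', h5, ?_⟩
  rcases h6 with ⟨rfl, rfl⟩ | ⟨rfl, rfl⟩ <;> exact ⟨rfl, rfl⟩

/-- The zigzag path through the columns `2c`, `2c + 1`. -/
def zig (c t : ℕ) : ℕ × ℕ := (2 * c + (t + t / 2 + 1) % 2, t / 2)

lemma zig_adj (c t : ℕ) : WAdj (zig c t) (zig c (t + 1)) := by
  unfold WAdj zig
  simp only
  rcases Nat.even_or_odd' t with ⟨s, rfl | rfl⟩
  · left
    have h1 : 2 * s / 2 = s := by omega
    have h2 : (2 * s + 1) / 2 = s := by omega
    rw [h1, h2]
    refine ⟨rfl, ?_⟩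
    omega
  · right
    have h1 : (2 * s + 1) / 2 = s := by omega
    have h2 : (2 * s + 1 + 1) / 2 = s + 1 := by omega
    rw [h1, h2]
    omega

lemma zig_surj {c a j h : ℕ} (ha : a < 2) (hj : j < 2 * h) :
    ∃ t < 4 * h, zig c t = (2 * c + a, j) := by
  by_cases h1 : (2 * j + j + 1) % 2 = a
  · refine ⟨2 * j, by omega, ?_⟩
    unfold zig
    have h2 : 2 * j / 2 = j := by omega
    rw [h2, h1]
  · refine ⟨2 * j + 1, by omega, ?_⟩
    unfold zig
    have h2 : (2 * j + 1) / 2 = j := by omega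
    have h3 : (2 * j + 1 + j + 1) % 2 = a := by omega
    rw [h2, h3]

lemma col_leaves {A : Set (ℕ × ℕ)} {h c : ℕ} (hc : c < h) (hm : MixC A h c) :
    ∃ u v, Leaves A h u v ∧ u.1 / 2 = c ∧ v.1 / 2 = c := by
  obtain ⟨⟨a, ha, j, hj, h1⟩, ⟨a', ha', j', hj', h2⟩⟩ := hm
  obtain ⟨t, ht, h3⟩ := zig_surj (c := c) ha hj
  obtain ⟨t', ht', h3'⟩ := zig_surj (c := c) ha' hj'
  rw [← h3] at h1
  rw [← h3'] at h2
  obtain ⟨s, h4, h5⟩ := switch' (fun t => zig c t ∈ A) ht ht' h1 h2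
  have hb : ∀ r, r < 4 * h → (zig c r).1 < 2 * h ∧ (zig c r).2 < 2 * h ∧ (zig c r).1 / 2 = c := by
    intro r hr
    unfold zig
    simp only
    have := Nat.mod_lt (r + r / 2 + 1) (show 0 < 2 by norm_num)
    omega
  have b1 := hb s (by omega)
  have b2 := hb (s + 1) h4
  obtain ⟨u', v', h6, h7⟩ := leaves_of_switch (A := A) (h := h) (zig_adj c s) b1.1 b1.2.1 b2.1
    b2.2.1 h5
  refine ⟨u', v', h6, ?_⟩
  rcases h7 with ⟨rfl, rfl⟩ | ⟨rfl, rfl⟩
  · exact ⟨b1.2.2, b2.2.2⟩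
  · exact ⟨b2.2.2, b1.2.2⟩

/-- The box. -/
def box (h : ℕ) : Finset (ℕ × ℕ) := Finset.range (2 * h) ×ˢ Finset.range (2 * h)

open Classical in
/-- Many mixed rows or many mixed columns. -/
theorem many_mixed {A : Set (ℕ × ℕ)} {h M : ℕ} (hM : 1 ≤ M)
    (h1 : 2 * M ^ 2 ≤ ((box h).filter (· ∈ A)).card)
    (h2 : 2 * M ^ 2 ≤ ((box h).filter (· ∉ A)).card) :
    M ≤ ((Finset.range (2 * h)).filter (MixR A h)).card ∨
    M ≤ ((Finset.range h).filter (MixC A h)).card := by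
  by_contra hcon
  push Not at hcon
  obtain ⟨hR, hC⟩ := hcon
  have hMh : M ≤ h := by
    have h3 : ((box h).filter (· ∈ A)).card + ((box h).filter (· ∉ A)).card = (box h).card :=
      Finset.card_filter_add_card_filter_not (fun v => v ∈ A)
    have h4 : (box h).card = 2 * h * (2 * h) := by
      unfold box
      rw [Finset.card_product, Finset.card_range]
    have h5 : M ^ 2 ≤ h ^ 2 := by
      have : 2 * h * (2 * h) = 4 * h ^ 2 := by ring
      omega
    exact (Nat.pow_le_pow_iff_left (by norm_num)).1 h5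
  obtain ⟨j₀, hj₀, hj₀'⟩ : ∃ j < 2 * h, ¬ MixR A h j := by
    by_contra hcon
    push Not at hcon
    have : (Finset.range (2 * h)).filter (MixR A h) = Finset.range (2 * h) :=
      Finset.filter_true_of_mem (fun j hj => hcon j (Finset.mem_range.1 hj))
    rw [this, Finset.card_range] at hR
    omega
  obtain ⟨c₀, hc₀, hc₀'⟩ : ∃ c < h, ¬ MixC A h c := by
    by_contra hcon
    push Not at hcon
    have : (Finset.range h).filter (MixC A h) = Finset.range h :=
      Finset.filter_true_of_mem (fun j hj => hcon j (Finset.mem_range.1 hj))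
    rw [this, Finset.card_range] at hC
    omega
  -- a pure row and a pure column have the same type
  have pureR : ∀ j < 2 * h, ¬ MixR A h j → ∀ i < 2 * h, ∀ i' < 2 * h,
      ((i, j) ∈ A ↔ (i', j) ∈ A) := by
    intro j _ hj i hi i' hi'
    by_contra hcon
    by_cases h3 : (i, j) ∈ A
    · exact hj ⟨⟨i, hi, h3⟩, ⟨i', hi', fun h4 => hcon ⟨fun _ => h4, fun _ => h3⟩⟩⟩
    · refine hj ⟨⟨i', hi', ?_⟩, ⟨i, hi, h3⟩⟩
      by_contra h4
      exact hcon ⟨fun h => absurd h h3, fun h => absurd h h4⟩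
  have pureC : ∀ c < h, ¬ MixC A h c → ∀ a < 2, ∀ j < 2 * h, ∀ a' < 2, ∀ j' < 2 * h,
      ((2 * c + a, j) ∈ A ↔ (2 * c + a', j') ∈ A) := by
    intro c _ hc a ha j hj a' ha' j' hj'
    by_contra hcon
    by_cases h3 : (2 * c + a, j) ∈ A
    · exact hc ⟨⟨a, ha, j, hj, h3⟩, ⟨a', ha', j', hj', fun h4 => hcon ⟨fun _ => h4, fun _ => h3⟩⟩⟩
    · refine hc ⟨⟨a', ha', j', hj', ?_⟩, ⟨a, ha, j, hj, h3⟩⟩
      by_contra h4
      exact hcon ⟨fun h => absurd h h3, fun h => absurd h h4⟩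
  -- outside of the mixed rows and columns everything has the type of (2 c₀, j₀)
  have key : ∀ v ∈ box h, ¬ (v ∈ A ↔ (2 * c₀ + 0, j₀) ∈ A) →
      MixR A h v.2 ∧ MixC A h (v.1 / 2) := by
    intro v hv hne
    unfold box at hv
    rw [Finset.mem_product, Finset.mem_range, Finset.mem_range] at hv
    obtain ⟨i, j⟩ := v
    simp only at hv hne ⊢
    have hi : i = 2 * (i / 2) + i % 2 := by omega
    have hi2 : i % 2 < 2 := Nat.mod_lt _ (by norm_num)
    have hih : i / 2 < h := by omega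
    constructor
    · by_contra hmix
      apply hne
      have e1 := pureR j hv.2 hmix i hv.1 (2 * c₀ + 0) (by omega)
      have e2 := pureC c₀ hc₀ hc₀' 0 (by norm_num) j hv.2 0 (by norm_num) j₀ hj₀
      exact e1.trans e2
    · by_contra hmix
      apply hne
      have e1 := pureC (i / 2) hih hmix (i % 2) hi2 j hv.2 0 (by norm_num) j₀ hj₀
      rw [← hi] at e1
      have e2 := pureR j₀ hj₀ hj₀' (2 * (i / 2) + 0) (by omega) (2 * c₀ + 0) (by omega)
      exact e1.trans e2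
  have hbound : ((box h).filter (fun v => ¬ (v ∈ A ↔ (2 * c₀ + 0, j₀) ∈ A))).card <
      2 * M ^ 2 := by
    have hsub : (box h).filter (fun v => ¬ (v ∈ A ↔ (2 * c₀ + 0, j₀) ∈ A)) ⊆
        ((((Finset.range h).filter (MixC A h)) ×ˢ Finset.range 2) ×ˢ
          ((Finset.range (2 * h)).filter (MixR A h))).image
          (fun p => (2 * p.1.1 + p.1.2, p.2)) := by
      intro v hv
      rw [Finset.mem_filter] at hv
      obtain ⟨h3, h4⟩ := key v hv.1 hv.2
      have hv1 := hv.1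
      unfold box at hv1
      rw [Finset.mem_product, Finset.mem_range, Finset.mem_range] at hv1
      rw [Finset.mem_image]
      refine ⟨((v.1 / 2, v.1 % 2), v.2), ?_, ?_⟩
      · rw [Finset.mem_product, Finset.mem_product, Finset.mem_filter, Finset.mem_filter,
          Finset.mem_range, Finset.mem_range, Finset.mem_range]
        refine ⟨⟨⟨by simp only; omega, h4⟩, Nat.mod_lt _ (by norm_num)⟩, hv1.2, h3⟩
      · ext
        · simp only; omega
        · rfl
    have h3 := (Finset.card_le_card hsub).trans Finset.card_image_le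
    rw [Finset.card_product, Finset.card_product, Finset.card_range] at h3
    have h4 : ((Finset.range h).filter (MixC A h)).card * 2 *
        ((Finset.range (2 * h)).filter (MixR A h)).card < 2 * M ^ 2 := by
      have h5 : ((Finset.range h).filter (MixC A h)).card *
          ((Finset.range (2 * h)).filter (MixR A h)).card < M * M := by
        rcases Nat.eq_zero_or_pos ((Finset.range (2 * h)).filter (MixR A h)).card with h0 | h0
        · rw [h0, mul_zero]
          positivity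
        · exact Nat.mul_lt_mul'' hC hR
      calc _ = 2 * (((Finset.range h).filter (MixC A h)).card *
          ((Finset.range (2 * h)).filter (MixR A h)).card) := by ring
        _ < 2 * (M * M) := by omega
        _ = _ := by ring
    exact lt_of_le_of_lt h3 h4
  by_cases hτ : ((2 * c₀ + 0, j₀) : ℕ × ℕ) ∈ A
  · have : (box h).filter (fun v => ¬ (v ∈ A ↔ (2 * c₀ + 0, j₀) ∈ A)) =
        (box h).filter (· ∉ A) := by
      refine Finset.filter_congr (fun v _ => ?_)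
      exact ⟨fun h3 h4 => h3 ⟨fun _ => hτ, fun _ => h4⟩, fun h3 h4 => h3 (h4.2 hτ)⟩
    rw [this] at hbound
    omega
  · have : (box h).filter (fun v => ¬ (v ∈ A ↔ (2 * c₀ + 0, j₀) ∈ A)) =
        (box h).filter (· ∈ A) := by
      refine Finset.filter_congr (fun v _ => ?_)
      constructor
      · intro h3
        by_contra h4
        exact h3 ⟨fun h => absurd h h4, fun h => absurd h hτ⟩
      · intro h3 h4
        exact hτ (h4.1 h3)
    rw [this] at hbound
    omega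

/-- Among `m * D` natural numbers there are `m` with pairwise distances at least `D`. -/
lemma spaced {R : Finset ℕ} {m D : ℕ} (hD : 1 ≤ D) (hR : m * D ≤ R.card) :
    ∃ f : Fin m → ℕ, (∀ t, f t ∈ R) ∧ ∀ t t', t < t' → f t + D ≤ f t' := by
  classical
  rcases Nat.eq_zero_or_pos m with rfl | hm
  · exact ⟨fun t => t.elim0, fun t => t.elim0, fun t => t.elim0⟩
  -- a residue class with at least `m` elements
  obtain ⟨r, _, hr⟩ : ∃ r ∈ Finset.range D, m ≤ (R.filter (fun x => x % D = r)).card := by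
    by_contra hcon
    push Not at hcon
    have h1 : R.card = ∑ r ∈ Finset.range D, (R.filter (fun x => x % D = r)).card :=
      Finset.card_eq_sum_card_fiberwise (fun x _ => Finset.mem_coe.2
        (Finset.mem_range.2 (Nat.mod_lt _ (by omega))))
    have h2 : ∑ r ∈ Finset.range D, (R.filter (fun x => x % D = r)).card <
        ∑ r ∈ Finset.range D, m :=
      Finset.sum_lt_sum_of_nonempty (Finset.nonempty_range_iff.2 (by omega)) hcon
    rw [Finset.sum_const, Finset.card_range, smul_eq_mul, mul_comm] at h2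
    omega
  obtain ⟨Q, hQ, hQc⟩ := Finset.exists_subset_card_eq hr
  refine ⟨fun t => Q.orderEmbOfFin hQc t, fun t => ?_, fun t t' htt => ?_⟩
  · exact (Finset.mem_filter.1 (hQ (Finset.orderEmbOfFin_mem Q hQc t))).1
  · have h1 := (Finset.mem_filter.1 (hQ (Finset.orderEmbOfFin_mem Q hQc t))).2
    have h2 := (Finset.mem_filter.1 (hQ (Finset.orderEmbOfFin_mem Q hQc t'))).2
    have h3 : Q.orderEmbOfFin hQc t < Q.orderEmbOfFin hQc t' :=
      (Q.orderEmbOfFin hQc).strictMono htt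
    have h4 : Q.orderEmbOfFin hQc t ≡ Q.orderEmbOfFin hQc t' [MOD D] := by
      unfold Nat.ModEq
      rw [h1, h2]
    have h5 := (Nat.modEq_iff_dvd' h3.le).1 h4
    have h6 := Nat.le_of_dvd (by omega) h5
    show Q.orderEmbOfFin hQc t + D ≤ Q.orderEmbOfFin hQc t'
    omega

open Classical in
/-- ISOPERIMETRY. `m` edges leaving `A`, pairwise at distance at least `D`. -/
theorem iso {A : Set (ℕ × ℕ)} {h m D : ℕ} (hm : 1 ≤ m) (hD : 1 ≤ D)
    (h1 : 2 * (m * D) ^ 2 ≤ ((box h).filter (· ∈ A)).card)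
    (h2 : 2 * (m * D) ^ 2 ≤ ((box h).filter (· ∉ A)).card) :
    ∃ u v : Fin m → ℕ × ℕ, (∀ t, Leaves A h (u t) (v t)) ∧
      ((∀ t, (u t).2 = (v t).2) ∧ (∀ t t', t < t' → (u t).2 + D ≤ (u t').2) ∨
       (∀ t, (u t).1 / 2 = (v t).1 / 2) ∧ (∀ t t', t < t' → (u t).1 / 2 + D ≤ (u t').1 / 2)) := by
  have hM : 1 ≤ m * D := Nat.mul_pos hm hD
  rcases many_mixed hM h1 h2 with h3 | h3
  · obtain ⟨f, hf, hf'⟩ := spaced hD h3
    have h4 : ∀ t, ∃ p : (ℕ × ℕ) × (ℕ × ℕ), Leaves A h p.1 p.2 ∧ p.1.2 = f t ∧ p.2.2 = f t := by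
      intro t
      have h5 := Finset.mem_filter.1 (hf t)
      obtain ⟨u, v, h6, h7, h8⟩ := row_leaves (Finset.mem_range.1 h5.1) h5.2
      exact ⟨(u, v), h6, h7, h8⟩
    choose p hp1 hp2 hp3 using h4
    refine ⟨fun t => (p t).1, fun t => (p t).2, hp1, Or.inl ⟨?_, ?_⟩⟩
    · intro t
      simp only [hp2, hp3]
    · intro t t' htt
      simp only [hp2]
      exact hf' t t' htt
  · obtain ⟨f, hf, hf'⟩ := spaced hD h3
    have h4 : ∀ t, ∃ p : (ℕ × ℕ) × (ℕ × ℕ), Leaves A h p.1 p.2 ∧ p.1.1 / 2 = f t ∧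
        p.2.1 / 2 = f t := by
      intro t
      have h5 := Finset.mem_filter.1 (hf t)
      obtain ⟨u, v, h6, h7, h8⟩ := col_leaves (Finset.mem_range.1 h5.1) h5.2
      exact ⟨(u, v), h6, h7, h8⟩
    choose p hp1 hp2 hp3 using h4
    refine ⟨fun t => (p t).1, fun t => (p t).2, hp1, Or.inr ⟨?_, ?_⟩⟩
    · intro t
      simp only [hp2, hp3]
    · intro t t' htt
      simp only [hp2]
      exact hf' t t' htt

end Iso
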