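import Pool.Agent.Helper34.BIC.Board

/-!
# Gadget lemma, ports: a location in a thin cluster gives a port

`H w = M.closure (ins S ends {w}ᶜ)` is the hyperplane of the elements avoiding the vertex `w`.
If the cluster `W` of a bicircular structure carries the tree `τ` and the element `z` has exactly
one location `b` in `W`, then `z` is not spanned by `τ` together with elements avoiding `W`.
-/

open Set

namespace Gad

open BIC

variable {α V ι : Type*}

/-- The flat of the elements avoiding `w`. -/
def Hx (M : Matroid α) (S : Set α) (ends : α → Sym2 V) (w : V) : Set α :=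
  M.closure (ins S ends {w}ᶜ)

/-- Leaves: a nonempty part of a tree has a leaf different from `b`. -/
lemma Arb.exists_leaf {S : Set α} {ends : α → Sym2 V} {W : Set V} (hW : W.Finite) {τ τ' : Set α}
    (hA : Arb S ends W τ) (hτ' : τ' ⊆ τ) (hne : τ'.Nonempty) {b : V} (hb : b ∈ W) :
    ∃ w ∈ W, w ≠ b ∧ ∃ e ∈ τ', w ∈ ends e ∧ ∀ e' ∈ τ', w ∈ ends e' → e' = e := by
  classical
  obtain ⟨φ, hφ, hφe⟩ := hA.2.2 b hb
  have : Nonempty α := ⟨hne.some⟩
  by_contra hcon
  push Not at hcon
  set V' : Set V := {w | ∃ e ∈ τ', w ∈ ends e} with hV'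
  have hV'W : V' ⊆ W := by
    rintro w ⟨e, he, hw⟩
    exact (hA.1 (hτ' he)).2 w hw
  have hex : ∀ w ∈ V', ∃ e ∈ τ', w ∈ ends e ∧ φ e ≠ w := by
    rintro w ⟨e, he, hw⟩
    by_cases hwb : w = b
    · subst hwb
      refine ⟨e, he, hw, ?_⟩
      intro h
      have := hφ.mapsTo (hτ' he)
      rw [h] at this
      exact this.2 rfl
    · obtain ⟨e', he', hw', hne'⟩ := hcon w (hV'W ⟨e, he, hw⟩) hwb e he hw
      by_cases h : φ e = w
      · refine ⟨e', he', hw', ?_⟩
        intro h'
        exact hne' (hφ.injOn (hτ' he') (hτ' he) (h'.trans h.symm))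
      · exact ⟨e, he, hw, h⟩
  choose! c hc1 hc2 hc3 using hex
  have hcinj : InjOn c V' := by
    intro w hw w' hw' h
    by_contra hne'
    have h1 := hφe (c w) (hτ' (hc1 w hw))
    have h2 := hc2 w hw
    have h3 := hc2 w' hw'
    rw [← h] at h3
    have h4 := hc3 w hw
    have h5 := hc3 w' hw'
    rw [← h] at h5
    induction hx : ends (c w) with
    | _ x y =>
      rw [hx] at h1 h2 h3
      rw [Sym2.mem_iff] at h1 h2 h3
      rcases h1 with h1 | h1 <;> rcases h2 with h2 | h2 <;> rcases h3 with h3 | h3 <;>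
        first
          | exact hne' (h2.trans h3.symm)
          | exact h4 (h1.trans h2.symm)
          | exact h5 (h1.trans h3.symm)
  obtain ⟨e₀, he₀⟩ := hne
  obtain ⟨r, hr⟩ := exists_mem_ends ends e₀
  have hrV : r ∈ V' := ⟨e₀, he₀, hr⟩
  obtain ⟨φr, hφr, hφre⟩ := hA.2.2 r (hV'W hrV)
  have hV'fin : V'.Finite := hW.subset hV'W
  have hle1 : V'.encard ≤ τ'.encard := by
    rw [← hcinj.encard_image]
    exact encard_le_encard (image_subset_iff.2 hc1)
  have hle2 : τ'.encard ≤ (V' \ {r}).encard := by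
    rw [← (hφr.injOn.mono hτ').encard_image]
    apply encard_le_encard
    rintro _ ⟨e, he, rfl⟩
    exact ⟨⟨e, he, hφre e (hτ' he)⟩, (hφr.mapsTo (hτ' he)).2⟩
  have hlt : (V' \ {r}).encard < V'.encard :=
    (hV'fin.subset sdiff_subset).encard_lt_encard (sdiff_singleton_ssubset.2 hrV)
  exact absurd (hle1.trans hle2) (not_le.2 hlt)

/-- **Port lemma.**  `b` is the only location of `z` in the cluster `W` carrying the tree `τ`;
`R` avoids `W`.  Then `z` is not spanned by `R ∪ τ`. -/
theorem port_single {M : Matroid α} {S : Set α} {ends : α → Sym2 V} {W : Set V} (hW : W.Finite)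
    {τ R : Set α} (hA : Arb S ends W τ) (hτ : τ.Finite) {b : V} (hb : b ∈ W) {z : α}
    (hR : ∀ w ∈ W, R ⊆ Hx M S ends w) (hz : ∀ w ∈ W, w ≠ b → z ∈ Hx M S ends w)
    (hzb : z ∉ Hx M S ends b)
    (hτH : ∀ w ∈ W, w ≠ b → ∀ e ∈ τ, w ∈ ends e → e ∉ Hx M S ends w)
    (hτE : τ ⊆ M.E) :
    z ∉ M.closure (R ∪ τ) := by
  classical
  have key : ∀ n : ℕ, ∀ τ' : Set α, τ' ⊆ τ → τ'.ncard = n → z ∉ M.closure (R ∪ τ') := by
    intro n
    induction n with
    | zero =>
      intro τ' hτ' hn hcl
      have h0 : τ' = ∅ := (ncard_eq_zero (hτ.subset hτ')).1 hn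
      rw [h0, union_empty] at hcl
      apply hzb
      have h1 : M.closure R ⊆ M.closure (Hx M S ends b) := M.closure_subset_closure (hR b hb)
      have h2 := h1 hcl
      rwa [Hx, M.closure_closure] at h2
    | succ n ih =>
      intro τ' hτ' hn hcl
      have hτ'fin := hτ.subset hτ'
      have hne : τ'.Nonempty := by
        rw [← ncard_pos hτ'fin]; omega
      obtain ⟨w, hw, hwb, e, he, hwe, huniq⟩ := Arb.exists_leaf hW hA hτ' hne hb
      have hcard : (τ' \ {e}).ncard = n := by
        rw [ncard_sdiff_singleton_of_mem he]; omega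
      have hnot := ih (τ' \ {e}) (sdiff_subset.trans hτ') hcard
      have h1 : z ∈ M.closure (insert e (R ∪ (τ' \ {e}))) := by
        have e1 : R ∪ τ' = insert e (R ∪ (τ' \ {e})) := by
          ext x
          simp only [mem_union, mem_insert_iff, mem_sdiff, mem_singleton_iff]
          constructor
          · rintro (h | h)
            · exact Or.inr (Or.inl h)
            · by_cases hxe : x = e
              · exact Or.inl hxe
              · exact Or.inr (Or.inr ⟨h, hxe⟩)
          · rintro (rfl | h | h)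
            · exact Or.inr he
            · exact Or.inl h
            · exact Or.inr h.1
        rwa [e1] at hcl
      have h2 : e ∈ M.closure (insert z (R ∪ (τ' \ {e}))) :=
        (M.closure_exchange ⟨h1, hnot⟩).1
      apply hτH w hw hwb e (hτ' he) hwe
      have h3 : insert z (R ∪ (τ' \ {e})) ⊆ Hx M S ends w := by
        apply insert_subset (hz w hw hwb)
        apply union_subset (hR w hw)
        rintro x ⟨hx, hxe⟩
        have hxS : x ∈ ins S ends {w}ᶜ := by
          refine ⟨(hA.1 (hτ' hx)).1, ?_⟩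
          intro v hv hvw
          rw [mem_singleton_iff] at hvw
          subst hvw
          exact hxe (huniq x hx hv)
        exact M.mem_closure_of_mem' hxS (hτE (hτ' hx))
      have h4 := M.closure_subset_closure h3 h2
      rwa [Hx, M.closure_closure] at h4
  exact key _ τ subset_rfl rfl

/-- An element of `S` at `w` does not lie in `Hx w`, if the vertices other than `w` can be
covered injectively by elements avoiding `w`. -/
lemma not_mem_Hx {M : Matroid α} {S : Set α} {ends : α → Sym2 V} (hB : Bic M S ends)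
    {X : Set V} (hX : X.Finite) (hS : ∀ e ∈ S, ∀ v ∈ ends e, v ∈ X) {w : V} (φ : V → α)
    (hφi : InjOn φ (X \ {w})) (hφ : ∀ v ∈ X \ {w}, φ v ∈ S ∧ v ∈ ends (φ v) ∧ w ∉ ends (φ v))
    {e : α} (he : e ∈ S) (hwe : w ∈ ends e) : e ∉ Hx M S ends w := by
  classical
  intro hcl
  have hwX : w ∈ X := hS e he w hwe
  have hins : ins S ends {w}ᶜ = ins S ends (X \ {w}) := by
    ext x
    constructor
    · rintro ⟨h1, h2⟩
      exact ⟨h1, fun v hv => ⟨hS x h1 v hv, h2 v hv⟩⟩
    · rintro ⟨h1, h2⟩
      exact ⟨h1, fun v hv => (h2 v hv).2⟩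
  set D : Set α := φ '' (X \ {w}) with hD
  have heD : e ∉ D := by
    rintro ⟨v, hv, rfl⟩
    exact (hφ v hv).2.2 hwe
  have : Nonempty V := ⟨w⟩
  set g : α → V := Function.invFunOn φ (X \ {w}) with hg
  have hgD : ∀ x ∈ D, g x ∈ X \ {w} ∧ φ (g x) = x := by
    rintro x hx
    exact ⟨Function.invFunOn_mem hx, Function.invFunOn_eq hx⟩
  have hind : M.Indep (insert e D) := by
    refine hB.ind _ (Function.update g e w) ?_ ?_ ?_
    · refine insert_subset he ?_
      rintro _ ⟨v, hv, rfl⟩
      exact (hφ v hv).1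
    · intro a ha c hc hac
      rcases ha with rfl | ha <;> rcases hc with rfl | hc
      · rfl
      · have hne : c ≠ a := fun h => heD (h ▸ hc)
        rw [Function.update_self, Function.update_of_ne hne] at hac
        exact absurd hac.symm (hgD c hc).1.2
      · have hne : a ≠ c := fun h => heD (h ▸ ha)
        rw [Function.update_self, Function.update_of_ne hne] at hac
        exact absurd hac (hgD a ha).1.2
      · have hne : a ≠ e := fun h => heD (h ▸ ha)
        have hne' : c ≠ e := fun h => heD (h ▸ hc)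
        rw [Function.update_of_ne hne, Function.update_of_ne hne'] at hac
        rw [← (hgD a ha).2, ← (hgD c hc).2, hac]
    · intro x hx
      rcases hx with rfl | hx
      · rw [Function.update_self]; exact hwe
      · have hne : x ≠ e := fun h => heD (h ▸ hx)
        rw [Function.update_of_ne hne]
        have h1 := hgD x hx
        have h2 := (hφ _ h1.1).2.1
        rwa [h1.2] at h2
  have hDs : D ⊆ ins S ends (X \ {w}) := by
    rintro _ ⟨v, hv, rfl⟩
    refine ⟨(hφ v hv).1, fun u hu => ⟨hS _ (hφ v hv).1 u hu, ?_⟩⟩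
    intro huw
    rw [mem_singleton_iff] at huw
    subst huw
    exact (hφ v hv).2.2 hu
  have h1 : (insert e D).encard ≤ M.eRk (ins S ends (X \ {w})) := by
    rw [← hind.eRk_eq_encard, ← M.eRk_closure_eq (ins S ends (X \ {w}))]
    apply M.eRk_mono
    apply insert_subset
    · rw [← hins]; exact hcl
    · exact hDs.trans (M.subset_closure _ (fun x hx => hB.sub hx.1))
  have h2 := h1.trans (hB.rk _)
  rw [encard_insert_of_notMem heD, hD, hφi.encard_image] at h2
  have hfin : (X \ {w} : Set V).encard ≠ ⊤ := (hX.subset sdiff_subset).encard_lt_top.ne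
  exact absurd h2 (not_le.2 ((ENat.lt_add_one_iff hfin).2 le_rfl))

/-- A tree plus a pendant path (finger). -/
lemma Arb.finger {S : Set α} {ends : α → Sym2 V} {W : Set V} {τ : Set α}
    (hA : Arb S ends W τ) {T : ℕ} (p : ℕ → V) (el : ℕ → α) (hp0 : p 0 ∈ W)
    (hpW : ∀ t, t < T → p (t + 1) ∉ W)
    (hinj : ∀ s < T, ∀ t < T, p (s + 1) = p (t + 1) → s = t)
    (hel : ∀ t < T, el t ∈ S ∧ ends (el t) = s(p t, p (t + 1))) :
    Arb S ends (W ∪ (fun t => p (t + 1)) '' {t | t < T}) (τ ∪ el '' {t | t < T}) := by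
  induction T with
  | zero =>
    have h1 : {t : ℕ | t < 0} = ∅ := by ext; simp
    simp only [h1, image_empty, union_empty]
    exact hA
  | succ T ih =>
    have ih' := ih (fun t ht => hpW t (by omega))
      (fun s hs t ht => hinj s (by omega) t (by omega)) (fun t ht => hel t (by omega))
    have hd : Disjoint (W ∪ (fun t => p (t + 1)) '' {t | t < T}) {p (T + 1)} := by
      rw [Set.disjoint_singleton_right]
      rintro (h | ⟨t, ht, h⟩)
      · exact hpW T (by omega) h
      · have ht' : t < T := ht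
        have := hinj t (by omega) T (by omega) h
        omega
    obtain ⟨h1, h2⟩ := hel T (by omega)
    have hmem : p T ∈ W ∪ (fun t => p (t + 1)) '' {t | t < T} := by
      rcases Nat.eq_zero_or_pos T with h0 | h0
      · subst h0; exact Or.inl hp0
      · exact Or.inr ⟨T - 1, (by omega : T - 1 < T), by simp only; rw [Nat.sub_add_cancel h0]⟩
    have h3 := Arb.join hd ih' (Arb.single (p (T + 1))) h1 h2 hmem rfl
    have e1 : W ∪ (fun t => p (t + 1)) '' {t | t < T + 1} =
        (W ∪ (fun t => p (t + 1)) '' {t | t < T}) ∪ {p (T + 1)} := by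
      ext x
      simp only [mem_union, mem_image, mem_ofPred_eq, mem_singleton_iff]
      constructor
      · rintro (h | ⟨t, ht, rfl⟩)
        · exact Or.inl (Or.inl h)
        · rcases Nat.lt_or_ge t T with h | h
          · exact Or.inl (Or.inr ⟨t, h, rfl⟩)
          · right; rw [show t = T by omega]
      · rintro ((h | ⟨t, ht, rfl⟩) | rfl)
        · exact Or.inl h
        · exact Or.inr ⟨t, by omega, rfl⟩
        · exact Or.inr ⟨T, by omega, rfl⟩
    have e2 : τ ∪ el '' {t | t < T + 1} = insert (el T) ((τ ∪ el '' {t | t < T}) ∪ ∅) := by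
      ext x
      simp only [mem_union, mem_image, mem_ofPred_eq, union_empty, mem_insert_iff]
      constructor
      · rintro (h | ⟨t, ht, rfl⟩)
        · exact Or.inr (Or.inl h)
        · rcases Nat.lt_or_ge t T with h | h
          · exact Or.inr (Or.inr ⟨t, h, rfl⟩)
          · left; rw [show t = T by omega]
      · rintro (rfl | h | ⟨t, ht, rfl⟩)
        · exact Or.inr ⟨T, by omega, rfl⟩
        · exact Or.inl h
        · exact Or.inr ⟨t, by omega, rfl⟩
    rw [e1, e2]
    exact h3

/-- A unicyclic cluster (port `e` on its cycle) with a pendant finger is mergeable with the same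
port. -/
lemma Mg.finger {M : Matroid α} {S : Set α} {ends : α → Sym2 V} {W : Set V} {F : Set α} {e : α}
    (hF : F ⊆ ins S ends W) (he : e ∈ F) (hA : Arb S ends W (F \ {e})) {T : ℕ} (p : ℕ → V)
    (el : ℕ → α) (hp0 : p 0 ∈ W) (hpW : ∀ t, t < T → p (t + 1) ∉ W)
    (hinj : ∀ s < T, ∀ t < T, p (s + 1) = p (t + 1) → s = t)
    (hel : ∀ t < T, el t ∈ S ∧ ends (el t) = s(p t, p (t + 1))) :
    Mg ι M S ends (W ∪ (fun t => p (t + 1)) '' {t | t < T}) (F ∪ el '' {t | t < T}) {e} ∧
    Arb S ends (W ∪ (fun t => p (t + 1)) '' {t | t < T}) ((F ∪ el '' {t | t < T}) \ {e}) := by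
  have h1 := Arb.finger hA p el hp0 hpW hinj hel
  have heW : e ∉ el '' {t | t < T} := by
    rintro ⟨t, ht, rfl⟩
    have ht' : t < T := ht
    apply hpW t ht'
    have h2 := (hF he).2 (p (t + 1))
    rw [(hel t ht').2] at h2
    exact h2 (Sym2.mem_mk_right _ _)
  have e1 : (F ∪ el '' {t | t < T}) \ {e} = (F \ {e}) ∪ el '' {t | t < T} := by
    rw [union_sdiff_distrib, sdiff_singleton_eq_self heW]
  rw [← e1] at h1
  have hsub : F ∪ el '' {t | t < T} ⊆ ins S ends (W ∪ (fun t => p (t + 1)) '' {t | t < T}) := by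
    intro x hx
    by_cases hxe : x = e
    · subst hxe
      exact ins_mono subset_union_left (hF he)
    · exact h1.1 ⟨hx, hxe⟩
  exact ⟨Mg.base hsub (Or.inl he) h1, h1⟩

end Gad
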