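import Pool.Agent.GL.FPlus
import Pool.Agent.Helper34.BIC.A2

/-!
# Theorem F+ (core)
-/

open Set
open scoped Matroid

namespace Gad

open BIC BIC.Net

variable {α : Type*}

/-- The chosen row of a position. -/
def rowS (k : ℕ) (p : ↥(posF k)) : ↥(rowF k) :=
  ⟨rowN p.1, by
    obtain ⟨⟨t, x, y⟩, hp⟩ := p
    have hp' := mem_posF.1 hp
    rcases rel_cases hp with ⟨_, _, _, d, _⟩ | ⟨_, _, d, _⟩ | ⟨_, _, _, d, _⟩ | ⟨_, _, d, _⟩ <;>
      rw [d, mem_rowF] <;> omega⟩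

/-- The core theorem: `E = S ⊔ T`, joints at all vertices of the grid of `S`. -/
theorem coreF {k : ℕ} {M : Matroid α} [M.Finite] {S T : Set α} (hST : Disjoint S T)
    (hE : M.E = S ∪ T) {t N' w n q₂ q₁ q₀ θ : ℕ} {j : ℕ × ℕ → α} {ed : ℕ × ℕ → ℕ × ℕ → α}
    (hS : JGrid M S t j ed)
    (hT : SideData (Cond k) M✶ T N' w) (hκ : n + rk M M.E ≤ rk M S + rk M T)
    (hkt : t / 2 + 1 + k < t) (hkN' : N' / 2 + k < N')
    (hθ1 : k * k + k < θ) (hθ2 : 4 ^ k * (k * k + k) < 2 ^ (θ - (k * k + k)))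
    (hq₂ : 4 ^ (2 * (3 * k * k)) * θ ≤ q₂) (hq₁ : (2 * q₂) ^ 2 ≤ q₁)
    (hq₀ : (2 * q₁) ^ 2 ≤ q₀) (hn : w * q₀ + 1 < n) : HasUniformMinor M k := by
  classical
  obtain ⟨V', ends', ψ', W', v₀', hbT, hF', hvT, hwT⟩ := hT
  have hG := base_union hST hE hS.basis hF'
  obtain ⟨X, hXF, hXn, hXsp⟩ := exists_F0 hST hE hS.basis hκ
  have hfin := M.ground_finite
  have hFS : j '' Cl t ⊆ S := hS.basis.subset
  have hF'T : range ψ' ⊆ T := hF'.subset
  have hSfin : S.Finite := hfin.subset (by rw [hE]; exact subset_union_left)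
  have hTfin : T.Finite := hfin.subset (by rw [hE]; exact subset_union_right)
  have hTE : T ⊆ M.E := by rw [hE]; exact subset_union_right
  have hFfin : (j '' Cl t).Finite := hSfin.subset hFS
  have hF'fin : (range ψ').Finite := hTfin.subset hF'T
  have hXfin : X.Finite := hFfin.subset hXF
  set G : Set α := j '' Cl t ∪ (T \ range ψ') with hGdef
  have hXG : X ⊆ G := hXF.trans subset_union_left
  have hGfin : G.Finite := base_fin hG
  have hF'G : Disjoint (range ψ') G := by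
    rw [Set.disjoint_left]
    intro e he h
    rcases h with h | h
    · exact Set.disjoint_left.1 hST (hFS h) (hF'T he)
    · exact h.2 he
  -- the base B₂
  have hsp : M.Spanning ((G \ X) ∪ T) := by
    refine hXsp.superset ?_ ?_
    · refine union_subset_union_left _ ?_
      intro e he
      exact ⟨Or.inl he.1, fun h => he.2 h⟩
    · exact union_subset (sdiff_subset.trans hG.subset_ground) hTE
  obtain ⟨B₂, hB₂, hB₂1, hB₂2⟩ := (hG.indep.subset (sdiff_subset (t := X))).exists_isBase_subset_spanning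
    hsp subset_union_left
  set G₀ : Set α := B₂ \ (G \ X) with hG₀
  have hG₀F' : G₀ ⊆ range ψ' := by
    intro e he
    rcases hB₂2 he.1 with h | h
    · exact absurd h he.2
    · by_contra hcon
      refine he.2 ⟨Or.inr ⟨h, hcon⟩, fun hX => ?_⟩
      exact Set.disjoint_left.1 hST (hFS (hXF hX)) h
  have hG₀c : G₀.ncard = X.ncard := by
    have h1 := Set.ncard_sdiff_add_ncard_of_subset hB₂1 (base_fin hB₂)
    have h2 := Set.ncard_sdiff_add_ncard_of_subset hXG hGfin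
    have h3 := hB₂.ncard_eq_ncard_of_isBase hG
    rw [hG₀]
    omega
  -- Y
  obtain ⟨Y₀, g, hY₀G₀, hY₀n, hY₀s, hY₀f, hY₀i⟩ := one_per_cell (hbT ∅ (by simp)) hvT hwT hG₀F'
    (hF'fin.subset hG₀F')
  have hY₀n' : q₀ ≤ Y₀.ncard := by
    by_contra hcon
    push Not at hcon
    have := Nat.mul_le_mul_left w hcon.le
    omega
  have hY₀fin : Y₀.Finite := hF'fin.subset (hY₀G₀.trans hG₀F')
  obtain ⟨W'₁, Y₁, g₁, hY₁Y₀, hY₁n, hbT₁, hg₁, hg₁i⟩ := (hbT Y₀ hY₀s).good_view hY₀fin g hY₀f hY₀i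
    (hq₀.trans hY₀n')
  have hY₁F' : Y₁ ⊆ range ψ' := hY₁Y₀.trans (hY₀G₀.trans hG₀F')
  have hY₁fin : Y₁.Finite := hF'fin.subset hY₁F'
  -- B₃
  have hi3 : M.Indep ((G \ X) ∪ Y₁) := by
    refine hB₂.indep.subset (union_subset hB₂1 ?_)
    exact (hY₁Y₀.trans hY₀G₀).trans sdiff_subset
  have hGY : M.Spanning (G ∪ Y₁) := hG.spanning_of_superset subset_union_left
    (union_subset hG.subset_ground (hY₁F'.trans (hF'T.trans hTE)))
  obtain ⟨B₃, hB₃, hB₃1, hB₃2⟩ := hi3.exists_isBase_subset_spanning hGY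
    (union_subset_union_left _ sdiff_subset)
  set X₁ : Set α := X \ B₃ with hX₁
  have hB₃eq : B₃ = (G \ X₁) ∪ Y₁ := by
    apply Subset.antisymm
    · intro e he
      rcases hB₃2 he with h | h
      · exact Or.inl ⟨h, fun h' => h'.2 he⟩
      · exact Or.inr h
    · refine union_subset ?_ (subset_union_right.trans hB₃1)
      intro e he
      by_cases heX : e ∈ X
      · by_contra hcon
        exact he.2 ⟨heX, hcon⟩
      · exact hB₃1 (Or.inl ⟨he.1, heX⟩)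
  have hX₁X : X₁ ⊆ X := sdiff_subset
  have hX₁c : X₁.ncard = Y₁.ncard := by
    have h1 := hB₃.ncard_eq_ncard_of_isBase hG
    rw [hB₃eq, Set.ncard_union_eq ((hF'G.mono hY₁F' sdiff_subset).symm)
      (hGfin.subset sdiff_subset) hY₁fin] at h1
    have h2 := Set.ncard_sdiff_add_ncard_of_subset (hX₁X.trans hXG) hGfin
    omega
  obtain ⟨j₂, ed₂, X₂, f₂, hS₂, hj₂, hX₂X₁, hX₂n, hf₂, hf₂i⟩ := hS.good_view
    (hXfin.subset hX₁X) (hX₁X.trans hXF) (q := q₂) (by rw [hX₁c]; exact hq₁.trans hY₁n)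
  have hX₂X : X₂ ⊆ X := hX₂X₁.trans hX₁X
  have hX₂G : X₂ ⊆ G := hX₂X.trans hXG
  have hX₂fin : X₂.Finite := hXfin.subset hX₂X
  -- rho
  have hrho : 4 ^ (2 * (3 * k * k)) * θ ≤ rho M G X₂ Y₁ := by
    have h1 := rho_add hG X₂ Y₁
    have h2 : rk M ((G \ X₂) ∪ Y₁) = G.ncard := by
      rw [rk_superset_base hB₃]
      · exact hB₃.ncard_eq_ncard_of_isBase hG
      · rw [hB₃eq]
        exact union_subset_union_left _ (sdiff_subset_sdiff_right hX₂X₁)
    have h3 := Set.ncard_sdiff_add_ncard_of_subset hX₂G hGfin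
    omega
  obtain ⟨BX, BY, hB1, hB2, hB3⟩ := rho_blocks (N := max t N') hG hX₂G hf₂i hg₁i
    (fun x hx => lt_of_lt_of_le (hf₂ x hx).1.1 (le_max_left _ _))
    (fun y hy => lt_of_lt_of_le (hg₁ y hy).1 (le_max_right _ _)) hrho
  obtain ⟨W'₂, g₂, hPT⟩ : ∃ W'₂ g₂, PortSide (Cond k) M✶ T ends' ψ' N' Y₁ W'₂ g₂ (3 * k * k) BY := by
    rcases hB3 with h | h
    · exact ⟨W'₁, g₁, hbT₁, hg₁, hg₁i, fun i hi => (hB1 i hi).2.1, h⟩
    · exact ⟨_, _, PortSide.reflect hbT₁ hg₁ hg₁i (fun i hi => (hB1 i hi).2.1) h⟩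
  -- conditions
  have hcond : ∀ i : Cond k, (∀ y ∈ i.1.1, y < k) ∧ (∀ x ∈ i.1.2, x < k) ∧
      i.1.1.card = i.1.2.card := by
    rintro ⟨⟨A, B⟩, hi⟩
    have h1 := Finset.mem_filter.1 hi
    have h2 := Finset.mem_product.1 h1.1
    refine ⟨fun y hy => ?_, fun x hx => ?_, h1.2⟩
    · exact Finset.mem_range.1 (Finset.mem_powerset.1 h2.1 hy)
    · exact Finset.mem_range.1 (Finset.mem_powerset.1 h2.2 hx)
  have hrout : ∀ i : Cond k, ∃ μ : Set (ℕ × ℕ × ℕ), μ ⊆ (posF k : Set (ℕ × ℕ × ℕ)) ∧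
      InjOn rowN μ ∧ InjOn colN μ ∧ (∀ u ∈ rowF k, u ∈ rowN '' μ ↔ (u.1 = 0 → u.2 ∈ i.1.1)) ∧
      (∀ u ∈ colF k, u ∈ colN '' μ ↔ (u.2 = k → u.1 ∈ i.1.2)) := fun i =>
    exists_routing (hcond i).1 (hcond i).2.1 (hcond i).2.2
  choose μ hμP hμr hμc hμrow hμcol using hrout
  have hne : Nonempty α := by
    have : rho M G X₂ Y₁ ≠ 0 := by
      intro h0
      rw [h0] at hrho
      have : 0 < 4 ^ (2 * (3 * k * k)) * θ := Nat.mul_pos (by positivity) (by omega)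
      omega
    by_contra hα
    have hXe : X₂ = ∅ := by
      ext x
      exact absurd ⟨x⟩ hα
    rw [hXe, rho_X_empty hG] at this
    exact this rfl
  have hkp : ∀ p : ↥(posF k), keyN k p.1 < 3 * k * k := fun p => key_lt p.2
  have hBXX : ∀ a < 3 * k * k, BX a ⊆ X₂ := fun a ha => (hB1 a ha).1
  have hBYT : ∀ a < 3 * k * k, BY a ⊆ range ψ' := fun a ha => (hB1 a ha).2.1.trans hY₁F'
  have hBXfin : ∀ a < 3 * k * k, (BX a).Finite := fun a ha => hX₂fin.subset (hBXX a ha)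
  have hBne : ∀ a < 3 * k * k, (BX a).Nonempty := by
    intro a ha
    by_contra hcon
    rw [Set.not_nonempty_iff_eq_empty] at hcon
    have := (hB1 a ha).2.2
    rw [hcon, rho_X_empty hG] at this
    omega
  have hBne' : ∀ a < 3 * k * k, (BY a).Nonempty := by
    intro a ha
    by_contra hcon
    rw [Set.not_nonempty_iff_eq_empty] at hcon
    have := (hB1 a ha).2.2
    rw [hcon, rho_Y_empty hG] at this
    omega
  -- the combs
  obtain ⟨K, hK, hKd, hKleaf, hKout⟩ := exists_combs hkt (X := X₂) (f := f₂)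
    (fun x hx => ⟨(hf₂ x hx).1, (hf₂ x hx).2.2⟩) hf₂i hBXfin hBXX hBne hB2 (rowS k)
    (fun p => rfl)
  obtain ⟨BXf, hBXf⟩ : ∃ BXf : ↥(posF k) → Finset α, ∀ p, (BXf p : Set α) = BX (keyN k p.1) :=
    ⟨fun p => (hBXfin _ (hkp p)).toFinset, fun p => Set.Finite.coe_toFinset _⟩
  have hmB : ∀ p v, v ∈ BXf p ↔ v ∈ BX (keyN k p.1) := by
    intro p v
    rw [← hBXf p]
    exact Finset.mem_coe.symm
  obtain ⟨Xf, hXfdef⟩ : ∃ Xf : Finset α, ∀ v, v ∈ Xf ↔ ∃ p, v ∈ BXf p :=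
    ⟨Finset.univ.biUnion BXf, by simp⟩
  have hXfX : ∀ v ∈ Xf, v ∈ X₂ := by
    intro v hv
    obtain ⟨p, hp⟩ := (hXfdef v).1 hv
    exact hBXX _ (hkp p) ((hmB p v).1 hp)
  set Ψ : Set α := T \ range ψ' with hΨ
  have hG₂ : M.IsBase (j₂ '' Cl t ∪ Ψ) := by
    rw [hj₂]
    exact hG
  have hLD := leafData hS₂ hG₂ hK hKd (row := rowS k) (BX := BXf) (X := Xf) (f := f₂) hXfdef
    (by
      intro v hv
      obtain ⟨h1, h2, h3⟩ := hf₂ v (hXfX v hv)
      exact ⟨h1, h2, by omega⟩)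
    (by
      intro p v hv
      exact hKleaf p v ((hmB p v).1 hv))
    (fun v hv => hKout v (hXfX v hv))
  have hYE : ∀ p : ↥(posF k), BY (keyN k p.1) ⊆ M.E := fun p =>
    (hBYT _ (hkp p)).trans (hF'T.trans hTE)
  have hXfS : (Xf : Set α) ⊆ S := fun v hv => hFS (hXF (hX₂X (hXfX v hv)))
  have hXfG : (Xf : Set α) ⊆ j₂ '' Cl t ∪ Ψ := by
    rw [hj₂]
    exact fun v hv => hX₂G (hXfX v hv)
  obtain ⟨V, hVX, hV⟩ := random_leaves hLD (ι := Cond k) (BY := fun p => BY (keyN k p.1)) hYE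
    (by
      intro p
      exact (hST.mono hXfS ((hBYT _ (hkp p)).trans hF'T)).symm)
    (θ := θ) (n := k * k + k)
    (by
      intro p
      refine rank_transfer hS₂ hG₂ hK hXfG hLD.base hLD.CX hLD.xX ?_ (hYE p) ?_
      · intro v hv
        exact (hXfdef v).2 ⟨p, hv⟩
      · rw [hBXf p, hj₂, ← hGdef]
        have h1 := rho_add hG (BX (keyN k p.1)) (BY (keyN k p.1))
        have h2 := (hB1 _ (hkp p)).2.2
        omega)
    (fun i => Finset.univ.filter (fun p => p.1 ∈ μ i))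
    (by
      intro i p hp p' hp' hpp
      have h1 := (Finset.mem_filter.1 (Finset.mem_coe.1 hp)).2
      have h2 := (Finset.mem_filter.1 (Finset.mem_coe.1 hp')).2
      exact Subtype.ext (hμr i h1 h2 (Subtype.ext_iff.1 hpp)))
    (by
      intro i
      have h1 : (Finset.univ.filter (fun p : ↥(posF k) => p.1 ∈ μ i)).card ≤
          (Finset.univ : Finset ↥(rowF k)).card := by
        refine Finset.card_le_card_of_injOn (rowS k) (fun p _ => Finset.mem_coe.2 (Finset.mem_univ _)) ?_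
        intro p hp p' hp' hpp
        have h1 := (Finset.mem_filter.1 (Finset.mem_coe.1 hp)).2
        have h2 := (Finset.mem_filter.1 (Finset.mem_coe.1 hp')).2
        exact Subtype.ext (hμr i h1 h2 (Subtype.ext_iff.1 hpp))
      have h2 : (Finset.univ : Finset ↥(rowF k)).card = k * k + k := by
        rw [Finset.card_univ, Fintype.card_coe]
        unfold rowF
        rw [Finset.card_product, Finset.card_range, Finset.card_range]
        ring
      exact h1.trans h2.le)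
    hθ1.le
    (lt_of_le_of_lt (Nat.mul_le_mul_right _ (card_Cond k)) hθ2)
  choose y hyB hyb using hV
  obtain ⟨a₀⟩ := hne
  have hne : Nonempty α := ⟨a₀⟩
  set C : Set α := fixC j₂ ed₂ K t Ψ Xf with hC
  set el : α → α := fun v => ed₂ (f₂ v) ((f₂ v).1, (f₂ v).2 + 1) with hel
  set x : ↥(rowF k) → α := fun u => j₂ (K u).root with hx
  have hedS : ∀ c c', Nb t c c' → ed₂ c c' ∈ S := hS₂.mem
  have hedG : ∀ c c', Nb t c c' → ed₂ c c' ∉ j₂ '' Cl t ∪ Ψ := fun c c' hn' =>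
    hS₂.ed_notMem hG₂.indep subset_union_left hn'
  have hj₂S : j₂ '' Cl t ⊆ S := by
    rw [hj₂]
    exact hFS
  have hrootCl : ∀ u, (K u).root ∈ Cl t := fun u => Comb.cells_sub (hK u) (Comb.root_mem (hK u))
  have hΨC : Ψ ⊆ C := by
    intro e he
    refine Or.inl ⟨Or.inr he, ?_⟩
    rintro (⟨c, ⟨u, hc⟩, rfl⟩ | h1)
    · exact Set.disjoint_left.1 hST (hj₂S ⟨c, Comb.cells_sub (hK u) hc, rfl⟩) he.1
    · exact Set.disjoint_left.1 hST (hXfS h1) he.1
  have hCS : C \ Ψ ⊆ S := by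
    rintro e ⟨⟨he | he, _⟩ | ⟨u, c, hc, hr, rfl⟩, he'⟩
    · exact hj₂S he
    · exact absurd he he'
    · exact hedS _ _ (Comb.par_spec (hK u) hc hr).2.1
  have helv : ∀ v ∈ Xf, Nb t (f₂ v) ((f₂ v).1, (f₂ v).2 + 1) := by
    intro v hv
    obtain ⟨h1, h2, h3⟩ := hf₂ v (hXfX v hv)
    exact ⟨h1, ⟨h1.1, by simp only; omega⟩, Or.inl ⟨rfl, Or.inl rfl⟩⟩
  refine T_finish hST hE hPT hY₁fin hF'T hY₁F' hkN' hBne' μ hμP hμc hμrow hμcol
    (fun i p => if hp : p ∈ posF k then y i ⟨p, hp⟩ else a₀) ?_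
    (C₁ := (C \ Ψ) ∪ (el '' (V : Set α) ∪ ((Xf : Set α) \ V)))
    (ℓ₁ := fun u => if hu : u ∈ rowF k then x ⟨u, hu⟩ else a₀) ?_ ?_ ?_ ?_
  · intro i p hp
    have hp' : p ∈ posF k := hμP i hp
    simp only [dif_pos hp']
    exact hyB i ⟨p, hp'⟩ (Finset.mem_filter.2 ⟨Finset.mem_univ _, hp⟩)
  · refine union_subset hCS (union_subset ?_ (sdiff_subset.trans hXfS))
    rintro _ ⟨v, hv, rfl⟩
    exact hedS _ _ (helv v (hVX hv))
  · intro u hu
    simp only [dif_pos hu]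
    refine ⟨hj₂S ⟨_, hrootCl _, rfl⟩, ?_⟩
    rintro (h1 | ⟨v, hv, h1⟩ | h1)
    · exact hLD.xC _ h1.1
    · refine hedG _ _ (helv v (hVX hv)) (Or.inl ?_)
      rw [show ed₂ (f₂ v) ((f₂ v).1, (f₂ v).2 + 1) = x ⟨u, hu⟩ from h1]
      exact ⟨_, hrootCl _, rfl⟩
    · exact hLD.xX _ h1.1
  · intro u hu u' hu' huu
    have hu1 : u ∈ rowF k := hu
    have hu1' : u' ∈ rowF k := hu'
    simp only [dif_pos hu1, dif_pos hu1'] at huu
    exact Subtype.ext_iff.1 (hLD.xinj huu)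
  · intro i
    have h1 := hyb i
    unfold Bs at h1
    have e1 : (fun p => if hp : p ∈ posF k then y i ⟨p, hp⟩ else a₀) '' μ i =
        y i '' ((Finset.univ.filter (fun p : ↥(posF k) => p.1 ∈ μ i) : Finset ↥(posF k)) :
          Set ↥(posF k)) := by
      ext z
      constructor
      · rintro ⟨p, hp, rfl⟩
        have hp' : p ∈ posF k := hμP i hp
        refine ⟨⟨p, hp'⟩, Finset.mem_coe.2 (Finset.mem_filter.2 ⟨Finset.mem_univ _, hp⟩), ?_⟩
        simp only [dif_pos hp']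
      · rintro ⟨p, hp, rfl⟩
        refine ⟨p.1, (Finset.mem_filter.1 (Finset.mem_coe.1 hp)).2, ?_⟩
        simp only [dif_pos p.2]
    have e2 : (fun u => if hu : u ∈ rowF k then x ⟨u, hu⟩ else a₀) ''
        {u | u ∈ rowF k ∧ u ∉ rowN '' μ i} =
        x '' {a | a ∉ rowS k '' ((Finset.univ.filter (fun p : ↥(posF k) => p.1 ∈ μ i) :
          Finset ↥(posF k)) : Set ↥(posF k))} := by
      ext z
      constructor
      · rintro ⟨u, ⟨hu, hu'⟩, rfl⟩
        refine ⟨⟨u, hu⟩, ?_, by simp only [dif_pos hu]⟩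
        rintro ⟨p, hp, hpu⟩
        exact hu' ⟨p.1, (Finset.mem_filter.1 (Finset.mem_coe.1 hp)).2, Subtype.ext_iff.1 hpu⟩
      · rintro ⟨u, hu, rfl⟩
        refine ⟨u.1, ⟨u.2, ?_⟩, by simp only [dif_pos u.2]⟩
        rintro ⟨p, hp, hpu⟩
        refine hu ⟨⟨p, hμP i hp⟩, Finset.mem_coe.2 (Finset.mem_filter.2 ⟨Finset.mem_univ _, hp⟩), ?_⟩
        exact Subtype.ext hpu
    rw [e1, e2]
    have e3 : C = Ψ ∪ (C \ Ψ) := by
      rw [union_sdiff_self, union_eq_self_of_subset_left hΨC]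
    rw [e3] at h1
    have e4 : ∀ A B D E F : Set α, A ∪ B ∪ D ∪ (E ∪ F) = A ∪ F ∪ (B ∪ D ∪ E) := by
      intro A B D E F
      ext z
      simp only [mem_union]
      tauto
    rw [e4] at h1
    exact h1

/-- The structure depends only on the restriction. -/
theorem JGrid.of_restrict_eq {M M' : Matroid α} {S : Set α} {t : ℕ} {j : ℕ × ℕ → α}
    {ed : ℕ × ℕ → ℕ × ℕ → α} (h : JGrid M S t j ed) (hS : S ⊆ M'.E) (hr : M' ↾ S = M ↾ S) :
    JGrid M' S t j ed := by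
  have hSM : S ⊆ M.E := h.basis.subset_ground
  have hcl : ∀ A ⊆ S, ∀ e ∈ S, e ∈ M.closure A → e ∈ M'.closure A := by
    intro A hA e he h1
    have h2 : e ∈ (M ↾ S).closure A := by
      rw [Matroid.restrict_closure_eq M hA hSM]
      exact ⟨h1, he⟩
    rw [← hr, Matroid.restrict_closure_eq M' hA hS] at h2
    exact h2.1
  have hj : ∀ c ∈ Cl t, j c ∈ S := fun c hc => h.basis.subset ⟨c, hc, rfl⟩
  refine ⟨h.inj, ?_, h.mem, ?_, ?_, ?_⟩
  · have h1 := (Matroid.isBase_restrict_iff hSM).2 h.basis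
    rw [← hr] at h1
    exact (Matroid.isBase_restrict_iff hS).1 h1
  · intro c c' hn
    refine hcl _ ?_ _ (h.mem _ _ hn) (h.h1 c c' hn)
    rintro e (rfl | rfl)
    · exact hj _ hn.1
    · exact hj _ hn.2.1
  · intro c c' hn
    refine hcl _ ?_ _ (hj _ hn.1) (h.h2 c c' hn)
    rintro e (rfl | rfl)
    · exact hj _ hn.2.1
    · exact h.mem _ _ hn
  · intro c c' hn
    refine hcl _ ?_ _ (hj _ hn.2.1) (h.h3 c c' hn)
    rintro e (rfl | rfl)
    · exact hj _ hn.1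
    · exact h.mem _ _ hn

universe u

/-- Theorem F+: a grid with a joint at every vertex against a bicircular grid in the dual. -/
theorem thmFPlus (k : ℕ) : ∃ κ₀ t₀ N₀ : ℕ, ∀ {α : Type u} (M : Matroid α) [M.Finite]
    (S T : Set α), Disjoint S T → ∀ t N : ℕ, t₀ ≤ t → N₀ ≤ N →
    ∀ (j : ℕ × ℕ → α) (ed : ℕ × ℕ → ℕ × ℕ → α), JGrid M S t j ed →
    BicGrid M✶ T (2 * 4 ^ k * N) → KGe M S T κ₀ → HasUniformMinor M k := by
  classical
  set h := 4 ^ k with hh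
  set w := 2 * h * (2 * h) with hw
  set θ := 2 * (k * k + k) + 2 * k + 1 with hθ
  set q₂ := 4 ^ (2 * (3 * k * k)) * θ with hq₂
  set q₁ := (2 * q₂) ^ 2 with hq₁
  set q₀ := (2 * q₁) ^ 2 with hq₀
  have hh1 : 1 ≤ h := Nat.one_le_pow _ _ (by norm_num)
  refine ⟨w * q₀ + 2, 2 * k + 4, 2 * k + 2, ?_⟩
  intro α M _ S T hST t N ht hN j ed hj hg₂ hκ
  have hS : S ⊆ M.E := hj.basis.subset_ground
  have hT : T ⊆ M.E := hg₂.sub
  obtain ⟨M', h1, h2, h3, h4, h5⟩ := tutte hST _ M hS hT rfl hκ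
  have hfin' : M'.Finite := ⟨M.ground_finite.subset h1.subset⟩
  have hS' : S ⊆ M'.E := by rw [h2]; exact subset_union_left
  have hT' : T ⊆ M'.E := by rw [h2]; exact subset_union_right
  have hcard : Fintype.card (Cond k) < 2 * h := by
    have := card_Cond k
    omega
  have dT : SideData (Cond k) M'✶ T N w := (hg₂.of_restrict_eq (M' := M'✶)
    (by rw [Matroid.dual_ground]; exact hT') h4).side hh1 rfl (by omega) hcard
  have hE : M'.E \ S = T := by
    rw [h2]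
    ext e
    simp only [mem_sdiff, mem_union]
    constructor
    · rintro ⟨a | a, b⟩
      · exact absurd a b
      · exact a
    · intro a
      exact ⟨Or.inr a, fun b => Set.disjoint_left.1 hST b a⟩
  have hκ' := h5 S (subset_refl _) (fun s hs => ⟨hS' hs, Set.disjoint_left.1 hST hs⟩)
  rw [hE] at hκ'
  have hθ2 : 4 ^ k * (k * k + k) < 2 ^ (θ - (k * k + k)) := by
    have e1 : θ - (k * k + k) = (2 * k) + (k * k + k + 1) := by omega
    rw [e1, pow_add, pow_mul, show (2 : ℕ) ^ 2 = 4 from rfl]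
    have h6 : k * k + k < 2 ^ (k * k + k) := Nat.lt_two_pow_self
    have h7 : 2 ^ (k * k + k) ≤ 2 ^ (k * k + k + 1) := Nat.pow_le_pow_right (by norm_num) (by omega)
    exact Nat.mul_lt_mul_of_pos_left (h6.trans_le h7) (by positivity)
  obtain ⟨N', a, b, c⟩ := coreF hST h2 (hj.of_restrict_eq hS' h3) dT hκ' (by omega) (by omega)
    (by omega) hθ2 (le_refl q₂) (le_refl q₁) (le_refl q₀) (by omega)
  exact ⟨N', a.trans h1, b, c⟩

end Gad
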