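import Pool.Agent.Helper77.GL.Conn

/-!
# Merging a connected family of arbitrary clusters
-/

open Set

namespace Gad

open BIC

variable {α V ι κ : Type*}

/-- A family of mergeable clusters connected by rungs is mergeable. -/
lemma mg_of_conn [Fintype ι] [DecidableEq κ] {M : Matroid α} {S : Set α} {ends : α → Sym2 V}
    (hB : Bic M S ends) (W : κ → Set V) (F P : κ → Set α) (Q : Finset κ) (hne : Q.Nonempty)
    (r : κ → κ → Prop)
    (hconn : ∀ a ∈ Q, ∀ b ∈ Q, Relation.ReflTransGen (fun x y => r x y ∧ x ∈ Q ∧ y ∈ Q) a b)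
    (hr : ∀ a ∈ Q, ∀ b ∈ Q, r a b → Rung ι S ends (W a) (W b))
    (hfin : ∀ c ∈ Q, (W c).Finite) (hMg : ∀ c ∈ Q, Mg ι M S ends (W c) (F c) (P c))
    (hd : ∀ c ∈ Q, ∀ c' ∈ Q, c ≠ c' → Disjoint (W c) (W c')) :
    Mg ι M S ends (⋃ c ∈ Q, W c) (⋃ c ∈ Q, F c) (⋃ c ∈ Q, P c) := by
  classical
  obtain ⟨a, ha⟩ := hne
  set 𝓕 : Finset (Finset κ) := Q.powerset.filter (fun R => a ∈ R ∧
    Mg ι M S ends (⋃ c ∈ R, W c) (⋃ c ∈ R, F c) (⋃ c ∈ R, P c)) with h𝓕
  have hne : 𝓕.Nonempty := by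
    refine ⟨{a}, Finset.mem_filter.2 ⟨Finset.mem_powerset.2 (by simpa using ha), by simp, ?_⟩⟩
    simp only [Finset.mem_singleton, iUnion_iUnion_eq_left]
    exact hMg a ha
  obtain ⟨R, hR, hmax⟩ := Finset.exists_max_image 𝓕 Finset.card hne
  obtain ⟨hRQ, haR, hPQ⟩ := Finset.mem_filter.1 hR
  rw [Finset.mem_powerset] at hRQ
  by_cases hRQ' : R = Q
  · rw [← hRQ']; exact hPQ
  · exfalso
    obtain ⟨b, hbQ, hbR⟩ : ∃ b ∈ Q, b ∉ R := by
      by_contra hcon
      push Not at hcon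
      exact hRQ' (Finset.Subset.antisymm hRQ hcon)
    obtain ⟨x, hx, y, hy, hxy, hxQ, hyQ⟩ := exit (R := (R : Set κ)) (hconn a ha b hbQ) haR hbR
    have hxR : x ∈ R := hx
    have hyR : y ∉ R := hy
    obtain ⟨Rg, h1, h2⟩ := (hr x hxQ y hyQ hxy).mono (W₁' := ⋃ c ∈ R, W c)
      (subset_biUnion_of_mem (u := W) (show x ∈ (R : Set κ) from hxR)) (subset_refl _)
    have hdis : Disjoint (⋃ c ∈ R, W c) (W y) := by
      rw [Set.disjoint_iUnion₂_left]
      intro c hc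
      exact hd c (hRQ hc) y hyQ (fun h => hyR (h ▸ hc))
    have hf : (⋃ c ∈ R, W c).Finite :=
      Set.Finite.biUnion (Finset.finite_toSet R) (fun c hc => hfin c (hRQ hc))
    have h3 := Mg.join hB hf (hfin y hyQ) hdis hPQ (hMg y hyQ) Rg h1 h2
    have h4 : insert y R ∈ 𝓕 := by
      refine Finset.mem_filter.2 ⟨Finset.mem_powerset.2 (Finset.insert_subset hyQ hRQ),
        Finset.mem_insert_of_mem haR, ?_⟩
      rw [Finset.set_biUnion_insert, Finset.set_biUnion_insert, Finset.set_biUnion_insert,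
        union_comm (W y), union_comm (F y), union_comm (P y)]
      exact h3
    have h5 := hmax _ h4
    rw [Finset.card_insert_of_notMem hyR] at h5
    omega

end Gad
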