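import Pool.Agent.GL.Core
import Pool.Agent.Helper77.GL.GridA2
import Pool.Agent.GL.Full
import Pool.Agent.GL.Merge2

/-!
# Gadget lemma: assembly from clusters with ports
-/

open Set
open scoped Matroid

namespace Gad

open BIC BIC.Net

variable {α V κ : Type*}

lemma bic_restrict {M : Matroid α} {S : Set α} {ends : α → Sym2 V} (hB : Bic M S ends)
    (U : Set V) : Bic (M ↾ M.closure (ins S ends U)) (ins S ends U) ends := by
  have hsub : ins S ends U ⊆ M.E := fun e he => hB.sub he.1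
  have h1 : Bic M (ins S ends U) ends := by
    refine ⟨hsub, ?_, ?_⟩
    · intro F φ hF h2 h3
      exact hB.ind F φ (fun e he => (hF he).1) h2 h3
    · intro W
      refine (M.eRk_mono ?_).trans (hB.rk W)
      rintro e ⟨h2, h3⟩
      exact ⟨h2.1, h3⟩
  have h2 : ins S ends U ⊆ M.closure (ins S ends U) := M.subset_closure _ hsub
  refine h1.of_restrict_eq ?_ ?_
  · rw [Matroid.restrict_ground_eq]; exact h2
  · rw [Matroid.restrict_restrict_eq _ h2]

/-- **Assembly.**  The trees `u ∈ colF k` consist of clusters `c ∈ Q u` joined by rungs; the cluster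
`W c` carries the unicyclic base `F c` with port `e c`.  The position `p` of the network uses the
cluster `dk p`; the gadget of `p` has exactly one location `b p` in it. -/
theorem asm0 {k : ℕ} (hk : 1 ≤ k) {M : Matroid α} [M.Finite] {S : Set α} {ends : α → Sym2 V}
    (hB : Bic M S ends) (z : ℕ × ℕ → α) (hzS : ∀ x < k, ∀ y < k, z (x, y) ∉ S) [DecidableEq κ]
    (Q : ℕ × ℕ → Finset κ) (hQne : ∀ u ∈ colF k, (Q u).Nonempty)
    (hQd : ∀ u ∈ colF k, ∀ u' ∈ colF k, u ≠ u' → Disjoint (Q u) (Q u'))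
    (r : κ → κ → Prop)
    (hconn : ∀ u ∈ colF k, ∀ a ∈ Q u, ∀ b ∈ Q u,
      Relation.ReflTransGen (fun x y => r x y ∧ x ∈ Q u ∧ y ∈ Q u) a b)
    (W : κ → Set V) (F : κ → Set α) (e : κ → α)
    (hr : ∀ u ∈ colF k, ∀ a ∈ Q u, ∀ b ∈ Q u, r a b → Rung (Cond k) S ends (W a) (W b))
    (hfin : ∀ c, (W c).Finite)
    (hF : ∀ u ∈ colF k, ∀ c ∈ Q u, F c ⊆ ins S ends (W c) ∧ e c ∈ F c ∧
      Arb S ends (W c) (F c \ {e c}))
    (hd : ∀ u ∈ colF k, ∀ c ∈ Q u, ∀ u' ∈ colF k, ∀ c' ∈ Q u', c ≠ c' → Disjoint (W c) (W c'))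
    (Rest : Set V) (FR : Set α) (hR : FullB S ends Rest FR) (hRf : Rest.Finite)
    (hRd : ∀ u ∈ colF k, ∀ c ∈ Q u, Disjoint (W c) Rest)
    (dk : PosG k → κ) (hdk : ∀ p : PosG k, dk p ∈ Q (colN p.1)) (b : PosG k → V)
    (hU : ∀ x < k, ∀ y < k,
      z (x, y) ∈ M.closure (ins S ends ((⋃ u ∈ colF k, ⋃ c ∈ Q u, W c) ∪ Rest)))
    (h1 : ∀ p : PosG k, b p ∈ W (dk p) ∧ z p.1.2 ∉ Hx M S ends (b p) ∧
      ∀ w ∈ W (dk p), w ≠ b p → z p.1.2 ∈ Hx M S ends w)
    (h2 : ∀ p : PosG k, ∀ x < k, ∀ y < k, (x, y) ≠ p.1.2 → z (x, y) ∈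
      M.closure (ins S ends (((⋃ u ∈ colF k, ⋃ c ∈ Q u, W c) ∪ Rest) \ W (dk p))))
    (h3 : ∀ p : PosG k, ∀ w ∈ W (dk p), ∀ f ∈ F (dk p), w ∈ ends f → f ∉ Hx M S ends w) :
    HasUniformMinor M k := by
  classical
  have hcolN : ∀ p : PosG k, colN p.1 ∈ colF k := by
    rintro ⟨⟨t, x, y⟩, hp⟩
    have hp' := (Finset.mem_filter.1 hp).1
    have h4 := mem_posF.1 hp'
    rcases rel_cases hp' with ⟨h4, h5, _, _, d⟩ | ⟨_, _, _, d⟩ | ⟨_, _, _, _, d⟩ | ⟨_, _, _, d⟩ <;>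
      simp only <;> rw [d, mem_colF] <;> omega
  -- all clusters
  set 𝒞 : Finset κ := (colF k).biUnion Q with h𝒞
  have hmem : ∀ c, c ∈ 𝒞 ↔ ∃ u ∈ colF k, c ∈ Q u := fun c => Finset.mem_biUnion
  have hUW : (⋃ u ∈ colF k, ⋃ c ∈ Q u, W c) = ⋃ c ∈ 𝒞, W c := by
    ext v
    simp only [mem_iUnion, hmem]
    constructor
    · rintro ⟨u, hu, c, hc, hv⟩; exact ⟨c, ⟨u, hu, hc⟩, hv⟩
    · rintro ⟨c, ⟨u, hu, hc⟩, hv⟩; exact ⟨u, hu, c, hc, hv⟩
  rw [hUW] at hU h2
  set U : Set V := (⋃ c ∈ 𝒞, W c) ∪ Rest with hUdef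
  have hWU : ∀ c ∈ 𝒞, W c ⊆ U := fun c hc =>
    (subset_biUnion_of_mem (u := W) (show c ∈ (𝒞 : Set κ) from hc)).trans subset_union_left
  have hfull : ∀ c ∈ 𝒞, FullB S ends (W c) (F c) := by
    intro c hc
    obtain ⟨u, hu, hcu⟩ := (hmem c).1 hc
    obtain ⟨h4, h5, h6⟩ := hF u hu c hcu
    exact FullB.of_arb h4 h5 h6
  have hdis : ∀ c ∈ 𝒞, ∀ c' ∈ 𝒞, c ≠ c' → Disjoint (W c) (W c') := by
    intro c hc c' hc' hne
    obtain ⟨u, hu, hcu⟩ := (hmem c).1 hc
    obtain ⟨u', hu', hcu'⟩ := (hmem c').1 hc'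
    exact hd u hu c hcu u' hu' c' hcu' hne
  have hRdis : ∀ c ∈ 𝒞, Disjoint (W c) Rest := by
    intro c hc
    obtain ⟨u, hu, hcu⟩ := (hmem c).1 hc
    exact hRd u hu c hcu
  set F₀ : Set α := (⋃ c ∈ 𝒞, F c) ∪ FR with hF₀
  have hUfin : U.Finite := (Set.Finite.biUnion (Finset.finite_toSet 𝒞) (fun c _ => hfin c)).union hRf
  have hWRd : Disjoint (⋃ c ∈ 𝒞, W c) Rest := by
    rw [Set.disjoint_iUnion₂_left]
    exact hRdis
  have hfullU : FullB S ends U F₀ := (FullB.biUnion 𝒞 W F hfull hdis).union hR hWRd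
  -- the restriction
  set S' : Set α := ins S ends U with hS'
  have hS'E : S' ⊆ M.E := fun f hf => hB.sub hf.1
  set R' : Set α := M.closure S' with hR'
  have hR'E : R' ⊆ M.E := M.closure_subset_ground _
  have hSR : S' ⊆ R' := M.subset_closure _ hS'E
  set M' : Matroid α := M ↾ R' with hM'
  have : M'.Finite := ⟨by rw [hM', Matroid.restrict_ground_eq]; exact M.ground_finite.subset hR'E⟩
  have hle : M' ≤m M := by
    rw [hM', ← Matroid.delete_compl hR'E]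
    exact ⟨∅, M.E \ R', by rw [Matroid.contract_empty]⟩
  have hB' : Bic M' S' ends := bic_restrict hB U
  have hbas : M.IsBasis F₀ S' := hfullU.basis hB hUfin
  have hbase : M'.IsBase F₀ := by
    rw [hM', Matroid.isBase_restrict_iff hR'E]
    exact hbas.isBasis_closure_right
  have hcl : ∀ Y ⊆ R', M'.closure Y = M.closure Y ∩ R' := fun Y hY => by
    rw [hM', M.restrict_closure_eq hY hR'E]
  have hF₀R : F₀ ⊆ R' := hbas.subset.trans hSR
  -- trees
  have hcQ : ∀ u ∈ colF k, ∀ c ∈ Q u, c ∈ 𝒞 := fun u hu c hc => (hmem c).2 ⟨u, hu, hc⟩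
  have hMg : ∀ u ∈ colF k, Mg (Cond k) M' S' ends (⋃ c ∈ Q u, W c) (⋃ c ∈ Q u, F c)
      (⋃ c ∈ Q u, {e c}) := by
    intro u hu
    refine mg_of_conn hB' W F (fun c => {e c}) (Q u) (hQne u hu) r (hconn u hu) ?_
      (fun c _ => hfin c) ?_ ?_
    · intro a ha c hc hac
      obtain ⟨Rg, h4, h5⟩ := hr u hu a ha c hc hac
      refine ⟨Rg, h4, fun f hf => ?_⟩
      obtain ⟨h6, v, hv, w, hw, h7⟩ := h5 f hf
      refine ⟨⟨h6, ?_⟩, v, hv, w, hw, h7⟩
      intro x hx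
      rw [h7] at hx
      rcases Sym2.mem_iff.1 hx with rfl | rfl
      · exact hWU a (hcQ u hu a ha) hv
      · exact hWU c (hcQ u hu c hc) hw
    · intro c hc
      obtain ⟨h4, h5, h6⟩ := hF u hu c hc
      have h7 := hWU c (hcQ u hu c hc)
      exact Mg.base (by rw [ins_ins h7]; exact h4) h5 (Arb.ins h6 h7)
    · intro c hc c' hc' hne
      exact hdis c (hcQ u hu c hc) c' (hcQ u hu c' hc') hne
  -- a non-port element of another cluster avoids the vertices of a cluster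
  have havoid : ∀ c ∈ 𝒞, F₀ \ F c ⊆ ins S ends (U \ W c) := by
    rintro c hc f ⟨hf, hfc⟩
    rcases hf with hf | hf
    · obtain ⟨c', hc', hf'⟩ := mem_iUnion₂.1 hf
      have hne : c' ≠ c := by
        rintro rfl; exact hfc hf'
      have h4 := (hfull c' hc').1 hf'
      exact ⟨h4.1, fun v hv => ⟨hWU c' hc' (h4.2 v hv), fun hh =>
        Set.disjoint_left.1 (hdis c' hc' c hc hne) (h4.2 v hv) hh⟩⟩
    · have h4 := hR.1 hf
      exact ⟨h4.1, fun v hv => ⟨Or.inr (h4.2 v hv), fun hh =>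
        Set.disjoint_left.1 (hRdis c hc) hh (h4.2 v hv)⟩⟩
  have hrestfull : ∀ c ∈ 𝒞, FullB S ends (U \ W c) (F₀ \ F c) := by
    intro c hc
    have e1 : U \ W c = (⋃ c' ∈ 𝒞.erase c, W c') ∪ Rest := by
      ext v
      constructor
      · rintro ⟨hv | hv, hvc⟩
        · obtain ⟨c', hc', hv'⟩ := mem_iUnion₂.1 hv
          left
          refine mem_iUnion₂.2 ⟨c', Finset.mem_erase.2 ⟨?_, hc'⟩, hv'⟩
          rintro rfl; exact hvc hv'
        · exact Or.inr hv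
      · rintro (hv | hv)
        · obtain ⟨c', hc', hv'⟩ := mem_iUnion₂.1 hv
          obtain ⟨hne, hc''⟩ := Finset.mem_erase.1 hc'
          exact ⟨hWU c' hc'' hv', fun hh =>
            Set.disjoint_left.1 (hdis c' hc'' c hc hne) hv' hh⟩
        · exact ⟨Or.inr hv, fun hh => Set.disjoint_left.1 (hRdis c hc) hh hv⟩
    have e2 : F₀ \ F c = (⋃ c' ∈ 𝒞.erase c, F c') ∪ FR := by
      ext f
      constructor
      · rintro ⟨hf | hf, hfc⟩
        · obtain ⟨c', hc', hf'⟩ := mem_iUnion₂.1 hf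
          left
          refine mem_iUnion₂.2 ⟨c', Finset.mem_erase.2 ⟨?_, hc'⟩, hf'⟩
          rintro rfl; exact hfc hf'
        · exact Or.inr hf
      · rintro (hf | hf)
        · obtain ⟨c', hc', hf'⟩ := mem_iUnion₂.1 hf
          obtain ⟨hne, hc''⟩ := Finset.mem_erase.1 hc'
          refine ⟨Or.inl (mem_iUnion₂.2 ⟨c', hc'', hf'⟩), fun hh => ?_⟩
          exact Set.disjoint_left.1 (ins_disj (S := S) (ends := ends)
            (hdis c' hc'' c hc hne)) ((hfull c' hc'').1 hf') ((hfull c hc).1 hh)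
        · refine ⟨Or.inr hf, fun hh => ?_⟩
          exact Set.disjoint_left.1 (ins_disj (S := S) (ends := ends) (hRdis c hc))
            ((hfull c hc).1 hh) (hR.1 hf)
    rw [e1, e2]
    refine (FullB.biUnion _ W F (fun c' hc' => hfull c' (Finset.mem_of_mem_erase hc'))
      (fun c' hc' c'' hc'' => hdis c' (Finset.mem_of_mem_erase hc') c''
        (Finset.mem_of_mem_erase hc''))).union hR ?_
    rw [Set.disjoint_iUnion₂_left]
    exact fun c' hc' => hRdis c' (Finset.mem_of_mem_erase hc')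
  refine HasUniformMinor.mono (M' := M') ?_ hle
  refine core hk (S := S') (ends := ends) hbase (fun u => ⋃ c ∈ Q u, W c) (fun u => ⋃ c ∈ Q u, F c)
    (fun u => ⋃ c ∈ Q u, {e c}) hMg ?_ ?_ ?_ z ?_ (fun p => e (dk p)) ?_ ?_ ?_
  · -- disjoint trees
    intro u hu u' hu' hne
    rw [Set.disjoint_iUnion₂_left]
    intro c hc
    rw [Set.disjoint_iUnion₂_right]
    intro c' hc'
    refine hd u hu c hc u' hu' c' hc' ?_
    rintro rfl
    exact (Finset.disjoint_left.1 (hQd u hu u' hu' hne)) hc hc'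
  · intro u hu f hf
    obtain ⟨c, hc, hf'⟩ := mem_iUnion₂.1 hf
    exact Or.inl (mem_iUnion₂.2 ⟨c, hcQ u hu c hc, hf'⟩)
  · rintro u hu f ⟨hf, hf'⟩
    obtain ⟨v, hv⟩ := exists_mem_ends ends f
    obtain ⟨c, hc, hvc⟩ := mem_iUnion₂.1 (hf'.2 v hv)
    refine mem_iUnion₂.2 ⟨c, hc, ?_⟩
    by_contra hcon
    exact ((havoid c (hcQ u hu c hc) ⟨hf, hcon⟩).2 v hv).2 hvc
  · intro x hx y hy
    refine ⟨?_, fun hh => hzS x hx y hy hh.1⟩
    rw [hM', Matroid.restrict_ground_eq]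
    exact hU x hx y hy
  · intro p
    exact mem_iUnion₂.2 ⟨dk p, hdk p, rfl⟩
  · -- the port of the gadget itself
    intro p hcon
    have hc := hcQ _ (hcolN p) _ (hdk p)
    obtain ⟨h4, h5, h6⟩ := hF _ (hcolN p) _ (hdk p)
    rw [hcl _ (sdiff_subset.trans hF₀R)] at hcon
    have e1 : F₀ \ {e (dk p)} = (F₀ \ F (dk p)) ∪ (F (dk p) \ {e (dk p)}) := by
      ext f
      simp only [mem_sdiff, mem_singleton_iff, mem_union]
      constructor
      · rintro ⟨h7, h8⟩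
        by_cases h9 : f ∈ F (dk p)
        · exact Or.inr ⟨h9, h8⟩
        · exact Or.inl ⟨h7, h9⟩
      · rintro (⟨h7, h8⟩ | ⟨h7, h8⟩)
        · exact ⟨h7, fun hh => h8 (hh ▸ h5)⟩
        · exact ⟨Or.inl (mem_iUnion₂.2 ⟨_, hc, h7⟩), h8⟩
    rw [e1] at hcon
    obtain ⟨hb1, hb2, hb3⟩ := h1 p
    refine port_single (hfin _) h6 ?_ hb1 ?_ hb3 hb2 ?_ ?_ hcon.1
    · refine Set.Finite.subset ?_ sdiff_subset
      exact M.ground_finite.subset (fun f hf => hB.sub (h4 hf).1)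
    · intro w hw f hf
      have h7 := havoid _ hc hf
      refine M.mem_closure_of_mem' (X := ins S ends {w}ᶜ) ⟨h7.1, ?_⟩ (hB.sub h7.1)
      intro v hv hvw
      rw [mem_singleton_iff] at hvw
      subst hvw
      exact (h7.2 v hv).2 hw
    · intro w hw _ f hf hwf
      exact h3 p w hw f hf.1 hwf
    · intro f hf
      exact hB.sub (h4 hf.1).1
  · -- the other gadgets
    intro p x hx y hy hne
    have hc := hcQ _ (hcolN p) _ (hdk p)
    obtain ⟨h4, h5, h6⟩ := hF _ (hcolN p) _ (hdk p)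
    rw [hcl _ (sdiff_subset.trans hF₀R)]
    refine ⟨?_, hU x hx y hy⟩
    have h7 := h2 p x hx y hy hne
    rw [← (hrestfull _ hc).closure hB (hUfin.subset sdiff_subset)] at h7
    refine M.closure_subset_closure ?_ h7
    rintro f ⟨hf, hf'⟩
    exact ⟨hf, fun hh => hf' (by rw [mem_singleton_iff] at hh; rw [hh]; exact h5)⟩

end Gad
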