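import Pool.Agent.GL.Asm
import Pool.Agent.GL.Loc

/-!
# Gadget lemma: assembly in terms of locations
-/

open Set
open scoped Matroid

namespace Gad

open BIC BIC.Net

variable {α V κ : Type*}

/-- `W` contains a cycle: a finite set of vertices `X ⊆ W` with at least `|X|` elements inside. -/
def HasCyc (S : Set α) (ends : α → Sym2 V) (W : Set V) : Prop :=
  ∃ (X : Finset V) (G : Finset α), X.Nonempty ∧ (X : Set V) ⊆ W ∧ X.card ≤ G.card ∧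
    ∀ e ∈ G, e ∈ S ∧ ∀ v ∈ ends e, v ∈ X

lemma HasCyc.mono {S : Set α} {ends : α → Sym2 V} {W W' : Set V} (h : HasCyc S ends W)
    (hW : W ⊆ W') : HasCyc S ends W' := by
  obtain ⟨X, G, h1, h2, h3, h4⟩ := h
  exact ⟨X, G, h1, h2.trans hW, h3, h4⟩

/-- A connected finite set with a cycle carries a unicyclic base. -/
lemma cluster_of {S : Set α} {ends : α → Sym2 V} {W : Set V} (hWf : W.Finite)
    (hW : VConn S ends W) (hc : HasCyc S ends W) :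
    ∃ (F : Set α) (e : α), F ⊆ ins S ends W ∧ e ∈ F ∧ Arb S ends W (F \ {e}) := by
  classical
  obtain ⟨X, G, ⟨w, hwX⟩, h2, h3, h4⟩ := hc
  have hwW : w ∈ W := h2 hwX
  set D : Finset V := hWf.toFinset.erase w with hD
  have hDW : {w} ∪ (D : Set V) = W := by
    rw [hD, Finset.coe_erase, Set.Finite.coe_toFinset]
    ext v
    simp only [mem_union, mem_singleton_iff, mem_sdiff]
    constructor
    · rintro (rfl | h)
      · exact hwW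
      · exact h.1
    · intro h
      by_cases hv : v = w
      · exact Or.inl hv
      · exact Or.inr ⟨h, hv⟩
  obtain ⟨E, hE1, hE2, hE3⟩ := attach (S := S) (ends := ends) (W := {w}) D (by
    intro v hv
    refine ⟨w, rfl, ?_⟩
    rw [hDW]
    exact hW w hwW v (hWf.mem_toFinset.1 (Finset.mem_of_mem_erase hv))) (by
    rw [Set.disjoint_singleton_left]
    simp [hD])
  have h5 := hE3 ∅ (Arb.single w)
  rw [hDW, empty_union] at h5
  obtain ⟨g, hgG, hgE⟩ : ∃ g ∈ G, g ∉ E := by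
    by_contra hcon
    push Not at hcon
    obtain ⟨φ, hφ, hφe⟩ := h5.2.2 w hwW
    have h6 : G.card ≤ (X.erase w).card := by
      refine Finset.card_le_card_of_injOn φ ?_ ?_
      · intro g hg
        have hg' : g ∈ G := hg
        have h7 := hcon g hg'
        exact Finset.mem_coe.2 (Finset.mem_erase.2 ⟨(hφ.mapsTo h7).2,
          (h4 g hg').2 _ (hφe g h7)⟩)
      · intro g hg g' hg' hgg
        exact hφ.injOn (hcon g hg) (hcon g' hg') hgg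
    rw [Finset.card_erase_of_mem hwX] at h6
    have h7 := Finset.card_pos.2 ⟨w, hwX⟩
    omega
  refine ⟨insert g E, g, insert_subset ⟨(h4 g hgG).1, fun v hv => h2 ((h4 g hgG).2 v hv)⟩ ?_,
    mem_insert _ _, ?_⟩
  · rw [hDW] at hE1; exact hE1
  · rw [insert_sdiff_self_of_notMem hgE]; exact h5

lemma full_erase [DecidableEq κ] {S : Set α} {ends : α → Sym2 V} (𝒞 : Finset κ) (W : κ → Set V)
    (F : κ → Set α) (hfull : ∀ c ∈ 𝒞, FullB S ends (W c) (F c))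
    (hdis : ∀ c ∈ 𝒞, ∀ c' ∈ 𝒞, c ≠ c' → Disjoint (W c) (W c')) {Rest : Set V} {FR : Set α}
    (hR : FullB S ends Rest FR) (hRdis : ∀ c ∈ 𝒞, Disjoint (W c) Rest) {c : κ} (hc : c ∈ 𝒞) :
    FullB S ends (((⋃ c ∈ 𝒞, W c) ∪ Rest) \ W c)
      ((⋃ c' ∈ 𝒞.erase c, F c') ∪ FR) := by
  have e1 : ((⋃ c ∈ 𝒞, W c) ∪ Rest) \ W c = (⋃ c' ∈ 𝒞.erase c, W c') ∪ Rest := by
    ext v
    constructor
    · rintro ⟨hv | hv, hvc⟩
      · obtain ⟨c', hc', hv'⟩ := mem_iUnion₂.1 hv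
        left
        refine mem_iUnion₂.2 ⟨c', Finset.mem_erase.2 ⟨?_, hc'⟩, hv'⟩
        rintro rfl; exact hvc hv'
      · exact Or.inr hv
    · rintro (hv | hv)
      · obtain ⟨c', hc', hv'⟩ := mem_iUnion₂.1 hv
        obtain ⟨hne, hc''⟩ := Finset.mem_erase.1 hc'
        exact ⟨Or.inl (mem_iUnion₂.2 ⟨c', hc'', hv'⟩), fun hh =>
          Set.disjoint_left.1 (hdis c' hc'' c hc hne) hv' hh⟩
      · exact ⟨Or.inr hv, fun hh => Set.disjoint_left.1 (hRdis c hc) hh hv⟩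
  rw [e1]
  refine (FullB.biUnion _ W F (fun c' hc' => hfull c' (Finset.mem_of_mem_erase hc'))
    (fun c' hc' c'' hc'' => hdis c' (Finset.mem_of_mem_erase hc') c''
      (Finset.mem_of_mem_erase hc''))).union hR ?_
  rw [Set.disjoint_iUnion₂_left]
  exact fun c' hc' => hRdis c' (Finset.mem_of_mem_erase hc')

/-- **Assembly in terms of locations.**  `A` is the (finite, connected) vertex set of the graph of
`S`; `L (x, y)` contains the locations of the gadget `z (x, y)`. -/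
theorem asm {k : ℕ} (hk : 1 ≤ k) {M : Matroid α} [M.Finite] {S : Set α} {ends : α → Sym2 V}
    (hB : Bic M S ends) {A : Set V} (hAf : A.Finite) (hSA : ∀ e ∈ S, ∀ v ∈ ends e, v ∈ A)
    (hA : VConn S ends A) (z : ℕ × ℕ → α)
    (hz : ∀ x < k, ∀ y < k, z (x, y) ∈ M.closure S ∧ z (x, y) ∉ S) [DecidableEq κ]
    (Q : ℕ × ℕ → Finset κ) (hQne : ∀ u ∈ colF k, (Q u).Nonempty)
    (hQd : ∀ u ∈ colF k, ∀ u' ∈ colF k, u ≠ u' → Disjoint (Q u) (Q u'))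
    (r : κ → κ → Prop)
    (hconn : ∀ u ∈ colF k, ∀ a ∈ Q u, ∀ b ∈ Q u,
      Relation.ReflTransGen (fun x y => r x y ∧ x ∈ Q u ∧ y ∈ Q u) a b)
    (W : κ → Set V)
    (hr : ∀ u ∈ colF k, ∀ a ∈ Q u, ∀ b ∈ Q u, r a b → Rung (Cond k) S ends (W a) (W b))
    (hfin : ∀ c, (W c).Finite)
    (hW : ∀ u ∈ colF k, ∀ c ∈ Q u, W c ⊆ A ∧ VConn S ends (W c) ∧ HasCyc S ends (W c))
    (hd : ∀ u ∈ colF k, ∀ c ∈ Q u, ∀ u' ∈ colF k, ∀ c' ∈ Q u', c ≠ c' → Disjoint (W c) (W c'))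
    (Rest : Set V) (FR : Set α) (hR : FullB S ends Rest FR) (hRA : Rest ⊆ A)
    (hRd : ∀ u ∈ colF k, ∀ c ∈ Q u, Disjoint (W c) Rest)
    (dk : PosG k → κ) (hdk : ∀ p : PosG k, dk p ∈ Q (colN p.1)) (b : PosG k → V)
    (L : ℕ × ℕ → Set V)
    (hL : ∀ x < k, ∀ y < k, ∀ v ∈ A, v ∉ L (x, y) → z (x, y) ∈ Hx M S ends v)
    (hLU : ∀ x < k, ∀ y < k, L (x, y) ⊆ (⋃ u ∈ colF k, ⋃ c ∈ Q u, W c) ∪ Rest)
    (h1 : ∀ p : PosG k, z p.1.2 ∉ Hx M S ends (b p) ∧ L p.1.2 ∩ W (dk p) = {b p})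
    (h2 : ∀ p : PosG k, ∀ x < k, ∀ y < k, (x, y) ≠ p.1.2 → Disjoint (L (x, y)) (W (dk p))) :
    HasUniformMinor M k := by
  classical
  have hcolN : ∀ p : PosG k, colN p.1 ∈ colF k := by
    rintro ⟨⟨t, x, y⟩, hp⟩
    have hp' := (Finset.mem_filter.1 hp).1
    have h4 := mem_posF.1 hp'
    rcases rel_cases hp' with ⟨h4, h5, _, _, d⟩ | ⟨_, _, _, d⟩ | ⟨_, _, _, _, d⟩ | ⟨_, _, _, d⟩ <;>
      simp only <;> rw [d, mem_colF] <;> omega
  set 𝒞 : Finset κ := (colF k).biUnion Q with h𝒞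
  have hmem : ∀ c, c ∈ 𝒞 ↔ ∃ u ∈ colF k, c ∈ Q u := fun c => Finset.mem_biUnion
  have hUW : (⋃ u ∈ colF k, ⋃ c ∈ Q u, W c) = ⋃ c ∈ 𝒞, W c := by
    ext v
    simp only [mem_iUnion, hmem]
    constructor
    · rintro ⟨u, hu, c, hc, hv⟩; exact ⟨c, ⟨u, hu, hc⟩, hv⟩
    · rintro ⟨c, ⟨u, hu, hc⟩, hv⟩; exact ⟨u, hu, c, hc, hv⟩
  have hcl : ∀ c, ∃ Fe : Set α × α, c ∈ 𝒞 → Fe.1 ⊆ ins S ends (W c) ∧ Fe.2 ∈ Fe.1 ∧
      Arb S ends (W c) (Fe.1 \ {Fe.2}) := by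
    intro c
    by_cases hc : c ∈ 𝒞
    · obtain ⟨u, hu, hcu⟩ := (hmem c).1 hc
      obtain ⟨_, h4, h5⟩ := hW u hu c hcu
      obtain ⟨F, e, h6, h7, h8⟩ := cluster_of (hfin c) h4 h5
      exact ⟨(F, e), fun _ => ⟨h6, h7, h8⟩⟩
    · have : Nonempty α := ⟨z (0, 0)⟩
      obtain ⟨a⟩ := this
      exact ⟨(∅, a), fun h => absurd h hc⟩
  choose Fe hFe using hcl
  have hfull : ∀ c ∈ 𝒞, FullB S ends (W c) (Fe c).1 := fun c hc =>
    FullB.of_arb (hFe c hc).1 (hFe c hc).2.1 (hFe c hc).2.2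
  have hdis : ∀ c ∈ 𝒞, ∀ c' ∈ 𝒞, c ≠ c' → Disjoint (W c) (W c') := by
    intro c hc c' hc' hne
    obtain ⟨u, hu, hcu⟩ := (hmem c).1 hc
    obtain ⟨u', hu', hcu'⟩ := (hmem c').1 hc'
    exact hd u hu c hcu u' hu' c' hcu' hne
  have hRdis : ∀ c ∈ 𝒞, Disjoint (W c) Rest := by
    intro c hc
    obtain ⟨u, hu, hcu⟩ := (hmem c).1 hc
    exact hRd u hu c hcu
  have hWRd : Disjoint (⋃ c ∈ 𝒞, W c) Rest := by
    rw [Set.disjoint_iUnion₂_left]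
    exact hRdis
  have hUA : (⋃ c ∈ 𝒞, W c) ∪ Rest ⊆ A := by
    refine union_subset (iUnion₂_subset fun c hc => ?_) hRA
    obtain ⟨u, hu, hcu⟩ := (hmem c).1 hc
    exact (hW u hu c hcu).1
  have hfullU := (FullB.biUnion 𝒞 W (fun c => (Fe c).1) hfull hdis).union hR hWRd
  -- every gadget has a location
  have hp1 : ∀ x < k, ∀ y < k, ((1, x, y) : ℕ × ℕ × ℕ) ∈ (posF k).filter (fun p => p.1 ≠ 0) := by
    intro x hx y hy
    refine Finset.mem_filter.2 ⟨mem_posF.2 ⟨by omega, hx, hy, by omega, by omega⟩, ?_⟩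
    simp
  have hbL : ∀ p : PosG k, b p ∈ L p.1.2 ∧ b p ∈ W (dk p) := by
    intro p
    have : b p ∈ L p.1.2 ∩ W (dk p) := by rw [(h1 p).2]; exact mem_singleton _
    exact this
  have hbU : ∀ p : PosG k, b p ∈ (⋃ c ∈ 𝒞, W c) ∪ Rest := fun p =>
    Or.inl (mem_iUnion₂.2 ⟨dk p, (hmem _).2 ⟨_, hcolN p, hdk p⟩, (hbL p).2⟩)
  have hlocv : ∀ x < k, ∀ y < k, ∀ U : Set V, L (x, y) ⊆ U → ∀ v ∈ A, v ∉ U →
      z (x, y) ∈ Hx M S ends v := fun x hx y hy U hLU v hv hvU =>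
    hL x hx y hy v hv (fun hh => hvU (hLU hh))
  refine asm0 hk hB z (fun x hx y hy => (hz x hx y hy).2) Q hQne hQd r hconn W
    (fun c => (Fe c).1) (fun c => (Fe c).2) hr hfin ?_ hd Rest FR hR (hAf.subset hRA) hRd dk hdk b
    ?_ ?_ ?_ ?_
  · intro u hu c hc
    exact hFe c ((hmem c).2 ⟨u, hu, hc⟩)
  · intro x hx y hy
    have h4 := hLU x hx y hy
    rw [hUW] at h4 ⊢
    exact loc_closure hB hAf hSA hA (hz x hx y hy).1 _ _ _ rfl hUA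
      ⟨b ⟨_, hp1 x hx y hy⟩, hbU _⟩ hfullU (hlocv x hx y hy _ h4)
  · intro p
    refine ⟨(hbL p).2, (h1 p).1, ?_⟩
    intro w hw hwb
    have hmp := mem_posF.1 (Finset.mem_filter.1 p.2).1
    have hwA : w ∈ A := (hW _ (hcolN p) _ (hdk p)).1 hw
    refine hL p.1.2.1 hmp.2.1 p.1.2.2 hmp.2.2.1 w hwA ?_
    intro hwL
    have : w ∈ L p.1.2 ∩ W (dk p) := ⟨hwL, hw⟩
    rw [(h1 p).2] at this
    exact hwb this
  · intro p x hx y hy hne
    have h4 := hLU x hx y hy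
    rw [hUW] at h4 ⊢
    have hc := (hmem _).2 ⟨_, hcolN p, hdk p⟩
    have h5 := full_erase 𝒞 W (fun c => (Fe c).1) hfull hdis hR hRdis hc
    have h6 : L (x, y) ⊆ ((⋃ c ∈ 𝒞, W c) ∪ Rest) \ W (dk p) := fun v hv =>
      ⟨h4 hv, Set.disjoint_left.1 (h2 p x hx y hy hne) hv⟩
    exact loc_closure hB hAf hSA hA (hz x hx y hy).1 _ _ _ rfl (sdiff_subset.trans hUA)
      ⟨b ⟨_, hp1 x hx y hy⟩, h6 (hbL ⟨_, hp1 x hx y hy⟩).1⟩ h5 (hlocv x hx y hy _ h6)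
  · intro p w hw f hf hwf
    have hc := (hmem _).2 ⟨_, hcolN p, hdk p⟩
    exact not_mem_Hx' hB ((hFe _ hc).1 hf).1 hwf

end Gad
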