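import Pool.Agent.GL.Cell
import Pool.Agent.GL.Cells

/-!
# Gadget lemma: assembly over the square cells of a grid with far apart holes
-/

open Set
open scoped Matroid

namespace Gad

open BIC BIC.Net BICS

variable {α : Type*} {S : Set α} {ends : α → Sym2 (ℕ × ℕ)}

/-- The square cell number `c` with side `D`. -/
def cell (ox oy D : ℕ) (c : ℕ × ℕ) : Set (ℕ × ℕ) := rect (ox + D * c.1) (oy + D * c.2) D D

lemma mem_cell {ox oy D : ℕ} {c v : ℕ × ℕ} : v ∈ cell ox oy D c ↔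
    ox + D * c.1 ≤ v.1 ∧ v.1 < ox + D * c.1 + D ∧ oy + D * c.2 ≤ v.2 ∧
      v.2 < oy + D * c.2 + D := Iff.rfl

lemma idx_unique {D i j v : ℕ} (h1 : D * i ≤ v) (h2 : v < D * i + D) (h3 : D * j ≤ v)
    (h4 : v < D * j + D) : i = j := by
  rcases Nat.lt_trichotomy i j with h | h | h
  · have : D * (i + 1) ≤ D * j := Nat.mul_le_mul_left _ h
    rw [mul_add, mul_one] at this
    omega
  · exact h
  · have : D * (j + 1) ≤ D * i := Nat.mul_le_mul_left _ h
    rw [mul_add, mul_one] at this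
    omega

lemma cell_unique {ox oy D : ℕ} {c c' v : ℕ × ℕ} (h : v ∈ cell ox oy D c)
    (h' : v ∈ cell ox oy D c') : c = c' := by
  rw [mem_cell] at h h'
  exact Prod.ext (idx_unique (D := D) (v := v.1 - ox) (by omega) (by omega) (by omega) (by omega))
    (idx_unique (D := D) (v := v.2 - oy) (by omega) (by omega) (by omega) (by omega))

lemma cell_disj {ox oy D : ℕ} {c c' : ℕ × ℕ} (h : c ≠ c') :
    Disjoint (cell ox oy D c) (cell ox oy D c') :=
  Set.disjoint_left.2 fun _ hv hv' => h (cell_unique hv hv')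

lemma cell_subset {X : ℕ × ℕ} {n ox oy D N : ℕ} (hox : X.1 ≤ ox) (hoy : X.2 ≤ oy)
    (hNx : ox + D * N ≤ X.1 + n) (hNy : oy + D * N ≤ X.2 + n) {c : ℕ × ℕ} (h1 : c.1 < N)
    (h2 : c.2 < N) : cell ox oy D c ⊆ rect X.1 X.2 n n := by
  intro v hv
  rw [mem_cell] at hv
  have h3 : D * (c.1 + 1) ≤ D * N := Nat.mul_le_mul_left _ h1
  have h4 : D * (c.2 + 1) ≤ D * N := Nat.mul_le_mul_left _ h2
  rw [mul_add, mul_one] at h3 h4
  rw [mem_rct]
  omega

lemma Conn.vconn {U W : Set (ℕ × ℕ)} (hW : Conn W) (hP : Pres S ends U) (hWU : W ⊆ U) :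
    VConn S ends W := by
  intro u hu v hv
  refine Relation.ReflTransGen.mono ?_ _ _ (hW.2 u hu v hv)
  rintro a b ⟨h1, h2, h3⟩
  exact ⟨hP a b h1 (hWU h2) (hWU h3), h2, h3⟩

/-- A unit face is a cycle. -/
lemma hasCyc_face {U W : Set (ℕ × ℕ)} (hP : Pres S ends U) (hWU : W ⊆ U) {x y : ℕ}
    (h00 : (x, y) ∈ W) (h10 : (x + 1, y) ∈ W) (h01 : (x, y + 1) ∈ W)
    (h11 : (x + 1, y + 1) ∈ W) : HasCyc S ends W := by
  classical
  obtain ⟨e1, he1, hh1⟩ := hP (x, y) (x + 1, y) (by unfold Adj; simp) (hWU h00) (hWU h10)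
  obtain ⟨e2, he2, hh2⟩ := hP (x + 1, y) (x + 1, y + 1) (by unfold Adj; simp) (hWU h10) (hWU h11)
  obtain ⟨e3, he3, hh3⟩ := hP (x + 1, y + 1) (x, y + 1) (by unfold Adj; simp) (hWU h11) (hWU h01)
  obtain ⟨e4, he4, hh4⟩ := hP (x, y) (x, y + 1) (by unfold Adj; simp) (hWU h00) (hWU h01)
  have hne : ∀ {f g : α} {s t : Sym2 (ℕ × ℕ)}, ends f = s → ends g = t → s ≠ t → f ≠ g := by
    rintro f g s t h1 h2 h3 rfl
    exact h3 (h1.symm.trans h2)
  refine ⟨{(x, y), (x + 1, y), (x + 1, y + 1), (x, y + 1)}, {e1, e2, e3, e4}, ?_, ?_, ?_, ?_⟩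
  · exact Finset.insert_nonempty _ _
  · intro v hv
    simp only [Finset.coe_insert, Finset.coe_singleton, mem_insert_iff, mem_singleton_iff] at hv
    rcases hv with rfl | rfl | rfl | rfl <;> assumption
  · refine (Finset.card_le_four).trans ?_
    rw [Finset.card_insert_of_notMem, Finset.card_insert_of_notMem, Finset.card_insert_of_notMem,
      Finset.card_singleton]
    · rw [Finset.mem_singleton]
      exact hne hh3 hh4 (by rw [Ne, Sym2.eq_iff]; simp)
    · rw [Finset.mem_insert, Finset.mem_singleton, not_or]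
      exact ⟨hne hh2 hh3 (by rw [Ne, Sym2.eq_iff]; simp), hne hh2 hh4 (by rw [Ne, Sym2.eq_iff]; simp)⟩
    · rw [Finset.mem_insert, Finset.mem_insert, Finset.mem_singleton, not_or, not_or]
      exact ⟨hne hh1 hh2 (by rw [Ne, Sym2.eq_iff]; simp), hne hh1 hh3 (by rw [Ne, Sym2.eq_iff]; simp),
        hne hh1 hh4 (by rw [Ne, Sym2.eq_iff]; simp)⟩
  · intro e he
    simp only [Finset.mem_insert, Finset.mem_singleton] at he ⊢
    rcases he with rfl | rfl | rfl | rfl
    · refine ⟨he1, fun v hv => ?_⟩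
      rw [hh1, Sym2.mem_iff] at hv
      tauto
    · refine ⟨he2, fun v hv => ?_⟩
      rw [hh2, Sym2.mem_iff] at hv
      tauto
    · refine ⟨he3, fun v hv => ?_⟩
      rw [hh3, Sym2.mem_iff] at hv
      tauto
    · refine ⟨he4, fun v hv => ?_⟩
      rw [hh4, Sym2.mem_iff] at hv
      tauto

lemma rect_finite (x y a b : ℕ) : (rect x y a b).Finite := by
  refine ((Finset.Ico x (x + a) ×ˢ Finset.Ico y (y + b) : Finset (ℕ × ℕ)).finite_toSet).subset ?_
  intro p hp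
  rw [mem_rct] at hp
  simp only [Finset.coe_product, Finset.coe_Ico, mem_prod, mem_Ico]
  omega

/-- The rungs between neighbouring cells. -/
lemma cell_rung {ι : Type*} [Fintype ι] {U : Set (ℕ × ℕ)} (hP : Pres S ends U)
    {H : Finset (ℕ × ℕ)} {L D ox oy : ℕ} (hL : 1 ≤ L)
    (hfar : ∀ q ∈ H, ∀ q' ∈ H, q ≠ q' → CWL.Far (2 * D) q L q' L)
    (hι : Fintype.card ι + L < D) {c c' : ℕ × ℕ} (hcc : Adj c c')
    (hU1 : cell ox oy D c \ hls H L ⊆ U) (hU2 : cell ox oy D c' \ hls H L ⊆ U) :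
    Rung ι S ends (cell ox oy D c \ hls H L) (cell ox oy D c' \ hls H L) := by
  have hright : ∀ i j : ℕ, cell ox oy D (i, j) \ hls H L ⊆ U →
      cell ox oy D (i + 1, j) \ hls H L ⊆ U →
      Rung ι S ends (cell ox oy D (i, j) \ hls H L) (cell ox oy D (i + 1, j) \ hls H L) := by
    intro i j h1 h2
    obtain ⟨q, hq, _⟩ := one_hole (x := ox + D * i) (y := oy + D * j) (a := 2 * D) (b := D) hL hfar
      (le_refl _) (by omega)
    have e : cell ox oy D (i + 1, j) = rect (ox + D * i + D) (oy + D * j) D D := by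
      unfold cell
      simp only
      rw [mul_add, mul_one, ← add_assoc]
    have e0 : cell ox oy D (i, j) = rect (ox + D * i) (oy + D * j) D D := rfl
    have e1 : cell ox oy D (i, j) \ hls H L = rect (ox + D * i) (oy + D * j) D D \
        rect q.1 q.2 L L := by
      rw [e0]
      ext v
      constructor
      · rintro ⟨h3, h4⟩
        have h5 : v ∈ rect (ox + D * i) (oy + D * j) (2 * D) D \ hls H L := ⟨by
          rw [mem_rct] at h3 ⊢; omega, h4⟩
        rw [hq] at h5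
        exact ⟨h3, h5.2⟩
      · rintro ⟨h3, h4⟩
        have h5 : v ∈ rect (ox + D * i) (oy + D * j) (2 * D) D \ rect q.1 q.2 L L := ⟨by
          rw [mem_rct] at h3 ⊢; omega, h4⟩
        rw [← hq] at h5
        exact ⟨h3, h5.2⟩
    have e2 : cell ox oy D (i + 1, j) \ hls H L = rect (ox + D * i + D) (oy + D * j) D D \
        rect q.1 q.2 L L := by
      rw [e]
      ext v
      constructor
      · rintro ⟨h3, h4⟩
        have h5 : v ∈ rect (ox + D * i) (oy + D * j) (2 * D) D \ hls H L := ⟨by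
          rw [mem_rct] at h3 ⊢; omega, h4⟩
        rw [hq] at h5
        exact ⟨h3, h5.2⟩
      · rintro ⟨h3, h4⟩
        have h5 : v ∈ rect (ox + D * i) (oy + D * j) (2 * D) D \ rect q.1 q.2 L L := ⟨by
          rw [mem_rct] at h3 ⊢; omega, h4⟩
        rw [← hq] at h5
        exact ⟨h3, h5.2⟩
    rw [e1, e2]
    rw [e1] at h1
    rw [e2] at h2
    exact rung_right hP hι h1 h2
  have hup : ∀ i j : ℕ, cell ox oy D (i, j) \ hls H L ⊆ U →
      cell ox oy D (i, j + 1) \ hls H L ⊆ U →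
      Rung ι S ends (cell ox oy D (i, j) \ hls H L) (cell ox oy D (i, j + 1) \ hls H L) := by
    intro i j h1 h2
    obtain ⟨q, hq, _⟩ := one_hole (x := ox + D * i) (y := oy + D * j) (a := D) (b := 2 * D) hL hfar
      (by omega) (le_refl _)
    have e : cell ox oy D (i, j + 1) = rect (ox + D * i) (oy + D * j + D) D D := by
      unfold cell
      simp only
      rw [mul_add, mul_one, ← add_assoc]
    have e0 : cell ox oy D (i, j) = rect (ox + D * i) (oy + D * j) D D := rfl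
    have e1 : cell ox oy D (i, j) \ hls H L = rect (ox + D * i) (oy + D * j) D D \
        rect q.1 q.2 L L := by
      rw [e0]
      ext v
      constructor
      · rintro ⟨h3, h4⟩
        have h5 : v ∈ rect (ox + D * i) (oy + D * j) D (2 * D) \ hls H L := ⟨by
          rw [mem_rct] at h3 ⊢; omega, h4⟩
        rw [hq] at h5
        exact ⟨h3, h5.2⟩
      · rintro ⟨h3, h4⟩
        have h5 : v ∈ rect (ox + D * i) (oy + D * j) D (2 * D) \ rect q.1 q.2 L L := ⟨by
          rw [mem_rct] at h3 ⊢; omega, h4⟩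
        rw [← hq] at h5
        exact ⟨h3, h5.2⟩
    have e2 : cell ox oy D (i, j + 1) \ hls H L = rect (ox + D * i) (oy + D * j + D) D D \
        rect q.1 q.2 L L := by
      rw [e]
      ext v
      constructor
      · rintro ⟨h3, h4⟩
        have h5 : v ∈ rect (ox + D * i) (oy + D * j) D (2 * D) \ hls H L := ⟨by
          rw [mem_rct] at h3 ⊢; omega, h4⟩
        rw [hq] at h5
        exact ⟨h3, h5.2⟩
      · rintro ⟨h3, h4⟩
        have h5 : v ∈ rect (ox + D * i) (oy + D * j) D (2 * D) \ rect q.1 q.2 L L := ⟨by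
          rw [mem_rct] at h3 ⊢; omega, h4⟩
        rw [← hq] at h5
        exact ⟨h3, h5.2⟩
    rw [e1, e2]
    rw [e1] at h1
    rw [e2] at h2
    exact rung_up hP hι h1 h2
  obtain ⟨i, j⟩ := c
  obtain ⟨i', j'⟩ := c'
  unfold Adj at hcc
  simp only at hcc
  rcases hcc with ⟨rfl, rfl | rfl⟩ | ⟨rfl, rfl | rfl⟩
  · exact hup _ _ hU1 hU2
  · exact (hup _ _ hU2 hU1).symm
  · exact hright _ _ hU1 hU2
  · exact (hright _ _ hU2 hU1).symm

/-- A cell minus the holes is connected and contains a unit face. -/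
lemma cell_conn {H : Finset (ℕ × ℕ)} {L D ox oy : ℕ} (hL : 1 ≤ L)
    (hfar : ∀ q ∈ H, ∀ q' ∈ H, q ≠ q' → CWL.Far (2 * D) q L q' L) (hD : L + 3 ≤ D)
    (c : ℕ × ℕ) : Conn (cell ox oy D c \ hls H L) ∧ ∃ x y : ℕ,
      (x, y) ∈ cell ox oy D c \ hls H L ∧ (x + 1, y) ∈ cell ox oy D c \ hls H L ∧
      (x, y + 1) ∈ cell ox oy D c \ hls H L ∧ (x + 1, y + 1) ∈ cell ox oy D c \ hls H L := by
  obtain ⟨q, hq, _⟩ := one_hole (x := ox + D * c.1) (y := oy + D * c.2) (a := D) (b := D) hL hfar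
    (by omega) (by omega)
  have e : cell ox oy D c \ hls H L = rect (ox + D * c.1) (oy + D * c.2) D D \
      rect q.1 q.2 L L := hq
  rw [e]
  exact ⟨rect_sub_conn (by omega) (by omega), dent_face hD⟩

/-- **Assembly over cells.** -/
theorem asm_cells {k : ℕ} (hk : 1 ≤ k) {M : Matroid α} [M.Finite] (hB : Bic M S ends)
    {X : ℕ × ℕ} {n L D ox oy N : ℕ} {H : Finset (ℕ × ℕ)} (hL : 1 ≤ L)
    (hG : CWL.GrdU S ends (rect X.1 X.2 n n \ hls H L))
    (hfar : ∀ q ∈ H, ∀ q' ∈ H, q ≠ q' → CWL.Far (2 * D) q L q' L)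
    (hD : Fintype.card (Cond k) + L < D) (hD3 : L + 3 ≤ D)
    (hox : X.1 ≤ ox) (hoy : X.2 ≤ oy) (hNx : ox + D * N ≤ X.1 + n) (hNy : oy + D * N ≤ X.2 + n)
    (z : ℕ × ℕ → α) (hz : ∀ x < k, ∀ y < k, z (x, y) ∈ M.closure S ∧ z (x, y) ∉ S)
    (Q : ℕ × ℕ → Set (ℕ × ℕ)) (hQc : ∀ u ∈ colF k, Conn (Q u))
    (hQr : ∀ u ∈ colF k, ∀ c ∈ Q u, c.1 < N ∧ c.2 < N)
    (hQd : ∀ u ∈ colF k, ∀ u' ∈ colF k, u ≠ u' → Disjoint (Q u) (Q u'))
    (dk : PosG k → ℕ × ℕ) (hdk : ∀ p : PosG k, dk p ∈ Q (colN p.1))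
    (hdi : Function.Injective dk)
    (ray : PosG k → Set (ℕ × ℕ)) (b : PosG k → ℕ × ℕ)
    (hrA : ∀ p, ray p ⊆ rect X.1 X.2 n n \ hls H L) (hrC : ∀ p, Conn (ray p))
    (hra : ∀ p, ∃ a ∈ cell ox oy D (dk p) \ hls H L, ∃ a' ∈ ray p, Adj a a')
    (hrc : ∀ p, ∀ u ∈ colF k, ∀ c ∈ Q u, Disjoint (ray p) (cell ox oy D c))
    (hrd : ∀ p p', p ≠ p' → Disjoint (ray p) (ray p'))
    (Rest : Set (ℕ × ℕ)) (FR : Set α) (hR : FullB S ends Rest FR)
    (hRA : Rest ⊆ rect X.1 X.2 n n \ hls H L)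
    (hRc : ∀ u ∈ colF k, ∀ c ∈ Q u, Disjoint (cell ox oy D c) Rest)
    (hRr : ∀ p, Disjoint (ray p) Rest)
    (hLc : ∀ x < k, ∀ y < k, ∀ u ∈ colF k, ∀ c ∈ Q u,
      Disjoint (CWL.Loc M S ends (z (x, y))) (cell ox oy D c))
    (hLU : ∀ x < k, ∀ y < k, CWL.Loc M S ends (z (x, y)) ⊆ (⋃ p, ray p) ∪ Rest)
    (h1 : ∀ p : PosG k, CWL.Loc M S ends (z p.1.2) ∩ ray p = {b p})
    (h2 : ∀ p : PosG k, ∀ x < k, ∀ y < k, (x, y) ≠ p.1.2 →
      Disjoint (CWL.Loc M S ends (z (x, y))) (ray p)) :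
    HasUniformMinor M k := by
  classical
  set A : Set (ℕ × ℕ) := rect X.1 X.2 n n \ hls H L with hA
  have hP : Pres S ends A := fun p q hpq hp hq => hG.surj p q hpq hp hq
  have hAf : A.Finite := (rect_finite _ _ _ _).subset sdiff_subset
  have hcolN : ∀ p : PosG k, colN p.1 ∈ colF k := by
    rintro ⟨⟨t, x, y⟩, hp⟩
    have hp' := (Finset.mem_filter.1 hp).1
    have h4 := mem_posF.1 hp'
    rcases rel_cases hp' with ⟨h4, h5, _, _, d⟩ | ⟨_, _, _, d⟩ | ⟨_, _, _, _, d⟩ | ⟨_, _, _, d⟩ <;>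
      simp only <;> rw [d, mem_colF] <;> omega
  have hu0 : ((0, 0) : ℕ × ℕ) ∈ colF k := mem_colF.2 ⟨hk, by omega⟩
  have hDn : D ≤ n := by
    obtain ⟨c, hc⟩ := (hQc _ hu0).1
    have h3 := hQr _ hu0 c hc
    have h4 : D * 1 ≤ D * N := Nat.mul_le_mul_left _ (by omega)
    omega
  have hAconn : Conn A := grid_conn hL hfar (by omega) (by omega)
  have hcA : ∀ u ∈ colF k, ∀ c ∈ Q u, cell ox oy D c \ hls H L ⊆ A := by
    intro u hu c hc v hv
    have h3 := hQr u hu c hc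
    exact ⟨cell_subset hox hoy hNx hNy h3.1 h3.2 hv.1, hv.2⟩
  -- the clusters
  set W : ℕ × ℕ → Set (ℕ × ℕ) := fun c =>
    (cell ox oy D c \ hls H L) ∪ {v | ∃ p, dk p = c ∧ v ∈ ray p} with hWdef
  have hWcell : ∀ c, cell ox oy D c \ hls H L ⊆ W c := fun c => subset_union_left
  set Q' : ℕ × ℕ → Finset (ℕ × ℕ) := fun u =>
    ((Finset.range N) ×ˢ (Finset.range N)).filter (fun c => c ∈ Q u) with hQ'
  have hmem : ∀ u ∈ colF k, ∀ c, c ∈ Q' u ↔ c ∈ Q u := by
    intro u hu c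
    rw [hQ']
    simp only [Finset.mem_filter, Finset.mem_product, Finset.mem_range]
    exact ⟨fun h => h.2, fun h => ⟨hQr u hu c h, h⟩⟩
  refine asm (κ := ℕ × ℕ) hk hB hAf ?_ (hAconn.vconn hP (subset_refl _)) z hz Q' ?_ ?_ Adj ?_ W ?_
    ?_ ?_ ?_ Rest FR hR hRA ?_ dk ?_ b (fun u => CWL.Loc M S ends (z u)) ?_ ?_ ?_ ?_
  · intro e he v hv
    obtain ⟨p, q, h3, _, h4, h5⟩ := hG.mem e he
    rw [h3, Sym2.mem_iff] at hv
    rcases hv with rfl | rfl
    · exact h4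
    · exact h5
  · intro u hu
    obtain ⟨c, hc⟩ := (hQc u hu).1
    exact ⟨c, (hmem u hu c).2 hc⟩
  · intro u hu u' hu' hne
    rw [Finset.disjoint_left]
    intro c hc hc'
    exact Set.disjoint_left.1 (hQd u hu u' hu' hne) ((hmem u hu c).1 hc) ((hmem u' hu' c).1 hc')
  · intro u hu a ha c hc
    refine Relation.ReflTransGen.mono ?_ _ _
      ((hQc u hu).2 a ((hmem u hu a).1 ha) c ((hmem u hu c).1 hc))
    rintro x y ⟨h3, h4, h5⟩
    exact ⟨h3, (hmem u hu x).2 h4, (hmem u hu y).2 h5⟩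
  · intro u hu a ha c hc hac
    have h3 := (hmem u hu a).1 ha
    have h4 := (hmem u hu c).1 hc
    exact (cell_rung hP hL hfar hD hac (hcA u hu a h3) (hcA u hu c h4)).mono (hWcell a) (hWcell c)
  · intro c
    refine Set.Finite.union ((rect_finite _ _ _ _).subset sdiff_subset) (hAf.subset ?_)
    rintro v ⟨p, _, hv⟩
    exact hrA p hv
  · intro u hu c hc
    have h3 := (hmem u hu c).1 hc
    have hWA : W c ⊆ A := by
      rintro v (hv | ⟨p, _, hv⟩)
      · exact hcA u hu c h3 hv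
      · exact hrA p hv
    obtain ⟨h4, x, y, h5, h6, h7, h8⟩ := cell_conn (ox := ox) (oy := oy) hL hfar hD3 c
    refine ⟨hWA, Conn.vconn ?_ hP hWA,
      hasCyc_face hP hWA (Or.inl h5) (Or.inl h6) (Or.inl h7) (Or.inl h8)⟩
    by_cases hp : ∃ p, dk p = c
    · obtain ⟨p, rfl⟩ := hp
      have e : W (dk p) = (cell ox oy D (dk p) \ hls H L) ∪ ray p := by
        ext v
        constructor
        · rintro (hv | ⟨p', hp', hv⟩)
          · exact Or.inl hv
          · rw [hdi hp'] at hv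
            exact Or.inr hv
        · rintro (hv | hv)
          · exact Or.inl hv
          · exact Or.inr ⟨p, rfl, hv⟩
      obtain ⟨a, ha, a', ha', haa⟩ := hra p
      rw [e]
      exact h4.union_adj (hrC p) ha ha' haa
    · have e : W c = cell ox oy D c \ hls H L := by
        ext v
        constructor
        · rintro (hv | ⟨p', hp', hv⟩)
          · exact hv
          · exact absurd ⟨p', hp'⟩ hp
        · exact fun hv => Or.inl hv
      rw [e]
      exact h4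
  · intro u hu c hc u' hu' c' hc' hne
    have h3 := (hmem u hu c).1 hc
    have h4 := (hmem u' hu' c').1 hc'
    rw [Set.disjoint_left]
    rintro v (hv | ⟨p, hp, hv⟩) (hv' | ⟨p', hp', hv'⟩)
    · exact hne (cell_unique hv.1 hv'.1)
    · exact Set.disjoint_left.1 (hrc p' u hu c h3) hv' hv.1
    · exact Set.disjoint_left.1 (hrc p u' hu' c' h4) hv hv'.1
    · by_cases hpp : p = p'
      · rw [hpp, hp'] at hp
        exact hne hp.symm
      · exact Set.disjoint_left.1 (hrd p p' hpp) hv hv'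
  · intro u hu c hc
    have h3 := (hmem u hu c).1 hc
    rw [Set.disjoint_left]
    rintro v (hv | ⟨p, hp, hv⟩) hv'
    · exact Set.disjoint_left.1 (hRc u hu c h3) hv.1 hv'
    · exact Set.disjoint_left.1 (hRr p) hv hv'
  · intro p
    exact (hmem _ (hcolN p) _).2 (hdk p)
  · intro x hx y hy v _ hv
    by_contra hcon
    exact hv hcon
  · intro x hx y hy v hv
    rcases hLU x hx y hy hv with h | h
    · left
      obtain ⟨p, hp⟩ := mem_iUnion.1 h
      exact mem_iUnion₂.2 ⟨colN p.1, hcolN p, mem_iUnion₂.2 ⟨dk p,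
        (hmem _ (hcolN p) _).2 (hdk p), Or.inr ⟨p, rfl, hp⟩⟩⟩
    · exact Or.inr h
  · intro p
    have hp3 := mem_posF.1 (Finset.mem_filter.1 p.2).1
    have hbp : b p ∈ CWL.Loc M S ends (z p.1.2) ∩ ray p := by rw [h1 p]; rfl
    refine ⟨hbp.1, ?_⟩
    ext v
    constructor
    · rintro ⟨hv, hv' | ⟨p', hp', hv'⟩⟩
      · exact absurd hv'.1 (Set.disjoint_left.1 (hLc p.1.2.1 hp3.2.1 p.1.2.2 hp3.2.2.1 _ (hcolN p) _
          (hdk p)) hv)
      · rw [hdi hp'] at hv'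
        rw [← h1 p]
        exact ⟨hv, hv'⟩
    · rintro rfl
      exact ⟨hbp.1, Or.inr ⟨p, rfl, hbp.2⟩⟩
  · intro p x hx y hy hne
    rw [Set.disjoint_left]
    rintro v hv (hv' | ⟨p', hp', hv'⟩)
    · exact Set.disjoint_left.1 (hLc x hx y hy _ (hcolN p) _ (hdk p)) hv hv'.1
    · rw [hdi hp'] at hv'
      exact Set.disjoint_left.1 (h2 p x hx y hy hne) hv hv'

end Gad
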