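import Pool.Agent.CW.Defs
import Pool.Agent.GL.Asm2

/-!
# Planar geometry: rectangles minus one square hole, grids minus far apart square holes
-/

open Set
open scoped Matroid

namespace Gad

open BIC BICS

/-- Reachable inside `Q`. -/
def Rch (Q : Set (ℕ × ℕ)) (a b : ℕ × ℕ) : Prop :=
  Relation.ReflTransGen (fun x y => Adj x y ∧ x ∈ Q ∧ y ∈ Q) a b

lemma Rch.mono {Q R : Set (ℕ × ℕ)} (h : Q ⊆ R) {a b : ℕ × ℕ} (hab : Rch Q a b) : Rch R a b :=
  Conn.mono_step h hab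

lemma Rch.symm {Q : Set (ℕ × ℕ)} {a b : ℕ × ℕ} (h : Rch Q a b) : Rch Q b a := by
  induction h with
  | refl => exact Relation.ReflTransGen.refl
  | tail _ h2 ih => exact Relation.ReflTransGen.head ⟨h2.1.symm, h2.2.2, h2.2.1⟩ ih

lemma Rch.trans {Q : Set (ℕ × ℕ)} {a b c : ℕ × ℕ} (h : Rch Q a b) (h' : Rch Q b c) : Rch Q a c :=
  Relation.ReflTransGen.trans h h'

lemma rch_row_aux {Q : Set (ℕ × ℕ)} {x y : ℕ} : ∀ n, (∀ t, x ≤ t → t ≤ x + n → (t, y) ∈ Q) →
    Rch Q (x, y) (x + n, y) := by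
  intro n
  induction n with
  | zero => intro _; exact Relation.ReflTransGen.refl
  | succ n ih =>
    intro h
    refine (ih (fun t h1 h2 => h t h1 (by omega))).tail ⟨?_, h _ (by omega) (by omega),
      h _ (by omega) (by omega)⟩
    unfold Adj
    simp only [true_and]
    omega

lemma rch_col_aux {Q : Set (ℕ × ℕ)} {x y : ℕ} : ∀ n, (∀ t, y ≤ t → t ≤ y + n → (x, t) ∈ Q) →
    Rch Q (x, y) (x, y + n) := by
  intro n
  induction n with
  | zero => intro _; exact Relation.ReflTransGen.refl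
  | succ n ih =>
    intro h
    refine (ih (fun t h1 h2 => h t h1 (by omega))).tail ⟨?_, h _ (by omega) (by omega),
      h _ (by omega) (by omega)⟩
    unfold Adj
    simp only [true_and]
    omega

lemma rch_row {Q : Set (ℕ × ℕ)} {x x' y : ℕ}
    (h : ∀ t, min x x' ≤ t → t ≤ max x x' → (t, y) ∈ Q) : Rch Q (x, y) (x', y) := by
  rcases Nat.le_total x x' with hx | hx
  · obtain ⟨n, rfl⟩ := Nat.exists_eq_add_of_le hx
    exact rch_row_aux n (fun t h1 h2 => h t (by omega) (by omega))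
  · obtain ⟨n, rfl⟩ := Nat.exists_eq_add_of_le hx
    exact (rch_row_aux n (fun t h1 h2 => h t (by omega) (by omega))).symm

lemma rch_col {Q : Set (ℕ × ℕ)} {x y y' : ℕ}
    (h : ∀ t, min y y' ≤ t → t ≤ max y y' → (x, t) ∈ Q) : Rch Q (x, y) (x, y') := by
  rcases Nat.le_total y y' with hy | hy
  · obtain ⟨n, rfl⟩ := Nat.exists_eq_add_of_le hy
    exact rch_col_aux n (fun t h1 h2 => h t (by omega) (by omega))
  · obtain ⟨n, rfl⟩ := Nat.exists_eq_add_of_le hy
    exact (rch_col_aux n (fun t h1 h2 => h t (by omega) (by omega))).symm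

lemma mem_rect' {x y a b : ℕ} {v : ℕ × ℕ} : v ∈ rect x y a b ↔
    x ≤ v.1 ∧ v.1 < x + a ∧ y ≤ v.2 ∧ v.2 < y + b := Iff.rfl

/-- A rectangle minus one square hole is connected. -/
lemma rect_sub_conn {x y a b q1 q2 L : ℕ} (ha : L + 1 ≤ a) (hb : L + 1 ≤ b) :
    Conn (rect x y a b \ rect q1 q2 L L) := by
  set Q := rect x y a b \ rect q1 q2 L L with hQ
  have hmem : ∀ u v, (u, v) ∈ Q ↔ (x ≤ u ∧ u < x + a ∧ y ≤ v ∧ v < y + b) ∧
      ¬ (q1 ≤ u ∧ u < q1 + L ∧ q2 ≤ v ∧ v < q2 + L) := fun u v => Iff.rfl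
  obtain ⟨c, hc1, hc2, hc3⟩ : ∃ c, x ≤ c ∧ c < x + a ∧ ¬ (q1 ≤ c ∧ c < q1 + L) := by
    by_cases h : q1 ≤ x ∧ x < q1 + L
    · exact ⟨x + a - 1, by omega, by omega, by omega⟩
    · exact ⟨x, le_refl _, by omega, h⟩
  obtain ⟨r, hr1, hr2, hr3⟩ : ∃ r, y ≤ r ∧ r < y + b ∧ ¬ (q2 ≤ r ∧ r < q2 + L) := by
    by_cases h : q2 ≤ y ∧ y < q2 + L
    · exact ⟨y + b - 1, by omega, by omega, by omega⟩
    · exact ⟨y, le_refl _, by omega, h⟩
  have key : ∀ v ∈ Q, Rch Q v (c, r) := by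
    rintro ⟨u, v⟩ huv
    rw [hmem] at huv
    by_cases hv : q2 ≤ v ∧ v < q2 + L
    · -- the column of `u` is free
      have h1 : Rch Q (u, v) (u, r) := by
        refine rch_col (fun t h1 h2 => ?_)
        rw [hmem]
        omega
      have h2 : Rch Q (u, r) (c, r) := by
        refine rch_row (fun t h1 h2 => ?_)
        rw [hmem]
        omega
      exact h1.trans h2
    · have h1 : Rch Q (u, v) (c, v) := by
        refine rch_row (fun t h1 h2 => ?_)
        rw [hmem]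
        omega
      have h2 : Rch Q (c, v) (c, r) := by
        refine rch_col (fun t h1 h2 => ?_)
        rw [hmem]
        omega
      exact h1.trans h2
  refine ⟨⟨(c, r), by rw [hmem]; omega⟩, ?_⟩
  intro u hu v hv
  exact (key u hu).trans (key v hv).symm

/-- The union of the holes. -/
def hls (H : Finset (ℕ × ℕ)) (L : ℕ) : Set (ℕ × ℕ) := ⋃ q ∈ H, rect q.1 q.2 L L

/-- A rectangle meets at most one hole. -/
lemma one_hole {H : Finset (ℕ × ℕ)} {L δ x y a b : ℕ} (hL : 1 ≤ L)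
    (hfar : ∀ q ∈ H, ∀ q' ∈ H, q ≠ q' → CWL.Far δ q L q' L) (ha : a ≤ δ) (hb : b ≤ δ) :
    ∃ q : ℕ × ℕ, rect x y a b \ hls H L = rect x y a b \ rect q.1 q.2 L L ∧
      (q ∈ H ∨ Disjoint (rect x y a b) (hls H L)) := by
  by_cases h : ∃ q ∈ H, ∃ v, v ∈ rect x y a b ∧ v ∈ rect q.1 q.2 L L
  · obtain ⟨q, hq, v, hv1, hv2⟩ := h
    refine ⟨q, ?_, Or.inl hq⟩
    ext w
    constructor
    · rintro ⟨h1, h2⟩
      exact ⟨h1, fun h3 => h2 (mem_iUnion₂.2 ⟨q, hq, h3⟩)⟩
    · rintro ⟨h1, h2⟩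
      refine ⟨h1, fun h3 => ?_⟩
      obtain ⟨q', hq', h4⟩ := mem_iUnion₂.1 h3
      have hne : q ≠ q' := by
        rintro rfl; exact h2 h4
      have h5 := hfar q hq q' hq' hne
      unfold CWL.Far at h5
      rw [mem_rect'] at hv1 hv2 h1 h4
      omega
  · refine ⟨(x + a, y + b), ?_, Or.inr ?_⟩
    · ext w
      constructor
      · rintro ⟨h1, _⟩
        refine ⟨h1, fun h3 => ?_⟩
        rw [mem_rect'] at h1 h3
        simp only at h3
        omega
      · rintro ⟨h1, _⟩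
        refine ⟨h1, fun h3 => ?_⟩
        obtain ⟨q', hq', h4⟩ := mem_iUnion₂.1 h3
        exact h ⟨q', hq', w, h1, h4⟩
    · rw [Set.disjoint_left]
      intro w h1 h3
      obtain ⟨q', hq', h4⟩ := mem_iUnion₂.1 h3
      exact h ⟨q', hq', w, h1, h4⟩

lemma rect_sub_hls_conn {H : Finset (ℕ × ℕ)} {L δ x y a b : ℕ} (hL : 1 ≤ L)
    (hfar : ∀ q ∈ H, ∀ q' ∈ H, q ≠ q' → CWL.Far δ q L q' L) (ha : a ≤ δ) (hb : b ≤ δ)
    (ha' : L + 1 ≤ a) (hb' : L + 1 ≤ b) : Conn (rect x y a b \ hls H L) := by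
  obtain ⟨q, hq, _⟩ := one_hole (x := x) (y := y) hL hfar ha hb
  rw [hq]
  exact rect_sub_conn ha' hb'

/-- **The grid minus far apart square holes is connected.** -/
lemma grid_conn {H : Finset (ℕ × ℕ)} {L δ X Y n : ℕ} (hL : 1 ≤ L)
    (hfar : ∀ q ∈ H, ∀ q' ∈ H, q ≠ q' → CWL.Far δ q L q' L) (hδ : L + 2 ≤ δ) (hn : L + 2 ≤ n) :
    Conn (rect X Y n n \ hls H L) := by
  set Q := rect X Y n n \ hls H L with hQ
  set E := L + 2 with hE
  have hwin : ∀ a b, X ≤ a → a + E ≤ X + n → Y ≤ b → b + E ≤ Y + n →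
      Conn (rect a b E E \ hls H L) ∧ rect a b E E \ hls H L ⊆ Q := by
    intro a b h1 h2 h3 h4
    refine ⟨rect_sub_hls_conn hL hfar (by omega) (by omega) (by omega) (by omega), ?_⟩
    rintro v ⟨hv, hv'⟩
    refine ⟨?_, hv'⟩
    rw [mem_rect'] at hv ⊢
    omega
  -- overlapping windows
  have hov : ∀ a b, ∃ v, v ∈ rect a b E E \ hls H L ∧ v ∈ rect (a + 1) b E E \ hls H L := by
    intro a b
    obtain ⟨v, hv⟩ := (rect_sub_hls_conn (x := a + 1) (y := b) (a := L + 1) (b := E) hL hfar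
      (by omega) (by omega) (by omega) (by omega)).1
    refine ⟨v, ⟨?_, hv.2⟩, ⟨?_, hv.2⟩⟩
    · have := hv.1
      rw [mem_rect'] at this ⊢
      omega
    · have := hv.1
      rw [mem_rect'] at this ⊢
      omega
  have hov' : ∀ a b, ∃ v, v ∈ rect a b E E \ hls H L ∧ v ∈ rect a (b + 1) E E \ hls H L := by
    intro a b
    obtain ⟨v, hv⟩ := (rect_sub_hls_conn (x := a) (y := b + 1) (a := E) (b := L + 1) hL hfar
      (by omega) (by omega) (by omega) (by omega)).1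
    refine ⟨v, ⟨?_, hv.2⟩, ⟨?_, hv.2⟩⟩
    · have := hv.1
      rw [mem_rect'] at this ⊢
      omega
    · have := hv.1
      rw [mem_rect'] at this ⊢
      omega
  obtain ⟨v₀, hv₀⟩ := (hwin X Y (le_refl _) (by omega) (le_refl _) (by omega)).1.1
  have hrow : ∀ i, X + i + E ≤ X + n → ∀ v ∈ rect (X + i) Y E E \ hls H L, Rch Q v₀ v := by
    intro i
    induction i with
    | zero =>
      intro hi v hv
      have h1 := hwin X Y (le_refl _) (by omega) (le_refl _) (by omega)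
      exact Rch.mono h1.2 (h1.1.2 _ hv₀ _ hv)
    | succ i ih =>
      intro hi v hv
      obtain ⟨w, hw1, hw2⟩ := hov (X + i) Y
      have h1 := hwin (X + (i + 1)) Y (by omega) hi (le_refl _) (by omega)
      exact (ih (by omega) w hw1).trans (Rch.mono h1.2 (h1.1.2 _ hw2 _ hv))
  have hall : ∀ j, Y + j + E ≤ Y + n → ∀ i, X + i + E ≤ X + n →
      ∀ v ∈ rect (X + i) (Y + j) E E \ hls H L, Rch Q v₀ v := by
    intro j
    induction j with
    | zero => intro _ i hi; exact hrow i hi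
    | succ j ih =>
      intro hj i hi v hv
      obtain ⟨w, hw1, hw2⟩ := hov' (X + i) (Y + j)
      have h1 := hwin (X + i) (Y + (j + 1)) (by omega) hi (by omega) hj
      exact (ih (by omega) i hi w hw1).trans (Rch.mono h1.2 (h1.1.2 _ hw2 _ hv))
  have hreach : ∀ v ∈ Q, Rch Q v₀ v := by
    rintro v ⟨hv, hv'⟩
    rw [mem_rect'] at hv
    refine hall (min (v.2 - Y) (n - E)) (by omega) (min (v.1 - X) (n - E)) (by omega) v ⟨?_, hv'⟩
    rw [mem_rect']
    omega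
  refine ⟨⟨v₀, (hwin X Y (le_refl _) (by omega) (le_refl _) (by omega)).2 hv₀⟩, ?_⟩
  intro u hu v hv
  exact (hreach u hu).symm.trans (hreach v hv)

end Gad
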