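import Pool.Agent.Helper77.GL.FormA

/-!
# Gadget lemma, core: general clusters and private ports
-/

open Set
open scoped Matroid

namespace Gad

open BIC BIC.Net

variable {α V ι κ π : Type*}

/-- `Board.side` for arbitrary clusters and an arbitrary base `F₀`. -/
lemma sideG [Nonempty α] [Fintype κ] {M : Matroid α} {S : Set α} {ends : α → Sym2 V}
    {F₀ : Set α} (W : κ → Set V) (F P : κ → Set α) (hMg : ∀ u, Mg ι M S ends (W u) (F u) (P u))
    (hWd : ∀ u u', u ≠ u' → Disjoint (W u) (W u')) (hF1 : ∀ u, F u ⊆ F₀)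
    (hF2 : ∀ u, F₀ ∩ ins S ends (W u) ⊆ F u) (row : π → κ)
    (μ : ι → Set π) (xs : ι → π → α) (hxs : ∀ i, ∀ p ∈ μ i, xs i p ∈ P (row p))
    (hμ : ∀ i, InjOn row (μ i)) (R : ι → Set α) (hR : ∀ i, Disjoint (R i) S)
    (hbase : ∀ i, M.IsBase (R i ∪ (F₀ \ (xs i '' μ i)))) :
    ∃ (C : Set α) (ℓ : κ → α), (∀ u, ℓ u ∈ S ∧ ℓ u ∉ C) ∧ Function.Injective ℓ ∧
      ∀ i, M.IsBase (R i ∪ (C ∪ ℓ '' {u | u ∉ row '' μ i})) := by
  classical
  have hxF : ∀ i, ∀ p ∈ μ i, xs i p ∈ F (row p) := fun i p hp => (hMg _).2.1 (hxs i p hp)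
  have hFd : ∀ u u', u ≠ u' → ∀ x, x ∈ F u → x ∉ F u' := by
    intro u u' huu x hx hx'
    exact Set.disjoint_left.1 (ins_disj (S := S) (ends := ends) (hWd u u' huu))
      ((hMg u).1 hx) ((hMg u').1 hx')
  set U : ι → κ → Set α := fun i u => {x | ∃ p ∈ μ i, row p = u ∧ x = xs i p} with hU
  obtain ⟨τ, ℓ, h1, h2⟩ := merge_all (ι := ι) (M := M) (S := S) (ends := ends) W F P U
    Finset.univ (fun u _ => hMg u) (fun u _ u' _ huu => hWd u u' huu) (by
      rintro i u _ x ⟨p, hp, rfl, rfl⟩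
      exact hxs i p hp) (by
      rintro i u _ x ⟨p, hp, hpu, rfl⟩ y ⟨q, hq, hqu, rfl⟩
      rw [hμ i hp hq (hpu.trans hqu.symm)])
    (fun i => R i ∪ (F₀ \ ⋃ u, F u)) (by
      intro i u _
      refine Disjoint.union_left ((hR i).mono_right (fun e he => he.1)) ?_
      rw [Set.disjoint_left]
      rintro x ⟨hx0, hx⟩ hx'
      exact hx (mem_iUnion.2 ⟨u, hF2 u ⟨hx0, hx'⟩⟩)) (by
      intro i
      have e : R i ∪ (F₀ \ ⋃ u, F u) ∪ ⋃ u ∈ (Finset.univ : Finset κ),
          (F u \ U i u) = R i ∪ (F₀ \ (xs i '' μ i)) := by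
        rw [union_assoc]
        congr 1
        ext x
        simp only [mem_union, mem_sdiff, mem_iUnion, Finset.mem_univ, exists_const,
          not_exists]
        constructor
        · rintro (⟨hx, hx'⟩ | ⟨u, hx, hx'⟩)
          · refine ⟨hx, ?_⟩
            rintro ⟨p, hp, rfl⟩
            exact hx' _ (hxF i p hp)
          · refine ⟨hF1 u hx, ?_⟩
            rintro ⟨p, hp, rfl⟩
            by_cases hpu : row p = u
            · exact hx' ⟨p, hp, hpu, rfl⟩
            · exact hFd _ _ hpu _ (hxF i p hp) hx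
        · rintro ⟨hx, hx'⟩
          by_cases hxu : ∃ u, x ∈ F u
          · obtain ⟨u, hu⟩ := hxu
            right
            refine ⟨u, hu, ?_⟩
            rintro ⟨p, hp, _, rfl⟩
            exact hx' ⟨p, hp, rfl⟩
          · left
            exact ⟨hx, fun u hu => hxu ⟨u, hu⟩⟩
      rw [e]
      exact hbase i)
  refine ⟨(F₀ \ ⋃ u, F u) ∪ ⋃ u, τ u, ℓ, ?_, ?_, ?_⟩
  · intro u
    refine ⟨(h1 u (Finset.mem_univ _)).2.1.1, ?_⟩
    rintro (⟨h3, h3'⟩ | h3)
    · have h4 := (h1 u (Finset.mem_univ _)).2.1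
      exact h3' (mem_iUnion.2 ⟨u, hF2 u ⟨h3, h4⟩⟩)
    · obtain ⟨u', hu'⟩ := mem_iUnion.1 h3
      by_cases huu : u = u'
      · subst huu
        exact (h1 u (Finset.mem_univ _)).2.2 hu'
      · exact Set.disjoint_left.1 (ins_disj (S := S) (ends := ends) (hWd u u' huu))
          (h1 u (Finset.mem_univ _)).2.1 ((h1 u' (Finset.mem_univ _)).1 hu')
  · intro u u' huu
    by_contra hne
    have h3 := (h1 u (Finset.mem_univ _)).2.1
    rw [huu] at h3
    exact Set.disjoint_left.1 (ins_disj (S := S) (ends := ends) (hWd u u' hne))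
      h3 (h1 u' (Finset.mem_univ _)).2.1
  · intro i
    have h3 := h2 (fun i u => if (U i u).Nonempty then τ u else insert (ℓ u) (τ u)) (by
      intro i u _
      exact ⟨fun hh => if_pos hh, fun hh => if_neg hh⟩) i
    have e : R i ∪ (F₀ \ ⋃ u, F u) ∪ ⋃ u ∈ (Finset.univ : Finset κ),
        (if (U i u).Nonempty then τ u else insert (ℓ u) (τ u)) =
        R i ∪ (((F₀ \ ⋃ u, F u) ∪ ⋃ u, τ u) ∪ ℓ '' {u | u ∉ row '' μ i}) := by
      rw [union_assoc, union_assoc (F₀ \ _)]
      congr 2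
      ext x
      simp only [mem_union, mem_iUnion, Finset.mem_univ, exists_const, mem_image,
        mem_ofPred_eq, not_exists, not_and]
      constructor
      · rintro ⟨u, hu⟩
        split_ifs at hu with hne
        · left; exact ⟨u, hu⟩
        · rcases hu with rfl | hu
          · right
            refine ⟨u, ?_, rfl⟩
            intro p hp hpu
            exact hne ⟨xs i p, p, hp, hpu, rfl⟩
          · left; exact ⟨u, hu⟩
      · rintro (⟨u, hu⟩ | ⟨u, hu, rfl⟩)
        · refine ⟨u, ?_⟩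
          split_ifs
          · exact hu
          · exact Or.inr hu
        · refine ⟨u, ?_⟩
          rw [if_neg]
          · exact Or.inl rfl
          · rintro ⟨x, p, hp, hpu, rfl⟩
            exact hu p hp hpu
    rw [e] at h3
    exact h3

/-- **Gadget core.**  Trees `u ∈ colF k` (i.e. `u = (x, b)`, `x < k`, `b ≤ k`): disjoint mergeable
clusters `W u` of a bicircular structure, with bases `F u = F₀ ∩ ins S ends (W u)` and possible
ports `P u`.  Gadgets `z (x, y) ∉ S`, `x, y < k`; the gadget `(x, y)` has private ports in the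
trees `(x, y)` (position `(1, x, y)`), `(x + 1, y)` if `x + 1 < k` (position `(2, x, y)`) and
`(x, y + 1)` (position `(3, x, y)`). -/
theorem core {k : ℕ} (hk : 1 ≤ k) {M : Matroid α} [M.Finite] {S : Set α}
    {ends : α → Sym2 V} {F₀ : Set α} (hF₀ : M.IsBase F₀)
    (W : ℕ × ℕ → Set V) (F P : ℕ × ℕ → Set α)
    (hMg : ∀ u ∈ colF k, Mg (Cond k) M S ends (W u) (F u) (P u))
    (hW : ∀ u ∈ colF k, ∀ u' ∈ colF k, u ≠ u' → Disjoint (W u) (W u'))
    (hF1 : ∀ u ∈ colF k, F u ⊆ F₀) (hF2 : ∀ u ∈ colF k, F₀ ∩ ins S ends (W u) ⊆ F u)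
    (z : ℕ × ℕ → α) (hz : ∀ x < k, ∀ y < k, z (x, y) ∈ M.E ∧ z (x, y) ∉ S)
    (xp : PosG k → α) (hxP : ∀ p : PosG k, xp p ∈ P (colN p.1))
    (h1 : ∀ p : PosG k, z p.1.2 ∉ M.closure (F₀ \ {xp p}))
    (h2 : ∀ p : PosG k, ∀ x < k, ∀ y < k, (x, y) ≠ p.1.2 →
      z (x, y) ∈ M.closure (F₀ \ {xp p})) :
    HasUniformMinor M k := by
  classical
  have hmemG : ∀ p : PosG k, p.1 ∈ posF k ∧ p.1.1 ≠ 0 := fun p => Finset.mem_filter.1 p.2
  have hcol : ∀ p ∈ posF k, colN p ∈ colF k := by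
    rintro ⟨t, x, y⟩ hp
    have h3 := mem_posF.1 hp
    rcases rel_cases hp with ⟨h4, h5, _, _, d⟩ | ⟨_, _, _, d⟩ | ⟨_, _, _, _, d⟩ | ⟨_, _, _, d⟩ <;>
      rw [d, mem_colF] <;> omega
  -- the routings
  have hrt : ∀ i : Cond k, ∃ μ : Set (ℕ × ℕ × ℕ), μ ⊆ (posF k : Set (ℕ × ℕ × ℕ)) ∧
      InjOn rowN μ ∧ InjOn colN μ ∧ (∀ u ∈ rowF k, u ∈ rowN '' μ ↔ (u.1 = 0 → u.2 ∈ i.1.1)) ∧
      (∀ u ∈ colF k, u ∈ colN '' μ ↔ (u.2 = k → u.1 ∈ i.1.2)) := by
    intro i
    obtain ⟨h3, h4⟩ := Finset.mem_filter.1 i.2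
    obtain ⟨h5, h6⟩ := Finset.mem_product.1 h3
    rw [Finset.mem_powerset] at h5 h6
    exact exists_routing (fun y hy => Finset.mem_range.1 (h5 hy))
      (fun y hy => Finset.mem_range.1 (h6 hy)) h4
  choose μ₀ hμ1 hμ2 hμ3 hμ4 hμ5 using hrt
  set μ : Cond k → Set (PosG k) := fun i => {p | p.1 ∈ μ₀ i} with hμ
  have hμfin : ∀ i, (μ i).Finite := fun i => Set.toFinite _
  set row : PosG k → ↥(colF k) := fun p => ⟨colN p.1, hcol _ (hmemG p).1⟩ with hrow
  have hrow1 : ∀ p : PosG k, rowN p.1 = (p.1.2.1 + 1, p.1.2.2) := by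
    intro p
    obtain ⟨⟨t, x, y⟩, hp⟩ := p
    have h3 := (Finset.mem_filter.1 hp).2
    simp only at h3
    unfold rowN
    simp only [h3, if_false]
  set R : Set α := {e | ∃ x < k, ∃ y < k, e = z (x, y)} with hR
  have hRi : ∀ i, (fun p : PosG k => z p.1.2) '' (μ i) = R := by
    intro i
    apply Subset.antisymm
    · rintro _ ⟨p, _, rfl⟩
      have h3 := mem_posF.1 (hmemG p).1
      exact ⟨p.1.2.1, h3.2.1, p.1.2.2, h3.2.2.1, rfl⟩
    · rintro _ ⟨x, hx, y, hy, rfl⟩
      have h3 : ((x + 1, y) : ℕ × ℕ) ∈ rowN '' μ₀ i := by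
        rw [hμ4 i _ (mem_rowF.2 ⟨by omega, hy⟩)]
        simp
      obtain ⟨p, hp, hpe⟩ := h3
      have hp1 : p ∈ posF k := hμ1 i hp
      have hp0 : p.1 ≠ 0 := by
        intro h0
        unfold rowN at hpe
        rw [if_pos h0, Prod.mk.injEq] at hpe
        omega
      refine ⟨⟨p, Finset.mem_filter.2 ⟨hp1, hp0⟩⟩, hp, ?_⟩
      unfold rowN at hpe
      rw [if_neg hp0, Prod.mk.injEq] at hpe
      simp only
      congr 1
      exact Prod.ext (by simp only; omega) hpe.2
  have hbase : ∀ i, M.IsBase (R ∪ (F₀ \ (xp '' μ i))) := by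
    intro i
    have h3 := exch hF₀ (fun p : PosG k => z p.1.2) xp (hμfin i).toFinset
      (by
        intro p _
        have h3 := mem_posF.1 (hmemG p).1
        exact (hz _ h3.2.1 _ h3.2.2.1).1)
      (fun p _ => hF1 _ (row p).2 ((hMg _ (row p).2).2.1 (hxP p)))
      (fun p _ => h1 p)
      (by
        intro p hp p' hp' hne
        rw [Set.Finite.mem_toFinset] at hp hp'
        have h3 := mem_posF.1 (hmemG p').1
        refine h2 p _ h3.2.1 _ h3.2.2.1 ?_
        intro he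
        apply hne
        apply Subtype.ext
        apply hμ2 i hp hp'
        rw [hrow1, hrow1]
        have he' : p'.1.2 = p.1.2 := he
        rw [he'])
    rw [Set.Finite.coe_toFinset, hRi] at h3
    exact h3
  have hRS : Disjoint R S := by
    rw [Set.disjoint_left]
    rintro _ ⟨x, hx, y, hy, rfl⟩ h3
    exact (hz x hx y hy).2 h3
  have hne : Nonempty α := ⟨z (0, 0)⟩
  obtain ⟨C, ℓ, hℓ, hℓi, hfinal⟩ := sideG (F₀ := F₀) (fun u : ↥(colF k) => W u.1)
    (fun u => F u.1) (fun u => P u.1) (fun u => hMg u.1 u.2)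
    (fun u u' huu => hW u.1 u.2 u'.1 u'.2 (fun h => huu (Subtype.ext h)))
    (fun u => hF1 u.1 u.2) (fun u => hF2 u.1 u.2) row μ (fun _ => xp)
    (fun i p _ => hxP p)
    (by
      intro i p hp p' hp' he
      apply Subtype.ext
      apply hμ3 i hp hp'
      exact congrArg Subtype.val he)
    (fun _ => R) (fun _ => hRS) hbase
  -- the uncovered trees
  have hA : ∀ y < k, ((0, y) : ℕ × ℕ) ∈ colF k := fun y hy => mem_colF.2 ⟨hk, by omega⟩
  have hBm : ∀ x < k, ((x, k) : ℕ × ℕ) ∈ colF k := fun x hx => mem_colF.2 ⟨hx, le_refl _⟩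
  obtain ⟨a, ha⟩ : ∃ a : ℕ → α, ∀ y (hy : y < k), a y = ℓ ⟨(0, y), hA y hy⟩ := by
    refine ⟨fun y => if hy : y < k then ℓ ⟨(0, y), hA y hy⟩ else z (0, 0), ?_⟩
    intro y hy
    simp only [dif_pos hy]
  obtain ⟨b, hb'⟩ : ∃ b : ℕ → α, ∀ x (hx : x < k), b x = ℓ ⟨(x, k), hBm x hx⟩ := by
    refine ⟨fun x => if hx : x < k then ℓ ⟨(x, k), hBm x hx⟩ else z (0, 0), ?_⟩
    intro x hx
    simp only [dif_pos hx]
  have hunc : ∀ i : Cond k, ∀ u : ↥(colF k), u ∉ row '' μ i ↔
      ((u.1.2 = k ∧ u.1.1 ∉ i.1.2) ∨ (u.1.1 = 0 ∧ u.1.2 < k ∧ u.1.2 ∈ i.1.1)) := by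
    intro i u
    obtain ⟨⟨x, y⟩, hu⟩ := u
    have hu' := mem_colF.1 hu
    simp only
    have hsrc : ∀ y ∈ i.1.1, y < k → ((0, 0, y) : ℕ × ℕ × ℕ) ∈ μ₀ i := by
      intro y hy hyk
      have h3 : ((0, y) : ℕ × ℕ) ∈ rowN '' μ₀ i := by
        rw [hμ4 i _ (mem_rowF.2 ⟨by omega, hyk⟩)]
        exact fun _ => hy
      obtain ⟨⟨t, x', y'⟩, hp, hpe⟩ := h3
      have hp1 : (t, x', y') ∈ posF k := hμ1 i hp
      have h4 := mem_posF.1 hp1
      unfold rowN at hpe
      simp only at hpe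
      split_ifs at hpe with h5
      · rw [Prod.mk.injEq] at hpe
        obtain ⟨_, rfl⟩ := hpe
        have h6 := h4.2.2.2.1 h5
        subst h5
        subst h6
        exact hp
      · rw [Prod.mk.injEq] at hpe
        omega
    constructor
    · intro h3
      by_contra hcon
      push Not at hcon
      obtain ⟨h4, h5⟩ := hcon
      have h6 : ((x, y) : ℕ × ℕ) ∈ colN '' μ₀ i := by
        rw [hμ5 i _ hu]
        exact h4
      obtain ⟨p, hp, hpe⟩ := h6
      have hp1 : p ∈ posF k := hμ1 i hp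
      by_cases hp0 : p.1 = 0
      · obtain ⟨t, x', y'⟩ := p
        simp only at hp0
        subst hp0
        have h7 := mem_posF.1 hp1
        unfold colN at hpe
        simp only [if_true, Prod.mk.injEq] at hpe
        obtain ⟨h8, h9⟩ := hpe
        have h10 : ((0, y') : ℕ × ℕ) ∈ rowN '' μ₀ i := ⟨(0, x', y'), hp, by simp [rowN]⟩
        rw [hμ4 i _ (mem_rowF.2 ⟨by omega, h7.2.2.1⟩)] at h10
        have h11 := h10 rfl
        simp only at h11
        rw [h9] at h11
        exact h5 h8.symm (by omega) h11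
      · exact h3 ⟨⟨p, Finset.mem_filter.2 ⟨hp1, hp0⟩⟩, hp, Subtype.ext hpe⟩
    · rintro (⟨h3, h4⟩ | ⟨h3, h4, h5⟩) ⟨p, hp, hpe⟩
      · have h6 : ((x, y) : ℕ × ℕ) ∈ colN '' μ₀ i := ⟨p.1, hp, congrArg Subtype.val hpe⟩
        rw [hμ5 i _ hu] at h6
        exact h4 (h6 h3)
      · have h6 := hsrc y h5 h4
        have h7 : colN p.1 = (x, y) := congrArg Subtype.val hpe
        have h8 : colN (0, 0, y) = (x, y) := by
          unfold colN
          simp only [if_true, h3]
        have h9 := hμ3 i hp h6 (h7.trans h8.symm)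
        exact (hmemG p).2 (by rw [h9])
  -- the uniform minor
  refine uniform_minor k (R ∪ C) a b ?_ ?_ ?_ ?_ ?_ ?_
  · intro i hi j hj hij
    have hi' : i < k := hi
    have hj' : j < k := hj
    rw [ha i hi', ha j hj'] at hij
    have h3 := congrArg Subtype.val (hℓi hij)
    simp only [Prod.mk.injEq, true_and] at h3
    exact h3
  · intro i hi j hj hij
    have hi' : i < k := hi
    have hj' : j < k := hj
    rw [hb' i hi', hb' j hj'] at hij
    have h3 := congrArg Subtype.val (hℓi hij)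
    simp only [Prod.mk.injEq, and_true] at h3
    exact h3
  · intro i hi j hj hij
    rw [ha i hi, hb' j hj] at hij
    have h3 := congrArg Subtype.val (hℓi hij)
    simp only [Prod.mk.injEq] at h3
    omega
  · rintro i hi (h3 | h3)
    · rw [ha i hi] at h3
      exact Set.disjoint_left.1 hRS h3 (hℓ _).1
    · rw [ha i hi] at h3
      exact (hℓ _).2 h3
  · rintro i hi (h3 | h3)
    · rw [hb' i hi] at h3
      exact Set.disjoint_left.1 hRS h3 (hℓ _).1
    · rw [hb' i hi] at h3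
      exact (hℓ _).2 h3
  · intro I B hI hB hIB
    have hcond : (I, (Finset.range k) \ B) ∈ condF k := by
      refine Finset.mem_filter.2 ⟨Finset.mem_product.2 ⟨Finset.mem_powerset.2 ?_,
        Finset.mem_powerset.2 Finset.sdiff_subset⟩, ?_⟩
      · intro x hx
        exact Finset.mem_range.2 (hI x hx)
      · have hBs : B ⊆ Finset.range k := fun x hx => Finset.mem_range.2 (hB x hx)
        simp only
        rw [Finset.card_sdiff_of_subset hBs, Finset.card_range]
        omega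
    have h3 := hfinal ⟨_, hcond⟩
    have e : ℓ '' {u | u ∉ row '' μ ⟨(I, (Finset.range k) \ B), hcond⟩} =
        a '' (I : Set ℕ) ∪ b '' (B : Set ℕ) := by
      apply Subset.antisymm
      · rintro _ ⟨u, hu, rfl⟩
        have hu2 : u ∉ row '' μ ⟨(I, (Finset.range k) \ B), hcond⟩ := hu
        rw [hunc] at hu2
        obtain ⟨⟨x, y⟩, hux⟩ := u
        have hu' := mem_colF.1 hux
        simp only at hu2
        rcases hu2 with ⟨h4, h5⟩ | ⟨h4, h5, h6⟩
        · right
          subst h4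
          have h6 : x ∈ B := by
            by_contra h7
            exact h5 (Finset.mem_sdiff.2 ⟨Finset.mem_range.2 hu'.1, h7⟩)
          exact ⟨x, h6, hb' x hu'.1⟩
        · left
          subst h4
          exact ⟨y, h6, ha y h5⟩
      · rintro _ (⟨y, hy, rfl⟩ | ⟨x, hx, rfl⟩)
        · have hy' : y ∈ I := hy
          rw [ha y (hI y hy')]
          refine ⟨_, ?_, rfl⟩
          change _ ∉ row '' μ ⟨(I, (Finset.range k) \ B), hcond⟩
          rw [hunc]
          exact Or.inr ⟨rfl, hI y hy', hy'⟩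
        · have hx' : x ∈ B := hx
          rw [hb' x (hB x hx')]
          refine ⟨_, ?_, rfl⟩
          change _ ∉ row '' μ ⟨(I, (Finset.range k) \ B), hcond⟩
          rw [hunc]
          refine Or.inl ⟨rfl, ?_⟩
          simp only [Finset.mem_sdiff, not_and, not_not]
          exact fun _ => hx'
    rw [e, ← union_assoc] at h3
    exact h3

end Gad
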