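import Pool.Agent.GL.JGrid

/-!
# Theorem F+ (core)

`E = S ⊔ T`, `M` on `S` is a frame over a grid with a joint at every vertex (no condition on
gains), `M✶` on `T` is bicircular on a big grid, large connectivity: `U_{k,2k}`-minor.
-/

open Set
open scoped Matroid

namespace Gad

open BIC BIC.Net

variable {α : Type*}

/-- The `T`-side of Theorem A: merging and reading off the uniform minor. -/
lemma T_finish [Nonempty α] {k : ℕ} {M : Matroid α} [M.Finite] {S T : Set α}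
    (hST : Disjoint S T) (hE : M.E = S ∪ T) {V' : Type} {ends' : α → Sym2 V'} {ψ' : V' → α}
    {N' : ℕ} {Y₁ : Set α} {W'₂ : ℕ × ℕ → Set V'} {g₂ : α → ℕ × ℕ} {BY : ℕ → Set α}
    (hPT : PortSide (Cond k) M✶ T ends' ψ' N' Y₁ W'₂ g₂ (3 * k * k) BY) (hY₁fin : Y₁.Finite)
    (hF'T : range ψ' ⊆ T) (hY₁F' : Y₁ ⊆ range ψ') (hkN' : N' / 2 + k < N')
    (hBne' : ∀ a < 3 * k * k, (BY a).Nonempty)
    (μ : Cond k → Set (ℕ × ℕ × ℕ)) (hμP : ∀ i, μ i ⊆ (posF k : Set (ℕ × ℕ × ℕ)))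
    (hμc : ∀ i, InjOn colN (μ i))
    (hμrow : ∀ (i : Cond k), ∀ u ∈ rowF k, u ∈ rowN '' μ i ↔ (u.1 = 0 → u.2 ∈ i.1.1))
    (hμcol : ∀ (i : Cond k), ∀ u ∈ colF k, u ∈ colN '' μ i ↔ (u.2 = k → u.1 ∈ i.1.2))
    (ys : Cond k → ℕ × ℕ × ℕ → α) (hys : ∀ i, ∀ p ∈ μ i, ys i p ∈ BY (keyN k p))
    {C₁ : Set α} {ℓ₁ : ℕ × ℕ → α} (hC₁ : C₁ ⊆ S) (hℓ₁ : ∀ u ∈ rowF k, ℓ₁ u ∈ S ∧ ℓ₁ u ∉ C₁)
    (hℓ₁i : InjOn ℓ₁ (rowF k : Set (ℕ × ℕ)))
    (hm₁ : ∀ i, M.IsBase ((T \ range ψ') ∪ ys i '' μ i ∪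
      (C₁ ∪ ℓ₁ '' {u | u ∈ rowF k ∧ u ∉ rowN '' μ i}))) : HasUniformMinor M k := by
  classical
  have hkey : ∀ i, ∀ p ∈ μ i, keyN k p < 3 * k * k := fun i p hp => key_lt (hμP i hp)
  have hyF : ∀ i, ys i '' μ i ⊆ range ψ' := by
    rintro i _ ⟨p, hp, rfl⟩
    exact hY₁F' (hPT.sub _ (hkey i p hp) (hys i p hp))
  set L₁ : Cond k → Set α := fun i => C₁ ∪ ℓ₁ '' {u | u ∈ rowF k ∧ u ∉ rowN '' μ i} with hL₁
  have hL₁S : ∀ i, L₁ i ⊆ S := by
    intro i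
    refine union_subset hC₁ ?_
    rintro _ ⟨u, hu, rfl⟩
    exact (hℓ₁ u hu.1).1
  -- merging on the side of T
  obtain ⟨C₂, ℓ₂, hC₂, hℓ₂, hℓ₂i, hm₂⟩ := hPT.cols hY₁fin hkN' hBne' μ hμP hμc ys
    hys (fun i => S \ L₁ i)
    (by
      intro i
      exact hST.mono_left sdiff_subset)
    (by
      intro i
      have h1 := (hm₁ i).compl_isBase_dual
      have e : M.E \ (((T \ range ψ') ∪ ys i '' μ i) ∪ L₁ i) =
          (S \ L₁ i) ∪ (range ψ' \ ys i '' μ i) := by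
        ext z
        simp only [hE, mem_union, mem_sdiff]
        constructor
        · rintro ⟨h2 | h2, h3⟩
          · exact Or.inl ⟨h2, fun h4 => h3 (Or.inr h4)⟩
          · right
            refine ⟨?_, fun h4 => h3 (Or.inl (Or.inr h4))⟩
            by_contra h4
            exact h3 (Or.inl (Or.inl ⟨h2, h4⟩))
        · rintro (⟨h2, h3⟩ | ⟨h2, h3⟩)
          · refine ⟨Or.inl h2, ?_⟩
            rintro ((h4 | h4) | h4)
            · exact Set.disjoint_left.1 hST h2 h4.1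
            · exact Set.disjoint_left.1 hST h2 (hF'T (hyF i h4))
            · exact h3 h4
          · refine ⟨Or.inr (hF'T h2), ?_⟩
            rintro ((h4 | h4) | h4)
            · exact h4.2 h2
            · exact h3 h4
            · exact Set.disjoint_left.1 hST (hL₁S i h4) (hF'T h2)
      rw [← e]
      exact h1)
  -- final bases
  have hfinal : ∀ i, M.IsBase (L₁ i ∪ (T \ (C₂ ∪ ℓ₂ '' {u | u ∈ colF k ∧ u ∉ colN '' μ i}))) := by
    intro i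
    have h1 := (hm₂ i).compl_isBase_dual
    rw [Matroid.dual_dual, Matroid.dual_ground] at h1
    have hsubT : C₂ ∪ ℓ₂ '' {u | u ∈ colF k ∧ u ∉ colN '' μ i} ⊆ T := by
      refine union_subset hC₂ ?_
      rintro _ ⟨u, hu, rfl⟩
      exact (hℓ₂ u hu.1).1
    have e : M.E \ ((S \ L₁ i) ∪ (C₂ ∪ ℓ₂ '' {u | u ∈ colF k ∧ u ∉ colN '' μ i})) =
        L₁ i ∪ (T \ (C₂ ∪ ℓ₂ '' {u | u ∈ colF k ∧ u ∉ colN '' μ i})) := by
      ext z
      simp only [hE, mem_union, mem_sdiff] at hsubT ⊢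
      constructor
      · rintro ⟨h2 | h2, h3⟩
        · left
          by_contra h4
          exact h3 (Or.inl ⟨h2, h4⟩)
        · exact Or.inr ⟨h2, fun h4 => h3 (Or.inr h4)⟩
      · rintro (h2 | ⟨h2, h3⟩)
        · refine ⟨Or.inl (hL₁S i h2), ?_⟩
          rintro (h4 | h4)
          · exact h4.2 h2
          · exact Set.disjoint_left.1 hST (hL₁S i h2) (hsubT h4)
        · refine ⟨Or.inr h2, ?_⟩
          rintro (h4 | h4)
          · exact Set.disjoint_left.1 hST h4.1 h2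
          · exact h3 h4
    rw [e] at h1
    exact h1
  -- the two families
  refine uniform_minor k (C₁ ∪ (T \ (C₂ ∪ ℓ₂ '' {u | u ∈ colF k ∧ u.2 = k})))
    (fun y => ℓ₁ (0, y)) (fun x => ℓ₂ (x, k)) ?_ ?_ ?_ ?_ ?_ ?_
  · intro y hy y' hy' hyy
    have h1 := hℓ₁i (Finset.mem_coe.2 (mem_rowF.2 ⟨Nat.zero_le _, hy⟩))
      (Finset.mem_coe.2 (mem_rowF.2 ⟨Nat.zero_le _, hy'⟩)) hyy
    exact (Prod.mk.injEq _ _ _ _ ▸ h1).2
  · intro x hx x' hx' hxx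
    have h1 := hℓ₂i (Finset.mem_coe.2 (mem_colF.2 ⟨hx, le_refl k⟩))
      (Finset.mem_coe.2 (mem_colF.2 ⟨hx', le_refl k⟩)) hxx
    exact (Prod.mk.injEq _ _ _ _ ▸ h1).1
  · intro y hy x hx h1
    have h2 := (hℓ₁ (0, y) (mem_rowF.2 ⟨Nat.zero_le _, hy⟩)).1
    have h3 := (hℓ₂ (x, k) (mem_colF.2 ⟨hx, le_refl k⟩)).1
    rw [h1] at h2
    exact Set.disjoint_left.1 hST h2 h3
  · intro y hy h1
    have h2 := hℓ₁ (0, y) (mem_rowF.2 ⟨Nat.zero_le _, hy⟩)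
    rcases h1 with h1 | h1
    · exact h2.2 h1
    · exact Set.disjoint_left.1 hST h2.1 h1.1
  · intro x hx h1
    have h2 := hℓ₂ (x, k) (mem_colF.2 ⟨hx, le_refl k⟩)
    rcases h1 with h1 | h1
    · exact Set.disjoint_left.1 hST (hC₁ h1) h2.1
    · exact h1.2 (Or.inr ⟨(x, k), ⟨mem_colF.2 ⟨hx, le_refl k⟩, rfl⟩, rfl⟩)
  · intro I B hI hB hIB
    -- condition: A = complement of I
    have hAc : ((Finset.range k) \ I).card = B.card := by
      have h1 : I ⊆ Finset.range k := fun i hi => Finset.mem_range.2 (hI i hi)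
      rw [Finset.card_sdiff_of_subset h1, Finset.card_range]
      omega
    have hmem : (((Finset.range k) \ I, B) : Finset ℕ × Finset ℕ) ∈ condF k := by
      refine Finset.mem_filter.2 ⟨Finset.mem_product.2 ⟨?_, ?_⟩, hAc⟩
      · exact Finset.mem_powerset.2 Finset.sdiff_subset
      · exact Finset.mem_powerset.2 (fun i hi => Finset.mem_range.2 (hB i hi))
    have h1 := hfinal ⟨_, hmem⟩
    have hr := hμrow ⟨_, hmem⟩
    have hc := hμcol ⟨_, hmem⟩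
    simp only at hr hc
    have e : L₁ ⟨_, hmem⟩ ∪ (T \ (C₂ ∪ ℓ₂ '' {u | u ∈ colF k ∧ u ∉ colN '' μ ⟨_, hmem⟩})) =
        C₁ ∪ (T \ (C₂ ∪ ℓ₂ '' {u | u ∈ colF k ∧ u.2 = k})) ∪
        ((fun y => ℓ₁ (0, y)) '' (I : Set ℕ) ∪ (fun x => ℓ₂ (x, k)) '' (B : Set ℕ)) := by
      have e1 : ℓ₁ '' {u | u ∈ rowF k ∧ u ∉ rowN '' μ ⟨_, hmem⟩} =
          (fun y => ℓ₁ (0, y)) '' (I : Set ℕ) := by
        ext z
        constructor
        · rintro ⟨⟨x, y⟩, ⟨hu, hu'⟩, rfl⟩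
          rw [hr _ hu] at hu'
          simp only at hu'
          push Not at hu'
          obtain ⟨rfl, h3⟩ := hu'
          refine ⟨y, ?_, rfl⟩
          by_contra h4
          exact h3 (Finset.mem_sdiff.2 ⟨Finset.mem_range.2 (mem_rowF.1 hu).2, h4⟩)
        · rintro ⟨y, hy, rfl⟩
          have hu : ((0, y) : ℕ × ℕ) ∈ rowF k := mem_rowF.2 ⟨Nat.zero_le _, hI y hy⟩
          refine ⟨(0, y), ⟨hu, ?_⟩, rfl⟩
          rw [hr _ hu]
          intro h3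
          exact (Finset.mem_sdiff.1 (h3 rfl)).2 hy
      have e2 : T \ (C₂ ∪ ℓ₂ '' {u | u ∈ colF k ∧ u ∉ colN '' μ ⟨_, hmem⟩}) =
          (T \ (C₂ ∪ ℓ₂ '' {u | u ∈ colF k ∧ u.2 = k})) ∪
          (fun x => ℓ₂ (x, k)) '' (B : Set ℕ) := by
        ext z
        constructor
        · rintro ⟨hz, hz'⟩
          by_cases h3 : z ∈ ℓ₂ '' {u | u ∈ colF k ∧ u.2 = k}
          · right
            obtain ⟨⟨x, y⟩, ⟨hu, hu2⟩, rfl⟩ := h3
            simp only at hu2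
            subst hu2
            refine ⟨x, ?_, rfl⟩
            by_contra h4
            apply hz'
            right
            refine ⟨(x, y), ⟨hu, ?_⟩, rfl⟩
            rw [hc _ hu]
            intro h5
            exact h4 (h5 rfl)
          · left
            refine ⟨hz, ?_⟩
            rintro (h4 | h4)
            · exact hz' (Or.inl h4)
            · exact h3 h4
        · rintro (⟨hz, hz'⟩ | ⟨x, hx, rfl⟩)
          · refine ⟨hz, ?_⟩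
            rintro (h4 | ⟨⟨x, y⟩, ⟨hu, hu'⟩, rfl⟩)
            · exact hz' (Or.inl h4)
            · rw [hc _ hu] at hu'
              simp only at hu'
              push Not at hu'
              exact hz' (Or.inr ⟨(x, y), ⟨hu, hu'.1⟩, rfl⟩)
          · have hu : ((x, k) : ℕ × ℕ) ∈ colF k := mem_colF.2 ⟨hB x hx, le_refl k⟩
            have h5 := hℓ₂ (x, k) hu
            refine ⟨h5.1, ?_⟩
            rintro (h4 | ⟨u, ⟨hu1, hu1'⟩, huu⟩)
            · exact h5.2 h4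
            · have h6 := hℓ₂i (Finset.mem_coe.2 hu1) (Finset.mem_coe.2 hu) huu
              rw [h6] at hu1'
              rw [hc _ hu] at hu1'
              exact hu1' (fun _ => hx)
      rw [hL₁]
      simp only
      rw [e1, e2]
      ext z
      simp only [mem_union]
      tauto
    rw [e] at h1
    exact h1


namespace JGrid

variable {M : Matroid α} {S : Set α} {t : ℕ} {j : ℕ × ℕ → α} {ed : ℕ × ℕ → ℕ × ℕ → α}

lemma transpose_image : (fun c : ℕ × ℕ => j (c.2, c.1)) '' Cl t = j '' Cl t := by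
  ext x
  constructor
  · rintro ⟨⟨a, b⟩, h, rfl⟩
    exact ⟨(b, a), ⟨h.2, h.1⟩, rfl⟩
  · rintro ⟨⟨a, b⟩, h, rfl⟩
    exact ⟨(b, a), ⟨h.2, h.1⟩, rfl⟩

lemma reflectDepth_image : (fun c : ℕ × ℕ => j (c.1, t - 1 - c.2)) '' Cl t = j '' Cl t := by
  ext x
  constructor
  · rintro ⟨⟨a, b⟩, ⟨h1, h2⟩, rfl⟩
    simp only at h1 h2
    exact ⟨(a, t - 1 - b), ⟨h1, by simp only; omega⟩, rfl⟩
  · rintro ⟨⟨a, b⟩, ⟨h1, h2⟩, rfl⟩
    simp only at h1 h2
    refine ⟨(a, t - 1 - b), ⟨h1, by simp only; omega⟩, ?_⟩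
    simp only
    rw [show t - 1 - (t - 1 - b) = b by omega]

lemma good_row (h : JGrid M S t j ed) {X : Set α} (hfin : X.Finite) (f : α → ℕ × ℕ)
    (hf : ∀ x ∈ X, f x ∈ Cl t ∧ j (f x) = x) {q : ℕ}
    (hq : 2 * q ≤ ((fun x => (f x).1) '' X).ncard) :
    ∃ (j' : ℕ × ℕ → α) (ed' : ℕ × ℕ → ℕ × ℕ → α) (X' : Set α) (f' : α → ℕ × ℕ),
      JGrid M S t j' ed' ∧ j' '' Cl t = j '' Cl t ∧ X' ⊆ X ∧ q ≤ X'.ncard ∧
      (∀ x ∈ X', f' x ∈ Cl t ∧ j' (f' x) = x ∧ (f' x).2 ≤ t / 2) ∧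
      InjOn (fun x => (f' x).1) X' := by
  obtain ⟨X₁, hX₁, hbij⟩ := Set.exists_subset_bijOn X (fun x => (f x).1)
  have hX₁f : X₁.Finite := hfin.subset hX₁
  have hc : 2 * q ≤ X₁.ncard := by
    rw [← hbij.image_eq, hbij.injOn.ncard_image] at hq
    exact hq
  set A : Set α := {x | x ∈ X₁ ∧ (f x).2 ≤ t / 2} with hA
  set B : Set α := {x | x ∈ X₁ ∧ t / 2 < (f x).2} with hB
  have hAB : X₁ ⊆ A ∪ B := by
    intro x hx
    rcases Nat.lt_or_ge (t / 2) (f x).2 with h1 | h1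
    · exact Or.inr ⟨hx, h1⟩
    · exact Or.inl ⟨hx, h1⟩
  have hAs : A ⊆ X₁ := fun x hx => hx.1
  have hBs : B ⊆ X₁ := fun x hx => hx.1
  have hcard : X₁.ncard ≤ A.ncard + B.ncard :=
    (Set.ncard_le_ncard hAB ((hX₁f.subset hAs).union (hX₁f.subset hBs))).trans
      (Set.ncard_union_le _ _)
  rcases Nat.lt_or_ge A.ncard q with h1 | h1
  · refine ⟨_, _, B, fun x => ((f x).1, t - 1 - (f x).2), h.reflectDepth, reflectDepth_image,
      hBs.trans hX₁, by omega, ?_, hbij.injOn.mono hBs⟩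
    intro x hx
    obtain ⟨⟨h2, h3⟩, h4⟩ := hf x (hX₁ hx.1)
    have h5 := hx.2
    refine ⟨⟨h2, by simp only; omega⟩, ?_, by simp only; omega⟩
    simp only
    rw [show t - 1 - (t - 1 - (f x).2) = (f x).2 by omega]
    exact h4
  · refine ⟨j, ed, A, f, h, rfl, hAs.trans hX₁, h1, ?_, hbij.injOn.mono hAs⟩
    intro x hx
    obtain ⟨h2, h3⟩ := hf x (hX₁ hx.1)
    exact ⟨h2, h3, hx.2⟩

lemma good_view (h : JGrid M S t j ed) {X : Set α} (hfin : X.Finite) (hX : X ⊆ j '' Cl t)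
    {q : ℕ} (hq : (2 * q) ^ 2 ≤ X.ncard) :
    ∃ (j' : ℕ × ℕ → α) (ed' : ℕ × ℕ → ℕ × ℕ → α) (X' : Set α) (f' : α → ℕ × ℕ),
      JGrid M S t j' ed' ∧ j' '' Cl t = j '' Cl t ∧ X' ⊆ X ∧ q ≤ X'.ncard ∧
      (∀ x ∈ X', f' x ∈ Cl t ∧ j' (f' x) = x ∧ (f' x).2 ≤ t / 2) ∧
      InjOn (fun x => (f' x).1) X' := by
  have hex : ∀ x ∈ X, ∃ c, c ∈ Cl t ∧ j c = x := fun x hx => by
    obtain ⟨c, hc, hcx⟩ := hX hx
    exact ⟨c, hc, hcx⟩
  choose! f hf using hex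
  have hinj : InjOn f X := by
    intro x hx y hy hxy
    rw [← (hf x hx).2, ← (hf y hy).2, hxy]
  by_cases h1 : 2 * q ≤ ((fun x => (f x).1) '' X).ncard
  · exact h.good_row hfin f hf h1
  · obtain ⟨j', ed', X', f', a1, a2, a3, a4, a5, a6⟩ := h.transpose.good_row hfin
      (fun x => ((f x).2, (f x).1)) (q := q) (by
        intro x hx
        obtain ⟨⟨h2, h3⟩, h4⟩ := hf x hx
        exact ⟨⟨h3, h2⟩, h4⟩) (by
        by_contra h2
        push Not at h1 h2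
        simp only at h2
        have h3 : X.ncard ≤ (((fun x => (f x).1) '' X) ×ˢ ((fun x => (f x).2) '' X)).ncard := by
          refine Set.ncard_le_ncard_of_injOn f ?_ hinj ((hfin.image _).prod (hfin.image _))
          intro x hx
          exact ⟨⟨x, hx, rfl⟩, ⟨x, hx, rfl⟩⟩
        rw [Set.ncard_prod] at h3
        have h4 : ((fun x => (f x).1) '' X).ncard * ((fun x => (f x).2) '' X).ncard <
            (2 * q) * (2 * q) := Nat.mul_lt_mul'' h1 h2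
        rw [pow_two] at hq
        omega)
    exact ⟨j', ed', X', f', a1, a2.trans transpose_image, a3, a4, a5, a6⟩

end JGrid

/-- The combs for given blocks of leaves. -/
lemma exists_combs {k t : ℕ} (hkt : t / 2 + 1 + k < t) {X : Set α} {f : α → ℕ × ℕ}
    (hf : ∀ x ∈ X, f x ∈ Cl t ∧ (f x).2 ≤ t / 2) (hinj : InjOn (fun x => (f x).1) X)
    {B : ℕ → Set α} (hBf : ∀ i < 3 * k * k, (B i).Finite) (hBX : ∀ i < 3 * k * k, B i ⊆ X)
    (hne : ∀ i < 3 * k * k, (B i).Nonempty)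
    (hinc : ∀ i i', i < i' → i' < 3 * k * k → ∀ x ∈ B i, ∀ x' ∈ B i', (f x).1 < (f x').1)
    (row : ↥(posF k) → ↥(rowF k)) (hrow : ∀ p, (row p).1 = rowN p.1) :
    ∃ K : ↥(rowF k) → Comb, (∀ u, (K u).Ok t) ∧
      (∀ u u', u ≠ u' → Disjoint (K u).cells (K u').cells) ∧
      (∀ p : ↥(posF k), ∀ v ∈ B (keyN k p.1), ((f v).1, (f v).2 + 1) ∈ (K (row p)).cells) ∧
      (∀ v ∈ X, ∀ u, f v ∉ (K u).cells) := by
  classical
  have hkp : ∀ p : ↥(posF k), keyN k p.1 < 3 * k * k := fun p => key_lt p.2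
  obtain ⟨Bl, hBl⟩ : ∃ Bl : ↥(posF k) → Finset ℕ,
      ∀ p l, l ∈ Bl p ↔ ∃ x ∈ B (keyN k p.1), (f x).1 = l := by
    refine ⟨fun p => ((hBf _ (hkp p)).image (fun x => (f x).1)).toFinset, ?_⟩
    intro p l
    rw [Set.Finite.mem_toFinset]
    rfl
  obtain ⟨pd, hpd⟩ : ∃ pd : ℕ → ℕ, ∀ x ∈ X, pd (f x).1 = (f x).2 := by
    refine ⟨fun l => if hl : ∃ x ∈ X, (f x).1 = l then (f hl.choose).2 else 0, ?_⟩
    intro x hx
    have hl : ∃ x' ∈ X, (f x').1 = (f x).1 := ⟨x, hx, rfl⟩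
    simp only [dif_pos hl]
    rw [hinj hl.choose_spec.1 hx hl.choose_spec.2]
  obtain ⟨A, hmemA⟩ : ∃ A : ↥(rowF k) → Finset ℕ, ∀ u l, l ∈ A u ↔ ∃ p, row p = u ∧ l ∈ Bl p := by
    refine ⟨fun u => (Finset.univ.filter fun p => row p = u).biUnion Bl, ?_⟩
    intro u l
    simp
  have hsurj : ∀ u : ↥(rowF k), ∃ p, row p = u := by
    rintro ⟨⟨x, y⟩, hu⟩
    have hu' := mem_rowF.1 hu
    rcases Nat.eq_zero_or_pos x with hx | hx
    · subst hx
      refine ⟨⟨(0, 0, y), mem_posF.2 ⟨by omega, by omega, hu'.2, by omega, by omega⟩⟩, ?_⟩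
      apply Subtype.ext
      rw [hrow]
      simp [rowN]
    · refine ⟨⟨(1, x - 1, y), mem_posF.2 ⟨by omega, by omega, hu'.2, by omega, by omega⟩⟩, ?_⟩
      apply Subtype.ext
      rw [hrow]
      simp only [rowN]
      rw [if_neg (by omega), show x - 1 + 1 = x by omega]
  have hnest : ∀ p₁ p p₂ : ↥(posF k), keyN k p₁.1 ≤ keyN k p.1 → keyN k p.1 ≤ keyN k p₂.1 →
      row p₁ = row p₂ → row p ≠ row p₁ → depR k (row p).1 < depR k (row p₁).1 := by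
    intro p₁ p p₂ hk₁ hk₂ hr hne'
    rw [hrow, hrow]
    refine nest_row p₁.2 p.2 p₂.2 hk₁ hk₂ ?_ ?_
    · rw [← hrow, ← hrow, hr]
    · intro hh
      apply hne'
      apply Subtype.ext
      rw [hrow, hrow]
      exact hh
  have hincl : ∀ p p' : ↥(posF k), keyN k p.1 < keyN k p'.1 → ∀ a ∈ Bl p, ∀ b ∈ Bl p', a < b := by
    intro p p' hpp a ha b hb
    obtain ⟨x, hx, rfl⟩ := (hBl _ _).1 ha
    obtain ⟨x', hx', rfl⟩ := (hBl _ _).1 hb
    exact hinc _ _ hpp (hkp p') x hx x' hx'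
  have hAne : ∀ u, (A u).Nonempty := by
    intro u
    obtain ⟨p, hp⟩ := hsurj u
    obtain ⟨x, hx⟩ := hne _ (hkp p)
    exact ⟨(f x).1, (hmemA u _).2 ⟨p, hp, (hBl _ _).2 ⟨x, hx, rfl⟩⟩⟩
  obtain ⟨l₁, hl₁m, hl₁le⟩ : ∃ l₁ : ↥(rowF k) → ℕ, (∀ u, l₁ u ∈ A u) ∧ ∀ u, ∀ l ∈ A u, l₁ u ≤ l :=
    ⟨fun u => (A u).min' (hAne u), fun u => Finset.min'_mem _ _,
      fun u l hl => Finset.min'_le _ _ hl⟩
  obtain ⟨l₂, hl₂m, hl₂le⟩ : ∃ l₂ : ↥(rowF k) → ℕ, (∀ u, l₂ u ∈ A u) ∧ ∀ u, ∀ l ∈ A u, l ≤ l₂ u :=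
    ⟨fun u => (A u).max' (hAne u), fun u => Finset.max'_mem _ _,
      fun u l hl => Finset.le_max' _ _ hl⟩
  have hAx : ∀ u, ∀ l ∈ A u, ∃ p, row p = u ∧ ∃ x ∈ B (keyN k p.1), (f x).1 = l := by
    intro u l hl
    obtain ⟨p, hp, hlp⟩ := (hmemA _ _).1 hl
    exact ⟨p, hp, (hBl _ _).1 hlp⟩
  have hbet : ∀ u u', u ≠ u' → ∀ l ∈ A u', l₁ u ≤ l → l ≤ l₂ u →
      depR k u'.1 < depR k u.1 := by
    intro u u' huu l hl h1 h2
    obtain ⟨p, hp, hlp⟩ := (hmemA _ _).1 hl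
    obtain ⟨p₁, hp₁, hlp₁⟩ := (hmemA _ _).1 (hl₁m u)
    obtain ⟨p₂, hp₂, hlp₂⟩ := (hmemA _ _).1 (hl₂m u)
    have h3 : keyN k p₁.1 ≤ keyN k p.1 := by
      by_contra hcon
      have := hincl p p₁ (by omega) l hlp _ hlp₁
      omega
    have h4 : keyN k p.1 ≤ keyN k p₂.1 := by
      by_contra hcon
      have := hincl p₂ p (by omega) _ hlp₂ l hlp
      omega
    have := hnest p₁ p p₂ h3 h4 (by rw [hp₁, hp₂]) (by rw [hp, hp₁]; exact huu.symm)
    rwa [hp, hp₁] at this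
  have hdisA : ∀ u u', u ≠ u' → ∀ l ∈ A u, l ∉ A u' := by
    intro u u' huu l hl hl'
    obtain ⟨p, hp, hlp⟩ := (hmemA _ _).1 hl
    obtain ⟨p', hp', hlp'⟩ := (hmemA _ _).1 hl'
    have hpp : p ≠ p' := by
      rintro rfl
      exact huu (hp.symm.trans hp')
    rcases Nat.lt_or_gt_of_ne (fun hh => hpp (Subtype.ext (key_inj p.2 p'.2 hh))) with h5 | h5
    · have := hincl p p' h5 _ hlp _ hlp'
      omega
    · have := hincl p' p h5 _ hlp' _ hlp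
      omega
  refine ⟨fun u => ⟨A u, l₁ u, l₂ u, t / 2 + 1 + depR k u.1, pd⟩, ?_, ?_, ?_, ?_⟩
  · intro u
    refine ⟨hl₁le u _ (hl₂m u), ?_, ?_, ?_⟩
    · obtain ⟨p, _, x, hx, hxl⟩ := hAx u _ (hl₂m u)
      have := (hf x (hBX _ (hkp p) hx)).1.1
      simp only
      omega
    · have := depR_le k u.1
      simp only
      omega
    · intro l hl
      simp only at hl ⊢
      refine ⟨hl₁le u l hl, hl₂le u l hl, ?_⟩
      obtain ⟨p, _, x, hx, rfl⟩ := hAx u _ hl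
      have h6 := hBX _ (hkp p) hx
      rw [hpd x h6]
      have := (hf x h6).2
      omega
  · intro u u' huu
    rw [Set.disjoint_left]
    rintro ⟨l, d⟩ hc hc'
    unfold Comb.cells at hc hc'
    simp only [mem_ofPred_eq] at hc hc'
    rcases hc with ⟨h1, h2, h3⟩ | ⟨ha, h1, h2⟩ <;>
      rcases hc' with ⟨h1', h2', h3'⟩ | ⟨ha', h1', h2'⟩
    · rcases Nat.le_total (l₁ u) (l₁ u') with h4 | h4
      · have := hbet u u' huu _ (hl₁m u') h4 (by omega)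
        omega
      · have := hbet u' u huu.symm _ (hl₁m u) h4 (by omega)
        omega
    · have := hbet u u' huu _ ha' h2 h3
      omega
    · have := hbet u' u huu.symm _ ha h2' h3'
      omega
    · exact hdisA u u' huu l ha ha'
  · intro p v hv
    have hvX := hBX _ (hkp p) hv
    refine Or.inr ⟨(hmemA _ _).2 ⟨p, rfl, (hBl _ _).2 ⟨v, hv, rfl⟩⟩, ?_, ?_⟩
    · simp only
      rw [hpd v hvX]
      omega
    · have := (hf v hvX).2
      simp only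
      omega
  · rintro v hv u (⟨h1, _, _⟩ | ⟨_, h1, _⟩)
    · have := (hf v hv).2
      simp only at h1
      omega
    · simp only at h1
      rw [hpd v hv] at h1
      exact lt_irrefl _ h1

end Gad
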