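import Pool.Agent.GL.MixH

/-!
# Gadget lemma, form A over a grid with holes: one foot at each of three holes
-/

open Set
open scoped Matroid

namespace Gad

open BIC BIC.Net BICS

universe u

variable {α : Type*} {S : Set α} {ends : α → Sym2 (ℕ × ℕ)}

lemma colN_mem {k : ℕ} (p : PosG k) : colN p.1 ∈ colF k := by
  obtain ⟨⟨t, x, y⟩, hp⟩ := p
  have hp' := (Finset.mem_filter.1 hp).1
  have ht0 := (Finset.mem_filter.1 hp).2
  have h4 := mem_posF.1 hp'
  rcases rel_cases hp' with ⟨h5, _⟩ | ⟨rfl, _, _, d⟩ | ⟨rfl, hx1, _, _, d⟩ | ⟨rfl, _, _, d⟩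
  · exact absurd h5 ht0
  · rw [d, mem_colF]; omega
  · rw [d, mem_colF]; omega
  · rw [d, mem_colF]; omega

/-- The part of the cell to the left of the hole. -/
def lft (D ox oy : ℕ) (q c : ℕ × ℕ) : Set (ℕ × ℕ) :=
  rect (ox + D * c.1) (oy + D * c.2) (q.1 - (ox + D * c.1)) D

section

variable {H : Finset (ℕ × ℕ)} {L D ox oy : ℕ} {q c : ℕ × ℕ}

lemma Term.lft_cell (hT : Term H L D ox oy q c) : lft D ox oy q c ⊆ cell ox oy D c := by
  have h7 := hT.x1
  have h8 := hT.x2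
  intro v hv
  unfold lft at hv
  rw [mem_rct] at hv
  rw [mem_cell]
  omega

lemma Term.lft_hls (hT : Term H L D ox oy q c)
    (hfar : ∀ q ∈ H, ∀ q' ∈ H, q ≠ q' → CWL.Far (2 * D) q L q' L) {v : ℕ × ℕ}
    (hv : v ∈ lft D ox oy q c) : v ∉ hls H L := by
  have h1 := hT.lft_cell hv
  have h7 := hT.x1
  have h8 := hT.x2
  rw [mem_cell] at h1
  unfold lft at hv
  rw [mem_rct] at hv
  refine hT.not_hls hfar (by omega) (by omega) (by omega) (by omega) (fun h => ?_)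
  rw [mem_rct] at h
  omega

lemma Term.ft_lft (hT : Term H L D ox oy q c) {a : ℕ} (ha : a < L) :
    ft L q a false ∈ lft D ox oy q c := by
  have h7 := hT.x1
  have h8 := hT.x2
  have h9 := hT.y1
  have h10 := hT.y2
  unfold lft
  rw [mem_rct, ft_fst, ft_snd]
  simp only [Bool.false_eq_true, if_false]
  omega

lemma Term.lft_full {U : Set (ℕ × ℕ)} (hP : Pres S ends U) (hT : Term H L D ox oy q c)
    (hfar : ∀ q ∈ H, ∀ q' ∈ H, q ≠ q' → CWL.Far (2 * D) q L q' L)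
    (hU : cell ox oy D c \ hls H L ⊆ U) : ∃ F, FullB S ends (lft D ox oy q c) F := by
  have h7 := hT.x1
  have h8 := hT.x2
  refine rect_full hP (by omega) (by omega) (fun v hv => hU ⟨hT.lft_cell hv, ?_⟩)
  exact hT.lft_hls hfar hv

end

/-- The core of form A. -/
theorem far_core {k : ℕ} (hk : 1 ≤ k) {M : Matroid α} [M.Finite] (hB : Bic M S ends)
    {X : ℕ × ℕ} {n L D ox oy N : ℕ} {H : Finset (ℕ × ℕ)} (hL : 1 ≤ L)
    (hG : CWL.GrdU S ends (rect X.1 X.2 n n \ hls H L))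
    (hfar : ∀ q ∈ H, ∀ q' ∈ H, q ≠ q' → CWL.Far (2 * D) q L q' L)
    (hD : Fintype.card (Cond k) + L < D) (hD3 : L + 3 ≤ D)
    (hox : X.1 ≤ ox) (hoy : X.2 ≤ oy) (hNx : ox + D * N ≤ X.1 + n) (hNy : oy + D * N ≤ X.2 + n)
    (hN : 2 * ht ((k + 1) * k) (3 * k * k) ≤ N)
    (z : ℕ × ℕ → α) (hz : ∀ x < k, ∀ y < k, z (x, y) ∈ M.closure S ∧ z (x, y) ∉ S)
    (q c : ℕ → ℕ → ℕ → ℕ × ℕ)
    (hT : ∀ i < 3, ∀ x < k, ∀ y < k, Term H L D ox oy (q i x y) (c i x y))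
    (hm : ∀ i < 3, ∀ x < k, ∀ y < k, DC k ≤ (c i x y).1 ∧ DC k ≤ (c i x y).2 ∧
      (c i x y).1 + DC k ≤ N ∧ (c i x y).2 + DC k ≤ N)
    (hcf : ∀ i < 3, ∀ x < k, ∀ y < k, ∀ i' < 3, ∀ x' < k, ∀ y' < k, (i, x, y) ≠ (i', x', y') →
      (c i x y).1 + DC k ≤ (c i' x' y').1 ∨ (c i' x' y').1 + DC k ≤ (c i x y).1 ∨
      (c i x y).2 + DC k ≤ (c i' x' y').2 ∨ (c i' x' y').2 + DC k ≤ (c i x y).2)
    (h : ℕ → ℕ → ℕ → ℕ) (hh : ∀ i < 3, ∀ x < k, ∀ y < k, h i x y < L)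
    (hLoc : ∀ x < k, ∀ y < k, CWL.Loc M S ends (z (x, y)) =
      {v | ∃ i < 3, v = ft L (q i x y) (h i x y) false}) :
    HasUniformMinor M k := by
  classical
  have hDC : 3 ≤ DC k := by
    unfold DC far
    omega
  have hP : Pres S ends (rect X.1 X.2 n n \ hls H L) :=
    fun p q hpq hp hq => hG.surj p q hpq hp hq
  have hpos : ∀ p : PosG k, (p.1.1 = 1 ∨ p.1.1 = 2 ∨ p.1.1 = 3) ∧ p.1.2.1 < k ∧ p.1.2.2 < k ∧
      (p.1.1 = 2 → p.1.2.1 + 1 < k) := by
    rintro ⟨⟨t, x, y⟩, hp⟩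
    have h1 := Finset.mem_filter.1 hp
    have h2 := mem_posF.1 h1.1
    have h3 := h1.2
    simp only at h3 ⊢
    omega
  set f : PosG k → ℕ × ℕ := fun p => c (p.1.1 - 1) p.1.2.1 p.1.2.2 with hf
  have hi3 : ∀ p : PosG k, p.1.1 - 1 < 3 := fun p => by have := hpos p; omega
  have hxy : ∀ p : PosG k, p.1.2.1 < k ∧ p.1.2.2 < k := fun p => ⟨(hpos p).2.1, (hpos p).2.2.1⟩
  have hinj : ∀ p p' : PosG k, (p.1.1 - 1, p.1.2.1, p.1.2.2) = (p'.1.1 - 1, p'.1.2.1, p'.1.2.2) →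
      p = p' := by
    intro p p' h1
    rw [Prod.mk.injEq, Prod.mk.injEq] at h1
    have h4 := hpos p
    have h5 := hpos p'
    apply Subtype.ext
    refine Prod.ext (by omega) (Prod.ext h1.2.1 h1.2.2)
  have hff : ∀ p p' : PosG k, p ≠ p' → (f p).1 + DC k ≤ (f p').1 ∨ (f p').1 + DC k ≤ (f p).1 ∨
      (f p).2 + DC k ≤ (f p').2 ∨ (f p').2 + DC k ≤ (f p).2 := fun p p' hne =>
    hcf _ (hi3 p) _ (hxy p).1 _ (hxy p).2 _ (hi3 p') _ (hxy p').1 _ (hxy p').2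
      (fun h => hne (hinj p p' h))
  set tt : Fin 3 × Fin k × Fin k → ℕ × ℕ := fun s =>
    if h : ∃ p : PosG k, (p.1.1 - 1, p.1.2.1, p.1.2.2) = ((s.1 : ℕ), (s.2.1 : ℕ), (s.2.2 : ℕ))
      then colN h.choose.1 else (s.2.1, s.2.2) with htt
  have htt1 : ∀ s, tt s ∈ colF k := by
    intro s
    simp only [htt]
    split_ifs with h
    · exact colN_mem _
    · rw [mem_colF]
      exact ⟨s.2.1.2, by have := s.2.2.2; omega⟩
  have hcardP : Fintype.card (Fin 3 × Fin k × Fin k) ≤ 3 * k * k := by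
    rw [Fintype.card_prod, Fintype.card_prod, Fintype.card_fin, Fintype.card_fin, mul_assoc]
  obtain ⟨Q, g1, g2, g3, g4, g5⟩ := geoA (N := N) hk (T := Fin 3 × Fin k × Fin k) hcardP
    (fun s => (c s.1 s.2.1 s.2.2).1) (fun s => (c s.1 s.2.1 s.2.2).2) tt htt1 hN
    (fun s => hm _ s.1.2 _ s.2.1.2 _ s.2.2.2) (by
      intro s s' hne
      refine hcf _ s.1.2 _ s.2.1.2 _ s.2.2.2 _ s'.1.2 _ s'.2.1.2 _ s'.2.2.2 (fun h => hne ?_)
      rw [Prod.mk.injEq, Prod.mk.injEq] at h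
      exact Prod.ext (Fin.ext h.1) (Prod.ext (Fin.ext h.2.1) (Fin.ext h.2.2)))
  -- terminal cells are not in trees
  have g4' : ∀ u ∈ colF k, ∀ i < 3, ∀ x < k, ∀ y < k, c i x y ∉ Q u := fun u hu i hi x hx y hy =>
    g4 u hu (⟨i, hi⟩, ⟨x, hx⟩, ⟨y, hy⟩)
  have g5' : ∀ p : PosG k, ((f p).1, (f p).2 - 1) ∈ Q (colN p.1) := by
    intro p
    have h1 := g5 (⟨p.1.1 - 1, hi3 p⟩, ⟨p.1.2.1, (hxy p).1⟩, ⟨p.1.2.2, (hxy p).2⟩)
    have h2 : ∃ p' : PosG k, (p'.1.1 - 1, p'.1.2.1, p'.1.2.2) = (p.1.1 - 1, p.1.2.1, p.1.2.2) :=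
      ⟨p, rfl⟩
    simp only [htt] at h1
    rw [dif_pos h2] at h1
    rw [hinj _ _ h2.choose_spec] at h1
    exact h1
  have hcell_ne : ∀ i < 3, ∀ x < k, ∀ y < k, ∀ i' < 3, ∀ x' < k, ∀ y' < k, ∀ v,
      v ∈ cell ox oy D (c i x y) → v ∈ cell ox oy D (c i' x' y') → (i, x, y) = (i', x', y') := by
    intro i hi x hx y hy i' hi' x' hx' y' hy' v hv hv'
    by_contra hne
    have h1 := hcf i hi x hx y hy i' hi' x' hx' y' hy' hne
    have h2 := cell_unique hv hv'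
    rw [h2] at h1
    omega
  have hcT : ∀ i < 3, ∀ x < k, ∀ y < k, cell ox oy D (c i x y) \ hls H L ⊆
      rect X.1 X.2 n n \ hls H L := by
    intro i hi x hx y hy v hv
    have h1 := hm i hi x hx y hy
    exact ⟨cell_subset hox hoy hNx hNy (by omega) (by omega) hv.1, hv.2⟩
  -- the rest
  set I : Finset (ℕ × ℕ) := (((Finset.range k) ×ˢ (Finset.range k))).filter
    (fun i => i.1 + 1 = k) with hI
  have hIm : ∀ i ∈ I, i.1 < k ∧ i.2 < k ∧ i.1 + 1 = k := by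
    intro i hi
    simp only [hI, Finset.mem_filter, Finset.mem_product, Finset.mem_range] at hi
    exact ⟨hi.1.1, hi.1.2, hi.2⟩
  have hfull : ∀ i : ℕ × ℕ, ∃ F, i ∈ I → FullB S ends
      (lft D ox oy (q 1 i.1 i.2) (c 1 i.1 i.2)) F := by
    intro i
    by_cases hi : i ∈ I
    · obtain ⟨h1, h2, _⟩ := hIm i hi
      obtain ⟨F, hF⟩ := (hT 1 (by omega) _ h1 _ h2).lft_full hP hfar (hcT 1 (by omega) _ h1 _ h2)
      exact ⟨F, fun _ => hF⟩
    · exact ⟨∅, fun h => absurd h hi⟩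
  choose FI hFI using hfull
  set Rest : Set (ℕ × ℕ) := ⋃ i ∈ I, lft D ox oy (q 1 i.1 i.2) (c 1 i.1 i.2) with hRest
  have hRfull : FullB S ends Rest (⋃ i ∈ I, FI i) := by
    refine FullB.biUnion I _ FI hFI ?_
    intro i hi j hj hij
    obtain ⟨h1, h2, _⟩ := hIm i hi
    obtain ⟨h3, h4, _⟩ := hIm j hj
    rw [Set.disjoint_left]
    intro v hv hv'
    have h5 := hcell_ne 1 (by omega) _ h1 _ h2 1 (by omega) _ h3 _ h4 v
      ((hT 1 (by omega) _ h1 _ h2).lft_cell hv) ((hT 1 (by omega) _ h3 _ h4).lft_cell hv')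
    rw [Prod.mk.injEq, Prod.mk.injEq] at h5
    exact hij (Prod.ext h5.2.1 h5.2.2)
  have hTp : ∀ p : PosG k, Term H L D ox oy (q (p.1.1 - 1) p.1.2.1 p.1.2.2) (f p) :=
    fun p => hT _ (hi3 p) _ (hxy p).1 _ (hxy p).2
  have hhp : ∀ (p : PosG k), h (p.1.1 - 1) p.1.2.1 p.1.2.2 < L :=
    fun p => hh _ (hi3 p) _ (hxy p).1 _ (hxy p).2
  have hmp := fun p : PosG k => hm (p.1.1 - 1) (hi3 p) _ (hxy p).1 _ (hxy p).2
  refine asm_cells (X := X) (n := n) (L := L) (D := D) (ox := ox) (oy := oy) (N := N) (H := H)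
    hk hB hL hG hfar hD hD3 hox hoy hNx hNy z hz Q g1 g2 g3
    (fun p => ((f p).1, (f p).2 - 1)) g5' ?_
    (fun p => rayS L D oy (q (p.1.1 - 1) p.1.2.1 p.1.2.2) (f p) (h (p.1.1 - 1) p.1.2.1 p.1.2.2)
      false)
    (fun p => ft L (q (p.1.1 - 1) p.1.2.1 p.1.2.2) (h (p.1.1 - 1) p.1.2.1 p.1.2.2) false)
    ?_ ?_ ?_ ?_ ?_ Rest _ hRfull ?_ ?_ ?_ ?_ ?_ ?_ ?_
  · -- docks are different
    intro p p' hpp
    simp only at hpp
    rw [Prod.mk.injEq] at hpp
    by_contra hne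
    have h8 := hff _ _ hne
    have h3 := hmp p
    have h4 := hmp p'
    simp only [hf] at hpp h8
    omega
  · intro p v hv
    have h1 := (hTp p).ray_cell (hhp p) _ hv
    exact hcT _ (hi3 p) _ (hxy p).1 _ (hxy p).2 ⟨h1, (hTp p).ray_hls hfar (hhp p) _ hv⟩
  · intro p
    exact (hTp p).ray_conn (hhp p) _
  · intro p
    have h1 := hmp p
    exact (hTp p).ray_dock (show 1 ≤ (f p).2 by simp only [hf]; omega) hfar (hhp p) false
  · intro p u hu c' hc'
    rw [Set.disjoint_left]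
    intro v hv hv'
    have h1 := cell_unique ((hTp p).ray_cell (hhp p) _ hv) hv'
    rw [← h1] at hc'
    exact g4' u hu _ (hi3 p) _ (hxy p).1 _ (hxy p).2 hc'
  · intro p p' hne
    rw [Set.disjoint_left]
    intro v hv hv'
    exact hne (hinj _ _ (hcell_ne _ (hi3 p) _ (hxy p).1 _ (hxy p).2 _ (hi3 p') _ (hxy p').1 _
      (hxy p').2 v ((hTp p).ray_cell (hhp p) _ hv) ((hTp p').ray_cell (hhp p') _ hv')))
  · intro v hv
    obtain ⟨i, hi, hvi⟩ := mem_iUnion₂.1 hv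
    obtain ⟨h1, h2, _⟩ := hIm i hi
    exact hcT 1 (by omega) _ h1 _ h2 ⟨(hT 1 (by omega) _ h1 _ h2).lft_cell hvi,
      (hT 1 (by omega) _ h1 _ h2).lft_hls hfar hvi⟩
  · intro u hu c' hc'
    rw [Set.disjoint_left]
    intro v hv' hv
    obtain ⟨i, hi, hvi⟩ := mem_iUnion₂.1 hv
    obtain ⟨h1, h2, _⟩ := hIm i hi
    have h3 := cell_unique ((hT 1 (by omega) _ h1 _ h2).lft_cell hvi) hv'
    rw [← h3] at hc'
    exact g4' u hu _ (by omega) _ h1 _ h2 hc'
  · intro p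
    rw [Set.disjoint_left]
    intro v hv' hv
    obtain ⟨i, hi, hvi⟩ := mem_iUnion₂.1 hv
    obtain ⟨h1, h2, h3⟩ := hIm i hi
    have h4 := hcell_ne _ (hi3 p) _ (hxy p).1 _ (hxy p).2 1 (by omega) _ h1 _ h2 v
      ((hTp p).ray_cell (hhp p) _ hv') ((hT 1 (by omega) _ h1 _ h2).lft_cell hvi)
    rw [Prod.mk.injEq, Prod.mk.injEq] at h4
    have h5 := hpos p
    omega
  · intro x hx y hy u hu c' hc'
    rw [hLoc x hx y hy, Set.disjoint_left]
    rintro v ⟨i, hi, rfl⟩ hv'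
    have h1 := cell_unique ((hT i hi x hx y hy).ft_mem (hh i hi x hx y hy) false) hv'
    rw [← h1] at hc'
    exact g4' u hu _ hi _ hx _ hy hc'
  · intro x hx y hy
    rw [hLoc x hx y hy]
    rintro v ⟨i, hi, rfl⟩
    by_cases huf : i = 1 → x + 1 < k
    · left
      have hp : (i + 1, x, y) ∈ (posF k).filter (fun p => p.1 ≠ 0) := by
        refine Finset.mem_filter.2 ⟨mem_posF.2 ⟨by omega, hx, hy, fun h => by omega,
          fun h => huf (by omega)⟩, by simp⟩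
      refine mem_iUnion.2 ⟨⟨(i + 1, x, y), hp⟩, ?_⟩
      exact (hT i hi x hx y hy).ft_ray (hh i hi x hx y hy) false
    · right
      push Not at huf
      obtain ⟨rfl, huf⟩ := huf
      refine mem_iUnion₂.2 ⟨(x, y), ?_, (hT 1 hi x hx y hy).ft_lft (hh 1 hi x hx y hy)⟩
      simp only [hI, Finset.mem_filter, Finset.mem_product, Finset.mem_range]
      omega
  · intro p
    rw [hLoc _ (hxy p).1 _ (hxy p).2]
    ext v
    constructor
    · rintro ⟨⟨i, hi, rfl⟩, hv⟩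
      have h1 := hcell_ne _ (hi3 p) _ (hxy p).1 _ (hxy p).2 _ hi _ (hxy p).1 _ (hxy p).2 _
        ((hTp p).ray_cell (hhp p) _ hv)
        ((hT i hi _ (hxy p).1 _ (hxy p).2).ft_mem (hh i hi _ (hxy p).1 _ (hxy p).2) false)
      rw [Prod.mk.injEq] at h1
      rw [mem_singleton_iff, ← h1.1]
    · rintro rfl
      exact ⟨⟨_, hi3 p, rfl⟩, (hTp p).ft_ray (hhp p) _⟩
  · intro p x hx y hy hne
    rw [hLoc x hx y hy, Set.disjoint_left]
    rintro v ⟨i, hi, rfl⟩ hv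
    have h1 := hcell_ne _ (hi3 p) _ (hxy p).1 _ (hxy p).2 _ hi _ hx _ hy _
      ((hTp p).ray_cell (hhp p) _ hv) ((hT i hi x hx y hy).ft_mem (hh i hi x hx y hy) false)
    rw [Prod.mk.injEq, Prod.mk.injEq] at h1
    exact hne (Prod.ext h1.2.1.symm h1.2.2.symm)

/-! ### Offsets -/

lemma good_or' {s L D a r r' R : ℕ} (hs : L + 5 ≤ s) (hD : (R + 1) * s ≤ D) (ha : R * s ≤ a)
    (hr : r < r') (hr' : r' ≤ R) : Good s L D r a ∨ Good s L D r' a := by
  have h1 : r' * s ≤ R * s := Nat.mul_le_mul_right _ hr'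
  have h2 : (r + 1) * s ≤ r' * s := Nat.mul_le_mul_right _ hr
  rw [add_mul, one_mul] at h2 hD
  have h3 := Nat.div_add_mod (a - r' * s) D
  have h4 := Nat.mod_lt (a - r' * s) (show 0 < D by omega)
  set i := (a - r' * s) / D
  set ρ := (a - r' * s) % D
  by_cases h5 : 3 ≤ ρ ∧ ρ + L + 3 ≤ D
  · exact Or.inr ⟨i, by omega, by omega⟩
  · left
    by_cases h6 : ρ ≤ 2
    · exact ⟨i, by omega, by omega⟩
    · refine ⟨i + 1, ?_, ?_⟩ <;> rw [mul_add, mul_one] <;> omega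

/-- At most `R` numbers have a common good offset among `0, s, …, R s`. -/
lemma exists_offset' {ι : Type*} [Fintype ι] {s L D R : ℕ} (hs : L + 5 ≤ s)
    (hD : (R + 1) * s ≤ D) (hι : Fintype.card ι ≤ R) (a : ι → ℕ) (ha : ∀ i, R * s ≤ a i) :
    ∃ r : Fin (R + 1), ∀ i, Good s L D r (a i) := by
  by_contra hcon
  push Not at hcon
  choose f hf using hcon
  have hcard : Fintype.card ι < Fintype.card (Fin (R + 1)) := by
    rw [Fintype.card_fin]
    omega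
  obtain ⟨r, r', hne, hrr⟩ := Fintype.exists_ne_map_eq_of_card_lt f hcard
  rcases Nat.lt_trichotomy (r : ℕ) (r' : ℕ) with h | h | h
  · rcases good_or' hs hD (ha (f r)) h (by omega) with h1 | h1
    · exact hf r h1
    · rw [hrr] at h1
      exact hf r' h1
  · exact hne (Fin.ext h)
  · rcases good_or' hs hD (ha (f r')) h (by omega) with h1 | h1
    · exact hf r' h1
    · rw [← hrr] at h1
      exact hf r h1

end Gad

namespace CWL

open BIC BIC.Net BICS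

universe u

/-- One foot (the left one) at each of three holes. -/
def GlFarH3 (k : ℕ) : Prop :=
  ∀ L : ℕ, 1 ≤ L → ∃ m δ : ℕ, ∀ {α : Type u} (P : Matroid α) [P.Finite] (S : Set α)
    (ends : α → Sym2 (ℕ × ℕ)) (X : ℕ × ℕ) (n : ℕ) (H : Finset (ℕ × ℕ)), Bic P S ends →
    GrdU S ends (rect X.1 X.2 n n \ ⋃ q ∈ H, rect q.1 q.2 L L) →
    (∀ q ∈ H, ∀ q' ∈ H, q ≠ q' → Far δ q L q' L) →
    ∀ (z : Fin m → α) (p : Fin m × Fin 3 → ℕ × ℕ), (∀ t, p t ∈ H) → Function.Injective p →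
    (∀ t, X.1 + δ ≤ (p t).1 ∧ X.2 + δ ≤ (p t).2 ∧ (p t).1 + δ ≤ X.1 + n ∧
      (p t).2 + δ ≤ X.2 + n) →
    (∀ t, z t ∈ P.closure S ∧ z t ∉ S) →
    (∀ t, ∃ a < L, ∃ b < L, ∃ c < L, Loc P S ends (z t) =
      {foot L (p (t, 0)) 0 a, foot L (p (t, 1)) 0 b, foot L (p (t, 2)) 0 c}) →
    HasUniformMinor P k

end CWL

namespace Gad

open BIC BIC.Net BICS

universe u

/-- **GLA over a grid with holes.** -/
theorem glFarH3 (k : ℕ) : CWL.GlFarH3.{u} k := by
  classical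
  intro L hL
  rcases Nat.eq_zero_or_pos k with rfl | hk
  · exact ⟨0, 0, fun {α} P _ S ends X n H _ _ _ z p _ _ _ _ _ => hum_zero' P⟩
  obtain ⟨s, hs⟩ : ∃ s, s = L + 7 := ⟨_, rfl⟩
  obtain ⟨D, hD⟩ : ∃ D, D = 7 * s + Fintype.card (Cond k) + L + 1 := ⟨_, rfl⟩
  obtain ⟨T, hTd⟩ : ∃ T, T = 2 * ht ((k + 1) * k) (3 * k * k) := ⟨_, rfl⟩
  obtain ⟨δ, hδ⟩ : ∃ δ, δ = D * T + D * DC k + 4 * D + 7 * s := ⟨_, rfl⟩
  refine ⟨7 * (k * k), δ, ?_⟩
  intro α P _ S ends X n H hB hG hfar z p hpH hpi hpm hz hloc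
  -- offsets
  have hoff : ∀ t : Fin (7 * (k * k)), ∃ r : Fin 7, ∀ i : Fin 3 × Bool, Good s L D r
      (if i.2 then (p (t, i.1)).1 - X.1 else (p (t, i.1)).2 - X.2) := by
    intro t
    refine exists_offset' (R := 6) (by omega) (by omega) (by simp) _ (fun i => ?_)
    have h1 := hpm (t, i.1)
    split_ifs <;> omega
  choose R hR using hoff
  obtain ⟨r, hr⟩ := Fintype.exists_le_card_fiber_of_mul_le_card (n := k * k) R (by
    rw [Fintype.card_fin, Fintype.card_fin])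
  have hcard : Fintype.card (Fin k × Fin k) ≤ Fintype.card {t // R t = r} := by
    rw [Fintype.card_prod, Fintype.card_fin, Fintype.card_subtype]
    exact hr
  obtain ⟨emb⟩ := Function.Embedding.nonempty_of_card_le hcard
  set τ : ℕ → ℕ → Fin (7 * (k * k)) := fun x y =>
    if h : x < k ∧ y < k then (emb (⟨x, h.1⟩, ⟨y, h.2⟩)).1 else (emb (⟨0, hk⟩, ⟨0, hk⟩)).1 with hτ
  have hτR : ∀ x y, R (τ x y) = r := by
    intro x y
    simp only [hτ]
    split_ifs with h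
    · exact (emb (⟨x, h.1⟩, ⟨y, h.2⟩)).2
    · exact (emb (⟨0, hk⟩, ⟨0, hk⟩)).2
  have hτi : ∀ x < k, ∀ y < k, ∀ x' < k, ∀ y' < k, τ x y = τ x' y' → x = x' ∧ y = y' := by
    intro x hx y hy x' hx' y' hy' h
    simp only [hτ] at h
    rw [dif_pos ⟨hx, hy⟩, dif_pos ⟨hx', hy'⟩] at h
    have h1 := emb.injective (Subtype.ext h)
    rw [Prod.mk.injEq, Fin.mk.injEq, Fin.mk.injEq] at h1
    exact h1
  obtain ⟨ρ, hρ⟩ : ∃ ρ, ρ = (r : ℕ) * s := ⟨_, rfl⟩
  have hρ4 : ρ ≤ 6 * s := by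
    rw [hρ]
    exact Nat.mul_le_mul_right _ (by omega)
  set pr : ℕ → Fin 3 := fun i => if h : i < 3 then ⟨i, h⟩ else 0 with hpr
  have hprv : ∀ i < 3, (pr i : ℕ) = i := by
    intro i hi
    simp only [hpr]
    rw [dif_pos hi]
  have hterm : ∀ (i : ℕ) (x y : ℕ), ∃ c : ℕ × ℕ,
      Term H L D (X.1 + ρ) (X.2 + ρ) (p (τ x y, pr i)) c := by
    intro f x y
    have h1 := hR (τ x y) (pr f, true)
    have h2 := hR (τ x y) (pr f, false)
    rw [hτR] at h1 h2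
    simp only [if_true, if_false, Bool.false_eq_true] at h1 h2
    obtain ⟨i, h3, h4⟩ := h1
    obtain ⟨j, h5, h6⟩ := h2
    rw [← hρ] at h3 h4 h5 h6
    have h7 := hpm (τ x y, pr f)
    refine ⟨(i, j), hpH _, ?_, ?_, ?_, ?_⟩ <;> simp only <;> omega
  choose c hc using hterm
  obtain ⟨N, hNd⟩ : ∃ N, N = (n - ρ) / D := ⟨_, rfl⟩
  have hN1 : D * N ≤ n - ρ := by rw [hNd]; exact Nat.mul_div_le _ _
  have hN2 : n - ρ < D * N + D := by
    have h1 := Nat.lt_div_mul_add (a := n - ρ) (b := D) (by omega)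
    rw [hNd, mul_comm]
    exact h1
  have hpm0 := hpm (τ 0 0, 0)
  have hρn : ρ ≤ n := by omega
  have hTN : T ≤ N := by
    have h1 : D * T ≤ n - ρ := by omega
    have h2 := sep_idx (D := D) (i := 0) (j := N) (a := 0) (b := n - ρ) (e := T) (by omega) hN2
      (by omega)
    omega
  have hfar2 : ∀ q ∈ H, ∀ q' ∈ H, q ≠ q' → CWL.Far (2 * D) q L q' L := by
    intro q hq q' hq' hne
    have h1 := hfar q hq q' hq' hne
    unfold CWL.Far at h1 ⊢
    omega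
  choose a ha b hb b' hb' hLoc using hloc
  refine far_core (X := X) (n := n) (L := L) (D := D) (ox := X.1 + ρ) (oy := X.2 + ρ) (N := N)
    (H := H) hk hB hL hG hfar2 (by omega) (by omega) (by omega) (by omega) (by omega) (by omega)
    (by omega) (fun u => z (τ u.1 u.2)) (fun x _ y _ => hz _)
    (fun i x y => p (τ x y, pr i)) c (fun i _ x _ y _ => hc i x y) ?_ ?_
    (fun i x y => if i = 0 then a (τ x y) else if i = 1 then b (τ x y) else b' (τ x y)) ?_ ?_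
  · intro f _ x _ y _
    have h1 := hpm (τ x y, pr f)
    have h2 := hc f x y
    have h3 := h2.x1
    have h4 := h2.x2
    have h5 := h2.y1
    have h6 := h2.y2
    refine ⟨?_, ?_, ?_, ?_⟩
    · have := sep_idx (D := D) (i := 0) (j := (c f x y).1) (a := 0) (b := D * DC k) (e := DC k)
        (by omega) (by omega) (by omega)
      omega
    · have := sep_idx (D := D) (i := 0) (j := (c f x y).2) (a := 0) (b := D * DC k) (e := DC k)
        (by omega) (by omega) (by omega)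
      omega
    · exact sep_idx (D := D) (a := D * (c f x y).1) (b := n - ρ) (le_refl _) hN2 (by omega)
    · exact sep_idx (D := D) (a := D * (c f x y).2) (b := n - ρ) (le_refl _) hN2 (by omega)
  · intro f hf x hx y hy f' hf' x' hx' y' hy' hne
    have hne' : p (τ x y, pr f) ≠ p (τ x' y', pr f') := by
      intro h
      have h1 := hpi h
      rw [Prod.mk.injEq] at h1
      have h2 := hτi x hx y hy x' hx' y' hy' h1.1
      have h3 : f = f' := by rw [← hprv f hf, ← hprv f' hf', h1.2]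
      exact hne (by rw [h3, h2.1, h2.2])
    have h0 := hfar _ (hpH _) _ (hpH _) hne'
    have h2 := hc f x y
    have h3 := h2.x1
    have h4 := h2.x2
    have h5 := h2.y1
    have h6 := h2.y2
    have h2' := hc f' x' y'
    have h3' := h2'.x1
    have h4' := h2'.x2
    have h5' := h2'.y1
    have h6' := h2'.y2
    unfold CWL.Far at h0
    rcases h0 with h0 | h0 | h0 | h0
    · left
      exact sep_idx (D := D) (a := (p (τ x y, pr f)).1 - (X.1 + ρ))
        (b := (p (τ x' y', pr f')).1 - (X.1 + ρ)) (by omega) (by omega) (by omega)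
    · right; left
      exact sep_idx (D := D) (a := (p (τ x' y', pr f')).1 - (X.1 + ρ))
        (b := (p (τ x y, pr f)).1 - (X.1 + ρ)) (by omega) (by omega) (by omega)
    · right; right; left
      exact sep_idx (D := D) (a := (p (τ x y, pr f)).2 - (X.2 + ρ))
        (b := (p (τ x' y', pr f')).2 - (X.2 + ρ)) (by omega) (by omega) (by omega)
    · right; right; right
      exact sep_idx (D := D) (a := (p (τ x' y', pr f')).2 - (X.2 + ρ))
        (b := (p (τ x y, pr f)).2 - (X.2 + ρ)) (by omega) (by omega) (by omega)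
  · intro f _ x _ y _
    split_ifs
    · exact ha _
    · exact hb _
    · exact hb' _
  · intro x _ y _
    simp only
    rw [hLoc]
    have e0 : pr 0 = 0 := Fin.ext (hprv 0 (by omega))
    have e1 : pr 1 = 1 := Fin.ext (hprv 1 (by omega))
    have e2 : pr 2 = 2 := Fin.ext (hprv 2 (by omega))
    ext v
    simp only [mem_insert_iff, mem_singleton_iff, mem_ofPred_eq]
    constructor
    · rintro (rfl | rfl | rfl)
      · exact ⟨0, by omega, by simp [CWL.foot, ft, e0]⟩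
      · exact ⟨1, by omega, by simp [CWL.foot, ft, e1]⟩
      · exact ⟨2, by omega, by simp [CWL.foot, ft, e2]⟩
    · rintro ⟨i, hi, rfl⟩
      obtain rfl | rfl | rfl : i = 0 ∨ i = 1 ∨ i = 2 := by omega
      · left; simp [CWL.foot, ft, e0]
      · right; left; simp [CWL.foot, ft, e1]
      · right; right; simp [CWL.foot, ft, e2]

end Gad
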