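import Pool.Agent.GL.AsmC

/-!
# Form B with holes: straight local fingers in the terminal cell
-/

open Set
open scoped Matroid

namespace Gad

open BIC BICS

/-! ### Straight fingers -/

lemma hseg_conn {x1 x2 y : ℕ} (h : x1 ≤ x2) :
    Conn {v : ℕ × ℕ | x1 ≤ v.1 ∧ v.1 ≤ x2 ∧ v.2 = y} := by
  have e : {v : ℕ × ℕ | x1 ≤ v.1 ∧ v.1 ≤ x2 ∧ v.2 = y} = rect x1 y (x2 - x1 + 1) 1 := by
    ext v
    rw [mem_rct]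
    simp only [mem_ofPred_eq]
    omega
  rw [e]
  exact rect_conn (by omega) (by omega)

lemma vseg_conn {x y1 y2 : ℕ} (h : y1 ≤ y2) :
    Conn {v : ℕ × ℕ | v.1 = x ∧ y1 ≤ v.2 ∧ v.2 ≤ y2} := by
  have e : {v : ℕ × ℕ | v.1 = x ∧ y1 ≤ v.2 ∧ v.2 ≤ y2} = rect x y1 1 (y2 - y1 + 1) := by
    ext v
    rw [mem_rct]
    simp only [mem_ofPred_eq]
    omega
  rw [e]
  exact rect_conn (by omega) (by omega)

/-- The foot of the side `d` (`0` left, `1` right, `2` above, `3` below) of the hole with corner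
`(X + 1, Y + 1)`. -/
def ftD (L X Y d a : ℕ) : ℕ × ℕ :=
  if d = 0 then (X, Y + 1 + a) else if d = 1 then (X + 1 + L, Y + 1 + a) else
    if d = 2 then (X + 1 + a, Y + 1 + L) else (X + 1 + a, Y)

/-- Putting three fingers together. -/
lemma three_fingers {X Y D L m : ℕ} (a : ℕ → ℕ) (A1 A2 A3 : Set (ℕ × ℕ)) (s1 s2 s3 : ℕ)
    (hs : ∀ d < 4, d ≠ m → d = s1 ∨ d = s2 ∨ d = s3) (hs1 : s1 < 4 ∧ s1 ≠ m)
    (hs2 : s2 < 4 ∧ s2 ≠ m) (hs3 : s3 < 4 ∧ s3 ≠ m)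
    (c1 : Conn A1) (c2 : Conn A2) (c3 : Conn A3)
    (u1 : A1 ⊆ rect X Y D D \ rect (X + 1) (Y + 1) L L)
    (u2 : A2 ⊆ rect X Y D D \ rect (X + 1) (Y + 1) L L)
    (u3 : A3 ⊆ rect X Y D D \ rect (X + 1) (Y + 1) L L)
    (f1 : ftD L X Y s1 (a s1) ∈ A1) (f2 : ftD L X Y s2 (a s2) ∈ A2)
    (f3 : ftD L X Y s3 (a s3) ∈ A3) (d12 : Disjoint A1 A2) (d13 : Disjoint A1 A3)
    (d23 : Disjoint A2 A3) (r1 : Disjoint A1 (rect (X + 1 + L) Y (D - (L + 1)) D))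
    (r3 : Disjoint A3 (rect (X + 1 + L) Y (D - (L + 1)) D)) (e1 : ∃ v ∈ A1, v.1 = X)
    (e2 : ∃ v ∈ A2, v.1 + 1 = X + D) (e3 : ∃ v ∈ A3, v.2 + 1 = Y + D) :
    ∃ (f : ℕ → Set (ℕ × ℕ)) (b : ℕ → ℕ × ℕ),
    (∀ t, 1 ≤ t → t ≤ 3 → Conn (f t) ∧ f t ⊆ rect X Y D D \ rect (X + 1) (Y + 1) L L ∧
      b t ∈ f t ∧ (∃ d < 4, d ≠ m ∧ ftD L X Y d (a d) = b t) ∧
      ∀ d < 4, d ≠ m → ftD L X Y d (a d) ∈ f t → ftD L X Y d (a d) = b t) ∧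
    (∀ d < 4, d ≠ m → ∃ t, 1 ≤ t ∧ t ≤ 3 ∧ ftD L X Y d (a d) = b t) ∧
    (∀ t t', 1 ≤ t → t ≤ 3 → 1 ≤ t' → t' ≤ 3 → t ≠ t' → Disjoint (f t) (f t')) ∧
    Disjoint (f 1) (rect (X + 1 + L) Y (D - (L + 1)) D) ∧
    Disjoint (f 3) (rect (X + 1 + L) Y (D - (L + 1)) D) ∧
    (∃ v ∈ f 1, v.1 = X) ∧ (∃ v ∈ f 2, v.1 + 1 = X + D) ∧ (∃ v ∈ f 3, v.2 + 1 = Y + D) := by
  obtain ⟨f, hf1, hf2, hf3⟩ : ∃ f : ℕ → Set (ℕ × ℕ), f 1 = A1 ∧ f 2 = A2 ∧ f 3 = A3 :=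
    ⟨fun t => if t = 1 then A1 else if t = 2 then A2 else A3, rfl, rfl, rfl⟩
  obtain ⟨b, hb1, hb2, hb3⟩ : ∃ b : ℕ → ℕ × ℕ, b 1 = ftD L X Y s1 (a s1) ∧
      b 2 = ftD L X Y s2 (a s2) ∧ b 3 = ftD L X Y s3 (a s3) :=
    ⟨fun t => if t = 1 then ftD L X Y s1 (a s1) else if t = 2 then ftD L X Y s2 (a s2) else
      ftD L X Y s3 (a s3), rfl, rfl, rfl⟩
  have ht : ∀ t : ℕ, 1 ≤ t → t ≤ 3 → t = 1 ∨ t = 2 ∨ t = 3 := fun t _ _ => by omega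
  refine ⟨f, b, ?_, ?_, ?_, ?_, ?_, ?_, ?_, ?_⟩
  · intro t h1 h3
    rcases ht t h1 h3 with rfl | rfl | rfl
    · rw [hf1, hb1]
      refine ⟨c1, u1, f1, ⟨s1, hs1.1, hs1.2, rfl⟩, ?_⟩
      intro d hd hdm hdf
      rcases hs d hd hdm with rfl | rfl | rfl
      · rfl
      · exact absurd f2 (Set.disjoint_left.1 d12 hdf)
      · exact absurd f3 (Set.disjoint_left.1 d13 hdf)
    · rw [hf2, hb2]
      refine ⟨c2, u2, f2, ⟨s2, hs2.1, hs2.2, rfl⟩, ?_⟩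
      intro d hd hdm hdf
      rcases hs d hd hdm with rfl | rfl | rfl
      · exact absurd hdf (Set.disjoint_left.1 d12 f1)
      · rfl
      · exact absurd f3 (Set.disjoint_left.1 d23 hdf)
    · rw [hf3, hb3]
      refine ⟨c3, u3, f3, ⟨s3, hs3.1, hs3.2, rfl⟩, ?_⟩
      intro d hd hdm hdf
      rcases hs d hd hdm with rfl | rfl | rfl
      · exact absurd hdf (Set.disjoint_left.1 d13 f1)
      · exact absurd hdf (Set.disjoint_left.1 d23 f2)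
      · rfl
  · intro d hd hdm
    rcases hs d hd hdm with rfl | rfl | rfl
    · exact ⟨1, le_rfl, by omega, hb1.symm⟩
    · exact ⟨2, by omega, by omega, hb2.symm⟩
    · exact ⟨3, by omega, le_rfl, hb3.symm⟩
  · intro t t' h1 h3 h1' h3' hne
    rcases ht t h1 h3 with rfl | rfl | rfl <;> rcases ht t' h1' h3' with rfl | rfl | rfl
    · exact absurd rfl hne
    · rw [hf1, hf2]; exact d12
    · rw [hf1, hf3]; exact d13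
    · rw [hf1, hf2]; exact d12.symm
    · exact absurd rfl hne
    · rw [hf2, hf3]; exact d23
    · rw [hf1, hf3]; exact d13.symm
    · rw [hf2, hf3]; exact d23.symm
    · exact absurd rfl hne
  · rw [hf1]; exact r1
  · rw [hf3]; exact r3
  · rw [hf1]; exact e1
  · rw [hf2]; exact e2
  · rw [hf3]; exact e3

section Seg

variable {X Y D L : ℕ}

/-- the pieces used by the fingers -/
lemma sg_bl {a : ℕ} (ha : a < L) (hD : L + 3 ≤ D) :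
    ({v : ℕ × ℕ | X ≤ v.1 ∧ v.1 ≤ X + 1 + a ∧ v.2 = Y} ⊆
      rect X Y D D \ rect (X + 1) (Y + 1) L L) ∧
    Disjoint {v : ℕ × ℕ | X ≤ v.1 ∧ v.1 ≤ X + 1 + a ∧ v.2 = Y}
      (rect (X + 1 + L) Y (D - (L + 1)) D) := by
  constructor
  · rintro v ⟨h1, h2, h3⟩
    rw [mem_sdiff, mem_rct, mem_rct]
    omega
  · rw [Set.disjoint_left]
    rintro v ⟨h1, h2, h3⟩ hv
    rw [mem_rct] at hv
    omega

lemma sg_l {a : ℕ} (ha : a < L) (hD : L + 3 ≤ D) :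
    ({v : ℕ × ℕ | X ≤ v.1 ∧ v.1 ≤ X ∧ v.2 = Y + 1 + a} ⊆
      rect X Y D D \ rect (X + 1) (Y + 1) L L) ∧
    Disjoint {v : ℕ × ℕ | X ≤ v.1 ∧ v.1 ≤ X ∧ v.2 = Y + 1 + a}
      (rect (X + 1 + L) Y (D - (L + 1)) D) := by
  constructor
  · rintro v ⟨h1, h2, h3⟩
    rw [mem_sdiff, mem_rct, mem_rct]
    omega
  · rw [Set.disjoint_left]
    rintro v ⟨h1, h2, h3⟩ hv
    rw [mem_rct] at hv
    omega

lemma sg_br {a : ℕ} (ha : a < L) (hD : L + 3 ≤ D) :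
    {v : ℕ × ℕ | X + 1 + a ≤ v.1 ∧ v.1 ≤ X + D - 1 ∧ v.2 = Y} ⊆
      rect X Y D D \ rect (X + 1) (Y + 1) L L := by
  rintro v ⟨h1, h2, h3⟩
  rw [mem_sdiff, mem_rct, mem_rct]
  omega

lemma sg_r {a : ℕ} (ha : a < L) (hD : L + 3 ≤ D) :
    {v : ℕ × ℕ | X + 1 + L ≤ v.1 ∧ v.1 ≤ X + D - 1 ∧ v.2 = Y + 1 + a} ⊆
      rect X Y D D \ rect (X + 1) (Y + 1) L L := by
  rintro v ⟨h1, h2, h3⟩
  rw [mem_sdiff, mem_rct, mem_rct]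
  omega

lemma sg_lu {a : ℕ} (hD : L + 3 ≤ D) :
    ({v : ℕ × ℕ | v.1 = X ∧ Y + 1 + a ≤ v.2 ∧ v.2 ≤ Y + D - 1} ⊆
      rect X Y D D \ rect (X + 1) (Y + 1) L L) ∧
    Disjoint {v : ℕ × ℕ | v.1 = X ∧ Y + 1 + a ≤ v.2 ∧ v.2 ≤ Y + D - 1}
      (rect (X + 1 + L) Y (D - (L + 1)) D) := by
  constructor
  · rintro v ⟨h1, h2, h3⟩
    rw [mem_sdiff, mem_rct, mem_rct]
    omega
  · rw [Set.disjoint_left]
    rintro v ⟨h1, h2, h3⟩ hv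
    rw [mem_rct] at hv
    omega

lemma sg_u {a : ℕ} (ha : a < L) (hD : L + 3 ≤ D) :
    ({v : ℕ × ℕ | v.1 = X + 1 + a ∧ Y + 1 + L ≤ v.2 ∧ v.2 ≤ Y + D - 1} ⊆
      rect X Y D D \ rect (X + 1) (Y + 1) L L) ∧
    Disjoint {v : ℕ × ℕ | v.1 = X + 1 + a ∧ Y + 1 + L ≤ v.2 ∧ v.2 ≤ Y + D - 1}
      (rect (X + 1 + L) Y (D - (L + 1)) D) := by
  constructor
  · rintro v ⟨h1, h2, h3⟩
    rw [mem_sdiff, mem_rct, mem_rct]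
    omega
  · rw [Set.disjoint_left]
    rintro v ⟨h1, h2, h3⟩ hv
    rw [mem_rct] at hv
    omega

end Seg

/-- **Local fingers.**  Three feet at three sides (`m` is the missing side); the fingers `1`, `2`,
`3` go to the left, to the right and up. -/
lemma local_fingers {X Y D L : ℕ} (hL : 1 ≤ L) (hD : L + 3 ≤ D) {m : ℕ} (hm : m < 4) (a : ℕ → ℕ)
    (ha : ∀ d, a d < L) : ∃ (f : ℕ → Set (ℕ × ℕ)) (b : ℕ → ℕ × ℕ),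
    (∀ t, 1 ≤ t → t ≤ 3 → Conn (f t) ∧ f t ⊆ rect X Y D D \ rect (X + 1) (Y + 1) L L ∧
      b t ∈ f t ∧ (∃ d < 4, d ≠ m ∧ ftD L X Y d (a d) = b t) ∧
      ∀ d < 4, d ≠ m → ftD L X Y d (a d) ∈ f t → ftD L X Y d (a d) = b t) ∧
    (∀ d < 4, d ≠ m → ∃ t, 1 ≤ t ∧ t ≤ 3 ∧ ftD L X Y d (a d) = b t) ∧
    (∀ t t', 1 ≤ t → t ≤ 3 → 1 ≤ t' → t' ≤ 3 → t ≠ t' → Disjoint (f t) (f t')) ∧
    Disjoint (f 1) (rect (X + 1 + L) Y (D - (L + 1)) D) ∧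
    Disjoint (f 3) (rect (X + 1 + L) Y (D - (L + 1)) D) ∧
    (∃ v ∈ f 1, v.1 = X) ∧ (∃ v ∈ f 2, v.1 + 1 = X + D) ∧ (∃ v ∈ f 3, v.2 + 1 = Y + D) := by
  have h0 := ha 0
  have h1 := ha 1
  have h2 := ha 2
  have h3 := ha 3
  have k0 : ftD L X Y 0 (a 0) = (X, Y + 1 + a 0) := rfl
  have k1 : ftD L X Y 1 (a 1) = (X + 1 + L, Y + 1 + a 1) := rfl
  have k2 : ftD L X Y 2 (a 2) = (X + 1 + a 2, Y + 1 + L) := rfl
  have k3 : ftD L X Y 3 (a 3) = (X + 1 + a 3, Y) := rfl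
  have hm' : m = 0 ∨ m = 1 ∨ m = 2 ∨ m = 3 := by omega
  rcases hm' with rfl | rfl | rfl | rfl
  · refine three_fingers a {v : ℕ × ℕ | X ≤ v.1 ∧ v.1 ≤ X + 1 + a 3 ∧ v.2 = Y}
      {v : ℕ × ℕ | X + 1 + L ≤ v.1 ∧ v.1 ≤ X + D - 1 ∧ v.2 = Y + 1 + a 1}
      {v : ℕ × ℕ | v.1 = X + 1 + a 2 ∧ Y + 1 + L ≤ v.2 ∧ v.2 ≤ Y + D - 1} 3 1 2
      (fun d _ _ => by omega) (by omega) (by omega) (by omega) (hseg_conn (by omega))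
      (hseg_conn (by omega)) (vseg_conn (by omega)) (sg_bl h3 hD).1 (sg_r h1 hD) (sg_u h2 hD).1
      ?_ ?_ ?_ ?_ ?_ ?_ (sg_bl h3 hD).2 (sg_u h2 hD).2 ⟨(X, Y), ⟨le_rfl, ?_, rfl⟩, rfl⟩
      ⟨(X + D - 1, Y + 1 + a 1), ⟨?_, le_rfl, rfl⟩, ?_⟩
      ⟨(X + 1 + a 2, Y + D - 1), ⟨rfl, ?_, le_rfl⟩, ?_⟩
    · rw [k3]; exact ⟨by simp only; omega, le_rfl, rfl⟩
    · rw [k1]; exact ⟨le_rfl, by simp only; omega, rfl⟩
    · rw [k2]; exact ⟨rfl, le_rfl, by simp only; omega⟩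
    · rw [Set.disjoint_left]; rintro v ⟨_, _, q⟩ ⟨_, _, q'⟩; omega
    · rw [Set.disjoint_left]; rintro v ⟨_, _, q⟩ ⟨_, q', _⟩; omega
    · rw [Set.disjoint_left]; rintro v ⟨q, _, _⟩ ⟨q', _, _⟩; omega
    · simp only; omega
    · simp only; omega
    · simp only; omega
    · simp only; omega
    · simp only; omega
  · refine three_fingers a {v : ℕ × ℕ | X ≤ v.1 ∧ v.1 ≤ X ∧ v.2 = Y + 1 + a 0}
      {v : ℕ × ℕ | X + 1 + a 3 ≤ v.1 ∧ v.1 ≤ X + D - 1 ∧ v.2 = Y}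
      {v : ℕ × ℕ | v.1 = X + 1 + a 2 ∧ Y + 1 + L ≤ v.2 ∧ v.2 ≤ Y + D - 1} 0 3 2
      (fun d _ _ => by omega) (by omega) (by omega) (by omega) (hseg_conn (by omega))
      (hseg_conn (by omega)) (vseg_conn (by omega)) (sg_l h0 hD).1 (sg_br h3 hD) (sg_u h2 hD).1
      ?_ ?_ ?_ ?_ ?_ ?_ (sg_l h0 hD).2 (sg_u h2 hD).2 ⟨(X, Y + 1 + a 0), ⟨le_rfl, le_rfl, rfl⟩, rfl⟩
      ⟨(X + D - 1, Y), ⟨?_, le_rfl, rfl⟩, ?_⟩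
      ⟨(X + 1 + a 2, Y + D - 1), ⟨rfl, ?_, le_rfl⟩, ?_⟩
    · rw [k0]; exact ⟨le_rfl, le_rfl, rfl⟩
    · rw [k3]; exact ⟨le_rfl, by simp only; omega, rfl⟩
    · rw [k2]; exact ⟨rfl, le_rfl, by simp only; omega⟩
    · rw [Set.disjoint_left]; rintro v ⟨_, _, q⟩ ⟨_, _, q'⟩; omega
    · rw [Set.disjoint_left]; rintro v ⟨_, q, _⟩ ⟨q', _, _⟩; omega
    · rw [Set.disjoint_left]; rintro v ⟨_, _, q⟩ ⟨_, q', _⟩; omega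
    · simp only; omega
    · simp only; omega
    · simp only; omega
    · simp only; omega
  · refine three_fingers a {v : ℕ × ℕ | X ≤ v.1 ∧ v.1 ≤ X + 1 + a 3 ∧ v.2 = Y}
      {v : ℕ × ℕ | X + 1 + L ≤ v.1 ∧ v.1 ≤ X + D - 1 ∧ v.2 = Y + 1 + a 1}
      {v : ℕ × ℕ | v.1 = X ∧ Y + 1 + a 0 ≤ v.2 ∧ v.2 ≤ Y + D - 1} 3 1 0
      (fun d _ _ => by omega) (by omega) (by omega) (by omega) (hseg_conn (by omega))
      (hseg_conn (by omega)) (vseg_conn (by omega)) (sg_bl h3 hD).1 (sg_r h1 hD) (sg_lu hD).1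
      ?_ ?_ ?_ ?_ ?_ ?_ (sg_bl h3 hD).2 (sg_lu hD).2 ⟨(X, Y), ⟨le_rfl, ?_, rfl⟩, rfl⟩
      ⟨(X + D - 1, Y + 1 + a 1), ⟨?_, le_rfl, rfl⟩, ?_⟩
      ⟨(X, Y + D - 1), ⟨rfl, ?_, le_rfl⟩, ?_⟩
    · rw [k3]; exact ⟨by simp only; omega, le_rfl, rfl⟩
    · rw [k1]; exact ⟨le_rfl, by simp only; omega, rfl⟩
    · rw [k0]; exact ⟨rfl, le_rfl, by simp only; omega⟩
    · rw [Set.disjoint_left]; rintro v ⟨_, _, q⟩ ⟨_, _, q'⟩; omega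
    · rw [Set.disjoint_left]; rintro v ⟨_, _, q⟩ ⟨_, q', _⟩; omega
    · rw [Set.disjoint_left]; rintro v ⟨q, _, _⟩ ⟨q', _, _⟩; omega
    · simp only; omega
    · simp only; omega
    · simp only; omega
    · simp only; omega
    · simp only; omega
  · refine three_fingers a {v : ℕ × ℕ | X ≤ v.1 ∧ v.1 ≤ X ∧ v.2 = Y + 1 + a 0}
      {v : ℕ × ℕ | X + 1 + L ≤ v.1 ∧ v.1 ≤ X + D - 1 ∧ v.2 = Y + 1 + a 1}
      {v : ℕ × ℕ | v.1 = X + 1 + a 2 ∧ Y + 1 + L ≤ v.2 ∧ v.2 ≤ Y + D - 1} 0 1 2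
      (fun d _ _ => by omega) (by omega) (by omega) (by omega) (hseg_conn (by omega))
      (hseg_conn (by omega)) (vseg_conn (by omega)) (sg_l h0 hD).1 (sg_r h1 hD) (sg_u h2 hD).1
      ?_ ?_ ?_ ?_ ?_ ?_ (sg_l h0 hD).2 (sg_u h2 hD).2 ⟨(X, Y + 1 + a 0), ⟨le_rfl, le_rfl, rfl⟩, rfl⟩
      ⟨(X + D - 1, Y + 1 + a 1), ⟨?_, le_rfl, rfl⟩, ?_⟩
      ⟨(X + 1 + a 2, Y + D - 1), ⟨rfl, ?_, le_rfl⟩, ?_⟩
    · rw [k0]; exact ⟨le_rfl, le_rfl, rfl⟩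
    · rw [k1]; exact ⟨le_rfl, by simp only; omega, rfl⟩
    · rw [k2]; exact ⟨rfl, le_rfl, by simp only; omega⟩
    · rw [Set.disjoint_left]; rintro v ⟨_, q, _⟩ ⟨q', _, _⟩; omega
    · rw [Set.disjoint_left]; rintro v ⟨_, q, _⟩ ⟨q', _, _⟩; omega
    · rw [Set.disjoint_left]; rintro v ⟨q, _, _⟩ ⟨q', _, _⟩; omega
    · simp only; omega
    · simp only; omega
    · simp only; omega
    · simp only; omega

end Gad
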