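import Pool.Agent.Helper77.GL.Snake
import Pool.Agent.Helper34.BIC.Net

/-!
# Strips: wires cut at terminals (geometry of form B)

`k` wires run from left to right through an `N × N` array of cells, past terminals
`(cx s, cy s)`, `s = k x + y`, with far apart columns and arbitrary heights; the wire `y` is cut at
the terminals `(x, y)`.  The pieces are the trees `Q (x, y)`.
-/

open Set

namespace Gad

open BIC.Net

namespace Strips

variable (k : ℕ) (cx cy : ℕ → ℕ)

/-- Height of the lowest wire at the terminal `s`. -/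
def e (s : ℕ) : ℕ := cy s - 2 * (s % k)

/-- Column in which the wire `i` changes its height after the terminal `s`. -/
def col (s i : ℕ) : ℕ :=
  if e k cy s ≤ e k cy (s + 1) then cx s + 2 + (k - 1 - i) else cx s + 2 + i

/-- First column of the wire `i` at the height of the terminal `s`. -/
def start (s i : ℕ) : ℕ := if s = 0 then cx 0 - 1 else col k cx cy (s - 1) i

/-- Horizontal piece. -/
def Hor (s i a b : ℕ) : Set (ℕ × ℕ) := {c | c.2 = e k cy s + 2 * i ∧ a ≤ c.1 ∧ c.1 ≤ b}

/-- Vertical piece. -/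
def Ver (s i : ℕ) : Set (ℕ × ℕ) :=
  {c | c.1 = col k cx cy s i ∧ ((e k cy s + 2 * i ≤ c.2 ∧ c.2 ≤ e k cy (s + 1) + 2 * i) ∨
    (e k cy (s + 1) + 2 * i ≤ c.2 ∧ c.2 ≤ e k cy s + 2 * i))}

/-- The whole wire. -/
def Wire (i : ℕ) : Set (ℕ × ℕ) :=
  {c | ∃ s, c ∈ Hor k cy s i (start k cx cy s i) (col k cx cy s i) ∨ c ∈ Ver k cx cy s i}

/-- First terminal index of the piece `(x, y)`. -/
def lo (x y : ℕ) : ℕ := if x = 0 then 0 else (x - 1) * k + y

/-- Last terminal index of the piece `(x, y)`. -/
def hi (x y : ℕ) : ℕ := x * k + y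

/-- The part of the piece `(x, y)` at the height of the terminal `s`. -/
def Seg (x y s : ℕ) : Set (ℕ × ℕ) :=
  Hor k cy s y (if x ≠ 0 ∧ s = lo k x y then cx s + 1 else start k cx cy s y)
    (if s = hi k x y then cx s - 1 else col k cx cy s y)

/-- The piece up to the terminal `t`. -/
def Part (x y t : ℕ) : Set (ℕ × ℕ) :=
  {c | (∃ s, lo k x y ≤ s ∧ s ≤ t ∧ c ∈ Seg k cx cy x y s) ∨
    (∃ s, lo k x y ≤ s ∧ s < t ∧ c ∈ Ver k cx cy s y)}

/-- The trees. -/
def Q (u : ℕ × ℕ) : Set (ℕ × ℕ) :=
  {c | (u.2 < k ∧ c ∈ Part k cx cy u.1 u.2 (hi k u.1 u.2)) ∨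
    (u.2 ≠ 0 ∧ c = (cx (u.1 * k + (u.2 - 1)), cy (u.1 * k + (u.2 - 1)) + 1))}

variable {k : ℕ} {cx cy : ℕ → ℕ}

lemma hor_conn {s i a b : ℕ} (hab : a ≤ b) : Conn (Hor k cy s i a b) := by
  have h := Lane.conn (h := fun _ => e k cy s + 2 * i) (by intro x; constructor <;> omega) a (b - a)
  have e1 : Hor k cy s i a b = Lane (fun _ => e k cy s + 2 * i) a (a + (b - a)) := by
    ext c
    rw [mem_Lane]
    unfold Hor
    simp only [mem_ofPred_eq]
    omega
  rw [e1]
  exact h

lemma ver_conn {s i : ℕ} : Conn (Ver k cx cy s i) := by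
  rcases Nat.le_total (e k cy s + 2 * i) (e k cy (s + 1) + 2 * i) with h | h
  · obtain ⟨t, ht⟩ := Nat.exists_eq_add_of_le h
    have e1 : Ver k cx cy s i = Vert (col k cx cy s i) (e k cy s + 2 * i)
        (e k cy s + 2 * i + t) := by
      ext c
      rw [mem_Vert]
      unfold Ver
      simp only [mem_ofPred_eq]
      omega
    rw [e1]
    exact Vert.conn _ _ t
  · obtain ⟨t, ht⟩ := Nat.exists_eq_add_of_le h
    have e1 : Ver k cx cy s i = Vert (col k cx cy s i) (e k cy (s + 1) + 2 * i)
        (e k cy (s + 1) + 2 * i + t) := by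
      ext c
      rw [mem_Vert]
      unfold Ver
      simp only [mem_ofPred_eq]
      omega
    rw [e1]
    exact Vert.conn _ _ t

lemma col_bd {s i : ℕ} (hi : i < k) : cx s + 2 ≤ col k cx cy s i ∧
    col k cx cy s i ≤ cx s + k + 1 := by
  unfold col
  split_ifs <;> omega

lemma start_bd (hx : ∀ s, cx s + (4 * k + 8) ≤ cx (s + 1)) (hx0 : 4 * k + 8 ≤ cx 0) {s i : ℕ}
    (hi : i < k) : start k cx cy s i < cx s ∧ (s ≠ 0 → cx (s - 1) + 2 ≤ start k cx cy s i) ∧
      (s = 0 → start k cx cy s i + 1 = cx 0) := by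
  unfold start
  split_ifs with h
  · subst h
    refine ⟨by omega, fun h => absurd rfl h, fun _ => by omega⟩
  · obtain ⟨t, rfl⟩ : ∃ t, s = t + 1 := ⟨s - 1, by omega⟩
    have h1 := col_bd (k := k) (cx := cx) (cy := cy) (s := t) hi
    have h2 := hx t
    rw [show t + 1 - 1 = t by omega]
    exact ⟨by omega, fun _ => by omega, fun h => by omega⟩

lemma mono_cx (hx : ∀ s, cx s + (4 * k + 8) ≤ cx (s + 1)) :
    ∀ {s t : ℕ}, s < t → cx s + (4 * k + 8) ≤ cx t := by
  intro s t hst
  induction t, hst using Nat.le_induction with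
  | base => exact hx s
  | succ t hst ih =>
    have := hx t
    omega

lemma wire_disj (hx : ∀ s, cx s + (4 * k + 8) ≤ cx (s + 1)) (hx0 : 4 * k + 8 ≤ cx 0) {i i' : ℕ}
    (hi : i < k) (hi' : i' < k) (hii : i ≠ i') {c : ℕ × ℕ} (hc : c ∈ Wire k cx cy i)
    (hc' : c ∈ Wire k cx cy i') : False := by
  -- it is enough to treat `s ≤ s'`
  have key : ∀ i i' : ℕ, i < k → i' < k → i ≠ i' → ∀ s s', s ≤ s' →
      (c ∈ Hor k cy s i (start k cx cy s i) (col k cx cy s i) ∨ c ∈ Ver k cx cy s i) →
      (c ∈ Hor k cy s' i' (start k cx cy s' i') (col k cx cy s' i') ∨ c ∈ Ver k cx cy s' i') →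
      False := by
    intro i i' hi hi' hii s s' hss h h'
    obtain ⟨a, b⟩ := c
    unfold Hor Ver at h h'
    simp only [mem_ofPred_eq] at h h'
    have c1 := col_bd (k := k) (cx := cx) (cy := cy) (s := s) hi
    have c2 := col_bd (k := k) (cx := cx) (cy := cy) (s := s') hi'
    have st1 := start_bd (cy := cy) hx hx0 (s := s) hi
    have st2 := start_bd (cy := cy) hx hx0 (s := s') hi'
    rcases Nat.lt_trichotomy s s' with hlt | rfl | hlt
    · by_cases h1 : s' = s + 1
      · subst h1
        have hst : start k cx cy (s + 1) i' = col k cx cy s i' := by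
          unfold start
          rw [if_neg (by omega), Nat.add_sub_cancel]
        have hs1 := hx s
        rw [hst] at h' st2
        have c3 := col_bd (k := k) (cx := cx) (cy := cy) (s := s) hi'
        have ha : a ≤ cx s + k + 1 := by omega
        have hh : b = e k cy (s + 1) + 2 * i' ∧ col k cx cy s i' ≤ a := by
          rcases h' with ⟨h2, h3, h4⟩ | ⟨h2, h3⟩
          · exact ⟨h2, h3⟩
          · omega
        obtain ⟨hb, hca⟩ := hh
        unfold col at h hca
        rcases h with ⟨h2, h3, h4⟩ | ⟨h2, h3⟩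
        · split_ifs at h4 hca <;> omega
        · split_ifs at h2 hca <;> omega
      · have m1 := mono_cx hx (show s + 1 < s' by omega)
        have m2 := mono_cx hx (show s < s + 1 by omega)
        have m3 : cx (s + 1) ≤ cx (s' - 1) := by
          rcases Nat.lt_or_ge (s + 1) (s' - 1) with h4 | h4
          · have := mono_cx hx h4
            omega
          · rw [show s' - 1 = s + 1 by omega]
        have st2' := st2.2.1 (by omega)
        have hs' : cx s < cx s' := by omega
        omega
    · rcases h with ⟨h2, h3, h4⟩ | ⟨h2, h3⟩ <;> rcases h' with ⟨h2', h3', h4'⟩ | ⟨h2', h3'⟩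
      · omega
      · unfold col at h4 h2'
        split_ifs at h4 h2' <;> omega
      · unfold col at h2 h4'
        split_ifs at h2 h4' <;> omega
      · unfold col at h2 h2'
        split_ifs at h2 h2' <;> omega
    · omega
  obtain ⟨s, h⟩ := hc
  obtain ⟨s', h'⟩ := hc'
  rcases Nat.le_total s s' with hss | hss
  · exact key i i' hi hi' hii s s' hss h h'
  · exact key i' i hi' hi hii.symm s' s hss h' h

/-- At the column of a terminal a wire is horizontal. -/
lemma wire_at (hx : ∀ s, cx s + (4 * k + 8) ≤ cx (s + 1)) (hx0 : 4 * k + 8 ≤ cx 0) {i : ℕ}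
    (hi : i < k) {c : ℕ × ℕ} (hc : c ∈ Wire k cx cy i) {t : ℕ} (ht : c.1 = cx t) :
    c.2 = e k cy t + 2 * i := by
  obtain ⟨s, h⟩ := hc
  obtain ⟨a, b⟩ := c
  unfold Hor Ver at h
  simp only [mem_ofPred_eq] at h ht ⊢
  have c1 := col_bd (k := k) (cx := cx) (cy := cy) (s := s) hi
  have st1 := start_bd (cy := cy) hx hx0 (s := s) hi
  rcases Nat.lt_trichotomy s t with hst | rfl | hst
  · have m1 := mono_cx hx hst
    omega
  · omega
  · have m1 : cx t ≤ cx (s - 1) := by
      rcases Nat.lt_or_ge t (s - 1) with h4 | h4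
      · have := mono_cx hx h4
        omega
      · rw [show s - 1 = t by omega]
    have st1' := st1.2.1 (by omega)
    have hst' := mono_cx hx hst
    omega

lemma lo_le_hi {x y : ℕ} : lo k x y ≤ hi k x y := by
  unfold lo hi
  split_ifs with h
  · omega
  · have : (x - 1) * k ≤ x * k := Nat.mul_le_mul_right _ (by omega)
    omega

lemma lo_lt_hi (hk : 1 ≤ k) {x y : ℕ} (hx : x ≠ 0) : lo k x y < hi k x y := by
  unfold lo hi
  rw [if_neg hx]
  obtain ⟨x', rfl⟩ : ∃ x', x = x' + 1 := ⟨x - 1, by omega⟩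
  have : (x' + 1) * k = x' * k + k := by ring
  rw [show x' + 1 - 1 = x' by omega]
  omega

/-- Cells of the piece lie on the wire and strictly between the two terminals. -/
lemma part_sub (hk : 1 ≤ k) (hx : ∀ s, cx s + (4 * k + 8) ≤ cx (s + 1)) (hx0 : 4 * k + 8 ≤ cx 0)
    {x y : ℕ} (hy : y < k) {c : ℕ × ℕ} (hc : c ∈ Part k cx cy x y (hi k x y)) :
    c ∈ Wire k cx cy y ∧ c.1 < cx (hi k x y) ∧ (x ≠ 0 → cx (lo k x y) < c.1) ∧
      ∃ s ≤ hi k x y, (c.2 = e k cy s + 2 * y ∨ (s < hi k x y ∧
      ((e k cy s + 2 * y ≤ c.2 ∧ c.2 ≤ e k cy (s + 1) + 2 * y) ∨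
      (e k cy (s + 1) + 2 * y ≤ c.2 ∧ c.2 ≤ e k cy s + 2 * y)))) := by
  obtain ⟨a, b⟩ := c
  rcases hc with ⟨s, h1, h2, h3⟩ | ⟨s, h1, h2, h3⟩
  · unfold Seg Hor at h3
    simp only [mem_ofPred_eq] at h3
    have c1 := col_bd (k := k) (cx := cx) (cy := cy) (s := s) hy
    have st1 := start_bd (cy := cy) hx hx0 (s := s) hy
    have hmono : s ≠ hi k x y → cx s + (4 * k + 8) ≤ cx (hi k x y) := fun h =>
      mono_cx hx (by omega)
    have hmono2 : s ≠ lo k x y → cx (lo k x y) ≤ cx (s - 1) ∧ s ≠ 0 := by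
      intro h
      refine ⟨?_, by omega⟩
      rcases Nat.lt_or_ge (lo k x y) (s - 1) with h4 | h4
      · have := mono_cx hx h4
        omega
      · rw [show s - 1 = lo k x y by omega]
    have hl := lo_lt_hi (k := k) hk (x := x) (y := y)
    have hse : s = hi k x y → cx s = cx (hi k x y) := fun h => by rw [h]
    have hsl : s = lo k x y → cx s = cx (lo k x y) := fun h => by rw [h]
    have hse0 : 4 * k + 8 ≤ cx s := by
      rcases Nat.eq_zero_or_pos s with h | h
      · rw [h]; exact hx0
      · have := mono_cx hx h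
        omega
    refine ⟨⟨s, Or.inl ?_⟩, ?_, ?_, s, h2, Or.inl h3.1⟩
    · unfold Hor
      simp only [mem_ofPred_eq]
      refine ⟨h3.1, ?_, ?_⟩
      · split_ifs at h3 <;> omega
      · split_ifs at h3 <;> omega
    · simp only
      split_ifs at h3 <;> omega
    · intro hx'
      simp only
      have hl' := hl hx'
      split_ifs at h3 <;> omega
  · unfold Ver at h3
    simp only [mem_ofPred_eq] at h3
    have c1 := col_bd (k := k) (cx := cx) (cy := cy) (s := s) hy
    have hmono : cx s + (4 * k + 8) ≤ cx (hi k x y) := mono_cx hx (by omega)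
    have hmono2 : cx (lo k x y) ≤ cx s := by
      rcases Nat.lt_or_ge (lo k x y) s with h4 | h4
      · have := mono_cx hx h4
        omega
      · rw [show s = lo k x y by omega]
    refine ⟨⟨s, Or.inr h3⟩, ?_, ?_, s, h2.le, Or.inr ⟨h2, h3.2⟩⟩
    · simp only; omega
    · intro _; simp only; omega

lemma part_conn (hk : 1 ≤ k) (hx : ∀ s, cx s + (4 * k + 8) ≤ cx (s + 1))
    (hx0 : 4 * k + 8 ≤ cx 0) {x y : ℕ} (hy : y < k) :
    ∀ t, lo k x y + t ≤ hi k x y → Conn (Part k cx cy x y (lo k x y + t)) := by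
  have hseg : ∀ s, lo k x y ≤ s → s ≤ hi k x y → Conn (Seg k cx cy x y s) := by
    intro s h1 h2
    have c1 := col_bd (k := k) (cx := cx) (cy := cy) (s := s) hy
    have st1 := start_bd (cy := cy) hx hx0 (s := s) hy
    have hl := lo_lt_hi (k := k) hk (x := x) (y := y)
    unfold Seg
    refine hor_conn ?_
    split_ifs with h3 h4 h4
    · have := hl h3.1
      omega
    · omega
    · omega
    · omega
  intro t
  induction t with
  | zero =>
    intro _
    have e1 : Part k cx cy x y (lo k x y + 0) = Seg k cx cy x y (lo k x y) := by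
      ext c
      constructor
      · rintro (⟨s, h1, h2, h3⟩ | ⟨s, h1, h2, h3⟩)
        · obtain rfl : s = lo k x y := by omega
          exact h3
        · omega
      · intro h3
        exact Or.inl ⟨_, le_refl _, by omega, h3⟩
    rw [e1]
    exact hseg _ (le_refl _) lo_le_hi
  | succ t ih =>
    intro ht
    set s := lo k x y + t with hs
    have hs1 : lo k x y + (t + 1) = s + 1 := by omega
    rw [hs1] at ht ⊢
    have ih' := ih (by omega)
    have c1 := col_bd (k := k) (cx := cx) (cy := cy) (s := s) hy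
    have c2 := col_bd (k := k) (cx := cx) (cy := cy) (s := s + 1) hy
    have hxs := hx s
    have st1 := start_bd (cy := cy) hx hx0 (s := s) hy
    have m1 : (col k cx cy s y, e k cy s + 2 * y) ∈ Part k cx cy x y s := by
      refine Or.inl ⟨s, by omega, le_refl _, ?_⟩
      unfold Seg Hor
      simp only [mem_ofPred_eq, true_and]
      rw [if_neg (show ¬ s = hi k x y by omega)]
      refine ⟨?_, le_refl _⟩
      split_ifs <;> omega
    have m2 : (col k cx cy s y, e k cy s + 2 * y) ∈ Ver k cx cy s y := by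
      unfold Ver
      simp only [mem_ofPred_eq, true_and]
      omega
    have m3 : (col k cx cy s y, e k cy (s + 1) + 2 * y) ∈ Ver k cx cy s y := by
      unfold Ver
      simp only [mem_ofPred_eq, true_and]
      omega
    have m4 : (col k cx cy s y, e k cy (s + 1) + 2 * y) ∈ Seg k cx cy x y (s + 1) := by
      unfold Seg Hor start
      simp only [mem_ofPred_eq, true_and]
      rw [if_neg (show ¬ (x ≠ 0 ∧ s + 1 = lo k x y) by omega),
        if_neg (show ¬ s + 1 = 0 by omega), Nat.add_sub_cancel]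
      refine ⟨le_refl _, ?_⟩
      split_ifs <;> omega
    have h5 := (ih'.union ver_conn ⟨_, m1, m2⟩).union (hseg (s + 1) (by omega) ht)
      ⟨_, Or.inr m3, m4⟩
    have e1 : Part k cx cy x y (s + 1) = Part k cx cy x y s ∪ Ver k cx cy s y ∪
        Seg k cx cy x y (s + 1) := by
      ext c
      constructor
      · rintro (⟨s', h1, h2, h3⟩ | ⟨s', h1, h2, h3⟩)
        · by_cases h6 : s' = s + 1
          · subst h6; exact Or.inr h3
          · exact Or.inl (Or.inl (Or.inl ⟨s', h1, by omega, h3⟩))
        · by_cases h6 : s' = s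
          · subst h6; exact Or.inl (Or.inr h3)
          · exact Or.inl (Or.inl (Or.inr ⟨s', h1, by omega, h3⟩))
      · rintro (((⟨s', h1, h2, h3⟩ | ⟨s', h1, h2, h3⟩) | h3) | h3)
        · exact Or.inl ⟨s', h1, by omega, h3⟩
        · exact Or.inr ⟨s', h1, by omega, h3⟩
        · exact Or.inr ⟨s, by omega, by omega, h3⟩
        · exact Or.inl ⟨s + 1, by omega, le_refl _, h3⟩
    rw [e1]
    exact h5

lemma mod_eq {x y : ℕ} (hy : y < k) : (x * k + y) % k = y := by
  rw [mul_comm, Nat.mul_add_mod, Nat.mod_eq_of_lt hy]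

lemma idx_inj {x y x' y' : ℕ} (hy : y < k) (hy' : y' < k) (h : x * k + y = x' * k + y') :
    x = x' ∧ y = y' := by
  have h1 := mod_eq (k := k) (x := x) hy
  have h2 := mod_eq (k := k) (x := x') hy'
  rw [h, h2] at h1
  subst h1
  refine ⟨?_, rfl⟩
  have h3 : x * k = x' * k := by omega
  exact Nat.eq_of_mul_eq_mul_right (by omega) h3

lemma cx_inj (hx : ∀ s, cx s + (4 * k + 8) ≤ cx (s + 1)) {s t : ℕ} (h : cx s = cx t) : s = t := by
  rcases Nat.lt_trichotomy s t with h1 | h1 | h1
  · have := mono_cx hx h1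
    omega
  · exact h1
  · have := mono_cx hx h1
    omega

lemma q_conn (hk : 1 ≤ k) (hx : ∀ s, cx s + (4 * k + 8) ≤ cx (s + 1))
    (hx0 : 4 * k + 8 ≤ cx 0) (hcy : ∀ s, 2 * k ≤ cy s) {u : ℕ × ℕ} (hu : u ∈ colF k) :
    Conn (Q k cx cy u) := by
  obtain ⟨x, y⟩ := u
  rw [mem_colF] at hu
  rcases Nat.lt_or_ge y k with hy | hy
  · have h1 : Conn (Part k cx cy x y (hi k x y)) := by
      have h2 := lo_le_hi (k := k) (x := x) (y := y)
      have h3 := part_conn (cy := cy) hk hx hx0 hy (x := x) (hi k x y - lo k x y) (by omega)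
      rwa [show lo k x y + (hi k x y - lo k x y) = hi k x y by omega] at h3
    rcases Nat.eq_zero_or_pos y with hy0 | hy0
    · have e1 : Q k cx cy (x, y) = Part k cx cy x y (hi k x y) := by
        ext c
        unfold Q
        simp only [mem_ofPred_eq]
        constructor
        · rintro (⟨_, h⟩ | ⟨h, _⟩)
          · exact h
          · omega
        · intro h
          exact Or.inl ⟨hy, h⟩
      rw [e1]
      exact h1
    · set s := x * k + (y - 1) with hs
      have hmod : s % k = y - 1 := mod_eq (by omega)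
      have hcs := hcy s
      have hes : e k cy s + 2 * y = cy s + 2 := by
        unfold e
        rw [hmod]
        omega
      have hsh : s < hi k x y := by
        unfold hi
        omega
      have hsl : lo k x y ≤ s ∧ (x ≠ 0 → lo k x y < s) := by
        unfold lo
        split_ifs with h
        · exact ⟨by omega, fun h' => absurd h h'⟩
        · obtain ⟨x', rfl⟩ : ∃ x', x = x' + 1 := ⟨x - 1, by omega⟩
          have : (x' + 1) * k = x' * k + k := by ring
          rw [show x' + 1 - 1 = x' by omega]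
          omega
      have c1 := col_bd (k := k) (cx := cx) (cy := cy) (s := s) hy
      have st1 := start_bd (cy := cy) hx hx0 (s := s) hy
      have m1 : (cx s, cy s + 2) ∈ Part k cx cy x y (hi k x y) := by
        refine Or.inl ⟨s, hsl.1, hsh.le, ?_⟩
        unfold Seg Hor
        simp only [mem_ofPred_eq]
        refine ⟨hes.symm, ?_, ?_⟩
        · split_ifs with h4
          · have := hsl.2 h4.1
            omega
          · omega
        · rw [if_neg (show ¬ s = hi k x y by omega)]
          omega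
      have h4 : Conn {(cx s, cy s + 2), (cx s, cy s + 1)} := by
        refine Conn.pair (Or.inl ?_)
        unfold Adj
        simp
      have e1 : Q k cx cy (x, y) = Part k cx cy x y (hi k x y) ∪
          {(cx s, cy s + 2), (cx s, cy s + 1)} := by
        ext c
        unfold Q
        simp only [mem_ofPred_eq, mem_union, mem_insert_iff, mem_singleton_iff]
        constructor
        · rintro (⟨_, h⟩ | ⟨_, h⟩)
          · exact Or.inl h
          · exact Or.inr (Or.inr h)
        · rintro (h | h | h)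
          · exact Or.inl ⟨hy, h⟩
          · exact Or.inl ⟨hy, h ▸ m1⟩
          · exact Or.inr ⟨by omega, h⟩
      rw [e1]
      exact h1.union h4 ⟨_, m1, Or.inl rfl⟩
  · have e1 : Q k cx cy (x, y) = {(cx (x * k + (y - 1)), cy (x * k + (y - 1)) + 1)} := by
      ext c
      unfold Q
      simp only [mem_ofPred_eq, mem_singleton_iff]
      constructor
      · rintro (⟨h, _⟩ | ⟨_, h⟩)
        · omega
        · exact h
      · intro h
        exact Or.inr ⟨by omega, h⟩
    rw [e1]
    exact Conn.single _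

lemma q_disj (hk : 1 ≤ k) (hx : ∀ s, cx s + (4 * k + 8) ≤ cx (s + 1))
    (hx0 : 4 * k + 8 ≤ cx 0) (hcy : ∀ s, 2 * k ≤ cy s) {u u' : ℕ × ℕ} (hu : u ∈ colF k)
    (hu' : u' ∈ colF k) (huu : u ≠ u') {c : ℕ × ℕ} (hc : c ∈ Q k cx cy u)
    (hc' : c ∈ Q k cx cy u') : False := by
  obtain ⟨x, y⟩ := u
  obtain ⟨x', y'⟩ := u'
  rw [mem_colF] at hu hu'
  have hne : ¬ (x = x' ∧ y = y') := fun h => huu (by rw [h.1, h.2])
  have hpg : ∀ x y s : ℕ, y < k → c ∈ Part k cx cy x y (hi k x y) → c = (cx s, cy s + 1) →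
      False := by
    intro x y s hy h1 h2
    have h3 := (part_sub (cy := cy) hk hx hx0 hy h1).1
    have h4 := wire_at hx hx0 hy h3 (t := s) (by rw [h2])
    rw [h2] at h4
    simp only at h4
    unfold e at h4
    have := hcy s
    have h5 : s % k < k := Nat.mod_lt _ (by omega)
    omega
  have hpp : ∀ x x' y : ℕ, y < k → x < x' → c ∈ Part k cx cy x y (hi k x y) →
      c ∈ Part k cx cy x' y (hi k x' y) → False := by
    intro x x' y hy hxx h1 h2
    have h3 := (part_sub (cy := cy) hk hx hx0 hy h1).2.1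
    have h4 := (part_sub (cy := cy) hk hx hx0 hy h2).2.2.1 (by omega)
    have h5 : hi k x y ≤ lo k x' y := by
      unfold hi lo
      rw [if_neg (by omega)]
      have : x * k ≤ (x' - 1) * k := Nat.mul_le_mul_right _ (by omega)
      omega
    have h6 : cx (hi k x y) ≤ cx (lo k x' y) := by
      rcases Nat.lt_or_ge (hi k x y) (lo k x' y) with h7 | h7
      · have := mono_cx hx h7
        omega
      · rw [show hi k x y = lo k x' y by omega]
    omega
  unfold Q at hc hc'
  simp only [mem_ofPred_eq] at hc hc'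
  rcases hc with ⟨hy, hc⟩ | ⟨hy, hc⟩ <;> rcases hc' with ⟨hy', hc'⟩ | ⟨hy', hc'⟩
  · by_cases hyy : y = y'
    · subst hyy
      rcases Nat.lt_trichotomy x x' with h | h | h
      · exact hpp x x' y hy h hc hc'
      · exact hne ⟨h, rfl⟩
      · exact hpp x' x y hy h hc' hc
    · exact wire_disj hx hx0 hy hy' hyy (part_sub (cy := cy) hk hx hx0 hy hc).1
        (part_sub (cy := cy) hk hx hx0 hy' hc').1
  · exact hpg x y _ hy hc hc'
  · exact hpg x' y' _ hy' hc' hc
  · rw [hc, Prod.mk.injEq] at hc'
    have h1 := cx_inj hx hc'.1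
    have h2 := idx_inj (by omega) (by omega) h1
    exact hne ⟨h2.1, by omega⟩

end Strips

open Strips in
/-- **Strips.**  `k²` terminals with far apart columns and arbitrary heights. -/
theorem strips {k : ℕ} (hk : 1 ≤ k) {N : ℕ} (cx cy : ℕ → ℕ)
    (hx : ∀ s, s + 1 < k * k → cx s + (4 * k + 8) ≤ cx (s + 1))
    (hb : ∀ s < k * k, 4 * k + 8 ≤ cx s ∧ cx s + (4 * k + 8) ≤ N ∧ 4 * k + 8 ≤ cy s ∧
      cy s + (4 * k + 8) ≤ N) :
    ∃ Q : ℕ × ℕ → Set (ℕ × ℕ), (∀ u ∈ colF k, Conn (Q u)) ∧
      (∀ u ∈ colF k, ∀ c ∈ Q u, c.1 < N ∧ c.2 < N) ∧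
      (∀ u ∈ colF k, ∀ u' ∈ colF k, u ≠ u' → Disjoint (Q u) (Q u')) ∧
      (∀ u ∈ colF k, ∀ s < k * k, (cx s, cy s) ∉ Q u ∧ (cx s, cy s - 1) ∉ Q u) ∧
      ∀ x < k, ∀ y < k, (cx (x * k + y) - 1, cy (x * k + y)) ∈ Q (x, y) ∧
        (x + 1 < k → (cx (x * k + y) + 1, cy (x * k + y)) ∈ Q (x + 1, y)) ∧
        (cx (x * k + y), cy (x * k + y) + 1) ∈ Q (x, y + 1) := by
  classical
  have hkk : 0 < k * k := Nat.mul_pos hk hk
  -- infinite sequences
  obtain ⟨dx, hdx1, hdx2⟩ : ∃ dx : ℕ → ℕ, (∀ s < k * k, dx s = cx s) ∧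
      ∀ s, dx s + (4 * k + 8) ≤ dx (s + 1) := by
    refine ⟨fun s => if s < k * k then cx s else cx (k * k - 1) + (4 * k + 8) * (s + 1 - k * k),
      fun s hs => if_pos hs, ?_⟩
    intro s
    simp only
    split_ifs with h1 h2 h2
    · exact hx s h2
    · rw [show s = k * k - 1 by omega, show k * k - 1 + 1 + 1 - k * k = 1 by omega]
      omega
    · omega
    · rw [show s + 1 + 1 - k * k = (s + 1 - k * k) + 1 by omega, Nat.mul_add]
      omega
  obtain ⟨dy, hdy1, hdy2⟩ : ∃ dy : ℕ → ℕ, (∀ s < k * k, dy s = cy s) ∧ ∀ s, 2 * k ≤ dy s := by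
    refine ⟨fun s => if s < k * k then cy s else 2 * k, fun s hs => if_pos hs, ?_⟩
    intro s
    simp only
    split_ifs with h1
    · have := hb s h1
      omega
    · omega
  have hdx0 : 4 * k + 8 ≤ dx 0 := by
    rw [hdx1 0 hkk]
    exact (hb 0 hkk).1
  have hhi : ∀ x < k, ∀ y < k, x * k + y < k * k := by
    intro x hx' y hy
    have : (x + 1) * k ≤ k * k := Nat.mul_le_mul_right _ hx'
    have e1 : (x + 1) * k = x * k + k := by ring
    omega
  refine ⟨Q k dx dy, fun u hu => q_conn hk hdx2 hdx0 hdy2 hu, ?_, ?_, ?_, ?_⟩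
  · rintro ⟨x, y⟩ hu c hc
    rw [mem_colF] at hu
    unfold Q at hc
    simp only [mem_ofPred_eq] at hc
    rcases hc with ⟨hy, hc⟩ | ⟨hy, hc⟩
    · obtain ⟨h1, h2, _, s, h3, h4⟩ := part_sub (cy := dy) hk hdx2 hdx0 hy hc
      have h5 : hi k x y < k * k := hhi x hu.1 y hy
      have h6 := hb _ h5
      rw [hdx1 _ h5] at h2
      refine ⟨by omega, ?_⟩
      have h7 : e k dy s + 2 * y < N := by
        have h8 := hb s (by omega)
        unfold e
        rw [hdy1 s (by omega)]
        omega
      rcases h4 with h4 | ⟨h4, h9⟩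
      · omega
      · have h8 : e k dy (s + 1) + 2 * y < N := by
          have h8 := hb (s + 1) (by omega)
          unfold e
          rw [hdy1 (s + 1) (by omega)]
          omega
        omega
    · have h5 : x * k + (y - 1) < k * k := hhi x hu.1 (y - 1) (by omega)
      have h6 := hb _ h5
      rw [hc, hdx1 _ h5, hdy1 _ h5]
      simp only
      omega
  · intro u hu u' hu' huu
    rw [Set.disjoint_left]
    intro c hc hc'
    exact q_disj hk hdx2 hdx0 hdy2 hu hu' huu hc hc'
  · rintro ⟨x, y⟩ hu s hs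
    rw [mem_colF] at hu
    rw [← hdx1 s hs, ← hdy1 s hs]
    have hsy := hdy2 s
    have hsk : s % k < k := Nat.mod_lt _ hk
    unfold Q
    simp only [mem_ofPred_eq, not_or, not_and]
    refine ⟨⟨?_, ?_⟩, ⟨?_, ?_⟩⟩
    · intro hy hc
      obtain ⟨h1, h2, h3, _⟩ := part_sub (cy := dy) hk hdx2 hdx0 hy hc
      have h4 := wire_at hdx2 hdx0 hy h1 (t := s) rfl
      simp only at h2 h3 h4
      unfold e at h4
      have h5 : y = s % k := by omega
      have h6 : s = (s / k) * k + y := by
        rw [h5, mul_comm]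
        exact (Nat.div_add_mod s k).symm
      have h7 : s < hi k x y := by
        by_contra hcon
        rcases Nat.lt_or_ge (hi k x y) s with h8 | h8
        · have := mono_cx hdx2 h8
          omega
        · rw [show hi k x y = s by omega] at h2
          omega
      rcases Nat.eq_zero_or_pos x with hx0 | hx0
      · subst hx0
        unfold hi at h7
        have : s % k = s := Nat.mod_eq_of_lt (by omega)
        omega
      · have h3' := h3 (by omega)
        have h8 : lo k x y < s := by
          by_contra hcon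
          rcases Nat.lt_or_ge s (lo k x y) with h8 | h8
          · have := mono_cx hdx2 h8
            omega
          · rw [show lo k x y = s by omega] at h3'
            omega
        unfold hi at h7
        unfold lo at h8
        rw [if_neg (by omega)] at h8
        rw [h6] at h7 h8
        have h9 : s / k < x := by
          by_contra hcon
          have : x * k ≤ s / k * k := Nat.mul_le_mul_right _ (by omega)
          omega
        have h10 : x - 1 < s / k := by
          by_contra hcon
          have : s / k * k ≤ (x - 1) * k := Nat.mul_le_mul_right _ (by omega)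
          omega
        omega
    · intro hy hc
      rw [Prod.mk.injEq] at hc
      have h1 := cx_inj hdx2 hc.1
      rw [← h1] at hc
      omega
    · intro hy hc
      obtain ⟨h1, _⟩ := part_sub (cy := dy) hk hdx2 hdx0 hy hc
      have h4 := wire_at hdx2 hdx0 hy h1 (t := s) rfl
      simp only at h4
      unfold e at h4
      omega
    · intro hy hc
      rw [Prod.mk.injEq] at hc
      have h1 := cx_inj hdx2 hc.1
      rw [← h1] at hc
      omega
  · intro x hx' y hy
    have hs := hhi x hx' y hy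
    rw [← hdx1 _ hs, ← hdy1 _ hs]
    set s := x * k + y with hsdef
    have hmod : s % k = y := mod_eq hy
    have hcs := hdy2 s
    have hes : e k dy s + 2 * y = dy s := by
      unfold e
      rw [hmod]
      omega
    have c1 := col_bd (k := k) (cx := dx) (cy := dy) (s := s) hy
    have st1 := start_bd (cy := dy) hdx2 hdx0 (s := s) hy
    have hl := lo_lt_hi (k := k) hk (x := x) (y := y)
    have hl2 := lo_le_hi (k := k) (x := x) (y := y)
    refine ⟨?_, ?_, ?_⟩
    · refine Or.inl ⟨hy, Or.inl ⟨s, hl2, le_refl _, ?_⟩⟩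
      unfold Seg Hor
      simp only [mem_ofPred_eq]
      refine ⟨hes.symm, ?_, ?_⟩
      · split_ifs with h4
        · have h5 := hl h4.1
          have h6 : s = hi k x y := rfl
          omega
        · omega
      · rw [if_pos (show s = hi k x y from rfl)]
    · intro hx1
      refine Or.inl ⟨hy, Or.inl ⟨s, ?_, ?_, ?_⟩⟩
      · unfold lo
        simp only
        rw [if_neg (by omega), Nat.add_sub_cancel]
      · unfold hi
        simp only
        have : x * k ≤ (x + 1) * k := Nat.mul_le_mul_right _ (by omega)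
        omega
      · have hne : ¬ s = hi k (x + 1) y := by
          unfold hi
          have : (x + 1) * k = x * k + k := by ring
          omega
        have hlo : s = lo k (x + 1) y := by
          unfold lo
          rw [if_neg (by omega), Nat.add_sub_cancel]
        unfold Seg Hor
        simp only [mem_ofPred_eq]
        refine ⟨hes.symm, ?_, ?_⟩
        · rw [if_pos ⟨by omega, hlo⟩]
        · rw [if_neg hne]
          omega
    · refine Or.inr ⟨by simp, ?_⟩
      simp only
      rw [Nat.add_sub_cancel]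

end Gad
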