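import Pool.Agent.GL.Fing3
import Pool.Agent.GL.Strips

/-!
# Form B with holes: terminals in different columns
-/

open Set
open scoped Matroid

namespace Gad

open BIC BIC.Net BICS

variable {α : Type*} {S : Set α} {ends : α → Sym2 (ℕ × ℕ)}

lemma sidx_lt {k x y : ℕ} (hx : x < k) (hy : y < k) : x * k + y < k * k := by
  have : (x + 1) * k ≤ k * k := Nat.mul_le_mul_right _ hx
  rw [add_mul, one_mul] at this
  omega

lemma sidx_inj {k x y x' y' : ℕ} (hy : y < k) (hy' : y' < k) (h : x * k + y = x' * k + y') :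
    x = x' ∧ y = y' := by
  have h1 : (x * k + y) % k = (x' * k + y') % k := by rw [h]
  rw [Nat.add_comm, Nat.add_mul_mod_self_right, Nat.add_comm, Nat.add_mul_mod_self_right,
    Nat.mod_eq_of_lt hy, Nat.mod_eq_of_lt hy'] at h1
  subst h1
  have h2 : x * k = x' * k := by omega
  exact ⟨Nat.eq_of_mul_eq_mul_right (by omega) h2, rfl⟩

/-- columns of different terminals are far apart -/
lemma cx_far {k : ℕ} {cx : ℕ → ℕ} (hx : ∀ s, s + 1 < k * k → cx s + (4 * k + 8) ≤ cx (s + 1)) :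
    ∀ s t, s < t → t < k * k → cx s + (4 * k + 8) ≤ cx t := by
  intro s t hst
  induction t, hst using Nat.le_induction with
  | base => intro h; exact hx s h
  | succ t hst ih =>
    intro h
    have h1 := ih (by omega)
    have h2 := hx t h
    omega

/-- **Form B, terminals in different columns.** -/
theorem near_core {k : ℕ} (hk : 1 ≤ k) {M : Matroid α} [M.Finite] (hB : Bic M S ends)
    {X : ℕ × ℕ} {n L D ox oy N : ℕ} {H : Finset (ℕ × ℕ)} (hL : 1 ≤ L)
    (hG : CWL.GrdU S ends (rect X.1 X.2 n n \ hls H L))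
    (hfar : ∀ q ∈ H, ∀ q' ∈ H, q ≠ q' → CWL.Far (2 * D) q L q' L)
    (hD : Fintype.card (Cond k) + L < D) (hD3 : 2 * L + 4 ≤ D)
    (hox : X.1 ≤ ox) (hoy : X.2 ≤ oy) (hNx : ox + D * N ≤ X.1 + n) (hNy : oy + D * N ≤ X.2 + n)
    (cx cy : ℕ → ℕ) (hx : ∀ s, s + 1 < k * k → cx s + (4 * k + 8) ≤ cx (s + 1))
    (hb : ∀ s < k * k, 4 * k + 8 ≤ cx s ∧ cx s + (4 * k + 8) ≤ N ∧ 4 * k + 8 ≤ cy s ∧
      cy s + (4 * k + 8) ≤ N)
    (hq : ∀ s < k * k, (ox + D * cx s + 1, oy + D * cy s + 1) ∈ H)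
    (z : ℕ × ℕ → α) (hz : ∀ x < k, ∀ y < k, z (x, y) ∈ M.closure S ∧ z (x, y) ∉ S)
    (m : ℕ → ℕ) (hm : ∀ s, m s < 4) (a : ℕ → ℕ → ℕ) (ha : ∀ s d, a s d < L)
    (hloc : ∀ x < k, ∀ y < k, CWL.Loc M S ends (z (x, y)) = {v | ∃ d < 4, d ≠ m (x * k + y) ∧
      ftD L (ox + D * cx (x * k + y)) (oy + D * cy (x * k + y)) d (a (x * k + y) d) = v}) :
    HasUniformMinor M k := by
  classical
  set A : Set (ℕ × ℕ) := rect X.1 X.2 n n \ hls H L with hA
  have hP : Pres S ends A := fun p q hpq hp hq => hG.surj p q hpq hp hq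
  obtain ⟨Q, hQc, hQr, hQd, hQt, hQdk⟩ := strips hk cx cy hx hb
  have hcf := cx_far hx
  -- local fingers
  have hlf := fun s => local_fingers (X := ox + D * cx s) (Y := oy + D * cy s) (D := D) hL
    (by omega) (hm s) (a s) (ha s)
  choose f b hf1 hf2 hf3 hf4 hf5 hf6 hf7 hf8 using hlf
  set T : ℕ → ℕ × ℕ := fun s => (cx s, cy s) with hT
  have hTN : ∀ s < k * k, (T s).1 < N ∧ (T s).2 < N := by
    intro s hs
    have := hb s hs
    simp only [hT]
    omega
  have hcell : ∀ s, cell ox oy D (T s) = rect (ox + D * cx s) (oy + D * cy s) D D := fun s => rfl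
  -- the terminal cell minus its hole avoids all holes
  have hTA : ∀ s < k * k, ∀ v ∈ rect (ox + D * cx s) (oy + D * cy s) D D, 
      v ∉ rect (ox + D * cx s + 1) (oy + D * cy s + 1) L L → v ∈ A := by
    intro s hs v hv hv'
    refine ⟨cell_subset hox hoy hNx hNy (c := T s) (hTN s hs).1 (hTN s hs).2 hv, ?_⟩
    intro hv''
    obtain ⟨q', hq', hvq⟩ := mem_iUnion₂.1 hv''
    by_cases hne : (ox + D * cx s + 1, oy + D * cy s + 1) = q'
    · subst hne; exact hv' hvq
    · have h3 := hfar _ (hq s hs) q' hq' hne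
      unfold CWL.Far at h3
      rw [mem_rct] at hv hvq
      simp only at h3
      omega
  have hfA : ∀ s < k * k, ∀ t, 1 ≤ t → t ≤ 3 → f s t ⊆ A := by
    intro s hs t ht1 ht3 v hv
    have h3 := (hf1 s t ht1 ht3).2.1 hv
    exact hTA s hs v h3.1 h3.2
  have hfT : ∀ s t, 1 ≤ t → t ≤ 3 → f s t ⊆ cell ox oy D (T s) := by
    intro s t ht1 ht3 v hv
    exact ((hf1 s t ht1 ht3).2.1 hv).1
  have hTinj : ∀ s < k * k, ∀ s' < k * k, T s = T s' → s = s' := by
    intro s hs s' hs' h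
    have h3 : cx s = cx s' := congrArg Prod.fst h
    rcases Nat.lt_trichotomy s s' with h4 | h4 | h4
    · have := hcf s s' h4 hs'; omega
    · exact h4
    · have := hcf s' s h4 hs; omega
  -- positions
  have hpos : ∀ p : PosG k, (p.1.1 = 1 ∨ p.1.1 = 2 ∨ p.1.1 = 3) ∧ p.1.2.1 < k ∧ p.1.2.2 < k ∧
      (p.1.1 = 2 → p.1.2.1 + 1 < k) := by
    rintro ⟨⟨t, x, y⟩, hp⟩
    have h3 := Finset.mem_filter.1 hp
    have h4 := mem_posF.1 h3.1
    have h5 : t ≠ 0 := h3.2
    simp only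
    omega
  set sp : PosG k → ℕ := fun p => p.1.2.1 * k + p.1.2.2 with hsp
  have hspk : ∀ p, sp p < k * k := fun p => sidx_lt (hpos p).2.1 (hpos p).2.2.1
  have hpeq : ∀ p p' : PosG k, sp p = sp p' → p.1.1 = p'.1.1 → p = p' := by
    intro p p' h3 h4
    obtain ⟨h5, h6⟩ := sidx_inj (hpos p).2.2.1 (hpos p').2.2.1 h3
    exact Subtype.ext (Prod.ext h4 (Prod.ext h5 h6))
  set dk : PosG k → ℕ × ℕ := fun p =>
    if p.1.1 = 1 then (cx (sp p) - 1, cy (sp p)) else
      if p.1.1 = 2 then (cx (sp p) + 1, cy (sp p)) else (cx (sp p), cy (sp p) + 1) with hdkdef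
  have hdkc : ∀ p, (p.1.1 = 1 ∧ dk p = (cx (sp p) - 1, cy (sp p))) ∨
      (p.1.1 = 2 ∧ dk p = (cx (sp p) + 1, cy (sp p))) ∨
      (p.1.1 = 3 ∧ dk p = (cx (sp p), cy (sp p) + 1)) := by
    intro p
    simp only [hdkdef]
    rcases (hpos p).1 with h | h | h
    · left; exact ⟨h, by rw [if_pos h]⟩
    · right; left; exact ⟨h, by rw [if_neg (by omega), if_pos h]⟩
    · right; right; exact ⟨h, by rw [if_neg (by omega), if_neg (by omega)]⟩
  have hray : ∀ p : PosG k, 1 ≤ p.1.1 ∧ p.1.1 ≤ 3 := by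
    intro p
    have := (hpos p).1
    omega
  -- the rest
  set rp : ℕ → Set (ℕ × ℕ) := fun s =>
    f s 2 ∪ rect (ox + D * cx s + 1 + L) (oy + D * cy s) (D - (L + 1)) D with hrp
  have hrpT : ∀ s, rp s ⊆ cell ox oy D (T s) := by
    intro s v hv
    rcases hv with hv | hv
    · exact hfT s 2 (by omega) (by omega) hv
    · rw [mem_rct] at hv
      rw [hcell, mem_rct]
      omega
  have hrpA : ∀ s < k * k, rp s ⊆ A := by
    intro s hs v hv
    rcases hv with hv | hv
    · exact hfA s hs 2 (by omega) (by omega) hv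
    · rw [mem_rct] at hv
      refine hTA s hs v ?_ ?_
      · rw [mem_rct]; omega
      · rw [mem_rct]; omega
  have hrpC : ∀ s, Conn (rp s) := by
    intro s
    obtain ⟨v, hv, hv1⟩ := hf7 s
    refine (hf1 s 2 (by omega) (by omega)).1.union (rect_conn (by omega) (by omega)) ⟨v, hv, ?_⟩
    have h3 := hfT s 2 (by omega) (by omega) hv
    rw [hcell, mem_rct] at h3
    rw [mem_rct]
    omega
  set Ys : Finset ℕ := (Finset.range k).image (fun y => (k - 1) * k + y) with hYs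
  have hYk : ∀ s ∈ Ys, s < k * k := by
    intro s hs
    obtain ⟨y, hy, rfl⟩ := Finset.mem_image.1 hs
    exact sidx_lt (by omega) (Finset.mem_range.1 hy)
  have hYFe : ∀ s, ∃ Fe : Set α, s ∈ Ys → FullB S ends (rp s) Fe := by
    intro s
    by_cases hs : s ∈ Ys
    · have hsk := hYk s hs
      obtain ⟨F, e, h3, h4, h5⟩ := cluster_of (S := S) (ends := ends) (W := rp s)
        ((rect_finite _ _ _ _).subset (hrpT s)) ((hrpC s).vconn hP (hrpA s hsk))
        (hasCyc_face (x := ox + D * cx s + 1 + L) (y := oy + D * cy s) hP (hrpA s hsk)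
          (Or.inr (by rw [mem_rct]; simp only; omega)) (Or.inr (by rw [mem_rct]; simp only; omega))
          (Or.inr (by rw [mem_rct]; simp only; omega)) (Or.inr (by rw [mem_rct]; simp only; omega)))
      exact ⟨F, fun _ => FullB.of_arb h3 h4 h5⟩
    · exact ⟨∅, fun h => absurd h hs⟩
  choose Fe hFe using hYFe
  have hRfull := FullB.biUnion Ys rp Fe hFe (by
    intro s hs s' hs' hne
    refine (cell_disj ?_).mono (hrpT s) (hrpT s')
    intro h
    exact hne (hTinj s (hYk s hs) s' (hYk s' hs') h))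
  -- docks
  have hdkQ : ∀ p : PosG k, dk p ∈ Q (colN p.1) := by
    intro p
    have h3 := hQdk p.1.2.1 (hpos p).2.1 p.1.2.2 (hpos p).2.2.1
    have hcol : colN p.1 = if p.1.1 = 1 then (p.1.2.1, p.1.2.2) else
        if p.1.1 = 2 then (p.1.2.1 + 1, p.1.2.2) else (p.1.2.1, p.1.2.2 + 1) := by
      unfold colN
      rw [if_neg (by have := hray p; omega)]
    rcases hdkc p with ⟨h4, h5⟩ | ⟨h4, h5⟩ | ⟨h4, h5⟩
    · rw [h5, hcol, if_pos h4]
      exact h3.1
    · rw [h5, hcol, if_neg (by omega), if_pos h4]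
      exact h3.2.1 ((hpos p).2.2.2 h4)
    · rw [h5, hcol, if_neg (by omega), if_neg (by omega)]
      exact h3.2.2
  have hsneq : ∀ p p' : PosG k, sp p ≠ sp p' → cx (sp p) + 4 ≤ cx (sp p') ∨
      cx (sp p') + 4 ≤ cx (sp p) := by
    intro p p' hne
    rcases Nat.lt_or_gt_of_ne hne with h | h
    · have := hcf _ _ h (hspk p'); omega
    · have := hcf _ _ h (hspk p); omega
  have hQT : ∀ u ∈ colF k, ∀ c ∈ Q u, ∀ s < k * k, c ≠ T s := by
    rintro u hu c hc s hs rfl
    exact (hQt u hu s hs).1 hc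
  refine asm_cells hk hB hL hG hfar hD (by omega) hox hoy hNx hNy z hz Q hQc hQr hQd dk hdkQ ?_
    (fun p => f (sp p) p.1.1) (fun p => b (sp p) p.1.1) ?_ ?_ ?_ ?_ ?_ (⋃ s ∈ Ys, rp s)
    (⋃ s ∈ Ys, Fe s) hRfull ?_ ?_ ?_ ?_ ?_ ?_ ?_
  · -- injectivity of the docks
    intro p p' hpp
    by_cases hs : sp p = sp p'
    · refine hpeq p p' hs ?_
      have hbs := hb _ (hspk p)
      rcases hdkc p with ⟨h4, h5⟩ | ⟨h4, h5⟩ | ⟨h4, h5⟩ <;>
      rcases hdkc p' with ⟨h4', h5'⟩ | ⟨h4', h5'⟩ | ⟨h4', h5'⟩ <;>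
      rw [h5, h5', Prod.mk.injEq, hs] at hpp <;> rw [hs] at hbs <;> omega
    · exfalso
      have h3 := hsneq p p' hs
      have hbs := hb _ (hspk p)
      have hbs' := hb _ (hspk p')
      rcases hdkc p with ⟨h4, h5⟩ | ⟨h4, h5⟩ | ⟨h4, h5⟩ <;>
      rcases hdkc p' with ⟨h4', h5'⟩ | ⟨h4', h5'⟩ | ⟨h4', h5'⟩ <;>
      rw [h5, h5', Prod.mk.injEq] at hpp <;> omega
  · exact fun p => hfA _ (hspk p) _ (hray p).1 (hray p).2
  · exact fun p => (hf1 _ _ (hray p).1 (hray p).2).1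
  · -- the ray reaches the dock
    intro p
    have hbs := hb _ (hspk p)
    have hmulx : D * (cx (sp p) - 1) + D = D * cx (sp p) := by
      have : D * (cx (sp p) - 1 + 1) = D * (cx (sp p) - 1) + D := by rw [mul_add, mul_one]
      rw [← this]
      congr 1
      omega
    have hmulx' : D * (cx (sp p) + 1) = D * cx (sp p) + D := by rw [mul_add, mul_one]
    have hmuly' : D * (cy (sp p) + 1) = D * cy (sp p) + D := by rw [mul_add, mul_one]
    have havoid : ∀ w : ℕ × ℕ, (ox + D * cx (sp p) ≤ w.1 + 1 ∧ w.1 ≤ ox + D * cx (sp p) + D ∧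
        oy + D * cy (sp p) ≤ w.2 + 1 ∧ w.2 ≤ oy + D * cy (sp p) + D) →
        w ∉ rect (ox + D * cx (sp p) + 1) (oy + D * cy (sp p) + 1) L L → w ∉ hls H L := by
      intro w hw hw' hw''
      obtain ⟨q', hq', hvq⟩ := mem_iUnion₂.1 hw''
      by_cases hne : (ox + D * cx (sp p) + 1, oy + D * cy (sp p) + 1) = q'
      · subst hne; exact hw' hvq
      · have h3 := hfar _ (hq _ (hspk p)) q' hq' hne
        unfold CWL.Far at h3
        rw [mem_rct] at hvq
        simp only at h3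
        omega
    rcases hdkc p with ⟨h4, h5⟩ | ⟨h4, h5⟩ | ⟨h4, h5⟩
    · obtain ⟨v, hv, hv1⟩ := hf6 (sp p)
      have hvT := hfT (sp p) 1 (by omega) (by omega) hv
      rw [hcell, mem_rct] at hvT
      refine ⟨(v.1 - 1, v.2), ⟨?_, ?_⟩, v, ?_, ?_⟩
      · rw [h5, mem_cell]; simp only; omega
      · refine havoid _ (by simp only; omega) ?_
        rw [mem_rct]; simp only; omega
      · rw [h4]; exact hv
      · exact Or.inr ⟨rfl, Or.inl (by simp only; omega)⟩
    · obtain ⟨v, hv, hv1⟩ := hf7 (sp p)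
      have hvT := hfT (sp p) 2 (by omega) (by omega) hv
      rw [hcell, mem_rct] at hvT
      refine ⟨(v.1 + 1, v.2), ⟨?_, ?_⟩, v, ?_, ?_⟩
      · rw [h5, mem_cell]; simp only; omega
      · refine havoid _ (by simp only; omega) ?_
        rw [mem_rct]; simp only; omega
      · rw [h4]; exact hv
      · exact Or.inr ⟨rfl, Or.inr rfl⟩
    · obtain ⟨v, hv, hv1⟩ := hf8 (sp p)
      have hvT := hfT (sp p) 3 (by omega) (by omega) hv
      rw [hcell, mem_rct] at hvT
      refine ⟨(v.1, v.2 + 1), ⟨?_, ?_⟩, v, ?_, ?_⟩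
      · rw [h5, mem_cell]; simp only; omega
      · refine havoid _ (by simp only; omega) ?_
        rw [mem_rct]; simp only; omega
      · rw [h4]; exact hv
      · exact Or.inl ⟨rfl, Or.inr rfl⟩
  · intro p u hu c hc
    exact (cell_disj (hQT u hu c hc _ (hspk p)).symm).mono_left (hfT _ _ (hray p).1 (hray p).2)
  · intro p p' hne
    by_cases hs : sp p = sp p'
    · rw [hs]
      refine hf3 (sp p') _ _ (hray p).1 (hray p).2 (hray p').1 (hray p').2 ?_
      intro h
      exact hne (hpeq p p' hs h)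
    · refine (cell_disj ?_).mono (hfT _ _ (hray p).1 (hray p).2) (hfT _ _ (hray p').1 (hray p').2)
      intro h
      exact hs (hTinj _ (hspk p) _ (hspk p') h)
  · exact iUnion₂_subset fun s hs => hrpA s (hYk s hs)
  · intro u hu c hc
    rw [Set.disjoint_iUnion₂_right]
    intro s hs
    exact (cell_disj (hQT u hu c hc s (hYk s hs))).mono_right (hrpT s)
  · intro p
    rw [Set.disjoint_iUnion₂_right]
    intro s hs
    by_cases hss : sp p = s
    · have hx1 : p.1.2.1 + 1 = k := by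
        obtain ⟨y, hy, hy'⟩ := Finset.mem_image.1 hs
        have h3 : p.1.2.1 * k + p.1.2.2 = (k - 1) * k + y := hss.trans hy'.symm
        have h4 := (sidx_inj (hpos p).2.2.1 (Finset.mem_range.1 hy) h3).1
        omega
      have ht : p.1.1 = 1 ∨ p.1.1 = 3 := by
        have h3 := hpos p
        omega
      subst hss
      have h3 := hf3 (sp p) p.1.1 2 (hray p).1 (hray p).2 (by omega) (by omega) (by omega)
      refine Set.disjoint_union_right.2 ⟨h3, ?_⟩
      rcases ht with ht | ht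
      · rw [ht]; exact hf4 (sp p)
      · rw [ht]; exact hf5 (sp p)
    · refine (cell_disj ?_).mono (hfT _ _ (hray p).1 (hray p).2) (hrpT s)
      intro h
      exact hss (hTinj _ (hspk p) _ (hYk s hs) h)
  · -- locations are in terminal cells
    intro x hx' y hy u hu c hc
    rw [hloc x hx' y hy, Set.disjoint_left]
    rintro v ⟨d, hd, hdm, rfl⟩ hv
    obtain ⟨t, ht1, ht3, hbt⟩ := hf2 (x * k + y) d hd hdm
    have h3 := hfT (x * k + y) t ht1 ht3 ((hf1 (x * k + y) t ht1 ht3).2.2.1)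
    rw [← hbt] at h3
    exact hQT u hu c hc _ (sidx_lt hx' hy) (cell_unique hv h3)
  · -- all locations are on rays or in the rest
    intro x hx' y hy
    rw [hloc x hx' y hy]
    rintro v ⟨d, hd, hdm, rfl⟩
    obtain ⟨t, ht1, ht3, hbt⟩ := hf2 (x * k + y) d hd hdm
    have h3 := (hf1 (x * k + y) t ht1 ht3).2.2.1
    rw [← hbt] at h3
    by_cases ht : t = 2 ∧ x + 1 = k
    · right
      refine mem_iUnion₂.2 ⟨x * k + y, ?_, Or.inl ?_⟩
      · refine Finset.mem_image.2 ⟨y, Finset.mem_range.2 hy, ?_⟩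
        rw [show k - 1 = x by omega]
      · rw [ht.1] at h3; exact h3
    · left
      have hp : ((t, x, y) : ℕ × ℕ × ℕ) ∈ (posF k).filter (fun p => p.1 ≠ 0) := by
        refine Finset.mem_filter.2 ⟨mem_posF.2 ⟨by omega, hx', hy, by omega, ?_⟩, ?_⟩
        · intro h4; omega
        · simp only; omega
      exact mem_iUnion.2 ⟨⟨_, hp⟩, h3⟩
  · -- the own location
    intro p
    have hf1' := hf1 (sp p) p.1.1 (hray p).1 (hray p).2
    have hl := hloc p.1.2.1 (hpos p).2.1 p.1.2.2 (hpos p).2.2.1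
    have hl' : CWL.Loc M S ends (z p.1.2) = {v | ∃ d < 4, d ≠ m (sp p) ∧
        ftD L (ox + D * cx (sp p)) (oy + D * cy (sp p)) d (a (sp p) d) = v} := hl
    rw [hl']
    ext v
    constructor
    · rintro ⟨⟨d, hd, hdm, rfl⟩, hv⟩
      exact hf1'.2.2.2.2 d hd hdm hv
    · rintro rfl
      obtain ⟨d, hd, hdm, hbd⟩ := hf1'.2.2.2.1
      exact ⟨⟨d, hd, hdm, hbd⟩, hf1'.2.2.1⟩
  · -- other gadgets
    intro p x hx' y hy hne
    rw [hloc x hx' y hy, Set.disjoint_left]
    rintro v ⟨d, hd, hdm, rfl⟩ hv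
    obtain ⟨t, ht1, ht3, hbt⟩ := hf2 (x * k + y) d hd hdm
    have h3 := hfT (x * k + y) t ht1 ht3 ((hf1 (x * k + y) t ht1 ht3).2.2.1)
    rw [← hbt] at h3
    have h4 := hfT _ _ (hray p).1 (hray p).2 hv
    have h5 := hTinj _ (sidx_lt hx' hy) _ (hspk p) (cell_unique h3 h4)
    obtain ⟨h6, h7⟩ := sidx_inj hy (hpos p).2.2.1 h5
    exact hne (Prod.ext h6 h7)

end Gad
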