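import Pool.Agent.Helper34.BIC.Link

/-!
# Random leaves

Base `C ∪ {x a} ∪ X`, leaves `v ∈ X` in blocks `BX p`, leaf elements `el v` on the line of `v` and
`x (row p)` (modulo `C`).  For a set `V` of leaves, contract `el v` for `v ∈ V` and `v` for
`v ∉ V`.  If the sets `BY p` have large rank on `BX p`, some `V` is good for few given matchings.
-/

open Set

namespace Gad

open BIC

variable {α κ π ι : Type*}

/-! ### Counting -/

lemma count1 {β : Type*} [DecidableEq β] (Z Z₀ : Finset β) (hZ : Z₀ ⊆ Z) (P : Finset β → Prop)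
    [DecidablePred P]
    (h : ∀ U ⊆ Z \ Z₀, ∀ A ⊆ Z₀, ∀ A' ⊆ Z₀, P (U ∪ A) → P (U ∪ A') → A = A') :
    (Z.powerset.filter P).card * 2 ^ Z₀.card ≤ 2 ^ Z.card := by
  have h1 : (Z.powerset.filter P).card ≤ (Z \ Z₀).powerset.card := by
    refine Finset.card_le_card_of_injOn (fun A => A \ Z₀) ?_ ?_
    · intro A hA
      have hA' := Finset.mem_filter.1 (Finset.mem_coe.1 hA)
      exact Finset.mem_coe.2 (Finset.mem_powerset.2
        (Finset.sdiff_subset_sdiff (Finset.mem_powerset.1 hA'.1) (le_refl _)))
    · intro A hA A' hA' hAA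
      have hA1 := Finset.mem_filter.1 (Finset.mem_coe.1 hA)
      have hA2 := Finset.mem_filter.1 (Finset.mem_coe.1 hA')
      simp only at hAA
      have e1 : (A \ Z₀) ∪ (A ∩ Z₀) = A := Finset.sdiff_union_inter A Z₀
      have e2 : (A' \ Z₀) ∪ (A' ∩ Z₀) = A' := Finset.sdiff_union_inter A' Z₀
      have h2 := h (A \ Z₀)
        (Finset.sdiff_subset_sdiff (Finset.mem_powerset.1 hA1.1) (le_refl _))
        (A ∩ Z₀) Finset.inter_subset_right (A' ∩ Z₀) Finset.inter_subset_right
        (by rw [e1]; exact hA1.2) (by rw [hAA, e2]; exact hA2.2)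
      rw [← e1, ← e2, hAA, h2]
  rw [Finset.card_powerset, Finset.card_sdiff_of_subset hZ] at h1
  calc (Z.powerset.filter P).card * 2 ^ Z₀.card ≤ 2 ^ (Z.card - Z₀.card) * 2 ^ Z₀.card :=
        Nat.mul_le_mul_right _ h1
    _ = 2 ^ Z.card := by
        rw [← pow_add, Nat.sub_add_cancel (Finset.card_le_card hZ)]

lemma count2 {β : Type*} [DecidableEq β] (X Z : Finset β) (hZ : Z ⊆ X) (P : Finset β → Prop)
    [DecidablePred P] (q : ℕ)
    (h : ∀ U ⊆ X \ Z, (Z.powerset.filter (fun A => P (U ∪ A))).card * q ≤ 2 ^ Z.card) :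
    (X.powerset.filter P).card * q ≤ 2 ^ X.card := by
  have h1 : (X.powerset.filter P).card =
      ∑ U ∈ (X \ Z).powerset, ((X.powerset.filter P).filter (fun V => V \ Z = U)).card := by
    refine Finset.card_eq_sum_card_fiberwise ?_
    intro V hV
    have hV' := Finset.mem_filter.1 (Finset.mem_coe.1 hV)
    exact Finset.mem_coe.2 (Finset.mem_powerset.2
      (Finset.sdiff_subset_sdiff (Finset.mem_powerset.1 hV'.1) (le_refl _)))
  have h2 : ∀ U ∈ (X \ Z).powerset,
      ((X.powerset.filter P).filter (fun V => V \ Z = U)).card * q ≤ 2 ^ Z.card := by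
    intro U hU
    refine le_trans (Nat.mul_le_mul_right _ ?_) (h U (Finset.mem_powerset.1 hU))
    refine Finset.card_le_card_of_injOn (fun V => V ∩ Z) ?_ ?_
    · intro V hV
      have hV' := Finset.mem_filter.1 (Finset.mem_coe.1 hV)
      have hV'' := Finset.mem_filter.1 hV'.1
      refine Finset.mem_coe.2 (Finset.mem_filter.2 ⟨Finset.mem_powerset.2
        Finset.inter_subset_right, ?_⟩)
      have : U ∪ V ∩ Z = V := by
        rw [← hV'.2, Finset.sdiff_union_inter]
      simp only [this]
      exact hV''.2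
    · intro V hV V' hV' hVV
      have a1 := (Finset.mem_filter.1 (Finset.mem_coe.1 hV)).2
      have a2 := (Finset.mem_filter.1 (Finset.mem_coe.1 hV')).2
      simp only at hVV
      rw [← Finset.sdiff_union_inter V Z, ← Finset.sdiff_union_inter V' Z, a1, a2, hVV]
  rw [h1, Finset.sum_mul]
  calc ∑ U ∈ (X \ Z).powerset, ((X.powerset.filter P).filter (fun V => V \ Z = U)).card * q
      ≤ ∑ U ∈ (X \ Z).powerset, 2 ^ Z.card := Finset.sum_le_sum h2
    _ = 2 ^ X.card := by
        rw [Finset.sum_const, Finset.card_powerset, smul_eq_mul, ← pow_add,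
          Finset.card_sdiff_of_subset hZ, Nat.sub_add_cancel (Finset.card_le_card hZ)]

/-! ### Spanning sets of small size are bases -/

lemma base_of_spanning {M : Matroid α} [M.Finite] {G B : Set α} (hG : M.IsBase G)
    (hB : M.Spanning B) (hc : B.ncard ≤ G.ncard) : M.IsBase B := by
  obtain ⟨B', hB', hsub⟩ := hB.exists_isBase_subset
  have h1 := hB'.ncard_eq_ncard_of_isBase hG
  have hBf : B.Finite := M.ground_finite.subset hB.subset_ground
  rw [← Set.eq_of_subset_of_ncard_le hsub (by omega) hBf]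
  exact hB'

/-! ### The key lemma -/

/-- One block `Z` of leaves at the element `x` of the base `C ∪ Z ∪ {x}`. -/
lemma key_leaf {M : Matroid α} [M.Finite] [DecidableEq α] {C : Set α} {Z : Finset α} {x : α}
    {el : α → α}
    (hbase : M.IsBase (insert x (C ∪ (Z : Set α)))) (hx : x ∉ C ∪ (Z : Set α))
    (hCZ : Disjoint C (Z : Set α))
    (h1 : ∀ v ∈ Z, el v ∈ M.closure (insert x (insert v C)))
    (h2 : ∀ v ∈ Z, v ∈ M.closure (insert x (insert (el v) C)))
    (h3 : ∀ v ∈ Z, x ∈ M.closure (insert v (insert (el v) C)))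
    {Y : Set α} (hY : Y ⊆ M.E) (hYZ : Disjoint Y (Z : Set α)) {h : ℕ}
    (hr : (insert x C).ncard + h ≤ rk M (insert x C ∪ Y)) :
    ∃ Z₀ ⊆ Z, Z₀.card = h ∧ ∀ U ⊆ Z \ Z₀, ∀ A ⊆ Z₀, ∀ A' ⊆ Z₀,
      (∀ y ∈ Y, ¬ M.Spanning (insert y (C ∪ (((Z \ (U ∪ A) : Finset α) : Set α) ∪
        el '' ((U ∪ A : Finset α) : Set α))))) →
      (∀ y ∈ Y, ¬ M.Spanning (insert y (C ∪ (((Z \ (U ∪ A') : Finset α) : Set α) ∪
        el '' ((U ∪ A' : Finset α) : Set α))))) → A = A' := by
  classical
  have hBE := hbase.subset_ground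
  have hCE : C ⊆ M.E := fun e he => hBE (Or.inr (Or.inl he))
  have hZE : (Z : Set α) ⊆ M.E := fun e he => hBE (Or.inr (Or.inr he))
  have hxE : x ∈ M.E := hBE (Or.inl rfl)
  have helE : ∀ v ∈ Z, el v ∈ M.E := fun v hv => M.closure_subset_ground _ (h1 v hv)
  have hBf : (insert x (C ∪ (Z : Set α))).Finite := M.ground_finite.subset hBE
  have hxC : insert x C ⊆ insert x (C ∪ (Z : Set α)) := insert_subset_insert subset_union_left
  have hxCf : (insert x C).Finite := hBf.subset hxC
  have hind : M.Indep (insert x C) := hbase.indep.subset hxC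
  have hxCE : insert x C ⊆ M.E := hxC.trans hBE
  -- the independent part of `Y`
  obtain ⟨I, hI, hIsub⟩ := hind.subset_isBasis_of_subset (subset_union_left (t := Y))
    (union_subset hxCE hY)
  have hIf : I.Finite := M.ground_finite.subset hI.indep.subset_ground
  have hIc : (insert x C).ncard + h ≤ I.ncard := by
    refine hr.trans (le_of_eq ?_)
    rw [← rk_closure, ← hI.closure_eq_closure, rk_closure, rk_indep hI.indep]
  have hI2 := Set.ncard_sdiff_add_ncard_of_subset hIsub hIf
  obtain ⟨Y', hY'I, hY'c⟩ := Set.exists_subset_card_eq (s := I \ insert x C) (n := h) (by omega)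
  have hY'Y : Y' ⊆ Y := by
    intro y hy
    rcases hI.subset (hY'I hy).1 with h4 | h4
    · exact absurd h4 (hY'I hy).2
    · exact h4
  have hY'f : Y'.Finite := hIf.subset (hY'I.trans sdiff_subset)
  have hi2 : M.Indep (insert x C ∪ Y') :=
    hI.indep.subset (union_subset hIsub (hY'I.trans sdiff_subset))
  obtain ⟨B', hB', hB'1, hB'2⟩ := hi2.exists_isBase_subset_union_isBase hbase
  set Z₀ : Finset α := Z.filter (fun v => v ∉ B') with hZ₀
  have hZ₀Z : Z₀ ⊆ Z := Finset.filter_subset _ _
  have hB'eq : B' = (insert x C ∪ Y') ∪ ((Z \ Z₀ : Finset α) : Set α) := by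
    apply Subset.antisymm
    · intro e he
      rcases hB'2 he with h4 | h4
      · exact Or.inl h4
      · rcases h4 with rfl | h4 | h4
        · exact Or.inl (Or.inl (Or.inl rfl))
        · exact Or.inl (Or.inl (Or.inr h4))
        · right
          rw [Finset.coe_sdiff]
          refine ⟨h4, fun h5 => ?_⟩
          exact (Finset.mem_filter.1 (Finset.mem_coe.1 h5)).2 he
    · refine union_subset hB'1 ?_
      intro e he
      rw [Finset.coe_sdiff] at he
      by_contra h5
      exact he.2 (Finset.mem_coe.2 (Finset.mem_filter.2 ⟨he.1, h5⟩))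
  have hd1 : Disjoint (insert x C) Y' := by
    rw [Set.disjoint_left]
    intro e he he'
    exact (hY'I he').2 he
  have hd2 : Disjoint (insert x C ∪ Y') ((Z \ Z₀ : Finset α) : Set α) := by
    rw [Set.disjoint_left]
    rintro e he he'
    rw [Finset.coe_sdiff] at he'
    rcases he with (rfl | he) | he
    · exact hx (Or.inr he'.1)
    · exact Set.disjoint_left.1 hCZ he he'.1
    · exact Set.disjoint_left.1 hYZ (hY'Y he) he'.1
  have hd3 : Disjoint (insert x C) (Z : Set α) := by
    rw [Set.disjoint_left]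
    rintro e he he'
    rcases he with rfl | he
    · exact hx (Or.inr he')
    · exact Set.disjoint_left.1 hCZ he he'
  have hBc : (insert x (C ∪ (Z : Set α))).ncard = (insert x C).ncard + Z.card := by
    rw [show insert x (C ∪ (Z : Set α)) = insert x C ∪ (Z : Set α) by rw [insert_union],
      Set.ncard_union_eq hd3 hxCf (Finset.finite_toSet Z), Set.ncard_coe_finset]
  have hZ₀c : Z₀.card = h := by
    have h4 := hB'.ncard_eq_ncard_of_isBase hbase
    rw [hBc, hB'eq, Set.ncard_union_eq hd2 (hxCf.union hY'f) (Finset.finite_toSet _),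
      Set.ncard_union_eq hd1 hxCf hY'f, hY'c, Set.ncard_coe_finset,
      Finset.card_sdiff_of_subset hZ₀Z] at h4
    have h5 := Finset.card_le_card hZ₀Z
    omega
  refine ⟨Z₀, hZ₀Z, hZ₀c, ?_⟩
  intro U hU
  have hUZ : U ⊆ Z := hU.trans Finset.sdiff_subset
  -- the hyperplane `K`
  set K : Set α := C ∪ ((((Z \ Z₀) \ U : Finset α) : Set α) ∪ el '' (U : Set α)) ∪ Y' with hK
  have hKE : K ⊆ M.E := by
    refine union_subset (union_subset hCE (union_subset ?_ ?_)) (hY'Y.trans hY)
    · intro e he
      refine hZE ?_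
      have := Finset.mem_coe.1 he
      exact Finset.mem_coe.2 (Finset.mem_sdiff.1 (Finset.mem_sdiff.1 this).1).1
    · rintro _ ⟨v, hv, rfl⟩
      exact helE v (hUZ hv)
  have hKsp : M.Spanning (insert x K) := by
    rw [Matroid.spanning_iff_ground_subset_closure (insert_subset hxE hKE)]
    rw [← hB'.closure_eq, hB'eq]
    refine M.closure_subset_closure_of_subset_closure ?_
    have hcl : insert x K ⊆ M.closure (insert x K) :=
      M.subset_closure _ (insert_subset hxE hKE)
    rintro e (((rfl | he) | he) | he)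
    · exact hcl (Or.inl rfl)
    · exact hcl (Or.inr (Or.inl (Or.inl he)))
    · exact hcl (Or.inr (Or.inr he))
    · by_cases heU : e ∈ U
      · refine M.closure_subset_closure ?_ (h2 e (hUZ heU))
        rintro f (rfl | rfl | hf)
        · exact Or.inl rfl
        · exact Or.inr (Or.inl (Or.inr (Or.inr ⟨e, heU, rfl⟩)))
        · exact Or.inr (Or.inl (Or.inl hf))
      · refine hcl (Or.inr (Or.inl (Or.inr (Or.inl ?_))))
        exact Finset.mem_coe.2 (Finset.mem_sdiff.2 ⟨Finset.mem_coe.1 he, heU⟩)
  have hCf : C.Finite := hxCf.subset (subset_insert _ _)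
  have hKc : (insert x K).ncard ≤ (insert x (C ∪ (Z : Set α))).ncard := by
    have a1 : (insert x K) ⊆ insert x C ∪ (((((Z \ Z₀) \ U : Finset α) : Set α) ∪
        ((U.image el : Finset α) : Set α)) ∪ Y') := by
      rintro e (rfl | ((he | he | he) | he))
      · exact Or.inl (Or.inl rfl)
      · exact Or.inl (Or.inr he)
      · exact Or.inr (Or.inl (Or.inl he))
      · exact Or.inr (Or.inl (Or.inr (by rw [Finset.coe_image]; exact he)))
      · exact Or.inr (Or.inr he)
    have a2 := Set.ncard_le_ncard a1 (hxCf.union (((Finset.finite_toSet _).union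
      (Finset.finite_toSet _)).union hY'f))
    have a3 := Set.ncard_union_le (insert x C) (((((Z \ Z₀) \ U : Finset α) : Set α) ∪
        ((U.image el : Finset α) : Set α)) ∪ Y')
    have a4 := Set.ncard_union_le ((((Z \ Z₀) \ U : Finset α) : Set α) ∪
        ((U.image el : Finset α) : Set α)) Y'
    have a5 := Set.ncard_union_le (((Z \ Z₀) \ U : Finset α) : Set α)
        ((U.image el : Finset α) : Set α)
    rw [Set.ncard_coe_finset, Set.ncard_coe_finset] at a5
    have a6 : (U.image el).card ≤ U.card := Finset.card_image_le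
    have a7 : ((Z \ Z₀) \ U).card + U.card = (Z \ Z₀).card := by
      rw [Finset.card_sdiff_of_subset hU]
      have := Finset.card_le_card hU
      omega
    have a8 : (Z \ Z₀).card + Z₀.card = Z.card := by
      rw [Finset.card_sdiff_of_subset hZ₀Z]
      have := Finset.card_le_card hZ₀Z
      omega
    omega
  have hKb : M.IsBase (insert x K) := base_of_spanning hbase hKsp hKc
  have hxK0 : x ∉ K := by
    rintro ((h4 | h4 | h4) | h4)
    · exact hx (Or.inl h4)
    · have := Finset.mem_coe.1 h4
      exact hx (Or.inr (Finset.mem_coe.2 (Finset.mem_sdiff.1 (Finset.mem_sdiff.1 this).1).1))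
    · obtain ⟨v, hv, hvx⟩ := h4
      -- `el v = x` would make `v` an element of the closure of `x` and `C`
      have h5 := h2 v (hUZ hv)
      rw [hvx, insert_idem] at h5
      have h6 : v ∈ insert x (C ∪ (Z : Set α)) := Or.inr (Or.inr (hUZ hv))
      have hvxC : v ∉ insert x C := by
        rintro (h7 | h7)
        · exact hx (Or.inr (h7 ▸ (Finset.mem_coe.2 (hUZ hv))))
        · exact Set.disjoint_left.1 hCZ h7 (Finset.mem_coe.2 (hUZ hv))
      have h7 := hbase.indep.notMem_closure_sdiff_of_mem h6
      apply h7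
      refine M.closure_subset_closure ?_ h5
      rintro f hf
      exact ⟨hxC hf, fun h8 => hvxC (h8 ▸ hf)⟩
    · exact (hY'I h4).2 (Or.inl rfl)
  have hxK : x ∉ M.closure K := by
    have h4 := hKb.indep.notMem_closure_sdiff_of_mem (mem_insert x K)
    rwa [insert_sdiff_self_of_notMem hxK0] at h4
  -- bad sets lie in the closure of `K`
  have hbad : ∀ A ⊆ Z₀, Z₀.Nonempty →
      (∀ y ∈ Y, ¬ M.Spanning (insert y (C ∪ (((Z \ (U ∪ A) : Finset α) : Set α) ∪
        el '' ((U ∪ A : Finset α) : Set α))))) →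
      C ∪ (((Z \ (U ∪ A) : Finset α) : Set α) ∪ el '' ((U ∪ A : Finset α) : Set α)) ⊆
        M.closure K := by
    intro A hA hne hb
    have hAZ : A ⊆ Z := hA.trans hZ₀Z
    set D : Set α := C ∪ (((Z \ (U ∪ A) : Finset α) : Set α) ∪
      el '' ((U ∪ A : Finset α) : Set α)) with hD
    have hUA : U ∪ A ⊆ Z := Finset.union_subset hUZ hAZ
    have hDE : D ⊆ M.E := by
      refine union_subset hCE (union_subset ?_ ?_)
      · intro e he
        exact hZE (Finset.mem_coe.2 (Finset.mem_sdiff.1 (Finset.mem_coe.1 he)).1)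
      · rintro _ ⟨v, hv, rfl⟩
        exact helE v (hUA (Finset.mem_coe.1 hv))
    have hDsp : M.Spanning (insert x D) := by
      rw [Matroid.spanning_iff_ground_subset_closure (insert_subset hxE hDE)]
      rw [← hbase.closure_eq]
      refine M.closure_subset_closure_of_subset_closure ?_
      have hcl : insert x D ⊆ M.closure (insert x D) :=
        M.subset_closure _ (insert_subset hxE hDE)
      rintro e (rfl | he | he)
      · exact hcl (Or.inl rfl)
      · exact hcl (Or.inr (Or.inl he))
      · by_cases heU : e ∈ U ∪ A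
        · refine M.closure_subset_closure ?_ (h2 e (hUA heU))
          rintro f (rfl | rfl | hf)
          · exact Or.inl rfl
          · exact Or.inr (Or.inr (Or.inr ⟨e, Finset.mem_coe.2 heU, rfl⟩))
          · exact Or.inr (Or.inl hf)
        · refine hcl (Or.inr (Or.inr (Or.inl ?_)))
          exact Finset.mem_coe.2 (Finset.mem_sdiff.2 ⟨Finset.mem_coe.1 he, heU⟩)
    -- some element of `Y`
    have hY'ne : Y'.Nonempty := by
      rw [← ncard_pos hY'f, hY'c, ← hZ₀c]
      exact Finset.card_pos.2 hne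
    obtain ⟨y₀, hy₀⟩ := hY'ne
    have hDns : ¬ M.Spanning D := by
      intro hs
      exact hb y₀ (hY'Y hy₀) (hs.superset (subset_insert _ _)
        (insert_subset (hY (hY'Y hy₀)) hDE))
    have hxD : x ∉ M.closure D := by
      intro hxD
      apply hDns
      rw [Matroid.spanning_iff_ground_subset_closure hDE, ← hDsp.closure_eq]
      exact M.closure_subset_closure_of_subset_closure
        (insert_subset hxD (M.subset_closure D hDE))
    have hYD : Y ⊆ M.closure D := by
      intro y hy
      by_contra hyD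
      apply hb y hy
      have h4 : y ∈ M.closure (insert x D) := by
        rw [hDsp.closure_eq]; exact hY hy
      have h5 : x ∈ M.closure (insert y D) := (M.closure_exchange ⟨h4, hyD⟩).1
      rw [Matroid.spanning_iff_ground_subset_closure (insert_subset (hY hy) hDE),
        ← hDsp.closure_eq]
      refine M.closure_subset_closure_of_subset_closure (insert_subset h5 ?_)
      exact (subset_insert _ _).trans (M.subset_closure _ (insert_subset (hY hy) hDE))
    have hKD : K ⊆ M.closure D := by
      have hcl : D ⊆ M.closure D := M.subset_closure D hDE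
      rintro e ((he | he | he) | he)
      · exact hcl (Or.inl he)
      · refine hcl (Or.inr (Or.inl ?_))
        have h4 := Finset.mem_sdiff.1 (Finset.mem_coe.1 he)
        have h5 := Finset.mem_sdiff.1 h4.1
        refine Finset.mem_coe.2 (Finset.mem_sdiff.2 ⟨h5.1, ?_⟩)
        intro h6
        rcases Finset.mem_union.1 h6 with h6 | h6
        · exact h4.2 h6
        · exact h5.2 (hA h6)
      · obtain ⟨v, hv, rfl⟩ := he
        exact hcl (Or.inr (Or.inr ⟨v, Finset.mem_coe.2
          (Finset.mem_union_left _ (Finset.mem_coe.1 hv)), rfl⟩))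
      · exact hYD (hY'Y he)
    intro d hd
    by_contra hdK
    have h4 : d ∈ M.closure (insert x K) := by
      rw [hKsp.closure_eq]; exact hDE hd
    have h5 : x ∈ M.closure (insert d K) := (M.closure_exchange ⟨h4, hdK⟩).1
    apply hxD
    refine M.closure_subset_closure_of_subset_closure ?_ h5
    exact insert_subset (M.subset_closure D hDE hd) hKD
  have hhalf : ∀ A ⊆ Z₀, ∀ A' ⊆ Z₀,
      (∀ y ∈ Y, ¬ M.Spanning (insert y (C ∪ (((Z \ (U ∪ A) : Finset α) : Set α) ∪
        el '' ((U ∪ A : Finset α) : Set α))))) →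
      (∀ y ∈ Y, ¬ M.Spanning (insert y (C ∪ (((Z \ (U ∪ A') : Finset α) : Set α) ∪
        el '' ((U ∪ A' : Finset α) : Set α))))) → A ⊆ A' := by
    intro A hA A' hA' hb hb' v hv
    by_contra hvA'
    have hne : Z₀.Nonempty := ⟨v, hA hv⟩
    have h4 := hbad A hA hne hb
    have h5 := hbad A' hA' hne hb'
    apply hxK
    refine M.closure_subset_closure_of_subset_closure ?_ (h3 v (hZ₀Z (hA hv)))
    rintro f (rfl | rfl | hf)
    · refine h5 (Or.inr (Or.inl (Finset.mem_coe.2 (Finset.mem_sdiff.2 ⟨hZ₀Z (hA hv), ?_⟩))))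
      intro h6
      rcases Finset.mem_union.1 h6 with h6 | h6
      · exact (Finset.mem_sdiff.1 (hU h6)).2 (hA hv)
      · exact hvA' h6
    · exact h4 (Or.inr (Or.inr ⟨v, Finset.mem_coe.2 (Finset.mem_union_right _ hv), rfl⟩))
    · exact h4 (Or.inl hf)
  intro A hA A' hA' hb hb'
  exact Finset.Subset.antisymm (hhalf A hA A' hA' hb hb') (hhalf A' hA' A hA hb' hb)

/-! ### All conditions -/

section chain

variable {M : Matroid α} {C : Set α} {x : κ → α} {el : α → α} {row : π → κ}

/-- The set obtained from the leaf set `V`, the matched positions `S` and the ports `y`. -/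
def Bs (C : Set α) (x : κ → α) (el : α → α) (row : π → κ) (X V : Finset α) (S : Finset π)
    (y : π → α) : Set α :=
  C ∪ (el '' (V : Set α) ∪ ((X : Set α) \ V)) ∪
    (x '' {a | a ∉ row '' (S : Set π)} ∪ y '' (S : Set π))

/-- The remaining part, without the block `Z` and the element `x (row p)`. -/
def Cs (C : Set α) (x : κ → α) (el : α → α) (row : π → κ) (X Z U : Finset α) (S : Finset π)
    (p : π) (y : π → α) : Set α :=
  C ∪ (el '' (U : Set α) ∪ (((X : Set α) \ Z) \ U)) ∪
    (x '' {a | a ∉ row '' (S : Set π) ∧ a ≠ row p} ∪ y '' (S : Set π))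

end chain

lemma ncard_Cs_le [Finite κ] [DecidableEq α] {C : Set α} {x : κ → α}
    {el : α → α} {row : π → κ} {X Z U : Finset α} (hZX : Z ⊆ X) (hU : U ⊆ X \ Z) {S : Finset π}
    {p : π} (hrow : InjOn row (insert p (S : Set π))) (hp : p ∉ S) (y : π → α) :
    (Cs C x el row X Z U S p y).ncard + Z.card + 1 ≤ C.ncard + X.card + Nat.card κ := by
  classical
  have e0 : Cs C x el row X Z U S p y = C ∪ (el '' (U : Set α) ∪
      (((X \ Z) \ U : Finset α) : Set α)) ∪
      (x '' {a | a ∉ row '' (S : Set π) ∧ a ≠ row p} ∪ y '' (S : Set π)) := by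
    unfold Cs
    rw [Finset.coe_sdiff, Finset.coe_sdiff]
  rw [e0]
  have a1 := Set.ncard_union_le (C ∪ (el '' (U : Set α) ∪ (((X \ Z) \ U : Finset α) : Set α)))
    (x '' {a | a ∉ row '' (S : Set π) ∧ a ≠ row p} ∪ y '' (S : Set π))
  have a2 := Set.ncard_union_le C (el '' (U : Set α) ∪ (((X \ Z) \ U : Finset α) : Set α))
  have a3 := Set.ncard_union_le (el '' (U : Set α)) (((X \ Z) \ U : Finset α) : Set α)
  have a4 := Set.ncard_union_le (x '' {a | a ∉ row '' (S : Set π) ∧ a ≠ row p})
    (y '' (S : Set π))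
  have a5 : (el '' (U : Set α)).ncard ≤ U.card := by
    rw [← Set.ncard_coe_finset U]
    exact Set.ncard_image_le (Finset.finite_toSet U)
  have a6 : (y '' (S : Set π)).ncard ≤ S.card := by
    rw [← Set.ncard_coe_finset S]
    exact Set.ncard_image_le (Finset.finite_toSet S)
  have a7 : (x '' {a | a ∉ row '' (S : Set π) ∧ a ≠ row p}).ncard + (S.card + 1) ≤
      Nat.card κ := by
    have b1 : (x '' {a | a ∉ row '' (S : Set π) ∧ a ≠ row p}).ncard ≤
        {a | a ∉ row '' (S : Set π) ∧ a ≠ row p}.ncard := Set.ncard_image_le (Set.toFinite _)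
    have b2 : {a | a ∉ row '' (S : Set π) ∧ a ≠ row p} = (row '' (insert p (S : Set π)))ᶜ := by
      ext a
      simp only [mem_ofPred_eq, mem_compl_iff, image_insert_eq, mem_insert_iff, not_or]
      tauto
    have b3 : (row '' (insert p (S : Set π))).ncard = S.card + 1 := by
      rw [hrow.ncard_image, Set.ncard_insert_of_notMem (by simpa using hp)
        (Finset.finite_toSet S), Set.ncard_coe_finset]
    have b4 := Set.ncard_add_ncard_compl (row '' (insert p (S : Set π)))
    rw [← b2, b3] at b4
    omega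
  have a8 : ((X \ Z) \ U).card + U.card = (X \ Z).card := by
    rw [Finset.card_sdiff_of_subset hU]
    have := Finset.card_le_card hU
    omega
  have a9 : (X \ Z).card + Z.card = X.card := by
    rw [Finset.card_sdiff_of_subset hZX]
    have := Finset.card_le_card hZX
    omega
  rw [Set.ncard_coe_finset] at a3
  omega

lemma Bs_eq_insert [DecidableEq α] {C : Set α} {x : κ → α} {el : α → α} {row : π → κ}
    {X Z U : Finset α} (hZX : Z ⊆ X) (hU : U ⊆ X \ Z) {S : Finset π} {p : π}
    (hp : row p ∉ row '' (S : Set π)) (y : π → α) :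
    Bs C x el row X U S y =
      insert (x (row p)) (Cs C x el row X Z U S p y ∪ (Z : Set α)) := by
  unfold Bs Cs
  ext e
  simp only [mem_union, mem_insert_iff, Finset.coe_sdiff, mem_sdiff, Finset.mem_coe, mem_image,
    mem_ofPred_eq]
  constructor
  · rintro ((h | h | ⟨h, h'⟩) | (⟨a, ha, rfl⟩ | h))
    · exact Or.inr (Or.inl (Or.inl (Or.inl h)))
    · exact Or.inr (Or.inl (Or.inl (Or.inr (Or.inl h))))
    · by_cases hz : e ∈ Z
      · exact Or.inr (Or.inr hz)
      · exact Or.inr (Or.inl (Or.inl (Or.inr (Or.inr ⟨⟨h, hz⟩, h'⟩))))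
    · by_cases hap : a = row p
      · exact Or.inl (by rw [hap])
      · exact Or.inr (Or.inl (Or.inr (Or.inl ⟨a, ⟨ha, hap⟩, rfl⟩)))
    · exact Or.inr (Or.inl (Or.inr (Or.inr h)))
  · rintro (rfl | (((h | h | ⟨⟨h, hz⟩, h'⟩) | (⟨a, ⟨ha, hap⟩, rfl⟩ | h)) | h))
    · refine Or.inr (Or.inl ⟨row p, ?_, rfl⟩)
      simpa using hp
    · exact Or.inl (Or.inl h)
    · exact Or.inl (Or.inr (Or.inl h))
    · exact Or.inl (Or.inr (Or.inr ⟨h, h'⟩))
    · exact Or.inr (Or.inl ⟨a, ha, rfl⟩)
    · exact Or.inr (Or.inr h)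
    · refine Or.inl (Or.inr (Or.inr ⟨hZX h, fun hu => ?_⟩))
      exact (Finset.mem_sdiff.1 (hU hu)).2 h

/-- The port is added: the set for `insert p S`. -/
lemma Bs_insert [DecidableEq α] [DecidableEq π] {C : Set α} {x : κ → α} {el : α → α}
    {row : π → κ} {X Z U A : Finset α} (hZX : Z ⊆ X) (hU : U ⊆ X \ Z) (hA : A ⊆ Z)
    {S : Finset π} {p : π} (hp : p ∉ S) (y : π → α) (y₀ : α) :
    Bs C x el row X (U ∪ A) (insert p S) (Function.update y p y₀) =
      insert y₀ (Cs C x el row X Z U S p y ∪ (((Z \ A : Finset α) : Set α) ∪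
        el '' (A : Set α))) := by
  have hy : ∀ q ∈ S, Function.update y p y₀ q = y q := fun q hq =>
    Function.update_of_ne (by rintro rfl; exact hp hq) _ _
  have hy' : Function.update y p y₀ '' (S : Set π) = y '' (S : Set π) := image_congr hy
  unfold Bs Cs
  rw [Finset.coe_insert, image_insert_eq, image_insert_eq, Function.update_self, hy',
    Finset.coe_union, image_union]
  ext e
  simp only [mem_union, mem_insert_iff, Finset.coe_sdiff, Finset.coe_union, mem_sdiff,
    Finset.mem_coe, mem_ofPred_eq, not_or]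
  constructor
  · rintro ((h | (h | h) | ⟨h, h', h''⟩) | (h | (h | h)))
    · exact Or.inr (Or.inl (Or.inl (Or.inl h)))
    · exact Or.inr (Or.inl (Or.inl (Or.inr (Or.inl h))))
    · exact Or.inr (Or.inr (Or.inr h))
    · by_cases hz : e ∈ Z
      · exact Or.inr (Or.inr (Or.inl ⟨hz, h''⟩))
      · exact Or.inr (Or.inl (Or.inl (Or.inr (Or.inr ⟨⟨h, hz⟩, h'⟩))))
    · obtain ⟨a, ⟨ha1, ha2⟩, rfl⟩ := h
      exact Or.inr (Or.inl (Or.inr (Or.inl ⟨a, ⟨ha2, ha1⟩, rfl⟩)))
    · exact Or.inl h
    · exact Or.inr (Or.inl (Or.inr (Or.inr h)))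
  · rintro (h | (((h | h | ⟨⟨h, hz⟩, h'⟩) | (h | h)) | (⟨h, h'⟩ | h)))
    · exact Or.inr (Or.inr (Or.inl h))
    · exact Or.inl (Or.inl h)
    · exact Or.inl (Or.inr (Or.inl (Or.inl h)))
    · exact Or.inl (Or.inr (Or.inr ⟨h, h', fun ha => hz (hA ha)⟩))
    · obtain ⟨a, ⟨ha1, ha2⟩, rfl⟩ := h
      exact Or.inr (Or.inl ⟨a, ⟨ha2, ha1⟩, rfl⟩)
    · exact Or.inr (Or.inr (Or.inr h))
    · exact Or.inl (Or.inr (Or.inr ⟨hZX h, fun hu => (Finset.mem_sdiff.1 (hU hu)).2 h, h'⟩))
    · exact Or.inl (Or.inr (Or.inl (Or.inr h)))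

/-- The data of the leaves. -/
structure LeafData (M : Matroid α) (C : Set α) (x : κ → α) (el : α → α) (row : π → κ)
    (BX : π → Finset α) (X : Finset α) : Prop where
  base : M.IsBase (C ∪ range x ∪ (X : Set α))
  xinj : Function.Injective x
  xC : ∀ a, x a ∉ C
  xX : ∀ a, x a ∉ X
  CX : Disjoint C (X : Set α)
  cov : ∀ v, v ∈ X ↔ ∃ p, v ∈ BX p
  h1 : ∀ p, ∀ v ∈ BX p, el v ∈ M.closure (insert (x (row p)) (insert v C))
  h2 : ∀ p, ∀ v ∈ BX p, v ∈ M.closure (insert (x (row p)) (insert (el v) C))
  h3 : ∀ p, ∀ v ∈ BX p, x (row p) ∈ M.closure (insert v (insert (el v) C))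

namespace LeafData

variable {M : Matroid α} {C : Set α} {x : κ → α} {el : α → α} {row : π → κ}
  {BX : π → Finset α} {X : Finset α}

lemma elE (h : LeafData M C x el row BX X) {v : α} (hv : v ∈ X) : el v ∈ M.E := by
  obtain ⟨p, hp⟩ := (h.cov v).1 hv
  exact M.closure_subset_ground _ (h.h1 p v hp)

lemma BsE (h : LeafData M C x el row BX X) {V : Finset α} (hV : V ⊆ X) {S : Finset π} {y : π → α}
    (hy : ∀ p ∈ S, y p ∈ M.E) : Bs C x el row X V S y ⊆ M.E := by
  have hb := h.base.subset_ground
  unfold Bs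
  rintro e ((he | he | he) | (he | he))
  · exact hb (Or.inl (Or.inl he))
  · obtain ⟨v, hv, rfl⟩ := he
    exact h.elE (hV hv)
  · exact hb (Or.inr he.1)
  · obtain ⟨a, _, rfl⟩ := he
    exact hb (Or.inl (Or.inr ⟨a, rfl⟩))
  · obtain ⟨p, hp, rfl⟩ := he
    exact hy p hp

/-- With `x (row p)` present, the leaves of `p` may be changed. -/
lemma span_drop [DecidableEq α] (h : LeafData M C x el row BX X) {p : π} {U A : Finset α}
    (hU : U ⊆ X \ BX p) (hA : A ⊆ BX p) {S : Finset π} {y : π → α} (hy : ∀ p ∈ S, y p ∈ M.E)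
    (hp : row p ∉ row '' (S : Set π)) (hs : M.Spanning (Bs C x el row X (U ∪ A) S y)) :
    M.Spanning (Bs C x el row X U S y) := by
  have hUX : U ⊆ X := hU.trans Finset.sdiff_subset
  have hE := h.BsE hUX hy
  rw [Matroid.spanning_iff_ground_subset_closure hE, ← hs.closure_eq]
  refine M.closure_subset_closure_of_subset_closure ?_
  have hcl : Bs C x el row X U S y ⊆ M.closure (Bs C x el row X U S y) := M.subset_closure _ hE
  have hxm : x (row p) ∈ Bs C x el row X U S y := Or.inr (Or.inl ⟨row p, hp, rfl⟩)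
  have hCm : C ⊆ Bs C x el row X U S y := fun e he => Or.inl (Or.inl he)
  rintro e ((he | he | he) | (he | he))
  · exact hcl (hCm he)
  · obtain ⟨v, hv, rfl⟩ := he
    rcases Finset.mem_union.1 (Finset.mem_coe.1 hv) with hv | hv
    · exact hcl (Or.inl (Or.inr (Or.inl ⟨v, Finset.mem_coe.2 hv, rfl⟩)))
    · refine M.closure_subset_closure ?_ (h.h1 p v (hA hv))
      rintro f (rfl | rfl | hf)
      · exact hxm
      · refine Or.inl (Or.inr (Or.inr ⟨(h.cov _).2 ⟨p, hA hv⟩, fun hfU => ?_⟩))
        exact (Finset.mem_sdiff.1 (hU hfU)).2 (hA hv)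
      · exact hCm hf
  · refine hcl (Or.inl (Or.inr (Or.inr ⟨he.1, fun hfU => he.2 ?_⟩)))
    exact Finset.mem_coe.2 (Finset.mem_union_left _ hfU)
  · exact hcl (Or.inr (Or.inl he))
  · exact hcl (Or.inr (Or.inr he))

/-- No positions: always spanning. -/
lemma span_empty (h : LeafData M C x el row BX X) {V : Finset α} (hV : V ⊆ X) (y : π → α) :
    M.Spanning (Bs C x el row X V ∅ y) := by
  have hE := h.BsE (S := (∅ : Finset π)) (y := y) hV (by simp)
  rw [Matroid.spanning_iff_ground_subset_closure hE, ← h.base.closure_eq]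
  refine M.closure_subset_closure_of_subset_closure ?_
  have hcl : Bs C x el row X V ∅ y ⊆ M.closure (Bs C x el row X V ∅ y) := M.subset_closure _ hE
  have hxm : ∀ a, x a ∈ Bs C x el row X V ∅ y := fun a => Or.inr (Or.inl ⟨a, by simp, rfl⟩)
  have hCm : C ⊆ Bs C x el row X V ∅ y := fun e he => Or.inl (Or.inl he)
  rintro e ((he | ⟨a, rfl⟩) | he)
  · exact hcl (hCm he)
  · exact hcl (hxm a)
  · by_cases hV' : e ∈ V
    · obtain ⟨p, hp⟩ := (h.cov e).1 he
      refine M.closure_subset_closure ?_ (h.h2 p e hp)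
      rintro f (rfl | rfl | hf)
      · exact hxm _
      · exact Or.inl (Or.inr (Or.inl ⟨e, hV', rfl⟩))
      · exact hCm hf
    · exact hcl (Or.inl (Or.inr (Or.inr ⟨he, hV'⟩)))

lemma ncard_base [M.Finite] [Finite κ] (h : LeafData M C x el row BX X) :
    (C ∪ range x ∪ (X : Set α)).ncard = C.ncard + Nat.card κ + X.card := by
  have hf := M.ground_finite.subset h.base.subset_ground
  have hCf : C.Finite := hf.subset (fun e he => Or.inl (Or.inl he))
  have hrf : (range x).Finite := Set.finite_range x
  rw [Set.ncard_union_eq ?_ (hCf.union hrf) (Finset.finite_toSet X), Set.ncard_union_eq ?_ hCf hrf,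
    Set.ncard_coe_finset, ← Set.image_univ, Set.ncard_image_of_injective _ h.xinj,
    Set.ncard_univ]
  · rw [Set.disjoint_left]
    rintro e he ⟨a, rfl⟩
    exact h.xC a he
  · rw [Set.disjoint_left]
    rintro e (he | ⟨a, rfl⟩) he'
    · exact Set.disjoint_left.1 h.CX he he'
    · exact h.xX a he'

/-- The set `Bs` is never bigger than a base. -/
lemma ncard_Bs_le [M.Finite] [Finite κ] (h : LeafData M C x el row BX X) {V : Finset α}
    (hV : V ⊆ X) {S : Finset π} (hrow : InjOn row (S : Set π)) (y : π → α) :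
    (Bs C x el row X V S y).ncard ≤ (C ∪ range x ∪ (X : Set α)).ncard := by
  classical
  rw [h.ncard_base]
  have e0 : Bs C x el row X V S y = C ∪ (el '' (V : Set α) ∪ ((X \ V : Finset α) : Set α)) ∪
      (x '' {a | a ∉ row '' (S : Set π)} ∪ y '' (S : Set π)) := by
    unfold Bs
    rw [Finset.coe_sdiff]
  rw [e0]
  have a1 := Set.ncard_union_le (C ∪ (el '' (V : Set α) ∪ ((X \ V : Finset α) : Set α)))
    (x '' {a | a ∉ row '' (S : Set π)} ∪ y '' (S : Set π))
  have a2 := Set.ncard_union_le C (el '' (V : Set α) ∪ ((X \ V : Finset α) : Set α))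
  have a3 := Set.ncard_union_le (el '' (V : Set α)) ((X \ V : Finset α) : Set α)
  have a4 := Set.ncard_union_le (x '' {a | a ∉ row '' (S : Set π)}) (y '' (S : Set π))
  have a5 : (el '' (V : Set α)).ncard ≤ V.card := by
    rw [← Set.ncard_coe_finset V]
    exact Set.ncard_image_le (Finset.finite_toSet V)
  have a6 : (y '' (S : Set π)).ncard ≤ S.card := by
    rw [← Set.ncard_coe_finset S]
    exact Set.ncard_image_le (Finset.finite_toSet S)
  have a7 : (x '' {a | a ∉ row '' (S : Set π)}).ncard + S.card ≤ Nat.card κ := by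
    have b1 : (x '' {a | a ∉ row '' (S : Set π)}).ncard ≤ {a | a ∉ row '' (S : Set π)}.ncard :=
      Set.ncard_image_le (Set.toFinite _)
    have b2 : {a | a ∉ row '' (S : Set π)} = (row '' (S : Set π))ᶜ := rfl
    have b3 : (row '' (S : Set π)).ncard = S.card := by
      rw [hrow.ncard_image, Set.ncard_coe_finset]
    have b4 := Set.ncard_add_ncard_compl (row '' (S : Set π))
    rw [← b2, b3] at b4
    omega
  have a8 : (X \ V).card + V.card = X.card := by
    rw [Finset.card_sdiff_of_subset hV]
    have := Finset.card_le_card hV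
    omega
  rw [Set.ncard_coe_finset] at a3
  omega

end LeafData

/-- The chain predicate: the positions in `S` can be matched. -/
def Ch (M : Matroid α) (C : Set α) (x : κ → α) (el : α → α) (row : π → κ) (X : Finset α)
    (BY : π → Set α) (S : Finset π) (V : Finset α) : Prop :=
  ∃ y : π → α, (∀ p ∈ S, y p ∈ BY p) ∧ M.Spanning (Bs C x el row X V S y)

lemma Ch.insert_of {M : Matroid α} [DecidableEq α] [DecidableEq π] {C : Set α} {x : κ → α}
    {el : α → α} {row : π → κ} {X Z U A : Finset α} {BY : π → Set α} (hZX : Z ⊆ X)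
    (hU : U ⊆ X \ Z) (hA : A ⊆ Z) {S : Finset π} {p : π} (hp : p ∉ S) {y : π → α}
    (hy : ∀ q ∈ S, y q ∈ BY q) {y₀ : α} (hy₀ : y₀ ∈ BY p)
    (hs : M.Spanning (insert y₀ (Cs C x el row X Z U S p y ∪ (((Z \ A : Finset α) : Set α) ∪
        el '' (A : Set α))))) : Ch M C x el row X BY (insert p S) (U ∪ A) := by
  refine ⟨Function.update y p y₀, ?_, ?_⟩
  · intro q hq
    rcases Finset.mem_insert.1 hq with rfl | hqS
    · rw [Function.update_self]; exact hy₀
    · rw [Function.update_of_ne (by rintro rfl; exact hp hqS)]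
      exact hy q hqS
  · rw [Bs_insert hZX hU hA hp y y₀]
    exact hs

lemma step_count {M : Matroid α} [M.Finite] [Finite κ] [DecidableEq α] [DecidableEq π]
    {C : Set α} {x : κ → α} {el : α → α} {row : π → κ} {BX : π → Finset α} {X : Finset α}
    (h : LeafData M C x el row BX X) {BY : π → Set α} (hY : ∀ p, BY p ⊆ M.E)
    (hYX : ∀ p, Disjoint (BY p) (X : Set α)) {θ : ℕ}
    (hρ : ∀ p, ((C ∪ range x ∪ (X : Set α)) \ (BX p : Set α)).ncard + θ ≤
      rk M (((C ∪ range x ∪ (X : Set α)) \ (BX p : Set α)) ∪ BY p))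
    {S : Finset π} {p : π} (hp : p ∉ S) (hrow : InjOn row (insert p (S : Set π)))
    (hSθ : S.card ≤ θ) [DecidablePred (fun V => Ch M C x el row X BY S V ∧
      ¬ Ch M C x el row X BY (insert p S) V)] :
    (X.powerset.filter (fun V => Ch M C x el row X BY S V ∧
      ¬ Ch M C x el row X BY (insert p S) V)).card * 2 ^ (θ - S.card) ≤ 2 ^ X.card := by
  classical
  have hZX : BX p ⊆ X := fun v hv => (h.cov v).2 ⟨p, hv⟩
  have hbE := h.base.subset_ground
  have hrow' : InjOn row (S : Set π) := hrow.mono (subset_insert _ _)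
  have hpr : row p ∉ row '' (S : Set π) := by
    rintro ⟨q, hq, hqp⟩
    have := hrow (mem_insert_of_mem _ hq) (mem_insert _ _) hqp
    exact hp (this ▸ hq)
  refine count2 X (BX p) hZX _ _ ?_
  intro U hU
  have hUX : U ⊆ X := hU.trans Finset.sdiff_subset
  by_cases hch : Ch M C x el row X BY S U
  · obtain ⟨y, hy, hsp⟩ := hch
    have hyE : ∀ q ∈ S, y q ∈ M.E := fun q hq => hY q (hy q hq)
    obtain ⟨C', hC'⟩ : ∃ C', C' = Cs C x el row X (BX p) U S p y := ⟨_, rfl⟩
    have eB := Bs_eq_insert (C := C) (x := x) (el := el) (row := row) hZX hU hpr y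
    rw [← hC'] at eB
    have hcard := ncard_Cs_le (C := C) (x := x) (el := el) (row := row) hZX hU hrow hp y
    rw [← hC'] at hcard
    have hbase : M.IsBase (insert (x (row p)) (C' ∪ (BX p : Set α))) := by
      refine base_of_spanning h.base (eB ▸ hsp) ?_
      rw [← eB]
      exact h.ncard_Bs_le hUX hrow' y
    have hbc := hbase.ncard_eq_ncard_of_isBase h.base
    rw [h.ncard_base] at hbc
    have hbf : (insert (x (row p)) (C' ∪ (BX p : Set α))).Finite :=
      M.ground_finite.subset hbase.subset_ground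
    have hC'f : C'.Finite := hbf.subset (fun e he => Or.inr (Or.inl he))
    have hun := Set.ncard_union_le C' (BX p : Set α)
    rw [Set.ncard_coe_finset] at hun
    have hx : x (row p) ∉ C' ∪ (BX p : Set α) := by
      intro hmem
      rw [insert_eq_of_mem hmem] at hbc
      omega
    have hins := Set.ncard_insert_of_notMem hx (hbf.subset (subset_insert _ _))
    have hdis : Disjoint C' (BX p : Set α) := by
      have h4 := Set.ncard_union_add_ncard_inter C' (BX p : Set α) hC'f (Finset.finite_toSet _)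
      rw [Set.ncard_coe_finset] at h4
      have h5 : (C' ∩ (BX p : Set α)).ncard = 0 := by omega
      rw [Set.ncard_eq_zero (hC'f.subset inter_subset_left)] at h5
      exact Set.disjoint_iff_inter_eq_empty.2 h5
    have hxC' : x (row p) ∉ C' := fun hh => hx (Or.inl hh)
    have hCC' : C ⊆ C' := by
      intro e he
      rw [hC']
      exact Or.inl (Or.inl he)
    have hunion := Set.ncard_union_eq hdis hC'f (Finset.finite_toSet _)
    rw [Set.ncard_coe_finset] at hunion
    have hC'E : C' ⊆ M.E := fun e he => hbase.subset_ground (Or.inr (Or.inl he))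
    have hxE : x (row p) ∈ M.E := hbase.subset_ground (Or.inl rfl)
    obtain ⟨Z₀, hZ₀, hZ₀c, hZ₀b⟩ := key_leaf (M := M) (C := C') (Z := BX p) (x := x (row p))
      (el := el) hbase hx hdis
      (fun v hv => M.closure_subset_closure (insert_subset_insert (insert_subset_insert hCC'))
        (h.h1 p v hv))
      (fun v hv => M.closure_subset_closure (insert_subset_insert (insert_subset_insert hCC'))
        (h.h2 p v hv))
      (fun v hv => M.closure_subset_closure (insert_subset_insert (insert_subset_insert hCC'))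
        (h.h3 p v hv)) (hY p)
      ((hYX p).mono_right (Finset.coe_subset.2 hZX)) (h := θ - S.card) (by
        have h6 : rk M (((C ∪ range x ∪ (X : Set α)) \ (BX p : Set α)) ∪ BY p) ≤
            rk M (insert (x (row p)) C' ∪ BY p) + S.card := by
          have hrs : (x '' (row '' (S : Set π))).Finite :=
            ((Finset.finite_toSet S).image _).image _
          have hrsc : (x '' (row '' (S : Set π))).ncard ≤ S.card := by
            have a1 := Set.ncard_image_le (f := x) ((Finset.finite_toSet S).image row)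
            have a2 := Set.ncard_image_le (f := row) (Finset.finite_toSet S)
            rw [Set.ncard_coe_finset] at a2
            omega
          have hrsE : x '' (row '' (S : Set π)) ⊆ M.E := by
            rintro _ ⟨a, _, rfl⟩
            exact hbE (Or.inl (Or.inr ⟨a, rfl⟩))
          have hWE : insert (x (row p)) C' ∪ BY p ∪ x '' (row '' (S : Set π)) ⊆ M.E :=
            union_subset (union_subset (insert_subset hxE hC'E) (hY p)) hrsE
          have h7 : ((C ∪ range x ∪ (X : Set α)) \ (BX p : Set α)) ∪ BY p ⊆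
              M.closure (insert (x (row p)) C' ∪ BY p ∪ x '' (row '' (S : Set π))) := by
            have hcl := M.subset_closure _ hWE
            have hxa : ∀ a, x a ∈ insert (x (row p)) C' ∪ BY p ∪ x '' (row '' (S : Set π)) := by
              intro a
              by_cases ha : a ∈ row '' (S : Set π)
              · exact Or.inr ⟨a, ha, rfl⟩
              · by_cases hap : a = row p
                · rw [hap]; exact Or.inl (Or.inl (Or.inl rfl))
                · refine Or.inl (Or.inl (Or.inr ?_))
                  rw [hC']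
                  exact Or.inr (Or.inl ⟨a, ⟨ha, hap⟩, rfl⟩)
            rintro e (⟨(he | ⟨a, rfl⟩) | he, he'⟩ | he)
            · exact hcl (Or.inl (Or.inl (Or.inr (hCC' he))))
            · exact hcl (hxa a)
            · by_cases heU : e ∈ U
              · obtain ⟨q, hq⟩ := (h.cov e).1 he
                refine M.closure_subset_closure ?_ (h.h2 q e hq)
                rintro f (rfl | rfl | hf)
                · exact hxa _
                · refine Or.inl (Or.inl (Or.inr ?_))
                  rw [hC']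
                  exact Or.inl (Or.inr (Or.inl ⟨e, heU, rfl⟩))
                · exact Or.inl (Or.inl (Or.inr (hCC' hf)))
              · refine hcl (Or.inl (Or.inl (Or.inr ?_)))
                rw [hC']
                exact Or.inl (Or.inr (Or.inr ⟨⟨he, he'⟩, heU⟩))
            · exact hcl (Or.inl (Or.inr he))
          calc rk M (((C ∪ range x ∪ (X : Set α)) \ (BX p : Set α)) ∪ BY p)
              ≤ rk M (M.closure (insert (x (row p)) C' ∪ BY p ∪ x '' (row '' (S : Set π)))) :=
                rk_mono M h7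
            _ = rk M (insert (x (row p)) C' ∪ BY p ∪ x '' (row '' (S : Set π))) := rk_closure _
            _ ≤ rk M (insert (x (row p)) C' ∪ BY p) + (x '' (row '' (S : Set π))).ncard :=
                rk_union_le M hrs
            _ ≤ rk M (insert (x (row p)) C' ∪ BY p) + S.card := by omega
        have h8 := hρ p
        have h9 : ((C ∪ range x ∪ (X : Set α)) \ (BX p : Set α)).ncard + (BX p).card =
            (C ∪ range x ∪ (X : Set α)).ncard := by
          rw [← Set.ncard_coe_finset (BX p)]
          exact Set.ncard_sdiff_add_ncard_of_subset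
            ((Finset.coe_subset.2 hZX).trans subset_union_right)
            (M.ground_finite.subset hbE)
        rw [h.ncard_base] at h9
        have h10 : (insert (x (row p)) C').ncard = C'.ncard + 1 :=
          Set.ncard_insert_of_notMem hxC' hC'f
        omega)
    rw [← hZ₀c]
    refine le_trans (Nat.mul_le_mul_right _ (Finset.card_le_card ?_))
      (count1 (BX p) Z₀ hZ₀ (fun A => ∀ y' ∈ BY p, ¬ M.Spanning (insert y' (C' ∪
        (((BX p \ A : Finset α) : Set α) ∪ el '' (A : Set α))))) hZ₀b)
    intro A hA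
    have hA' := Finset.mem_filter.1 hA
    have hAZ := Finset.mem_powerset.1 hA'.1
    refine Finset.mem_filter.2 ⟨hA'.1, ?_⟩
    intro y' hy' hs
    apply hA'.2.2
    rw [hC'] at hs
    exact Ch.insert_of hZX hU hAZ hp hy hy' hs
  · have h0 : ((BX p).powerset.filter (fun A => Ch M C x el row X BY S (U ∪ A) ∧
        ¬ Ch M C x el row X BY (insert p S) (U ∪ A))) = ∅ := by
      refine Finset.filter_eq_empty_iff.2 ?_
      rintro A hA ⟨⟨y, hy, hs⟩, _⟩
      exact hch ⟨y, hy, h.span_drop hU (Finset.mem_powerset.1 hA) (fun q hq => hY q (hy q hq))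
        hpr hs⟩
    rw [h0]
    simp

/-- **Random leaves.** -/
theorem random_leaves {M : Matroid α} [M.Finite] [Finite κ] [Fintype ι] {C : Set α} {x : κ → α}
    {el : α → α} {row : π → κ} {BX : π → Finset α} {X : Finset α}
    (h : LeafData M C x el row BX X) {BY : π → Set α} (hY : ∀ p, BY p ⊆ M.E)
    (hYX : ∀ p, Disjoint (BY p) (X : Set α)) {θ n : ℕ}
    (hρ : ∀ p, ((C ∪ range x ∪ (X : Set α)) \ (BX p : Set α)).ncard + θ ≤
      rk M (((C ∪ range x ∪ (X : Set α)) \ (BX p : Set α)) ∪ BY p))
    (μ : ι → Finset π) (hμ : ∀ i, InjOn row (μ i : Set π)) (hn : ∀ i, (μ i).card ≤ n)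
    (hnθ : n ≤ θ) (hθ : Fintype.card ι * n < 2 ^ (θ - n)) [Nonempty α] :
    ∃ V ⊆ X, ∀ i, ∃ y : π → α, (∀ p ∈ μ i, y p ∈ BY p) ∧
      M.IsBase (Bs C x el row X V (μ i) y) := by
  classical
  have hone : ∀ (T S : Finset π), S ⊆ T → InjOn row (T : Set π) → T.card ≤ n →
      (X.powerset.filter (fun V => ¬ Ch M C x el row X BY S V)).card * 2 ^ (θ - n) ≤
        S.card * 2 ^ X.card := by
    intro T S
    induction S using Finset.induction_on with
    | empty =>
      intro _ _ _
      have h0 : X.powerset.filter (fun V => ¬ Ch M C x el row X BY ∅ V) = ∅ := by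
        refine Finset.filter_eq_empty_iff.2 ?_
        intro V hV hcon
        obtain ⟨a⟩ := (inferInstance : Nonempty α)
        exact hcon ⟨fun _ => a, by simp, h.span_empty (Finset.mem_powerset.1 hV) _⟩
      rw [h0]
      simp
    | insert p S hp ih =>
      intro hST hT hTn
      have ih' := ih ((Finset.subset_insert _ _).trans hST) hT hTn
      have hSc : S.card + 1 ≤ T.card := by
        rw [← Finset.card_insert_of_notMem hp]
        exact Finset.card_le_card hST
      have hst := step_count h hY hYX hρ hp (hT.mono (by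
        rw [← Finset.coe_insert]
        exact Finset.coe_subset.2 hST)) (by omega)
      have h4 : 2 ^ (θ - n) ≤ 2 ^ (θ - S.card) := Nat.pow_le_pow_right (by norm_num) (by omega)
      have h5 := (Nat.mul_le_mul_left (X.powerset.filter (fun V => Ch M C x el row X BY S V ∧
        ¬ Ch M C x el row X BY (insert p S) V)).card h4).trans hst
      have h6 : (X.powerset.filter (fun V => ¬ Ch M C x el row X BY (insert p S) V)).card ≤
          (X.powerset.filter (fun V => ¬ Ch M C x el row X BY S V)).card +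
          (X.powerset.filter (fun V => Ch M C x el row X BY S V ∧
            ¬ Ch M C x el row X BY (insert p S) V)).card := by
        refine (Finset.card_le_card ?_).trans (Finset.card_union_le _ _)
        intro V hV
        have hV' := Finset.mem_filter.1 hV
        by_cases hc : Ch M C x el row X BY S V
        · exact Finset.mem_union_right _ (Finset.mem_filter.2 ⟨hV'.1, hc, hV'.2⟩)
        · exact Finset.mem_union_left _ (Finset.mem_filter.2 ⟨hV'.1, hc⟩)
      rw [Finset.card_insert_of_notMem hp]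
      calc _ ≤ ((X.powerset.filter (fun V => ¬ Ch M C x el row X BY S V)).card +
          (X.powerset.filter (fun V => Ch M C x el row X BY S V ∧
            ¬ Ch M C x el row X BY (insert p S) V)).card) * 2 ^ (θ - n) :=
            Nat.mul_le_mul_right _ h6
        _ ≤ S.card * 2 ^ X.card + 2 ^ X.card := by
            rw [add_mul]
            exact Nat.add_le_add ih' h5
        _ = (S.card + 1) * 2 ^ X.card := by ring
  have hall : (X.powerset.filter (fun V => ∃ i, ¬ Ch M C x el row X BY (μ i) V)).card *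
      2 ^ (θ - n) < 2 ^ X.card * 2 ^ (θ - n) := by
    have h7 : (X.powerset.filter (fun V => ∃ i, ¬ Ch M C x el row X BY (μ i) V)).card ≤
        ∑ i : ι, (X.powerset.filter (fun V => ¬ Ch M C x el row X BY (μ i) V)).card := by
      refine (Finset.card_le_card ?_).trans Finset.card_biUnion_le
      intro V hV
      obtain ⟨hV1, i, hV2⟩ := Finset.mem_filter.1 hV
      exact Finset.mem_biUnion.2 ⟨i, Finset.mem_univ _, Finset.mem_filter.2 ⟨hV1, hV2⟩⟩
    calc _ ≤ (∑ i : ι, (X.powerset.filter (fun V => ¬ Ch M C x el row X BY (μ i) V)).card) *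
          2 ^ (θ - n) := Nat.mul_le_mul_right _ h7
      _ = ∑ i : ι, (X.powerset.filter (fun V => ¬ Ch M C x el row X BY (μ i) V)).card *
          2 ^ (θ - n) := Finset.sum_mul _ _ _
      _ ≤ ∑ _i : ι, n * 2 ^ X.card := by
          refine Finset.sum_le_sum (fun i _ => ?_)
          exact (hone (μ i) (μ i) (Finset.Subset.refl _) (hμ i) (hn i)).trans
            (Nat.mul_le_mul_right _ (hn i))
      _ = Fintype.card ι * n * 2 ^ X.card := by
          rw [Finset.sum_const, Finset.card_univ, smul_eq_mul, mul_assoc]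
      _ < 2 ^ (θ - n) * 2 ^ X.card := by
          exact Nat.mul_lt_mul_of_pos_right hθ (by positivity)
      _ = 2 ^ X.card * 2 ^ (θ - n) := mul_comm _ _
  have hlt : (X.powerset.filter (fun V => ∃ i, ¬ Ch M C x el row X BY (μ i) V)).card <
      X.powerset.card := by
    rw [Finset.card_powerset]
    exact Nat.lt_of_mul_lt_mul_right hall
  obtain ⟨V, hV, hVn⟩ : ∃ V ∈ X.powerset, ¬ (∃ i, ¬ Ch M C x el row X BY (μ i) V) := by
    by_contra hcon
    push Not at hcon
    have h8 : X.powerset.filter (fun V => ∃ i, ¬ Ch M C x el row X BY (μ i) V) = X.powerset :=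
      Finset.filter_true_of_mem hcon
    rw [h8] at hlt
    exact lt_irrefl _ hlt
  push Not at hVn
  refine ⟨V, Finset.mem_powerset.1 hV, fun i => ?_⟩
  obtain ⟨y, hy, hs⟩ := hVn i
  exact ⟨y, hy, base_of_spanning h.base hs (h.ncard_Bs_le (Finset.mem_powerset.1 hV) (hμ i) y)⟩

end Gad
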