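import Pool.Agent.Helper77.GL.Snake

/-!
# Fingers around a square hole

Concentric rings around `(X, Y)`: `Phi X Y R t`, `t < 8 R`, runs clockwise through the vertices at
`L_∞`-distance `R`, starting at `(X, Y - R)`.  `ray R₀ R i` is the position on the ring `R` of the
ray which starts at the position `i` of the ring `R₀`.  `Fing` : given increasing positions
`θ 0 < … < θ (K - 1)` on the ring `R₀` and increasing target rays `s 0 < … < s (K - 1)`, there are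
`K` disjoint connected sets leading from the `θ j` to the `s j` on the ring `R₁ > R₀ + 2 K`.
-/

open Set

namespace Gad

/-- The ring of radius `R` around `(X, Y)`, clockwise from below. -/
def Phi (X Y R t : ℕ) : ℕ × ℕ :=
  if t ≤ R then (X - t, Y - R)
  else if t ≤ 3 * R then (X - R, Y + t - 2 * R)
  else if t ≤ 5 * R then (X + t - 4 * R, Y + R)
  else if t ≤ 7 * R then (X + R, Y + 6 * R - t)
  else (X + 8 * R - t, Y - R)

lemma Phi_cases {X Y R t : ℕ} (ht : t < 8 * R) :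
    (t ≤ R ∧ Phi X Y R t = (X - t, Y - R)) ∨
    (R < t ∧ t ≤ 3 * R ∧ Phi X Y R t = (X - R, Y + t - 2 * R)) ∨
    (3 * R < t ∧ t ≤ 5 * R ∧ Phi X Y R t = (X + t - 4 * R, Y + R)) ∨
    (5 * R < t ∧ t ≤ 7 * R ∧ Phi X Y R t = (X + R, Y + 6 * R - t)) ∨
    (7 * R < t ∧ Phi X Y R t = (X + 8 * R - t, Y - R)) := by
  unfold Phi
  by_cases h1 : t ≤ R
  · left; exact ⟨h1, by rw [if_pos h1]⟩
  · right
    by_cases h2 : t ≤ 3 * R
    · left; exact ⟨by omega, h2, by rw [if_neg h1, if_pos h2]⟩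
    · right
      by_cases h3 : t ≤ 5 * R
      · left; exact ⟨by omega, h3, by rw [if_neg h1, if_neg h2, if_pos h3]⟩
      · right
        by_cases h4 : t ≤ 7 * R
        · left; exact ⟨by omega, h4, by rw [if_neg h1, if_neg h2, if_neg h3, if_pos h4]⟩
        · right; exact ⟨by omega, by rw [if_neg h1, if_neg h2, if_neg h3, if_neg h4]⟩

lemma Phi_inj {X Y R t R' t' : ℕ} (ht : t < 8 * R) (ht' : t' < 8 * R') (hX : R ≤ X) (hY : R ≤ Y)
    (hX' : R' ≤ X) (hY' : R' ≤ Y) (h : Phi X Y R t = Phi X Y R' t') : R = R' ∧ t = t' := by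
  rcases Phi_cases (X := X) (Y := Y) ht with ⟨a, e⟩ | ⟨a, b, e⟩ | ⟨a, b, e⟩ | ⟨a, b, e⟩ | ⟨a, e⟩ <;>
  rcases Phi_cases (X := X) (Y := Y) ht' with
    ⟨a', e'⟩ | ⟨a', b', e'⟩ | ⟨a', b', e'⟩ | ⟨a', b', e'⟩ | ⟨a', e'⟩ <;>
  rw [e, e', Prod.mk.injEq] at h <;> omega

/-- Distance from the centre. -/
lemma Phi_dist {X Y R t : ℕ} (ht : t < 8 * R) (hX : R ≤ X) (hY : R ≤ Y) :
    X ≤ (Phi X Y R t).1 + R ∧ (Phi X Y R t).1 ≤ X + R ∧ Y ≤ (Phi X Y R t).2 + R ∧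
      (Phi X Y R t).2 ≤ Y + R ∧ ((Phi X Y R t).1 + R = X ∨ (Phi X Y R t).1 = X + R ∨
      (Phi X Y R t).2 + R = Y ∨ (Phi X Y R t).2 = Y + R) := by
  rcases Phi_cases (X := X) (Y := Y) ht with ⟨a, e⟩ | ⟨a, b, e⟩ | ⟨a, b, e⟩ | ⟨a, b, e⟩ | ⟨a, e⟩ <;>
  rw [e] <;> simp only [true_and, and_true, true_or, or_true] <;> omega

lemma Phi_surj {X Y R : ℕ} (hR : 1 ≤ R) {c : ℕ × ℕ} (h1 : X ≤ c.1 + R) (h2 : c.1 ≤ X + R)
    (h3 : Y ≤ c.2 + R) (h4 : c.2 ≤ Y + R)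
    (h5 : c.1 + R = X ∨ c.1 = X + R ∨ c.2 + R = Y ∨ c.2 = Y + R) :
    ∃ t < 8 * R, Phi X Y R t = c := by
  obtain ⟨x, y⟩ := c
  simp only at h1 h2 h3 h4 h5
  by_cases hb : y + R = Y ∧ x ≤ X
  · refine ⟨X - x, by omega, ?_⟩
    unfold Phi
    rw [if_pos (by omega), Prod.mk.injEq]
    omega
  · by_cases hl : x + R = X
    · refine ⟨y + 2 * R - Y, by omega, ?_⟩
      unfold Phi
      rw [if_neg (by omega), if_pos (by omega), Prod.mk.injEq]
      omega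
    · by_cases ht : y = Y + R
      · refine ⟨x + 4 * R - X, by omega, ?_⟩
        unfold Phi
        rw [if_neg (by omega), if_neg (by omega), if_pos (by omega), Prod.mk.injEq]
        omega
      · by_cases hr : x = X + R
        · refine ⟨Y + 6 * R - y, by omega, ?_⟩
          unfold Phi
          rw [if_neg (by omega), if_neg (by omega), if_neg (by omega), if_pos (by omega),
            Prod.mk.injEq]
          omega
        · refine ⟨X + 8 * R - x, by omega, ?_⟩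
          unfold Phi
          rw [if_neg (by omega), if_neg (by omega), if_neg (by omega), if_neg (by omega),
            Prod.mk.injEq]
          omega

lemma Phi_adj {X Y R t : ℕ} (ht : t + 1 < 8 * R) (hX : R ≤ X) (hY : R ≤ Y) :
    Adj (Phi X Y R t) (Phi X Y R (t + 1)) := by
  rcases Phi_cases (X := X) (Y := Y) (show t < 8 * R by omega) with
    ⟨a, e⟩ | ⟨a, b, e⟩ | ⟨a, b, e⟩ | ⟨a, b, e⟩ | ⟨a, e⟩ <;>
  rcases Phi_cases (X := X) (Y := Y) ht with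
    ⟨a', e'⟩ | ⟨a', b', e'⟩ | ⟨a', b', e'⟩ | ⟨a', b', e'⟩ | ⟨a', e'⟩ <;>
  rw [e, e'] <;> unfold Adj <;> simp only [true_and, and_true, true_or, or_true] <;> omega

lemma Phi_adj_last {X Y R : ℕ} (hR : 1 ≤ R) (hX : R ≤ X) (hY : R ≤ Y) :
    Adj (Phi X Y R (8 * R - 1)) (Phi X Y R 0) := by
  unfold Phi Adj
  rw [if_pos (Nat.zero_le R)]
  split_ifs <;> simp only [true_and, and_true, true_or, or_true] <;> omega

/-- Position on the ring `R` of the ray starting at the position `i` of the ring `R₀`. -/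
def ray (R₀ R i : ℕ) : ℕ :=
  if i ≤ R₀ then i
  else if i ≤ 3 * R₀ then i + 2 * (R - R₀)
  else if i ≤ 5 * R₀ then i + 4 * (R - R₀)
  else if i ≤ 7 * R₀ then i + 6 * (R - R₀)
  else i + 8 * (R - R₀)

lemma ray_self (R₀ i : ℕ) : ray R₀ R₀ i = i := by
  unfold ray
  split_ifs <;> omega

lemma ray_lt {R₀ R i : ℕ} (h : R₀ ≤ R) (hi : i < 8 * R₀) : ray R₀ R i < 8 * R := by
  unfold ray
  split_ifs <;> omega

lemma ray_mono {R₀ R i i' : ℕ} (hi : i < i') : ray R₀ R i < ray R₀ R i' := by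
  unfold ray
  split_ifs <;> omega

lemma ray_adj {X Y R₀ R i : ℕ} (h : R₀ ≤ R) (hi : i < 8 * R₀) (hX : R + 1 ≤ X) (hY : R + 1 ≤ Y) :
    Adj (Phi X Y R (ray R₀ R i)) (Phi X Y (R + 1) (ray R₀ (R + 1) i)) := by
  have h1 : ray R₀ R i < 8 * R := ray_lt h hi
  have h2 : ray R₀ (R + 1) i < 8 * (R + 1) := ray_lt (by omega) hi
  rcases Phi_cases (X := X) (Y := Y) h1 with
    ⟨a, e⟩ | ⟨a, b, e⟩ | ⟨a, b, e⟩ | ⟨a, b, e⟩ | ⟨a, e⟩ <;>
  rcases Phi_cases (X := X) (Y := Y) h2 with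
    ⟨a', e'⟩ | ⟨a', b', e'⟩ | ⟨a', b', e'⟩ | ⟨a', b', e'⟩ | ⟨a', e'⟩ <;>
  rw [e, e'] <;> unfold Adj <;> simp only [true_and, and_true, true_or, or_true] <;>
    unfold ray at * <;> split_ifs at * <;> omega

end Gad
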