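import Pool.Agent.GL.Rot

/-!
# Fingers around a square hole, II: the fingers
-/

open Set

namespace Gad

/-- A segment of the ring `R`. -/
def Seg (X Y R a b : ℕ) : Set (ℕ × ℕ) := {c | ∃ t, a ≤ t ∧ t ≤ b ∧ c = Phi X Y R t}

lemma Seg.conn {X Y R : ℕ} (hX : R ≤ X) (hY : R ≤ Y) (a : ℕ) :
    ∀ n, a + n < 8 * R → Conn (Seg X Y R a (a + n)) := by
  intro n
  induction n with
  | zero =>
    intro _
    have : Seg X Y R a (a + 0) = {Phi X Y R a} := by
      ext c
      constructor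
      · rintro ⟨t, h1, h2, rfl⟩
        obtain rfl : t = a := by omega
        rfl
      · rintro rfl
        exact ⟨a, le_refl _, by omega, rfl⟩
    rw [this]
    exact Conn.single _
  | succ n ih =>
    intro h
    have h1 := (ih (by omega)).union
      (Conn.pair (Or.inl (Phi_adj (X := X) (Y := Y) (R := R) (t := a + n) (by omega) hX hY)))
      ⟨Phi X Y R (a + n), ⟨a + n, by omega, le_refl _, rfl⟩, Or.inl rfl⟩
    have e : Seg X Y R a (a + (n + 1)) = Seg X Y R a (a + n) ∪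
        {Phi X Y R (a + n), Phi X Y R (a + n + 1)} := by
      ext c
      constructor
      · rintro ⟨t, h2, h3, rfl⟩
        rcases Nat.lt_or_ge (a + n) t with h4 | h4
        · obtain rfl : t = a + n + 1 := by omega
          exact Or.inr (Or.inr rfl)
        · exact Or.inl ⟨t, h2, h4, rfl⟩
      · rintro (⟨t, h2, h3, rfl⟩ | rfl | rfl)
        · exact ⟨t, h2, by omega, rfl⟩
        · exact ⟨a + n, by omega, by omega, rfl⟩
        · exact ⟨a + n + 1, by omega, by omega, rfl⟩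
    rw [e]
    exact h1

lemma Seg.conn' {X Y R a b : ℕ} (hX : R ≤ X) (hY : R ≤ Y) (hab : a ≤ b) (hb : b < 8 * R) :
    Conn (Seg X Y R a b) := by
  obtain ⟨n, rfl⟩ := Nat.exists_eq_add_of_le hab
  exact Seg.conn hX hY a n hb

/-- A path through the rings `R₀, …, R₁`: on the ring `R` it moves from the ray `f R` to the ray
`f (R + 1)`. -/
def Fing (X Y R₀ R₁ : ℕ) (f : ℕ → ℕ) : Set (ℕ × ℕ) :=
  {c | ∃ R, R₀ ≤ R ∧ R ≤ R₁ ∧ c ∈ Seg X Y R (min (ray R₀ R (f R)) (ray R₀ R (f (R + 1))))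
    (max (ray R₀ R (f R)) (ray R₀ R (f (R + 1))))}

lemma Fing.conn {X Y R₀ : ℕ} {f : ℕ → ℕ} (hf : ∀ R, f R < 8 * R₀) :
    ∀ n, R₀ + n ≤ X → R₀ + n ≤ Y → Conn (Fing X Y R₀ (R₀ + n) f) := by
  intro n
  have hseg : ∀ R, R₀ ≤ R → R ≤ X → R ≤ Y →
      Conn (Seg X Y R (min (ray R₀ R (f R)) (ray R₀ R (f (R + 1))))
        (max (ray R₀ R (f R)) (ray R₀ R (f (R + 1))))) := by
    intro R h1 h2 h3
    refine Seg.conn' h2 h3 (min_le_max) ?_
    exact max_lt (ray_lt h1 (hf _)) (ray_lt h1 (hf _))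
  induction n with
  | zero =>
    intro hX hY
    have : Fing X Y R₀ (R₀ + 0) f = Seg X Y R₀ (min (ray R₀ R₀ (f R₀)) (ray R₀ R₀ (f (R₀ + 1))))
        (max (ray R₀ R₀ (f R₀)) (ray R₀ R₀ (f (R₀ + 1)))) := by
      ext c
      constructor
      · rintro ⟨R, h1, h2, h3⟩
        obtain rfl : R = R₀ := by omega
        exact h3
      · intro h
        exact ⟨R₀, le_refl _, by omega, h⟩
    rw [this]
    exact hseg R₀ (le_refl _) hX hY
  | succ n ih =>
    intro hX hY
    have h1 := ih (by omega) (by omega)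
    have h2 := hseg (R₀ + n + 1) (by omega) (by omega) (by omega)
    have m1 : Phi X Y (R₀ + n) (ray R₀ (R₀ + n) (f (R₀ + n + 1))) ∈ Fing X Y R₀ (R₀ + n) f :=
      ⟨R₀ + n, by omega, le_refl _, _, min_le_right _ _, le_max_right _ _, rfl⟩
    have m2 : Phi X Y (R₀ + n + 1) (ray R₀ (R₀ + n + 1) (f (R₀ + n + 1))) ∈
        Seg X Y (R₀ + n + 1) (min (ray R₀ (R₀ + n + 1) (f (R₀ + n + 1)))
          (ray R₀ (R₀ + n + 1) (f (R₀ + n + 1 + 1))))
        (max (ray R₀ (R₀ + n + 1) (f (R₀ + n + 1))) (ray R₀ (R₀ + n + 1) (f (R₀ + n + 1 + 1)))) :=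
      ⟨_, min_le_left _ _, le_max_left _ _, rfl⟩
    have h3 := Conn.pair (Or.inl (ray_adj (X := X) (Y := Y) (R₀ := R₀) (R := R₀ + n)
      (i := f (R₀ + n + 1)) (by omega) (hf _) (by omega) (by omega)))
    have h4 := (h1.union h3 ⟨_, m1, Or.inl rfl⟩).union h2 ⟨_, Or.inr (Or.inr rfl), m2⟩
    have e : Fing X Y R₀ (R₀ + (n + 1)) f = Fing X Y R₀ (R₀ + n) f ∪
        {Phi X Y (R₀ + n) (ray R₀ (R₀ + n) (f (R₀ + n + 1))),
          Phi X Y (R₀ + n + 1) (ray R₀ (R₀ + n + 1) (f (R₀ + n + 1)))} ∪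
        Seg X Y (R₀ + n + 1) (min (ray R₀ (R₀ + n + 1) (f (R₀ + n + 1)))
          (ray R₀ (R₀ + n + 1) (f (R₀ + n + 1 + 1))))
        (max (ray R₀ (R₀ + n + 1) (f (R₀ + n + 1))) (ray R₀ (R₀ + n + 1) (f (R₀ + n + 1 + 1)))) := by
      ext c
      constructor
      · rintro ⟨R, h5, h6, h7⟩
        rcases Nat.lt_or_ge (R₀ + n) R with h8 | h8
        · obtain rfl : R = R₀ + n + 1 := by omega
          exact Or.inr h7
        · exact Or.inl (Or.inl ⟨R, h5, h8, h7⟩)
      · rintro ((⟨R, h5, h6, h7⟩ | rfl | rfl) | h7)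
        · exact ⟨R, h5, by omega, h7⟩
        · obtain ⟨R, h5, h6, h7⟩ := m1
          exact ⟨R, h5, by omega, h7⟩
        · exact ⟨R₀ + n + 1, by omega, by omega, m2⟩
        · exact ⟨R₀ + n + 1, by omega, by omega, h7⟩
    rw [e]
    exact h4

/-- The course of the finger `j`: start `θ j`, at the ring `R₀ + K - j` to the right up to
`max (θ j) (s j)`, at the ring `R₀ + K + 1 + j` to the left to `s j`. -/
def course (K R₀ : ℕ) (θ s : ℕ → ℕ) (j R : ℕ) : ℕ :=
  if R ≤ R₀ + K - j then θ j else if R ≤ R₀ + K + 1 + j then max (θ j) (s j) else s j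

/-- **Fingers.**  `K` legs at increasing positions `θ j` of the ring `R₀`, increasing targets
`s j`. -/
theorem fingers {X Y R₀ R₁ K : ℕ} (hX : R₁ ≤ X) (hY : R₁ ≤ Y) (hR₁ : R₀ + 2 * K < R₁)
    (θ s : ℕ → ℕ) (hθ : ∀ j < K, θ j < 8 * R₀) (hs : ∀ j < K, s j < 8 * R₀)
    (hθm : ∀ j j', j < j' → j' < K → θ j < θ j') (hsm : ∀ j j', j < j' → j' < K → s j < s j') :
    ∃ D : ℕ → Set (ℕ × ℕ), (∀ j < K, Conn (D j)) ∧
      (∀ j < K, ∀ c ∈ D j, ∃ R t, R₀ ≤ R ∧ R ≤ R₁ ∧ t < 8 * R ∧ c = Phi X Y R t) ∧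
      (∀ j < K, ∀ j' < K, j ≠ j' → Disjoint (D j) (D j')) ∧
      (∀ j < K, ∀ t < 8 * R₀, (Phi X Y R₀ t ∈ D j ↔ t = θ j)) ∧
      (∀ j < K, ∀ t < 8 * R₁, (Phi X Y R₁ t ∈ D j ↔ t = ray R₀ R₁ (s j))) := by
  have hcl : ∀ j < K, ∀ R, course K R₀ θ s j R < 8 * R₀ := by
    intro j hj R
    have h1 := hθ j hj
    have h2 := hs j hj
    unfold course
    split_ifs
    · exact h1
    · exact max_lt h1 h2
    · exact h2
  refine ⟨fun j => Fing X Y R₀ R₁ (course K R₀ θ s j), ?_, ?_, ?_, ?_, ?_⟩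
  · intro j hj
    obtain ⟨n, hn⟩ := Nat.exists_eq_add_of_le (show R₀ ≤ R₁ by omega)
    simp only
    rw [hn]
    exact Fing.conn (hcl j hj) n (by omega) (by omega)
  · rintro j hj c ⟨R, h1, h2, t, h3, h4, rfl⟩
    exact ⟨R, t, h1, h2, lt_of_le_of_lt h4 (max_lt (ray_lt h1 (hcl j hj _))
      (ray_lt h1 (hcl j hj _))), rfl⟩
  · have key : ∀ j j', j < j' → j' < K → Disjoint (Fing X Y R₀ R₁ (course K R₀ θ s j))
        (Fing X Y R₀ R₁ (course K R₀ θ s j')) := by
      intro j j' hjj hj'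
      have hj : j < K := by omega
      rw [Set.disjoint_left]
      rintro c ⟨R, h1, h2, t, h3, h4, rfl⟩ ⟨R', h1', h2', t', h3', h4', he⟩
      have ht : t < 8 * R := lt_of_le_of_lt h4 (max_lt (ray_lt h1 (hcl j hj _))
        (ray_lt h1 (hcl j hj _)))
      have ht' : t' < 8 * R' := lt_of_le_of_lt h4' (max_lt (ray_lt h1' (hcl j' hj' _))
        (ray_lt h1' (hcl j' hj' _)))
      obtain ⟨rfl, rfl⟩ := Phi_inj ht ht' (by omega) (by omega) (by omega) (by omega) he
      have m1 := hθm j j' hjj hj'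
      have m2 := hsm j j' hjj hj'
      have hlt : ∀ a b, (a = course K R₀ θ s j R ∨ a = course K R₀ θ s j (R + 1)) →
          (b = course K R₀ θ s j' R ∨ b = course K R₀ θ s j' (R + 1)) → a < b := by
        intro a b ha hb
        unfold course at ha hb
        rcases ha with rfl | rfl <;> rcases hb with rfl | rfl <;> split_ifs <;> omega
      have hlt' : max (ray R₀ R (course K R₀ θ s j R)) (ray R₀ R (course K R₀ θ s j (R + 1))) <
          min (ray R₀ R (course K R₀ θ s j' R)) (ray R₀ R (course K R₀ θ s j' (R + 1))) := by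
        refine max_lt (lt_min ?_ ?_) (lt_min ?_ ?_)
        · exact ray_mono (hlt _ _ (Or.inl rfl) (Or.inl rfl))
        · exact ray_mono (hlt _ _ (Or.inl rfl) (Or.inr rfl))
        · exact ray_mono (hlt _ _ (Or.inr rfl) (Or.inl rfl))
        · exact ray_mono (hlt _ _ (Or.inr rfl) (Or.inr rfl))
      omega
    intro j hj j' hj' hne
    rcases Nat.lt_or_gt_of_ne hne with h | h
    · exact key j j' h hj'
    · exact (key j' j h hj).symm
  · intro j hj t ht
    have e1 : course K R₀ θ s j R₀ = θ j := by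
      unfold course; rw [if_pos (by omega)]
    have e2 : course K R₀ θ s j (R₀ + 1) = θ j := by
      unfold course; rw [if_pos (by omega)]
    constructor
    · rintro ⟨R, h1, h2, t', h3, h4, he⟩
      have ht' : t' < 8 * R := lt_of_le_of_lt h4 (max_lt (ray_lt h1 (hcl j hj _))
        (ray_lt h1 (hcl j hj _)))
      obtain ⟨rfl, rfl⟩ := Phi_inj ht ht' (by omega) (by omega) (by omega) (by omega) he
      rw [e1, e2, ray_self, min_self] at h3
      rw [e1, e2, ray_self, max_self] at h4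
      omega
    · rintro rfl
      refine ⟨R₀, le_refl _, by omega, θ j, ?_, ?_, rfl⟩
      · rw [e1, e2, ray_self, min_self]
      · rw [e1, e2, ray_self, max_self]
  · intro j hj t ht
    have e1 : course K R₀ θ s j R₁ = s j := by
      unfold course; rw [if_neg (by omega), if_neg (by omega)]
    have e2 : course K R₀ θ s j (R₁ + 1) = s j := by
      unfold course; rw [if_neg (by omega), if_neg (by omega)]
    constructor
    · rintro ⟨R, h1, h2, t', h3, h4, he⟩
      have ht' : t' < 8 * R := lt_of_le_of_lt h4 (max_lt (ray_lt h1 (hcl j hj _))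
        (ray_lt h1 (hcl j hj _)))
      obtain ⟨rfl, rfl⟩ := Phi_inj ht ht' (by omega) (by omega) (by omega) (by omega) he
      rw [e1, e2, min_self] at h3
      rw [e1, e2, max_self] at h4
      omega
    · rintro rfl
      refine ⟨R₁, by omega, le_refl _, ray R₀ R₁ (s j), ?_, ?_, rfl⟩
      · rw [e1, e2, min_self]
      · rw [e1, e2, max_self]

end Gad
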