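import Pool.Agent.Helper34.BIC.Tutte

/-!
# Turn lemma

Two linkings that meet in a set `K` compose up to a factor `2`: if every subset of `K` is fully
linked to `S` and every subset of `K` is fully linked to `T`, then `S` and `T` are linked by
`|K| / 2`.
-/

open Set
open scoped Matroid

namespace BIC

variable {α : Type*}

lemma KGe.mono_num {M : Matroid α} {S T : Set α} {m n : ℕ} (h : KGe M S T n) (hmn : m ≤ n) :
    KGe M S T m := fun X h1 h2 => by
  have := h X h1 h2
  omega

lemma KGe.mono_set {M : Matroid α} {S S' T T' : Set α} {n : ℕ} (h : KGe M S T n) (hS : S ⊆ S')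
    (hT : T ⊆ T') : KGe M S' T' n := fun X h1 h2 =>
  h X (hS.trans h1) (h2.trans (sdiff_subset_sdiff_right hT))

/-- Turn lemma. -/
theorem KGe.turn {M : Matroid α} {S T K : Set α} {n : ℕ} (hKf : K.Finite)
    (h1 : ∀ K' ⊆ K, KGe M S K' K'.ncard) (h2 : ∀ K' ⊆ K, KGe M K' T K'.ncard)
    (hn : 2 * n ≤ K.ncard + 1) : KGe M S T n := by
  intro X hSX hXT
  have hc : (K ∩ X).ncard + (K \ X).ncard = K.ncard := by
    rw [Set.ncard_inter_add_ncard_sdiff_eq_ncard K X hKf]
  rcases Nat.lt_or_ge (K ∩ X).ncard n with h | h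
  · have h3 := h1 (K \ X) sdiff_subset X hSX (by
      intro x hx
      exact ⟨(hXT hx).1, fun hh => hh.2 hx⟩)
    omega
  · have h3 := h2 (K ∩ X) inter_subset_left X inter_subset_right hXT
    omega

end BIC
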